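import Pool.Agent.Lib.MP_6805b2_co.ST.AppC

/-!
# App1: at most one heavy point (`app0`, `app1`)
-/

namespace Pool.Agent.Lib.MP_6805b2_co.ST

open Finset

theorem app0 (V : Finset ℕ) (d : ℕ → ℕ) (C : Finset ℕ) (F : ℕ → Finset (Finset ℕ))
    (h : Bad V d C F) (hX : Maxl V C F) (hd : wt d V = 0) : False := by
  have hT := h.hT
  have hv := h.hv
  refine appC V d C F h.sys hX ∅ (empty_subset _) 0 6 ?_ ?_
  · rw [sdiff_empty]
    omega
  · intro A B _ _ _ hA hB _
    omega

private theorem app1_wt (d : ℕ → ℕ) (U : Finset ℕ) (h : ℕ) (hh : h ∈ U) : d h ≤ wt d U :=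
  single_le_sum (f := d) (fun _ _ => Nat.zero_le _) hh

private theorem app1_cell (V : Finset ℕ) (d : ℕ → ℕ) (C : Finset ℕ) (F : ℕ → Finset (Finset ℕ))
    (hB : Bad V d C F)
    (ht : 2 ≤ wt d V → ∀ U ⊆ V, U.card = 3 → wt d U ≤ (trv C F U).card)
    (h : ℕ) (hh : h ∈ V) (h1 : 1 ≤ d h) (h3 : d h ≤ 3)
    (A : Finset ℕ) (hA : A ⊆ V \ {h}) (hA3 : A.card ≤ 3) (n : ℕ) (hn : n ≤ A.card) :
    A.card + n + 0 ≤ (Wc C F (A ∪ {h})).card + (5 - d h) := by
  have hhA : h ∉ A := fun hm => by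
    have := hA hm
    simp at this
  have hc : (A ∪ {h}).card = A.card + 1 := by
    rw [card_union_of_disjoint (by simpa using hhA), card_singleton]
  have hsub : A ∪ {h} ⊆ V := by
    refine union_subset (hA.trans sdiff_subset) ?_
    simpa using hh
  have hw : d h ≤ wt d (A ∪ {h}) := app1_wt d _ h (by simp)
  rcases Nat.lt_or_ge A.card 2 with h2 | h2
  · omega
  · rcases Nat.lt_or_ge A.card 3 with h4 | h4
    · by_cases hD : 2 ≤ d h
      · have e1 := ht (hD.trans (app1_wt d V h hh)) (A ∪ {h}) hsub (by omega)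
        rw [Wc_three C F (A ∪ {h}) (by omega)]
        omega
      · omega
    · have e1 := hB.sys.cov (A ∪ {h}) hsub (by omega)
      have e2 := card_le_card (Wc_col C F (A ∪ {h}) (A ∪ {h}) (Subset.refl _) (by omega))
      omega

theorem app1 (V : Finset ℕ) (d : ℕ → ℕ) (C : Finset ℕ) (F : ℕ → Finset (Finset ℕ))
    (hB : Bad V d C F) (hX : Maxl V C F)
    (ht : 2 ≤ wt d V → ∀ U ⊆ V, U.card = 3 → wt d U ≤ (trv C F U).card)
    (h : ℕ) (hh : h ∈ V) (hd : ∀ x ∈ V, x ≠ h → d x = 0) (h1 : 1 ≤ d h) (h3 : d h ≤ 3) :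
    False := by
  have hT := hB.hT
  have hv := hB.hv
  have hw : wt d V = d h := by
    unfold wt
    exact sum_eq_single_of_mem h hh hd
  have hc : (V \ {h}).card = V.card - 1 := by
    rw [card_sdiff_of_subset (by simpa using hh), card_singleton]
  refine appC V d C F hB.sys hX {h} (by simpa using hh) 0 (5 - d h) (by omega) ?_
  intro A B hA hB' _ hA3 hB3 hR
  rcases le_total B.card A.card with hAB | hAB
  · exact app1_cell V d C F hB ht h hh h1 h3 A hA hA3 B.card hAB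
  · have := app1_cell V d C F hB ht h hh h1 h3 B hB' hB3 A.card hAB
    rw [hR]
    omega

end Pool.Agent.Lib.MP_6805b2_co.ST
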