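import Pool.Agent.Lib.MP_6805b2_co.ST.AppC

/-!
# App2: two heavy points (`app2`)
-/

namespace Pool.Agent.Lib.MP_6805b2_co.ST

open Finset

private theorem app2_wt (d : ℕ → ℕ) (U : Finset ℕ) (h : ℕ) (hh : h ∈ U) : d h ≤ wt d U :=
  single_le_sum (f := d) (fun _ _ => Nat.zero_le _) hh

private theorem app2_wt2 (d : ℕ → ℕ) (U : Finset ℕ) (h1 h2 : ℕ) (hne : h1 ≠ h2)
    (hh : {h1, h2} ⊆ U) : d h1 + d h2 ≤ wt d U := by
  have : wt d {h1, h2} ≤ wt d U := sum_le_sum_of_subset hh
  unfold wt at this ⊢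
  rwa [sum_pair hne] at this

private theorem app2_cell (V : Finset ℕ) (d : ℕ → ℕ) (C : Finset ℕ) (F : ℕ → Finset (Finset ℕ))
    (hB : Bad V d C F)
    (ht : 2 ≤ wt d V → ∀ U ⊆ V, U.card = 3 → wt d U ≤ (trv C F U).card)
    (h1 h2 : ℕ) (hh1 : h1 ∈ V) (hh2 : h2 ∈ V) (hne : h1 ≠ h2)
    (hd1 : 1 ≤ d h1) (hd2 : 1 ≤ d h2) (h4 : d h1 + d h2 ≤ 4)
    (A B : Finset ℕ) (hA : A ⊆ V \ {h1, h2}) (hBs : B ⊆ V \ {h1, h2}) (hAB : Disjoint A B)
    (hA3 : A.card ≤ 3) (hle : B.card ≤ A.card)
    (hR : Wc C F (A ∪ {h1, h2}) = Wc C F (B ∪ {h1, h2})) :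
    A.card + B.card + 0 ≤ (Wc C F (A ∪ {h1, h2})).card + (4 - (d h1 + d h2)) := by
  have hdisj : ∀ U : Finset ℕ, U ⊆ V \ {h1, h2} → h1 ∉ U ∧ h2 ∉ U := by
    intro U hU
    constructor
    · intro hm
      have := hU hm
      simp at this
    · intro hm
      have := hU hm
      simp at this
  have hcard : ∀ U : Finset ℕ, U ⊆ V \ {h1, h2} → (U ∪ {h1, h2}).card = U.card + 2 := by
    intro U hU
    obtain ⟨e1, e2⟩ := hdisj U hU
    rw [card_union_of_disjoint (by simp [e1, e2]), card_pair hne]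
  have hHV : ({h1, h2} : Finset ℕ) ⊆ V := by
    intro x hx
    simp only [mem_insert, mem_singleton] at hx
    rcases hx with rfl | rfl
    · exact hh1
    · exact hh2
  have hsub : ∀ U : Finset ℕ, U ⊆ V \ {h1, h2} → U ∪ {h1, h2} ⊆ V := fun U hU =>
    union_subset (hU.trans sdiff_subset) hHV
  have hwt : ∀ U : Finset ℕ, d h1 + d h2 ≤ wt d (U ∪ {h1, h2}) := fun U =>
    app2_wt2 d _ h1 h2 hne subset_union_right
  have hwV : 2 ≤ wt d V := by
    have := app2_wt2 d V h1 h2 hne hHV
    omega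
  have hcA := hcard A hA
  have hcB := hcard B hBs
  rcases Nat.lt_or_ge 2 B.card with hb | hb
  · -- both of size 3
    have e1 : (insert h1 A).card = 4 := by
      rw [card_insert_of_notMem (hdisj A hA).1]; omega
    have e2 : (insert h2 B).card = 4 := by
      rw [card_insert_of_notMem (hdisj B hBs).2]; omega
    have s1 : insert h1 A ⊆ A ∪ {h1, h2} := by
      intro x hx
      simp only [mem_insert, mem_union, mem_singleton] at hx ⊢
      tauto
    have s2 : insert h2 B ⊆ B ∪ {h1, h2} := by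
      intro x hx
      simp only [mem_insert, mem_union, mem_singleton] at hx ⊢
      tauto
    have c1 := Wc_col C F _ _ s1 e1
    have c2 := Wc_col C F _ _ s2 e2
    rw [← hR] at c2
    have hdd : Disjoint (insert h1 A) (insert h2 B) := by
      rw [disjoint_left]
      intro x hx hx'
      simp only [mem_insert] at hx hx'
      rcases hx with rfl | hx
      · rcases hx' with hx' | hx'
        · exact hne hx'
        · exact (hdisj B hBs).1 hx'
      · rcases hx' with rfl | hx'
        · exact (hdisj A hA).2 hx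
        · exact disjoint_left.1 hAB hx hx'
    have hdc : Disjoint (col C F (insert h1 A)) (col C F (insert h2 B)) := by
      rw [disjoint_left]
      intro c hc hc'
      unfold col at hc hc'
      rw [mem_filter] at hc hc'
      exact hB.sys.int c hc.1 _ hc.2 _ hc'.2 hdd
    have k1 := hB.sys.cov _ (s1.trans (hsub A hA)) e1
    have k2 := hB.sys.cov _ (s2.trans (hsub B hBs)) e2
    have w1 := app2_wt d (insert h1 A) h1 (mem_insert_self _ _)
    have w2 := app2_wt d (insert h2 B) h2 (mem_insert_self _ _)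
    have k3 := card_le_card (union_subset c1 c2)
    rw [card_union_of_disjoint hdc] at k3
    omega
  · rcases Nat.lt_or_ge 1 B.card with hb1 | hb1
    · have k1 := hB.sys.cov _ (hsub B hBs) (by omega)
      have k2 := card_le_card (Wc_col C F _ _ (Subset.refl (B ∪ {h1, h2})) (by omega))
      have w1 := hwt B
      rw [← hR] at k2
      omega
    · rcases Nat.lt_or_ge 0 B.card with hb0 | hb0
      · have k1 := ht hwV (B ∪ {h1, h2}) (hsub B hBs) (by omega)
        have w1 := hwt B
        rw [hR, Wc_three C F (B ∪ {h1, h2}) (by omega)]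
        omega
      · rcases Nat.lt_or_ge 0 A.card with ha0 | ha0
        · exfalso
          have z : (Wc C F (A ∪ {h1, h2})).card = 0 := by
            rw [hR, Wc_small C F _ (by omega), card_empty]
          rcases Nat.lt_or_ge A.card 2 with ha | ha
          · have k1 := ht hwV (A ∪ {h1, h2}) (hsub A hA) (by omega)
            have w1 := hwt A
            rw [Wc_three C F (A ∪ {h1, h2}) (by omega)] at z
            omega
          · obtain ⟨X, hX, hX4⟩ := exists_subset_card_eq (s := A ∪ {h1, h2}) (n := 4) (by omega)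
            have k1 := hB.sys.cov X (hX.trans (hsub A hA)) hX4
            have k2 := card_le_card (Wc_col C F _ _ hX hX4)
            omega
        · omega

theorem app2 (V : Finset ℕ) (d : ℕ → ℕ) (C : Finset ℕ) (F : ℕ → Finset (Finset ℕ))
    (hB : Bad V d C F) (hX : Maxl V C F)
    (ht : 2 ≤ wt d V → ∀ U ⊆ V, U.card = 3 → wt d U ≤ (trv C F U).card)
    (h1 h2 : ℕ) (hh1 : h1 ∈ V) (hh2 : h2 ∈ V) (hne : h1 ≠ h2)
    (hd : ∀ x ∈ V, x ≠ h1 → x ≠ h2 → d x = 0) (hd1 : 1 ≤ d h1) (hd2 : 1 ≤ d h2)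
    (h4 : d h1 + d h2 ≤ 4) : False := by
  have hT := hB.hT
  have hv := hB.hv
  have hHV : ({h1, h2} : Finset ℕ) ⊆ V := by
    intro x hx
    simp only [mem_insert, mem_singleton] at hx
    rcases hx with rfl | rfl
    · exact hh1
    · exact hh2
  have hw : wt d V = d h1 + d h2 := by
    unfold wt
    rw [← sum_pair (f := d) hne]
    symm
    refine sum_subset hHV ?_
    intro x hx hx'
    simp only [mem_insert, mem_singleton, not_or] at hx'
    exact hd x hx hx'.1 hx'.2
  have hc : (V \ {h1, h2}).card = V.card - 2 := by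
    rw [card_sdiff_of_subset hHV, card_pair hne]
  refine appC V d C F hB.sys hX {h1, h2} hHV 0 (4 - (d h1 + d h2)) (by omega) ?_
  intro A B hA hB' hAB hA3 hB3 hR
  rcases le_total B.card A.card with hle | hle
  · exact app2_cell V d C F hB ht h1 h2 hh1 hh2 hne hd1 hd2 h4 A B hA hB' hAB hA3 hle hR
  · have := app2_cell V d C F hB ht h1 h2 hh1 hh2 hne hd1 hd2 h4 B A hB' hA hAB.symm hB3 hle
      hR.symm
    rw [hR]
    omega

end Pool.Agent.Lib.MP_6805b2_co.ST
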