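import Pool.Agent.Lib.MP_6805b2_co.ST.WcL

/-!
# App3a: three heavy points, the cells

`H ⊆ V`, `|H| = 3`, `d ≥ 1` on `H`, `d = 0` on `V \ H`, `D = wt d H = wt d V ≥ 3`. `A, B ⊆ V \ H`
disjoint, `R := Wc C F (A ∪ H) = Wc C F (B ∪ H)`.

`low33` (`|A| = |B| = 3`, `h ∈ H`): `col C F (insert h A)` and `ins C F (B ∪ H.erase h)` are
disjoint subsets of `R` (`insert h A` and `B ∪ H.erase h` are disjoint; the second set is
`Wc C F (B ∪ H.erase h)`, use `Wc_mono`), the first has at least `1 + d h` elements, the second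
contains `col C F (B.erase b ∪ H.erase h)` for `b ∈ B`, which has at least
`1 + wt d (H.erase h) = 1 + D - d h`. So `|R| ≥ D + 2`.

`cells`: let `|A| ≥ |B|` (otherwise exchange).
* `(3, 3)`: `low33`: `|R| = D + 2` or `|R| ≥ D + 3`.
* `(3, 2)`: `col (insert h A)` and `col (B ∪ H.erase h)` are disjoint subsets of `R`:
  `|R| ≥ (1 + d h) + (1 + D - d h) = D + 2`.
* `(k, 1)`, `k ≤ 3`: `col (B ∪ H) ⊆ R`: `|R| ≥ 1 + D ≥ k + 1 + (D - 3)`.
* `(2, 2)`: `col (A ∪ H.erase h)` and `trv (insert h B)` (`= Wc (insert h B)`) are disjoint subsets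
  of `R` (`Wc_disj`, `Wc_mono`): `|R| ≥ 1 + D - d h + d h = 1 + D = 4 + (D - 3)`.
* `(k, 0)`, `k ≤ 3`: `R = Wc H = trv H`, `|R| ≥ D ≥ k + (D - 3)`.
-/

namespace Pool.Agent.Lib.MP_6805b2_co.ST

open Finset

private theorem App3a_wt_union (d : ℕ → ℕ) (X Y : Finset ℕ) (h : Disjoint X Y) :
    wt d (X ∪ Y) = wt d X + wt d Y := by
  unfold wt
  exact Finset.sum_union h

private theorem App3a_wt_zero (V : Finset ℕ) (d : ℕ → ℕ) (H B : Finset ℕ) (hB : B ⊆ V \ H)
    (hz : ∀ x ∈ V \ H, d x = 0) : wt d B = 0 := by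
  unfold wt
  exact Finset.sum_eq_zero (fun x hx => hz x (hB hx))

private theorem App3a_wt_erase (d : ℕ → ℕ) (H : Finset ℕ) (h : ℕ) (hh : h ∈ H) :
    d h + wt d (H.erase h) = wt d H := by
  unfold wt
  exact Finset.add_sum_erase H d hh

private theorem App3a_col (V : Finset ℕ) (d : ℕ → ℕ) (C : Finset ℕ) (F : ℕ → Finset (Finset ℕ))
    (hS : Sys V d C F) (X U : Finset ℕ) (hXU : X ⊆ U) (hUV : U ⊆ V) (h4 : X.card = 4) :
    1 + wt d X ≤ (Wc C F U).card :=
  le_trans (hS.cov X (hXU.trans hUV) h4) (Finset.card_le_card (Wc_col C F X U hXU h4))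

private theorem App3a_pair (V : Finset ℕ) (d : ℕ → ℕ) (C : Finset ℕ)
    (F : ℕ → Finset (Finset ℕ)) (hS : Sys V d C F) (hX : Maxl V C F) (H A B U U' : Finset ℕ)
    (hAV : A ∪ H ⊆ V) (hBV : B ∪ H ⊆ V) (hR : Wc C F (A ∪ H) = Wc C F (B ∪ H))
    (hU : U ⊆ A ∪ H) (hU' : U' ⊆ B ∪ H) (hd : Disjoint U U') (h4 : 4 ≤ U.card) (a b : ℕ)
    (ha : a ≤ (Wc C F U).card) (hb : b ≤ (Wc C F U').card) :
    a + b ≤ (Wc C F (A ∪ H)).card := by
  have h1 : Wc C F U ⊆ Wc C F (A ∪ H) := Wc_mono V C F hX U (A ∪ H) hU hAV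
  have h2 : Wc C F U' ⊆ Wc C F (A ∪ H) := by
    rw [hR]
    exact Wc_mono V C F hX U' (B ∪ H) hU' hBV
  have h3 := Wc_disj V d C F hS U U' hd h4
  have h5 : (Wc C F U ∪ Wc C F U').card = (Wc C F U).card + (Wc C F U').card :=
    Finset.card_union_of_disjoint h3
  have h6 : (Wc C F U ∪ Wc C F U').card ≤ (Wc C F (A ∪ H)).card :=
    Finset.card_le_card (Finset.union_subset h1 h2)
  omega

private theorem App3a_disj (V H A : Finset ℕ) (hA : A ⊆ V \ H) : Disjoint A H := by
  rw [Finset.disjoint_left]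
  intro x hx hxH
  exact (Finset.mem_sdiff.1 (hA hx)).2 hxH

private theorem App3a_sub (V H A : Finset ℕ) (hH : H ⊆ V) (hA : A ⊆ V \ H) : A ∪ H ⊆ V :=
  Finset.union_subset (hA.trans Finset.sdiff_subset) hH

/-- the sets `insert h A` and `B ∪ H.erase h` are disjoint -/
private theorem App3a_disj2 (V H A B : Finset ℕ) (hA : A ⊆ V \ H) (hB : B ⊆ V \ H)
    (hAB : Disjoint A B) (h : ℕ) (hh : h ∈ H) : Disjoint (insert h A) (B ∪ H.erase h) := by
  rw [Finset.disjoint_left]
  intro x hx hx2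
  rcases Finset.mem_insert.1 hx with rfl | hxA
  · rcases Finset.mem_union.1 hx2 with hxB | hxH
    · exact (Finset.mem_sdiff.1 (hB hxB)).2 hh
    · exact (Finset.mem_erase.1 hxH).1 rfl
  · rcases Finset.mem_union.1 hx2 with hxB | hxH
    · exact (Finset.disjoint_left.1 hAB) hxA hxB
    · exact (Finset.mem_sdiff.1 (hA hxA)).2 (Finset.mem_erase.1 hxH).2

theorem low33 (V : Finset ℕ) (d : ℕ → ℕ) (C : Finset ℕ) (F : ℕ → Finset (Finset ℕ))
    (hS : Sys V d C F) (hX : Maxl V C F) (H : Finset ℕ) (hH : H ⊆ V) (hH3 : H.card = 3)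
    (A B : Finset ℕ) (hA : A ⊆ V \ H) (hB : B ⊆ V \ H) (hAB : Disjoint A B)
    (hA3 : A.card = 3) (hB3 : B.card = 3) (hR : Wc C F (A ∪ H) = Wc C F (B ∪ H))
    (hz : ∀ x ∈ V \ H, d x = 0) (h : ℕ) (hh : h ∈ H) :
    Disjoint (col C F (insert h A)) (ins C F (B ∪ H.erase h)) ∧
      col C F (insert h A) ⊆ Wc C F (A ∪ H) ∧ ins C F (B ∪ H.erase h) ⊆ Wc C F (A ∪ H) ∧
      1 + d h ≤ (col C F (insert h A)).card ∧
      1 + wt d (H.erase h) ≤ (ins C F (B ∪ H.erase h)).card := by
  have hAV := App3a_sub V H A hH hA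
  have hBV := App3a_sub V H B hH hB
  have hdA := App3a_disj V H A hA
  have hdB := App3a_disj V H B hB
  have hhA : h ∉ A := fun hx => (Finset.disjoint_left.1 hdA) hx hh
  have hc1 : (insert h A).card = 4 := by rw [Finset.card_insert_of_notMem hhA, hA3]
  have hce : (H.erase h).card = 2 := by rw [Finset.card_erase_of_mem hh, hH3]
  have hdBe : Disjoint B (H.erase h) := hdB.mono_right (Finset.erase_subset h H)
  have hc2 : (B ∪ H.erase h).card = 5 := by
    rw [Finset.card_union_of_disjoint hdBe, hB3, hce]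
  have hs1 : insert h A ⊆ A ∪ H := by
    intro x hx
    rcases Finset.mem_insert.1 hx with rfl | hxA
    · exact Finset.mem_union_right _ hh
    · exact Finset.mem_union_left _ hxA
  have hs2 : B ∪ H.erase h ⊆ B ∪ H :=
    Finset.union_subset_union (Finset.Subset.refl B) (Finset.erase_subset h H)
  have hW2 : Wc C F (B ∪ H.erase h) = ins C F (B ∪ H.erase h) :=
    Wc_four C F _ (by omega)
  refine ⟨?_, ?_, ?_, ?_, ?_⟩
  · have h1 := Wc_disj V d C F hS (insert h A) (B ∪ H.erase h)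
      (App3a_disj2 V H A B hA hB hAB h hh) (by omega)
    rw [hW2] at h1
    exact h1.mono_left (Wc_col C F (insert h A) (insert h A) (Finset.Subset.refl _) hc1)
  · exact Wc_col C F (insert h A) (A ∪ H) hs1 hc1
  · rw [hR, ← hW2]
    exact Wc_mono V C F hX _ _ hs2 hBV
  · have h1 := hS.cov (insert h A) (hs1.trans hAV) hc1
    have h2 : wt d (insert h A) = d h + wt d A := by
      unfold wt
      exact Finset.sum_insert hhA
    omega
  · obtain ⟨b, hb⟩ : B.Nonempty := Finset.card_pos.1 (by omega)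
    have hbc : (B.erase b).card = 2 := by rw [Finset.card_erase_of_mem hb, hB3]
    have hd3 : Disjoint (B.erase b) (H.erase h) := hdBe.mono_left (Finset.erase_subset b B)
    have hc3 : (B.erase b ∪ H.erase h).card = 4 := by
      rw [Finset.card_union_of_disjoint hd3, hbc, hce]
    have h1 := App3a_col V d C F hS (B.erase b ∪ H.erase h) (B ∪ H.erase h)
      (Finset.union_subset_union (Finset.erase_subset b B) (Finset.Subset.refl _))
      (hs2.trans hBV) hc3
    rw [App3a_wt_union d _ _ hd3, hW2] at h1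
    omega

private theorem App3a_aux (V : Finset ℕ) (d : ℕ → ℕ) (C : Finset ℕ)
    (F : ℕ → Finset (Finset ℕ)) (hS : Sys V d C F) (hX : Maxl V C F)
    (ht : ∀ U ⊆ V, U.card = 3 → wt d U ≤ (trv C F U).card) (H : Finset ℕ) (hH : H ⊆ V)
    (hH3 : H.card = 3) (hz : ∀ x ∈ V \ H, d x = 0) (h1 : ∀ x ∈ H, 1 ≤ d x)
    (A B : Finset ℕ) (hA : A ⊆ V \ H) (hB : B ⊆ V \ H) (hAB : Disjoint A B)
    (hA3 : A.card ≤ 3) (hBA : B.card ≤ A.card) (hR : Wc C F (A ∪ H) = Wc C F (B ∪ H)) :
    A.card + B.card + (wt d H - 3) ≤ (Wc C F (A ∪ H)).card ∨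
      (A.card = 3 ∧ B.card = 3 ∧ (Wc C F (A ∪ H)).card = wt d H + 2) := by
  have hAV := App3a_sub V H A hH hA
  have hBV := App3a_sub V H B hH hB
  have hdA := App3a_disj V H A hA
  have hdB := App3a_disj V H B hB
  have hwA := App3a_wt_zero V d H A hA hz
  have hwB := App3a_wt_zero V d H B hB hz
  have hD : 3 ≤ wt d H := by
    have h2 : ∑ x ∈ H, 1 ≤ ∑ x ∈ H, d x := Finset.sum_le_sum h1
    rw [Finset.sum_const, hH3] at h2
    unfold wt
    simpa using h2
  obtain ⟨h, hh⟩ : H.Nonempty := Finset.card_pos.1 (by omega)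
  have hwe := App3a_wt_erase d H h hh
  have hhA : h ∉ A := fun hx => (Finset.disjoint_left.1 hdA) hx hh
  have hhB : h ∉ B := fun hx => (Finset.disjoint_left.1 hdB) hx hh
  have hce : (H.erase h).card = 2 := by rw [Finset.card_erase_of_mem hh, hH3]
  have hiA : insert h A ⊆ A ∪ H := by
    intro x hx
    rcases Finset.mem_insert.1 hx with rfl | hxA
    · exact Finset.mem_union_right _ hh
    · exact Finset.mem_union_left _ hxA
  have hiB : insert h B ⊆ B ∪ H := by
    intro x hx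
    rcases Finset.mem_insert.1 hx with rfl | hxA
    · exact Finset.mem_union_right _ hh
    · exact Finset.mem_union_left _ hxA
  have heA : A ∪ H.erase h ⊆ A ∪ H :=
    Finset.union_subset_union (Finset.Subset.refl A) (Finset.erase_subset h H)
  have heB : B ∪ H.erase h ⊆ B ∪ H :=
    Finset.union_subset_union (Finset.Subset.refl B) (Finset.erase_subset h H)
  have hdAe : Disjoint A (H.erase h) := hdA.mono_right (Finset.erase_subset h H)
  have hdBe : Disjoint B (H.erase h) := hdB.mono_right (Finset.erase_subset h H)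
  have hwiA : wt d (insert h A) = d h + wt d A := by
    unfold wt
    exact Finset.sum_insert hhA
  have hwiB : wt d (insert h B) = d h + wt d B := by
    unfold wt
    exact Finset.sum_insert hhB
  have hBcase : B.card = 0 ∨ B.card = 1 ∨ B.card = 2 ∨ B.card = 3 := by omega
  rcases hBcase with hB0 | hB1 | hB2 | hB3
  · -- `(k, 0)`
    left
    have hBe : B = ∅ := Finset.card_eq_zero.1 hB0
    have h2 : Wc C F (A ∪ H) = trv C F H := by
      rw [hR, hBe, Finset.empty_union]
      exact Wc_three C F H hH3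
    have h3 := ht H hH hH3
    rw [h2]
    omega
  · -- `(k, 1)`
    left
    have hc : (B ∪ H).card = 4 := by rw [Finset.card_union_of_disjoint hdB, hB1, hH3]
    have h2 := App3a_col V d C F hS (B ∪ H) (B ∪ H) (Finset.Subset.refl _) hBV hc
    rw [App3a_wt_union d _ _ hdB, ← hR] at h2
    omega
  · have hAcase : A.card = 2 ∨ A.card = 3 := by omega
    rcases hAcase with hA2 | hA3'
    · -- `(2, 2)`
      left
      have hc : (A ∪ H.erase h).card = 4 := by
        rw [Finset.card_union_of_disjoint hdAe, hA2, hce]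
      have hc' : (insert h B).card = 3 := by rw [Finset.card_insert_of_notMem hhB, hB2]
      have h2 := App3a_col V d C F hS (A ∪ H.erase h) (A ∪ H.erase h) (Finset.Subset.refl _)
        (heA.trans hAV) hc
      rw [App3a_wt_union d _ _ hdAe] at h2
      have h3 := ht (insert h B) (hiB.trans hBV) hc'
      rw [← Wc_three C F (insert h B) hc'] at h3
      have h4 := App3a_pair V d C F hS hX H A B (A ∪ H.erase h) (insert h B) hAV hBV hR heA hiB
        (App3a_disj2 V H B A hB hA hAB.symm h hh).symm (by omega) _ _ h2 h3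
      omega
    · -- `(3, 2)`
      left
      have hc : (B ∪ H.erase h).card = 4 := by
        rw [Finset.card_union_of_disjoint hdBe, hB2, hce]
      have hc' : (insert h A).card = 4 := by rw [Finset.card_insert_of_notMem hhA, hA3']
      have h2 := App3a_col V d C F hS (B ∪ H.erase h) (B ∪ H.erase h) (Finset.Subset.refl _)
        (heB.trans hBV) hc
      rw [App3a_wt_union d _ _ hdBe] at h2
      have h3 := App3a_col V d C F hS (insert h A) (insert h A) (Finset.Subset.refl _)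
        (hiA.trans hAV) hc'
      have h4 := App3a_pair V d C F hS hX H A B (insert h A) (B ∪ H.erase h) hAV hBV hR hiA heB
        (App3a_disj2 V H A B hA hB hAB h hh) (by omega) _ _ h3 h2
      omega
  · -- `(3, 3)`
    have hA3' : A.card = 3 := by omega
    obtain ⟨g1, g2, g3, g4, g5⟩ := low33 V d C F hS hX H hH hH3 A B hA hB hAB hA3' hB3 hR hz h hh
    have h6 : (col C F (insert h A) ∪ ins C F (B ∪ H.erase h)).card ≤
        (Wc C F (A ∪ H)).card := Finset.card_le_card (Finset.union_subset g2 g3)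
    rw [Finset.card_union_of_disjoint g1] at h6
    by_cases h7 : (Wc C F (A ∪ H)).card = wt d H + 2
    · right
      exact ⟨hA3', hB3, h7⟩
    · left
      omega

theorem cells (V : Finset ℕ) (d : ℕ → ℕ) (C : Finset ℕ) (F : ℕ → Finset (Finset ℕ))
    (hS : Sys V d C F) (hX : Maxl V C F)
    (ht : ∀ U ⊆ V, U.card = 3 → wt d U ≤ (trv C F U).card) (H : Finset ℕ) (hH : H ⊆ V)
    (hH3 : H.card = 3) (hz : ∀ x ∈ V \ H, d x = 0) (h1 : ∀ x ∈ H, 1 ≤ d x)
    (A B : Finset ℕ) (hA : A ⊆ V \ H) (hB : B ⊆ V \ H) (hAB : Disjoint A B)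
    (hA3 : A.card ≤ 3) (hB3 : B.card ≤ 3) (hR : Wc C F (A ∪ H) = Wc C F (B ∪ H)) :
    A.card + B.card + (wt d H - 3) ≤ (Wc C F (A ∪ H)).card ∨
      (A.card = 3 ∧ B.card = 3 ∧ (Wc C F (A ∪ H)).card = wt d H + 2) := by
  rcases le_total B.card A.card with hBA | hBA
  · exact App3a_aux V d C F hS hX ht H hH hH3 hz h1 A B hA hB hAB hA3 hBA hR
  · have h2 := App3a_aux V d C F hS hX ht H hH hH3 hz h1 B A hB hA hAB.symm hB3 hBA hR.symm
    rw [← hR] at h2
    rcases h2 with h3 | ⟨h3, h4, h5⟩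
    · left
      omega
    · right
      exact ⟨h4, h3, h5⟩

end Pool.Agent.Lib.MP_6805b2_co.ST
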