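import Pool.Agent.Lib.MP_6805b2_co.ST.App3a

/-!
# App3b: the structure of the bad cells (`b0` is the task)

`BC`: `A, B ⊆ V \ H` disjoint, `|A| = |B| = 3`, `R = Wc (A ∪ H) = Wc (B ∪ H)`,
`|R| = D + 2`, `D = wt d H`.

`b0`: in `low33` the two sets have together at least `2 + d h + wt d (H.erase h) = D + 2 = |R|`
elements, so `R` is their disjoint union: for `c ∈ R`,
`insert h A ∈ F c ↔ c ∉ ins C F (B ∪ H.erase h)`, and
`|col C F (insert h A)| = 1 + d h`, `|ins C F (B ∪ H.erase h)| = 1 + wt d (H.erase h)`. (`BC` is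
symmetric in `A, B`, so the same holds with `A` and `B` exchanged.)

`b1`: suppose `Tt A = Tt B`. Then `col (insert h A) = col (insert h B)` for all `h ∈ H`. For
`h ≠ h'` in `H` the sets `insert h A`, `insert h' B` are disjoint, so the three sets
`col (insert h A)`, `h ∈ H`, are pairwise disjoint subsets of `R`; together they have at least
`3 + D > |R|` elements.

`b2`: if `c ∈ Mm A ∩ Mm B` take `h ≠ h'` in `H`: `insert h A` and `insert h' B` are disjoint
members of `F c`. `Mm A ⊆ Wc (A ∪ H)`: `insert h A ⊆ A ∪ H` is a member.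

`b3`: let `i ∈ A` and `h ∈ H`. The 4-set `X := A.erase i ∪ H.erase h` has at least
`1 + wt d (H.erase h)` colours, all in `ins C F (A ∪ H.erase h)`, which has exactly that many
elements and equals `R \ col (insert h B)` (`b0` with `A, B` exchanged). So
`R \ col (insert h B) = col X ⊆ Wc (A.erase i ∪ H)`. If `c ∈ R`, `c ∉ Mm B` there is `h ∈ H` with
`insert h B ∉ F c`, so `c ∈ R \ col (insert h B) ⊆ Wc (A.erase i ∪ H)`.

`b4`: `A, A'` both form bad cells with the same `B` (then `R` is the same, it is `Wc (B ∪ H)`).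
By `b0`, for `c ∈ R`, `insert h A ∈ F c` iff `c ∉ ins (B ∪ H.erase h)` iff `insert h A' ∈ F c`;
for `c ∉ R` neither holds (`col (insert h A) ⊆ R`).
-/

namespace Pool.Agent.Lib.MP_6805b2_co.ST

open Finset

/-- bad cells -/
structure BC (V : Finset ℕ) (d : ℕ → ℕ) (C : Finset ℕ) (F : ℕ → Finset (Finset ℕ))
    (H A B : Finset ℕ) : Prop where
  hA : A ⊆ V \ H
  hB : B ⊆ V \ H
  hAB : Disjoint A B
  hA3 : A.card = 3
  hB3 : B.card = 3
  hR : Wc C F (A ∪ H) = Wc C F (B ∪ H)
  hc : (Wc C F (A ∪ H)).card = wt d H + 2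

theorem BC.symm {V : Finset ℕ} {d : ℕ → ℕ} {C : Finset ℕ} {F : ℕ → Finset (Finset ℕ)}
    {H A B : Finset ℕ} (h : BC V d C F H A B) : BC V d C F H B A :=
  ⟨h.hB, h.hA, h.hAB.symm, h.hB3, h.hA3, h.hR.symm, by rw [← h.hR]; exact h.hc⟩

theorem b0 (V : Finset ℕ) (d : ℕ → ℕ) (C : Finset ℕ) (F : ℕ → Finset (Finset ℕ))
    (hS : Sys V d C F) (hX : Maxl V C F) (H : Finset ℕ) (hH : H ⊆ V) (hH3 : H.card = 3)
    (hz : ∀ x ∈ V \ H, d x = 0) (A B : Finset ℕ) (hb : BC V d C F H A B) (h : ℕ) (hh : h ∈ H) :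
    (∀ c ∈ Wc C F (A ∪ H), insert h A ∈ F c ↔ c ∉ ins C F (B ∪ H.erase h)) ∧
      (col C F (insert h A)).card = 1 + d h ∧
      (ins C F (B ∪ H.erase h)).card = 1 + wt d (H.erase h) ∧
      col C F (insert h A) ⊆ Wc C F (A ∪ H) := by
  obtain ⟨h1, h2, h3, h4, h5⟩ := low33 V d C F hS hX H hH hH3 A B hb.hA hb.hB hb.hAB hb.hA3
    hb.hB3 hb.hR hz h hh
  have hw : wt d H = d h + wt d (H.erase h) := by
    unfold wt
    exact (Finset.add_sum_erase H d hh).symm
  have hu : (col C F (insert h A) ∪ ins C F (B ∪ H.erase h)) ⊆ Wc C F (A ∪ H) :=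
    Finset.union_subset h2 h3
  have hcu : (col C F (insert h A) ∪ ins C F (B ∪ H.erase h)).card =
      (col C F (insert h A)).card + (ins C F (B ∪ H.erase h)).card :=
    Finset.card_union_of_disjoint h1
  have hle := Finset.card_le_card hu
  have hc := hb.hc
  have heq : col C F (insert h A) ∪ ins C F (B ∪ H.erase h) = Wc C F (A ∪ H) :=
    Finset.eq_of_subset_of_card_le hu (by omega)
  refine ⟨?_, by omega, by omega, h2⟩
  intro c hcR
  constructor
  · intro hF hins
    have hcol : c ∈ col C F (insert h A) :=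
      Finset.mem_filter.mpr ⟨Wc_sub C F _ hcR, hF⟩
    exact Finset.disjoint_left.mp h1 hcol hins
  · intro hn
    rw [← heq] at hcR
    rcases Finset.mem_union.mp hcR with h6 | h6
    · exact (Finset.mem_filter.mp h6).2
    · exact absurd h6 hn

end Pool.Agent.Lib.MP_6805b2_co.ST
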