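import Pool.Agent.Lib.MP_6805b2_co.ST.App3b

/-!
# App3e: the structure of the bad cells (`b3`, `b4`)

`BC`: `A, B ⊆ V \ H` disjoint, `|A| = |B| = 3`, `R = Wc (A ∪ H) = Wc (B ∪ H)`,
`|R| = D + 2`, `D = wt d H`.

`b0`: in `low33` the two sets have together at least `2 + d h + wt d (H.erase h) = D + 2 = |R|`
elements, so `R` is their disjoint union: for `c ∈ R`,
`insert h A ∈ F c ↔ c ∉ ins C F (B ∪ H.erase h)`, and
`|col C F (insert h A)| = 1 + d h`, `|ins C F (B ∪ H.erase h)| = 1 + wt d (H.erase h)`. (`BC` is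
symmetric in `A, B`, so the same holds with `A` and `B` exchanged.)

`b1`: suppose `Tt A = Tt B`. Then `col (insert h A) = col (insert h B)` for all `h ∈ H`. For
`h ≠ h'` in `H` the sets `insert h A`, `insert h' B` are disjoint, so the three sets
`col (insert h A)`, `h ∈ H`, are pairwise disjoint subsets of `R`; together they have at least
`3 + D > |R|` elements.

`b2`: if `c ∈ Mm A ∩ Mm B` take `h ≠ h'` in `H`: `insert h A` and `insert h' B` are disjoint
members of `F c`. `Mm A ⊆ Wc (A ∪ H)`: `insert h A ⊆ A ∪ H` is a member.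

`b3`: let `i ∈ A` and `h ∈ H`. The 4-set `X := A.erase i ∪ H.erase h` has at least
`1 + wt d (H.erase h)` colours, all in `ins C F (A ∪ H.erase h)`, which has exactly that many
elements and equals `R \ col (insert h B)` (`b0` with `A, B` exchanged). So
`R \ col (insert h B) = col X ⊆ Wc (A.erase i ∪ H)`. If `c ∈ R`, `c ∉ Mm B` there is `h ∈ H` with
`insert h B ∉ F c`, so `c ∈ R \ col (insert h B) ⊆ Wc (A.erase i ∪ H)`.

`b4`: `A, A'` both form bad cells with the same `B` (then `R` is the same, it is `Wc (B ∪ H)`).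
By `b0`, for `c ∈ R`, `insert h A ∈ F c` iff `c ∉ ins (B ∪ H.erase h)` iff `insert h A' ∈ F c`;
for `c ∉ R` neither holds (`col (insert h A) ⊆ R`).
-/

namespace Pool.Agent.Lib.MP_6805b2_co.ST

open Finset

theorem b3 (V : Finset ℕ) (d : ℕ → ℕ) (C : Finset ℕ) (F : ℕ → Finset (Finset ℕ))
    (hS : Sys V d C F) (hX : Maxl V C F) (H : Finset ℕ) (hH : H ⊆ V) (hH3 : H.card = 3)
    (hz : ∀ x ∈ V \ H, d x = 0) (A B : Finset ℕ) (hb : BC V d C F H A B) (i : ℕ) (hi : i ∈ A) :
    Wc C F (A ∪ H) \ Mm C F H B ⊆ Wc C F (A.erase i ∪ H) := by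
  intro c hc
  obtain ⟨hcW, hcM⟩ := Finset.mem_sdiff.1 hc
  have hcC : c ∈ C := Wc_sub C F _ hcW
  have hex : ∃ h ∈ H, insert h B ∉ F c := by
    by_contra hne
    push Not at hne
    exact hcM (Finset.mem_filter.2 ⟨hcC, hne⟩)
  obtain ⟨h, hh, hhB⟩ := hex
  obtain ⟨g1, -, g3, -⟩ := b0 V d C F hS hX H hH hH3 hz B A hb.symm h hh
  have hcW' : c ∈ Wc C F (B ∪ H) := by
    rw [← hb.hR]
    exact hcW
  have hcI : c ∈ ins C F (A ∪ H.erase h) := by
    by_contra hcI
    exact hhB ((g1 c hcW').2 hcI)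
  have hdA : Disjoint A H := by
    rw [Finset.disjoint_left]
    intro x hx hxH
    exact (Finset.mem_sdiff.1 (hb.hA hx)).2 hxH
  have hdAe : Disjoint (A.erase i) (H.erase h) :=
    (hdA.mono_left (Finset.erase_subset i A)).mono_right (Finset.erase_subset h H)
  have hcX : (A.erase i ∪ H.erase h).card = 4 := by
    rw [Finset.card_union_of_disjoint hdAe, Finset.card_erase_of_mem hi,
      Finset.card_erase_of_mem hh, hb.hA3, hH3]
  have hAV : A ⊆ V := hb.hA.trans Finset.sdiff_subset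
  have hXV : A.erase i ∪ H.erase h ⊆ V :=
    Finset.union_subset ((Finset.erase_subset i A).trans hAV)
      ((Finset.erase_subset h H).trans hH)
  have h1 := hS.cov _ hXV hcX
  have h2 : wt d (A.erase i ∪ H.erase h) = wt d (H.erase h) := by
    have h3 : wt d (A.erase i) = 0 := by
      unfold wt
      exact Finset.sum_eq_zero (fun x hx => hz x (hb.hA (Finset.mem_of_mem_erase hx)))
    have h4 : wt d (A.erase i ∪ H.erase h) = wt d (A.erase i) + wt d (H.erase h) := by
      unfold wt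
      exact Finset.sum_union hdAe
    omega
  have h5 : col C F (A.erase i ∪ H.erase h) ⊆ ins C F (A ∪ H.erase h) := by
    intro e he
    obtain ⟨he1, he2⟩ := Finset.mem_filter.1 he
    exact Finset.mem_filter.2 ⟨he1, _, he2,
      Finset.union_subset_union (Finset.erase_subset i A) (Finset.Subset.refl _)⟩
  have h6 : col C F (A.erase i ∪ H.erase h) = ins C F (A ∪ H.erase h) :=
    Finset.eq_of_subset_of_card_le h5 (by omega)
  rw [← h6] at hcI
  exact Wc_col C F (A.erase i ∪ H.erase h) (A.erase i ∪ H)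
    (Finset.union_subset_union (Finset.Subset.refl _) (Finset.erase_subset h H)) hcX hcI

private theorem App3e_half (V : Finset ℕ) (d : ℕ → ℕ) (C : Finset ℕ)
    (F : ℕ → Finset (Finset ℕ)) (hS : Sys V d C F) (hX : Maxl V C F) (H : Finset ℕ)
    (hH : H ⊆ V) (hH3 : H.card = 3) (hz : ∀ x ∈ V \ H, d x = 0) (A A' B : Finset ℕ)
    (hb : BC V d C F H A B) (hb' : BC V d C F H A' B) : Tt C F H A ⊆ Tt C F H A' := by
  intro p hp
  obtain ⟨hp1, hp2⟩ := Finset.mem_filter.1 hp
  obtain ⟨hh, hcC⟩ := Finset.mem_product.1 hp1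
  obtain ⟨g1, -, -, g4⟩ := b0 V d C F hS hX H hH hH3 hz A B hb p.1 hh
  obtain ⟨g1', -, -, -⟩ := b0 V d C F hS hX H hH hH3 hz A' B hb' p.1 hh
  have h1 : p.2 ∈ Wc C F (A ∪ H) := g4 (Finset.mem_filter.2 ⟨hcC, hp2⟩)
  have h2 : p.2 ∈ Wc C F (A' ∪ H) := by
    rw [hb'.hR, ← hb.hR]
    exact h1
  exact Finset.mem_filter.2 ⟨hp1, (g1' p.2 h2).2 ((g1 p.2 h1).1 hp2)⟩

theorem b4 (V : Finset ℕ) (d : ℕ → ℕ) (C : Finset ℕ) (F : ℕ → Finset (Finset ℕ))
    (hS : Sys V d C F) (hX : Maxl V C F) (H : Finset ℕ) (hH : H ⊆ V) (hH3 : H.card = 3)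
    (hz : ∀ x ∈ V \ H, d x = 0) (A A' B : Finset ℕ) (hb : BC V d C F H A B)
    (hb' : BC V d C F H A' B) : Tt C F H A = Tt C F H A' :=
  Finset.Subset.antisymm (App3e_half V d C F hS hX H hH hH3 hz A A' B hb hb')
    (App3e_half V d C F hS hX H hH hH3 hz A' A B hb' hb)

end Pool.Agent.Lib.MP_6805b2_co.ST
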