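import Pool.Agent.Lib.MP_6805b2_co.ST.TopE

/-!
# TopF: the topological theorem

Let `f` be the chain map of `TopE` for `k = |I|`. For `T ⊆ I` put
`s T := sum_{A ∈ T.powerset} f A (T \ A)` and for `i ∈ T`,
`h T i := sum_{A ∈ T.powerset, i ∈ A} f A (T \ A)`.
* `s T = h T i + sw (h T i)` (the bijection `A ↦ T \ A` exchanges `i ∈ A` and `i ∉ A`, and
  `f (T \ A) A = sw (f A (T \ A))`).
* `bd J (h T i) = s (T.erase i)`: `bd J (h T i) = sum_{A ∋ i} (sum_{j ∈ A} f (A.erase j) (T \ A)`
  `+ sum_{j ∈ T \ A} f A ((T \ A).erase j))`. The terms `j = i` give `s (T.erase i)` (with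
  `A' = A.erase i`, `T \ A = (T.erase i) \ A'`). For fixed `j ≠ i` in `T` the terms with `j ∈ A`
  and those with `j ∉ A` cancel: `A ↦ A.erase j`, and `(T \ (A.erase j)).erase j = T \ A`.
* Claim: for all `T ⊆ I` there is `b` with `Sup (|T| + 1) J J b` and
  `s T = bd J b + sw (bd J b)`. Downward induction on `T` (from `T = I`). For `T = I`:
  `|I| > |J|`, `f A (I \ A)` is supported on disjoint pairs of subsets of `J` of total size
  `|I| > |J|`, so it is zero, `s I = 0`, `b = 0`. Step from `T` to `T.erase i`: put
  `y := h T i + bd J b`. Then `y + sw y = 0`, i.e. `sw y = y`, and `y` has size `|T| ≥ 1`. Put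
  `a A B := y A B` if `encode (A, B) < encode (B, A)` and `0` otherwise; then `y = a + sw a`
  (`y A A = 0`, since a disjoint pair with `A = B` is empty) and `Sup |T| J J a`. Apply `bd J`:
  `s (T.erase i) = bd J (h T i) = bd J y = bd J a + sw (bd J a)` (`bd_bd`).
* For `T = ∅`: `pt = s ∅ = bd J b + sw (bd J b)`; at `(∅, ∅)` the left side is `1`, the right side
  is `x + x = 0`. Contradiction.
-/

namespace Pool.Agent.Lib.MP_6805b2_co.ST

open Finset

private theorem TopF_self (x : Finset ℕ → Finset ℕ → ZMod 2) : x + x = 0 := by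
  funext A B
  exact CharTwo.add_self_eq_zero (x A B)

private theorem TopF_sw_add (x y : Finset ℕ → Finset ℕ → ZMod 2) :
    sw (x + y) = sw x + sw y := rfl

private theorem TopF_sw_sum {ι : Type} (s : Finset ι) (g : ι → Finset ℕ → Finset ℕ → ZMod 2) :
    sw (∑ i ∈ s, g i) = ∑ i ∈ s, sw (g i) := by
  funext A B
  simp only [sw, Finset.sum_apply]

/-- the sum of all sign patterns on `T` -/
private def TopF_s (f : Finset ℕ → Finset ℕ → Finset ℕ → Finset ℕ → ZMod 2) (T : Finset ℕ) :
    Finset ℕ → Finset ℕ → ZMod 2 :=
  ∑ A ∈ T.powerset, f A (T \ A)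

/-- the sum of all sign patterns on `T` with `i` positive -/
private def TopF_h (f : Finset ℕ → Finset ℕ → Finset ℕ → Finset ℕ → ZMod 2) (T : Finset ℕ)
    (i : ℕ) : Finset ℕ → Finset ℕ → ZMod 2 :=
  ∑ A ∈ T.powerset.filter (fun A => i ∈ A), f A (T \ A)

private theorem TopF_s_eq (I : Finset ℕ)
    (f : Finset ℕ → Finset ℕ → Finset ℕ → Finset ℕ → ZMod 2)
    (h2 : ∀ A B, A ⊆ I → B ⊆ I → Disjoint A B → f B A = sw (f A B))
    (T : Finset ℕ) (hT : T ⊆ I) (i : ℕ) (hi : i ∈ T) :
    TopF_s f T = TopF_h f T i + sw (TopF_h f T i) := by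
  unfold TopF_s
  rw [← Finset.sum_filter_add_sum_filter_not T.powerset (fun A => i ∈ A)]
  congr 1
  unfold TopF_h
  rw [TopF_sw_sum]
  refine Finset.sum_nbij' (fun A => T \ A) (fun A => T \ A) ?_ ?_ ?_ ?_ ?_
  · intro A hA
    simp only [Finset.mem_filter, Finset.mem_powerset, Finset.mem_sdiff] at hA ⊢
    exact ⟨Finset.sdiff_subset, hi, hA.2⟩
  · intro A hA
    simp only [Finset.mem_filter, Finset.mem_powerset, Finset.mem_sdiff] at hA ⊢
    exact ⟨Finset.sdiff_subset, fun h => h.2 hA.2⟩
  · intro A hA
    simp only [Finset.mem_filter, Finset.mem_powerset] at hA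
    exact Finset.sdiff_sdiff_eq_self hA.1
  · intro A hA
    simp only [Finset.mem_filter, Finset.mem_powerset] at hA
    exact Finset.sdiff_sdiff_eq_self hA.1
  · intro A hA
    simp only [Finset.mem_filter, Finset.mem_powerset] at hA
    rw [Finset.sdiff_sdiff_eq_self hA.1]
    exact h2 (T \ A) A (Finset.sdiff_subset.trans hT) (hA.1.trans hT) Finset.sdiff_disjoint

private theorem TopF_bd_h (I J : Finset ℕ)
    (f : Finset ℕ → Finset ℕ → Finset ℕ → Finset ℕ → ZMod 2)
    (h3 : ∀ A B, A ⊆ I → B ⊆ I → Disjoint A B → 1 ≤ A.card + B.card →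
      bd J (f A B) = fac f A B)
    (T : Finset ℕ) (hT : T ⊆ I) (i : ℕ) (hi : i ∈ T) :
    bd J (TopF_h f T i) = TopF_s f (T.erase i) := by
  classical
  let G : ℕ → Finset ℕ → Finset ℕ → Finset ℕ → ZMod 2 := fun j A =>
    if j ∈ A then f (A.erase j) (T \ A) else f A ((T \ A).erase j)
  have hG1 : ∀ j A, j ∈ A → G j A = f (A.erase j) (T \ A) := fun j A h => if_pos h
  have hG2 : ∀ j A, j ∉ A → G j A = f A ((T \ A).erase j) := fun j A h => if_neg h
  have e1 : bd J (TopF_h f T i) =
      ∑ A ∈ T.powerset.filter (fun A => i ∈ A), ∑ j ∈ T, G j A := by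
    unfold TopF_h
    rw [bd_sum]
    refine Finset.sum_congr rfl fun A hA => ?_
    simp only [Finset.mem_filter, Finset.mem_powerset] at hA
    have hc : 1 ≤ A.card + (T \ A).card := by
      have := Finset.card_pos.2 ⟨i, hA.2⟩
      omega
    rw [h3 A (T \ A) (hA.1.trans hT) (Finset.sdiff_subset.trans hT) Finset.disjoint_sdiff hc]
    unfold fac
    have hsp : ∑ j ∈ T, G j A = ∑ j ∈ A, G j A + ∑ j ∈ T \ A, G j A := by
      rw [add_comm]
      exact (Finset.sum_sdiff hA.1).symm
    rw [hsp]
    congr 1
    · exact Finset.sum_congr rfl fun j hj => (hG1 j A hj).symm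
    · exact Finset.sum_congr rfl fun j hj => (hG2 j A (Finset.mem_sdiff.1 hj).2).symm
  have e2 : ∀ j ∈ T, j ≠ i → ∑ A ∈ T.powerset.filter (fun A => i ∈ A), G j A = 0 := by
    intro j hj hji
    refine Finset.sum_involution (fun A _ => if j ∈ A then A.erase j else insert j A) ?_ ?_ ?_ ?_
    · intro A hA
      simp only [Finset.mem_filter, Finset.mem_powerset] at hA
      by_cases hjA : j ∈ A
      · rw [if_pos hjA, hG1 j A hjA, hG2 j (A.erase j) (Finset.notMem_erase j A)]
        have h5 : (T \ A.erase j).erase j = T \ A := by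
          ext x
          simp only [Finset.mem_erase, Finset.mem_sdiff, not_and]
          constructor
          · rintro ⟨h6, h7, h8⟩
            exact ⟨h7, h8 h6⟩
          · rintro ⟨h6, h7⟩
            refine ⟨fun h => h7 (h ▸ hjA), h6, fun _ => h7⟩
        rw [h5]
        exact TopF_self _
      · rw [if_neg hjA, hG2 j A hjA, hG1 j (insert j A) (Finset.mem_insert_self j A)]
        have h5 : (insert j A).erase j = A := Finset.erase_insert hjA
        have h6 : T \ insert j A = (T \ A).erase j := by
          ext x
          simp only [Finset.mem_erase, Finset.mem_sdiff, Finset.mem_insert, not_or]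
          tauto
        rw [h5, h6]
        exact TopF_self _
    · intro A hA _ heq
      by_cases hjA : j ∈ A
      · rw [if_pos hjA] at heq
        rw [← heq] at hjA
        exact Finset.notMem_erase j A hjA
      · rw [if_neg hjA] at heq
        exact hjA (heq ▸ Finset.mem_insert_self j A)
    · intro A hA
      simp only [Finset.mem_filter, Finset.mem_powerset] at hA ⊢
      by_cases hjA : j ∈ A
      · rw [if_pos hjA]
        exact ⟨(Finset.erase_subset j A).trans hA.1, Finset.mem_erase.2 ⟨hji.symm, hA.2⟩⟩
      · rw [if_neg hjA]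
        exact ⟨Finset.insert_subset hj hA.1, Finset.mem_insert_of_mem hA.2⟩
    · intro A hA
      by_cases hjA : j ∈ A
      · simp only [if_pos hjA]
        rw [if_neg (Finset.notMem_erase j A), Finset.insert_erase hjA]
      · simp only [if_neg hjA]
        rw [if_pos (Finset.mem_insert_self j A), Finset.erase_insert hjA]
  rw [e1, Finset.sum_comm, Finset.sum_eq_single i]
  · unfold TopF_s
    refine Finset.sum_nbij' (fun A => A.erase i) (fun A => insert i A) ?_ ?_ ?_ ?_ ?_
    · intro A hA
      simp only [Finset.mem_filter, Finset.mem_powerset] at hA ⊢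
      exact Finset.erase_subset_erase i hA.1
    · intro A hA
      simp only [Finset.mem_filter, Finset.mem_powerset] at hA ⊢
      exact ⟨Finset.insert_subset hi (hA.trans (Finset.erase_subset i T)),
        Finset.mem_insert_self i A⟩
    · intro A hA
      simp only [Finset.mem_filter, Finset.mem_powerset] at hA
      exact Finset.insert_erase hA.2
    · intro A hA
      simp only [Finset.mem_powerset] at hA
      exact Finset.erase_insert fun h => Finset.notMem_erase i T (hA h)
    · intro A hA
      simp only [Finset.mem_filter, Finset.mem_powerset] at hA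
      rw [hG1 i A hA.2]
      congr 1
      ext x
      simp only [Finset.mem_sdiff, Finset.mem_erase, not_and]
      constructor
      · rintro ⟨h6, h7⟩
        exact ⟨⟨fun h => h7 (h ▸ hA.2), h6⟩, fun _ => h7⟩
      · rintro ⟨⟨h6, h7⟩, h8⟩
        exact ⟨h7, h8 h6⟩
  · intro j hj hji
    exact e2 j hj hji
  · intro h
    exact absurd hi h

/-- there is no equivariant augmented chain map to a smaller sphere -/
theorem no_map (I J : Finset ℕ) (hc : J.card < I.card)
    (f : Finset ℕ → Finset ℕ → Finset ℕ → Finset ℕ → ZMod 2) (h0 : f ∅ ∅ = pt)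
    (h1 : ∀ A B, A ⊆ I → B ⊆ I → Disjoint A B → Sup (A.card + B.card) J J (f A B))
    (h2 : ∀ A B, A ⊆ I → B ⊆ I → Disjoint A B → f B A = sw (f A B))
    (h3 : ∀ A B, A ⊆ I → B ⊆ I → Disjoint A B → 1 ≤ A.card + B.card →
      bd J (f A B) = fac f A B) : False := by
  classical
  have hpart : ∀ T A : Finset ℕ, A ⊆ T → A.card + (T \ A).card = T.card := by
    intro T A hA
    rw [Finset.card_sdiff_of_subset hA]
    have := Finset.card_le_card hA
    omega
  have claim : ∀ n : ℕ, ∀ T : Finset ℕ, T ⊆ I → T.card + n = I.card →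
      ∃ b, Sup (T.card + 1) J J b ∧ TopF_s f T = bd J b + sw (bd J b) := by
    intro n
    induction n with
    | zero =>
      intro T hT hn
      have hTI : T = I := Finset.eq_of_subset_of_card_le hT (by omega)
      subst hTI
      refine ⟨0, ?_, ?_⟩
      · intro A B h
        exact absurd rfl h
      · have hb0 : bd J (0 : Finset ℕ → Finset ℕ → ZMod 2) = 0 := by
          funext A B
          simp [bd]
        rw [hb0]
        have hs0 : TopF_s f T = 0 := by
          unfold TopF_s
          refine Finset.sum_eq_zero fun A hA => ?_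
          rw [Finset.mem_powerset] at hA
          funext X Y
          by_contra hne
          obtain ⟨hX, hY, hXY, hcard⟩ := h1 A (T \ A) hA Finset.sdiff_subset
            Finset.disjoint_sdiff X Y hne
          have h5 : (X ∪ Y).card ≤ J.card := Finset.card_le_card (Finset.union_subset hX hY)
          rw [Finset.card_union_of_disjoint hXY, hcard, hpart T A hA] at h5
          omega
        rw [hs0]
        funext A B
        simp [sw]
    | succ n ih =>
      intro T hT hn
      have hlt : T.card < I.card := by omega
      obtain ⟨i, hiI, hiT⟩ : ∃ i ∈ I, i ∉ T := Finset.exists_mem_notMem_of_card_lt_card hlt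
      have hT' : insert i T ⊆ I := Finset.insert_subset hiI hT
      have hc' : (insert i T).card = T.card + 1 := Finset.card_insert_of_notMem hiT
      obtain ⟨b, hb1, hb2⟩ := ih (insert i T) hT' (by omega)
      have hi' : i ∈ insert i T := Finset.mem_insert_self i T
      have hs := TopF_s_eq I f h2 (insert i T) hT' i hi'
      have hbd := TopF_bd_h I J f h3 (insert i T) hT' i hi'
      rw [Finset.erase_insert hiT] at hbd
      set h := TopF_h f (insert i T) i with hh
      set y := h + bd J b with hy
      have hysw : sw y = y := by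
        have h5 : y + sw y = 0 := by
          have h6 : y + sw y = (h + sw h) + (bd J b + sw (bd J b)) := by
            rw [hy, TopF_sw_add]
            abel
          rw [h6, ← hs, ← hb2]
          exact TopF_self _
        have h7 : sw y = (y + y) + sw y := by rw [TopF_self, zero_add]
        rw [h7, add_assoc, h5, add_zero]
      have hysup : Sup (T.card + 1) J J y := by
        refine sup_add _ _ _ _ _ ?_ ?_
        · rw [hh]
          unfold TopF_h
          refine sup_sum _ _ _ _ _ fun A hA => ?_
          simp only [Finset.mem_filter, Finset.mem_powerset] at hA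
          have h5 := h1 A (insert i T \ A) (hA.1.trans hT') (Finset.sdiff_subset.trans hT')
            Finset.disjoint_sdiff
          rw [hpart _ A hA.1, hc'] at h5
          exact h5
        · rw [hc'] at hb1
          exact sup_bd _ _ _ _ _ hb1
      let a : Finset ℕ → Finset ℕ → ZMod 2 := fun A B =>
        if Encodable.encode A < Encodable.encode B then y A B else 0
      have hya : y = a + sw a := by
        funext A B
        show y A B = (if Encodable.encode A < Encodable.encode B then y A B else 0) +
          (if Encodable.encode B < Encodable.encode A then y B A else 0)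
        have hyBA : y B A = y A B := congrFun (congrFun hysw A) B
        rcases lt_trichotomy (Encodable.encode A) (Encodable.encode B) with hlt | heq | hgt
        · rw [if_pos hlt, if_neg (by omega), add_zero]
        · have hAB : A = B := Encodable.encode_injective heq
          subst hAB
          rw [if_neg (lt_irrefl _), add_zero]
          by_contra hne
          obtain ⟨_, _, hd, hcard⟩ := hysup A A hne
          have hA0 : A = ∅ := by
            rw [Finset.disjoint_self_iff_empty] at hd
            exact hd
          rw [hA0] at hcard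
          simp at hcard
        · rw [if_neg (by omega), if_pos hgt, zero_add, hyBA]
      refine ⟨a, ?_, ?_⟩
      · intro A B hne
        have h5 : y A B ≠ 0 := by
          intro h6
          apply hne
          show (if Encodable.encode A < Encodable.encode B then y A B else 0) = 0
          rw [h6]
          simp
        exact hysup A B h5
      · have h5 : bd J y = TopF_s f T := by
          rw [hy, bd_add, hbd, bd_bd, add_zero]
        rw [← h5, ← bd_sw, ← bd_add, ← hya]
  obtain ⟨b, _, hb⟩ := claim I.card ∅ (Finset.empty_subset I) (by simp)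
  have hs : TopF_s f ∅ = pt := by
    unfold TopF_s
    simp [h0]
  rw [hs] at hb
  have h5 := congrFun (congrFun hb ∅) ∅
  have h6 : (pt : Finset ℕ → Finset ℕ → ZMod 2) ∅ ∅ = 1 := by simp [pt]
  rw [h6] at h5
  have h7 : (bd J b + sw (bd J b)) ∅ ∅ = 0 := CharTwo.add_self_eq_zero (bd J b ∅ ∅)
  rw [h7] at h5
  exact one_ne_zero h5

theorem top_thm (I J : Finset ℕ) (W : Finset ℕ → Finset ℕ)
    (bad : Finset ℕ → Finset ℕ → Prop) (S : Finset ℕ → Finset ℕ → Finset ℕ)
    (hT : TopData I J W bad S) (hne : ∀ A B, bad A B → 2 ≤ A.card + B.card)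
    (hc : J.card < I.card) : False := by
  obtain ⟨f, hf⟩ := good_exists I J W bad S hT hne I.card
  have hle : ∀ A B, A ⊆ I → B ⊆ I → Disjoint A B → A.card + B.card ≤ I.card := by
    intro A B hA hB hAB
    rw [← Finset.card_union_of_disjoint hAB]
    exact Finset.card_le_card (Finset.union_subset hA hB)
  refine no_map I J hc f hf.h0 ?_ ?_ ?_
  · intro A B hA hB hAB
    have h := hf.h1 A B hA hB hAB (hle A B hA hB hAB)
    exact sup_mono _ _ _ _ _ _ (hT.wj A hA) (hT.wj B hB) h
  · intro A B hA hB hAB
    exact hf.h2 A B hA hB hAB (hle A B hA hB hAB)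
  · intro A B hA hB hAB h
    exact hf.h3 A B hA hB hAB (hle A B hA hB hAB) h

end Pool.Agent.Lib.MP_6805b2_co.ST
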