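import Pool.Agent.Lib.MP_6805b2_co.ST.App3d
import Pool.Agent.Lib.MP_6805b2_co.ST.App3e
import Pool.Agent.Lib.MP_6805b2_co.ST.TopF

/-!
# App3c: three heavy points, the contradiction

`D = wt d H ≥ 3`, `L = V \ H`, `M` larger than all elements of `V`,
`K = (range (D - 3)).image (fun i => i + M)`, `I = L ∪ K`, `J = C`,
`W A = Wc C F ((A ∩ L) ∪ H)`, `bad A B` iff `BC V d C F H (A ∩ L) (B ∩ L)` and `K ⊆ A ∪ B`,
`S A B = if encode (Tt (A ∩ L)) < encode (Tt (B ∩ L)) then W A \ Mm (A ∩ L) else Mm (B ∩ L)`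
(`Encodable.encode` on `Finset (ℕ × ℕ)`, injective). `|J| = |C| ≤ |V| + D - 7
< |V| - 3 + D - 3 = |I|`. `TopData`:
* `wj`, `mono`: `Wc_sub`, `Wc_mono`.
* `nb`: `small` gives `|A ∩ L|, |B ∩ L| ≤ 3`; `|A| + |B| = |A ∩ L| + |B ∩ L| + |(A ∪ B) ∩ K|`.
  `cells`: in the first case done as `|(A ∪ B) ∩ K| ≤ D - 3`. In the second case `(A ∩ L, B ∩ L)`
  is a `BC`, so `K` is not contained in `A ∪ B`, `|(A ∪ B) ∩ K| ≤ D - 4` and
  `|A| + |B| ≤ D + 2`.
* `bd1`: `|A| + |B| = 6 + |K| = D + 3`. `BC.symm`. `S A B ⊆ W A` by `b2`. `S B A = W A \ S A B`: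
  by `b1` the two codes are different; if the code of `A` is smaller: `S A B = W A \ Mm A`,
  `S B A = Mm A = W A \ (W A \ Mm A)`; otherwise `S A B = Mm B`, `S B A = W B \ Mm B`.
* `bd2`: exactly one element `i` is removed from `A ∪ B`. If `i ∈ K` then `Y ∩ L = A ∩ L`,
  `Z ∩ L = B ∩ L` and `W Y = W Z`. If `i ∈ A ∩ L`: `Z = B`, `Y = A.erase i`, `W Z = W A`. If
  `W Y ≠ W Z` there is `r ∈ W A`, `r ∉ W Y` (`W Y ⊆ W A`), so `r ∈ Mm (B ∩ L)` by `b3`, and
  `Mm (B ∩ L) ⊆ S A B` in both cases of the definition (`b2`). So `S A B` is not contained in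
  `W Y`. If `i ∈ B ∩ L`: the same with `A, B` exchanged: `r ∈ Mm (A ∩ L) ⊆ W A \ S A B`,
  `r ∉ W Z`.
* `bd3`: `(Y, Z)` is obtained from `(A, B)` by removing `i` and from `(A', B')` by removing `i'`.
  If `i ∈ K`: `|Y ∩ L| = |Z ∩ L| = 3`, so `A' ∩ L = Y ∩ L = A ∩ L` and `B' ∩ L = B ∩ L`; `S` only
  depends on these. If `i ∈ A ∩ L`: `Z ∩ L = B ∩ L` has three elements, so `B' ∩ L = B ∩ L`, and
  `b4` gives `Tt (A ∩ L) = Tt (A' ∩ L)`; `Mm` is determined by `Tt`
  (`c ∈ Mm ↔ c ∈ C ∧ ∀ h ∈ H, (h, c) ∈ Tt`), and `W A = W B = W B' = W A'`. If `i ∈ B ∩ L`: the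
  same by `BC.symm`.
* `hne`: a bad pair has `|A| ≥ |A ∩ L| = 3`.
-/

namespace Pool.Agent.Lib.MP_6805b2_co.ST

open Finset

/-- removing one element from a pair of sets -/
theorem app3c_facet {A B Y Z : Finset ℕ} (hY : Y ⊆ A) (hZ : Z ⊆ B)
    (h : A.card + B.card = Y.card + Z.card + 1) :
    (∃ i ∈ A, Y = A.erase i ∧ Z = B) ∨ (∃ i ∈ B, Z = B.erase i ∧ Y = A) := by
  have h1 := card_le_card hY
  have h2 := card_le_card hZ
  rcases Nat.lt_or_ge Y.card A.card with h3 | h3
  · left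
    have hZB : Z = B := eq_of_subset_of_card_le hZ (by omega)
    have h4 : (A \ Y).card = 1 := by
      rw [card_sdiff_of_subset hY]
      omega
    obtain ⟨i, hi⟩ := card_eq_one.mp h4
    have hi1 : i ∈ A \ Y := by rw [hi]; exact mem_singleton_self i
    refine ⟨i, (mem_sdiff.mp hi1).1, ?_, hZB⟩
    rw [← sdiff_singleton_eq_erase, ← hi, Finset.sdiff_sdiff_eq_self hY]
  · right
    have hYA : Y = A := eq_of_subset_of_card_le hY h3
    have h4 : (B \ Z).card = 1 := by
      rw [card_sdiff_of_subset hZ]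
      rw [hYA] at h
      omega
    obtain ⟨i, hi⟩ := card_eq_one.mp h4
    have hi1 : i ∈ B \ Z := by rw [hi]; exact mem_singleton_self i
    refine ⟨i, (mem_sdiff.mp hi1).1, ?_, hYA⟩
    rw [← sdiff_singleton_eq_erase, ← hi, Finset.sdiff_sdiff_eq_self hZ]

/-- the choice of the facet -/
noncomputable def app3cS (C : Finset ℕ) (F : ℕ → Finset (Finset ℕ)) (H A B : Finset ℕ) :
    Finset ℕ :=
  if Encodable.encode (Tt C F H A) < Encodable.encode (Tt C F H B) then
    Wc C F (A ∪ H) \ Mm C F H A else Mm C F H B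

theorem app3c_Mm (C : Finset ℕ) (F : ℕ → Finset (Finset ℕ)) (H A A' : Finset ℕ)
    (h : Tt C F H A = Tt C F H A') : Mm C F H A = Mm C F H A' := by
  ext c
  unfold Mm
  rw [mem_filter, mem_filter]
  refine and_congr_right fun hc => forall₂_congr fun x hx => ?_
  have h1 : ((x, c) ∈ Tt C F H A) = ((x, c) ∈ Tt C F H A') := by rw [h]
  unfold Tt at h1
  rw [mem_filter, mem_filter] at h1
  have h2 : (x, c) ∈ H ×ˢ C := mem_product.mpr ⟨hx, hc⟩
  constructor
  · intro h3
    have : (x, c) ∈ H ×ˢ C ∧ insert x A' ∈ F c := by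
      rw [← h1]
      exact ⟨h2, h3⟩
    exact this.2
  · intro h3
    have : (x, c) ∈ H ×ˢ C ∧ insert x A ∈ F c := by
      rw [h1]
      exact ⟨h2, h3⟩
    exact this.2

theorem app3cS_congr (C : Finset ℕ) (F : ℕ → Finset (Finset ℕ)) (H A B A' B' : Finset ℕ)
    (hA : Tt C F H A = Tt C F H A') (hB : Tt C F H B = Tt C F H B')
    (hW : Wc C F (A ∪ H) = Wc C F (A' ∪ H)) : app3cS C F H A B = app3cS C F H A' B' := by
  unfold app3cS
  rw [hA, hB, hW, app3c_Mm C F H A A' hA, app3c_Mm C F H B B' hB]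

theorem app3 (V : Finset ℕ) (d : ℕ → ℕ) (C : Finset ℕ) (F : ℕ → Finset (Finset ℕ))
    (hB : Bad V d C F) (hX : Maxl V C F)
    (ht : ∀ U ⊆ V, U.card = 3 → wt d U ≤ (trv C F U).card) (H : Finset ℕ) (hH : H ⊆ V)
    (hH3 : H.card = 3) (hz : ∀ x ∈ V \ H, d x = 0) (h1 : ∀ x ∈ H, 1 ≤ d x) : False := by
  have hS := hB.sys
  have hD : 3 ≤ wt d H := by
    have := Finset.card_nsmul_le_sum H d 1 h1
    rw [hH3] at this
    simpa [wt] using this
  have hwV : wt d V = wt d H := by
    unfold wt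
    symm
    apply sum_subset hH
    intro x hx hxH
    exact hz x (mem_sdiff.mpr ⟨hx, hxH⟩)
  obtain ⟨M, hM⟩ : ∃ M : ℕ, ∀ x ∈ V, x < M :=
    ⟨V.sup id + 1, fun x hx => Nat.lt_succ_of_le (le_sup (f := id) hx)⟩
  obtain ⟨K, hK⟩ : ∃ K : Finset ℕ, K = (range (wt d H - 3)).image (fun i => i + M) := ⟨_, rfl⟩
  have hKc : K.card = wt d H - 3 := by
    rw [hK, card_image_of_injective _ (fun a b h => by simpa using h), card_range]
  obtain ⟨L, hL⟩ : ∃ L : Finset ℕ, L = V \ H := ⟨_, rfl⟩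
  have hLK : Disjoint L K := by
    rw [disjoint_left]
    intro x hx hxK
    rw [hL] at hx
    rw [hK] at hxK
    have h2 := hM x (mem_sdiff.mp hx).1
    obtain ⟨i, -, hi⟩ := mem_image.mp hxK
    omega
  have hLc : L.card = V.card - 3 := by
    rw [hL, card_sdiff_of_subset hH, hH3]
  have hLV : ∀ A : Finset ℕ, A ∩ L ⊆ V \ H := fun A => hL ▸ inter_subset_right
  have hAHV : ∀ A : Finset ℕ, (A ∩ L) ∪ H ⊆ V := fun A =>
    union_subset ((hLV A).trans sdiff_subset) hH
  have hcard : ∀ A : Finset ℕ, A ⊆ L ∪ K → A.card = (A ∩ L).card + (A ∩ K).card := by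
    intro A hA
    rw [← card_union_of_disjoint (hLK.mono inter_subset_right inter_subset_right),
      ← inter_union_distrib_left, inter_eq_left.mpr hA]
  have hcardK : ∀ A B : Finset ℕ, Disjoint A B → (A ∩ K).card + (B ∩ K).card
      = ((A ∪ B) ∩ K).card := by
    intro A B hAB
    rw [union_inter_distrib_right, card_union_of_disjoint
      (hAB.mono inter_subset_left inter_subset_left)]
  have hdisj : ∀ A B : Finset ℕ, Disjoint A B → Disjoint (A ∩ L) (B ∩ L) := fun A B h =>
    h.mono inter_subset_left inter_subset_left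
  -- properties of the choice of the facets
  have sS : ∀ A B, BC V d C F H A B → Mm C F H B ⊆ app3cS C F H A B ∧
      Mm C F H A ⊆ Wc C F (A ∪ H) \ app3cS C F H A B ∧ app3cS C F H A B ⊆ Wc C F (A ∪ H) ∧
      app3cS C F H B A = Wc C F (A ∪ H) \ app3cS C F H A B := by
    intro A B hb
    obtain ⟨h2, h3, h4⟩ := b2 V d C F hS hX H hH hH3 hz A B hb
    have h5 := b1 V d C F hS hX H hH hH3 hz A B hb
    have h6 : Encodable.encode (Tt C F H A) ≠ Encodable.encode (Tt C F H B) :=
      fun h => h5 (Encodable.encode_injective h)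
    rcases lt_or_gt_of_ne h6 with h7 | h7
    · have e1 : app3cS C F H A B = Wc C F (A ∪ H) \ Mm C F H A := by
        unfold app3cS; rw [if_pos h7]
      have e2 : app3cS C F H B A = Mm C F H A := by
        unfold app3cS; rw [if_neg (by omega)]
      rw [e1, e2, Finset.sdiff_sdiff_eq_self h3]
      refine ⟨?_, subset_rfl, sdiff_subset, rfl⟩
      intro x hx
      exact mem_sdiff.mpr ⟨h4 hx, fun hx' => disjoint_left.mp h2 hx' hx⟩
    · have e1 : app3cS C F H A B = Mm C F H B := by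
        unfold app3cS; rw [if_neg (by omega)]
      have e2 : app3cS C F H B A = Wc C F (B ∪ H) \ Mm C F H B := by
        unfold app3cS; rw [if_pos (by omega)]
      rw [e1, e2, hb.hR]
      refine ⟨subset_rfl, ?_, hb.hR ▸ h4, rfl⟩
      intro x hx
      exact mem_sdiff.mpr ⟨hb.hR ▸ h3 hx, fun hx' => disjoint_left.mp h2 hx hx'⟩
  have hTD : TopData (L ∪ K) C (fun A => Wc C F ((A ∩ L) ∪ H))
      (fun A B => BC V d C F H (A ∩ L) (B ∩ L) ∧ K ⊆ A ∪ B)
      (fun A B => app3cS C F H (A ∩ L) (B ∩ L)) := by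
    have hmono : ∀ A B : Finset ℕ, A ⊆ B → Wc C F ((A ∩ L) ∪ H) ⊆ Wc C F ((B ∩ L) ∪ H) :=
      fun A B h => Wc_mono V C F hX _ _
        (union_subset_union (inter_subset_inter_right h) subset_rfl) (hAHV B)
    refine ⟨fun A _ => Wc_sub C F _, fun A B h _ => hmono A B h, ?_, ?_, ?_, ?_⟩
    · intro A B hA hB hAB hW hbad
      have h2 := small V d C F hS H (A ∩ L) (B ∩ L) hH (hLV A) (hLV B) (hdisj A B hAB) hW
      have h3 := cells V d C F hS hX ht H hH hH3 hz h1 (A ∩ L) (B ∩ L) (hLV A) (hLV B)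
        (hdisj A B hAB) h2.1 h2.2 hW
      have h4 := hcard A hA
      have h5 := hcard B hB
      have h6 := hcardK A B hAB
      have h7 : ((A ∪ B) ∩ K).card ≤ K.card := card_le_card inter_subset_right
      rcases h3 with h3 | h3
      · omega
      · have h8 : ¬ K ⊆ A ∪ B := fun h =>
          hbad ⟨⟨hLV A, hLV B, hdisj A B hAB, h3.1, h3.2.1, hW, h3.2.2⟩, h⟩
        have h9 : ((A ∪ B) ∩ K).card < K.card := by
          apply card_lt_card
          refine ⟨inter_subset_right, fun h => h8 fun x hx => (mem_inter.mp (h hx)).1⟩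
        omega
    · intro A B hA hB hAB hbad
      obtain ⟨hb, hK1⟩ := hbad
      obtain ⟨g1, g2, g3, g4⟩ := sS _ _ hb
      have h4 := hcard A hA
      have h5 := hcard B hB
      have h6 := hcardK A B hAB
      have h7 : (A ∪ B) ∩ K = K := inter_eq_right.mpr hK1
      rw [h7] at h6
      refine ⟨hb.hR, ?_, ⟨hb.symm, by rw [union_comm]; exact hK1⟩, g3, g4⟩
      have h8 := hb.hc
      have h9 := hb.hA3
      have h10 := hb.hB3
      omega
    · intro A B Y Z hA hB hAB hbad hY hZ hc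
      obtain ⟨hb, hK1⟩ := hbad
      obtain ⟨g1, g2, g3, g4⟩ := sS _ _ hb
      rcases app3c_facet hY hZ hc with ⟨i, hi, rfl, rfl⟩ | ⟨i, hi, rfl, rfl⟩
      · by_cases hiL : i ∈ L
        · by_cases hW : Wc C F ((A.erase i ∩ L) ∪ H) = Wc C F ((Z ∩ L) ∪ H)
          · exact Or.inl hW
          · right
            rintro ⟨hs1, -⟩
            apply hW
            rw [← hb.hR]
            apply Subset.antisymm
            · exact hmono _ _ (erase_subset i A)
            · intro r hr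
              by_contra hr2
              have h2 := b3 V d C F hS hX H hH hH3 hz (A ∩ L) (Z ∩ L) hb i
                (mem_inter.mpr ⟨hi, hiL⟩)
              rw [← erase_inter] at h2
              have h3 : r ∈ Mm C F H (Z ∩ L) := by
                by_contra h3
                exact hr2 (h2 (mem_sdiff.mpr ⟨hr, h3⟩))
              exact hr2 (hs1 (g1 h3))
        · left
          rw [erase_inter, erase_eq_of_notMem (fun h => hiL (mem_inter.mp h).2)]
          exact hb.hR
      · by_cases hiL : i ∈ L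
        · by_cases hW : Wc C F ((Y ∩ L) ∪ H) = Wc C F ((B.erase i ∩ L) ∪ H)
          · exact Or.inl hW
          · right
            rintro ⟨-, hs2⟩
            apply hW
            rw [hb.hR]
            apply Subset.antisymm
            · intro r hr
              by_contra hr2
              have h2 := b3 V d C F hS hX H hH hH3 hz (B ∩ L) (Y ∩ L) hb.symm i
                (mem_inter.mpr ⟨hi, hiL⟩)
              rw [← erase_inter] at h2
              have h3 : r ∈ Mm C F H (Y ∩ L) := by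
                by_contra h3
                exact hr2 (h2 (mem_sdiff.mpr ⟨hr, h3⟩))
              exact hr2 (hs2 (g2 h3))
            · exact hmono _ _ (erase_subset i B)
        · left
          rw [erase_inter, erase_eq_of_notMem (fun h => hiL (mem_inter.mp h).2)]
          exact hb.hR
    · intro A B A' B' Y Z hA hB hAB hbad hA' hB' hAB' hbad' hY hZ hY' hZ' hc hc' _
      obtain ⟨hb, -⟩ := hbad
      obtain ⟨hb', -⟩ := hbad'
      rcases app3c_facet hY hZ hc with ⟨i, hi, -, rfl⟩ | ⟨i, hi, -, rfl⟩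
      · have h2 : Z ∩ L = B' ∩ L := eq_of_subset_of_card_le (inter_subset_inter_right hZ') (by
          rw [hb.hB3, hb'.hB3])
        rw [← h2] at hb' ⊢
        have h3 := b4 V d C F hS hX H hH hH3 hz _ _ _ hb hb'
        exact app3cS_congr C F H _ _ _ _ h3 rfl (hb.hR.trans hb'.hR.symm)
      · have h2 : Y ∩ L = A' ∩ L := eq_of_subset_of_card_le (inter_subset_inter_right hY') (by
          rw [hb.hA3, hb'.hA3])
        rw [← h2] at hb' ⊢
        have h3 := b4 V d C F hS hX H hH hH3 hz _ _ _ hb.symm hb'.symm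
        exact app3cS_congr C F H _ _ _ _ rfl h3 rfl
  refine top_thm _ _ _ _ _ hTD ?_ ?_
  · intro A B hbad
    have h2 := hbad.1.hA3
    have h3 : (A ∩ L).card ≤ A.card := card_le_card inter_subset_left
    omega
  · rw [card_union_of_disjoint hLK, hLc, hKc]
    have h2 := hB.hT
    have h3 := hB.hv
    omega

end Pool.Agent.Lib.MP_6805b2_co.ST
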