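import Pool.Agent.Lib.MP_6805b2_co.ST.App3b

/-!
# App3d: the structure of the bad cells (`b1`, `b2`)

`BC`: `A, B ⊆ V \ H` disjoint, `|A| = |B| = 3`, `R = Wc (A ∪ H) = Wc (B ∪ H)`,
`|R| = D + 2`, `D = wt d H`.

`b0`: in `low33` the two sets have together at least `2 + d h + wt d (H.erase h) = D + 2 = |R|`
elements, so `R` is their disjoint union: for `c ∈ R`,
`insert h A ∈ F c ↔ c ∉ ins C F (B ∪ H.erase h)`, and
`|col C F (insert h A)| = 1 + d h`, `|ins C F (B ∪ H.erase h)| = 1 + wt d (H.erase h)`. (`BC` is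
symmetric in `A, B`, so the same holds with `A` and `B` exchanged.)

`b1`: suppose `Tt A = Tt B`. Then `col (insert h A) = col (insert h B)` for all `h ∈ H`. For
`h ≠ h'` in `H` the sets `insert h A`, `insert h' B` are disjoint, so the three sets
`col (insert h A)`, `h ∈ H`, are pairwise disjoint subsets of `R`; together they have at least
`3 + D > |R|` elements.

`b2`: if `c ∈ Mm A ∩ Mm B` take `h ≠ h'` in `H`: `insert h A` and `insert h' B` are disjoint
members of `F c`. `Mm A ⊆ Wc (A ∪ H)`: `insert h A ⊆ A ∪ H` is a member.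

`b3`: let `i ∈ A` and `h ∈ H`. The 4-set `X := A.erase i ∪ H.erase h` has at least
`1 + wt d (H.erase h)` colours, all in `ins C F (A ∪ H.erase h)`, which has exactly that many
elements and equals `R \ col (insert h B)` (`b0` with `A, B` exchanged). So
`R \ col (insert h B) = col X ⊆ Wc (A.erase i ∪ H)`. If `c ∈ R`, `c ∉ Mm B` there is `h ∈ H` with
`insert h B ∉ F c`, so `c ∈ R \ col (insert h B) ⊆ Wc (A.erase i ∪ H)`.

`b4`: `A, A'` both form bad cells with the same `B` (then `R` is the same, it is `Wc (B ∪ H)`).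
By `b0`, for `c ∈ R`, `insert h A ∈ F c` iff `c ∉ ins (B ∪ H.erase h)` iff `insert h A' ∈ F c`;
for `c ∉ R` neither holds (`col (insert h A) ⊆ R`).
-/

namespace Pool.Agent.Lib.MP_6805b2_co.ST

open Finset

private theorem dpair (V : Finset ℕ) (d : ℕ → ℕ) (C : Finset ℕ) (F : ℕ → Finset (Finset ℕ))
    (H : Finset ℕ) (A B : Finset ℕ) (hb : BC V d C F H A B) (h h' : ℕ) (hh : h ∈ H)
    (hh' : h' ∈ H) (hne : h ≠ h') : Disjoint (insert h A) (insert h' B) := by
  rw [Finset.disjoint_left]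
  intro x hx hx'
  rw [Finset.mem_insert] at hx hx'
  rcases hx with rfl | hx
  · rcases hx' with h1 | hx'
    · exact hne h1
    · exact (Finset.mem_sdiff.mp (hb.hB hx')).2 hh
  · rcases hx' with rfl | hx'
    · exact (Finset.mem_sdiff.mp (hb.hA hx)).2 hh'
    · exact Finset.disjoint_left.mp hb.hAB hx hx'

theorem b1 (V : Finset ℕ) (d : ℕ → ℕ) (C : Finset ℕ) (F : ℕ → Finset (Finset ℕ))
    (hS : Sys V d C F) (hX : Maxl V C F) (H : Finset ℕ) (hH : H ⊆ V) (hH3 : H.card = 3)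
    (hz : ∀ x ∈ V \ H, d x = 0) (A B : Finset ℕ) (hb : BC V d C F H A B) :
    Tt C F H A ≠ Tt C F H B := by
  intro hT
  have hcol : ∀ h ∈ H, ∀ c ∈ C, insert h A ∈ F c → insert h B ∈ F c := by
    intro h hh c hc hF
    have hm : (h, c) ∈ Tt C F H A := by
      refine Finset.mem_filter.mpr ⟨Finset.mem_product.mpr ⟨hh, hc⟩, hF⟩
    rw [hT] at hm
    exact (Finset.mem_filter.mp hm).2
  have hpd : ∀ h ∈ H, ∀ h' ∈ H, h ≠ h' →
      Disjoint (col C F (insert h A)) (col C F (insert h' A)) := by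
    intro h hh h' hh' hne
    rw [Finset.disjoint_left]
    intro c hc hc'
    obtain ⟨c1, c2⟩ := Finset.mem_filter.mp hc
    obtain ⟨_, c3⟩ := Finset.mem_filter.mp hc'
    have c4 := hcol h' hh' c c1 c3
    exact hS.int c c1 _ c2 _ c4 (dpair V d C F H A B hb h h' hh hh' hne)
  have hcard : (H.biUnion (fun h => col C F (insert h A))).card =
      ∑ h ∈ H, (col C F (insert h A)).card := by
    refine Finset.card_biUnion ?_
    intro h hh h' hh' hne
    exact hpd h hh h' hh' hne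
  have hsub : H.biUnion (fun h => col C F (insert h A)) ⊆ Wc C F (A ∪ H) := by
    intro c hc
    obtain ⟨h, hh, hc'⟩ := Finset.mem_biUnion.mp hc
    exact (b0 V d C F hS hX H hH hH3 hz A B hb h hh).2.2.2 hc'
  have hle := Finset.card_le_card hsub
  have hsum : ∑ h ∈ H, (col C F (insert h A)).card = ∑ h ∈ H, (1 + d h) :=
    Finset.sum_congr rfl fun h hh => (b0 V d C F hS hX H hH hH3 hz A B hb h hh).2.1
  rw [hcard, hsum, Finset.sum_add_distrib, Finset.sum_const, smul_eq_mul, hH3, hb.hc] at hle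
  unfold wt at hle
  omega

theorem b2 (V : Finset ℕ) (d : ℕ → ℕ) (C : Finset ℕ) (F : ℕ → Finset (Finset ℕ))
    (hS : Sys V d C F) (hX : Maxl V C F) (H : Finset ℕ) (hH : H ⊆ V) (hH3 : H.card = 3)
    (hz : ∀ x ∈ V \ H, d x = 0) (A B : Finset ℕ) (hb : BC V d C F H A B) :
    Disjoint (Mm C F H A) (Mm C F H B) ∧ Mm C F H A ⊆ Wc C F (A ∪ H) ∧
      Mm C F H B ⊆ Wc C F (A ∪ H) := by
  obtain ⟨h, h', hh, hh', hne⟩ : ∃ h h', h ∈ H ∧ h' ∈ H ∧ h ≠ h' := by
    obtain ⟨h, hh, h', hh', hne⟩ := Finset.one_lt_card.mp (by omega : 1 < H.card)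
    exact ⟨h, h', hh, hh', hne⟩
  refine ⟨?_, ?_, ?_⟩
  · rw [Finset.disjoint_left]
    intro c hc hc'
    obtain ⟨c1, c2⟩ := Finset.mem_filter.mp hc
    obtain ⟨_, c3⟩ := Finset.mem_filter.mp hc'
    exact hS.int c c1 _ (c2 h hh) _ (c3 h' hh') (dpair V d C F H A B hb h h' hh hh' hne)
  · intro c hc
    obtain ⟨c1, c2⟩ := Finset.mem_filter.mp hc
    exact (b0 V d C F hS hX H hH hH3 hz A B hb h hh).2.2.2 (Finset.mem_filter.mpr ⟨c1, c2 h hh⟩)
  · intro c hc
    obtain ⟨c1, c2⟩ := Finset.mem_filter.mp hc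
    have h1 := (b0 V d C F hS hX H hH hH3 hz B A hb.symm h hh).2.2.2
      (Finset.mem_filter.mpr ⟨c1, c2 h hh⟩)
    rw [hb.hR]
    exact h1

end Pool.Agent.Lib.MP_6805b2_co.ST
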