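import Pool.Agent.Lib.MP_6805b2_co.ST.WcL
import Pool.Agent.Lib.MP_6805b2_co.ST.TopF

/-!
# AppC: application of the topological theorem without bad pairs

Let `L = V \ H`, `M` a number larger than all elements of `V ∪ C`,
`K = (range a).image (fun i => i + M)`, `Jd = (range b).image (fun i => i + M)`,
`I = L ∪ K`, `J = C ∪ Jd`, `W A = Wc C F ((A ∩ L) ∪ H) ∪ Jd`, no bad pairs
(`bad = fun _ _ => False`, `S` arbitrary). Then `|J| = |C| + b < |L| + a = |I|`.
* `wj`: `Wc_sub`. `mono`: `Wc_mono` (`(A ∩ L) ∪ H ⊆ V`).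
* `nb`: `W A = W B` gives `Wc ((A ∩ L) ∪ H) = Wc ((B ∩ L) ∪ H)` (intersect with `C`, which is
  disjoint from `Jd`), so `small` and `hcell` apply to `A ∩ L`, `B ∩ L`, and
  `|A| + |B| = |A ∩ L| + |B ∩ L| + |A ∩ K| + |B ∩ K|` with `|A ∩ K| + |B ∩ K| ≤ |K| = a`;
  `|W A| = |Wc ...| + b`.
`top_thm` gives `False`.
-/

namespace Pool.Agent.Lib.MP_6805b2_co.ST

open Finset

private theorem AppC_shift (X : Finset ℕ) (M n : ℕ) (hM : ∀ x ∈ X, x < M) :
    Disjoint X ((range n).image (fun i => i + M)) ∧
      ((range n).image (fun i => i + M)).card = n := by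
  constructor
  · rw [Finset.disjoint_left]
    intro x hx hx'
    rw [Finset.mem_image] at hx'
    obtain ⟨i, _, rfl⟩ := hx'
    have := hM _ hx
    omega
  · rw [Finset.card_image_of_injective _ (fun x y h => by simpa using h), Finset.card_range]

theorem appC (V : Finset ℕ) (d : ℕ → ℕ) (C : Finset ℕ) (F : ℕ → Finset (Finset ℕ))
    (hS : Sys V d C F) (hX : Maxl V C F) (H : Finset ℕ) (hH : H ⊆ V) (a b : ℕ)
    (hc : C.card + b < (V \ H).card + a)
    (hcell : ∀ A B, A ⊆ V \ H → B ⊆ V \ H → Disjoint A B → A.card ≤ 3 → B.card ≤ 3 →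
      Wc C F (A ∪ H) = Wc C F (B ∪ H) → A.card + B.card + a ≤ (Wc C F (A ∪ H)).card + b) :
    False := by
  obtain ⟨M, hM⟩ : ∃ M : ℕ, ∀ x ∈ V ∪ C, x < M := by
    refine ⟨(V ∪ C).sup id + 1, ?_⟩
    intro x hx
    have : x ≤ (V ∪ C).sup id := Finset.le_sup (f := id) hx
    omega
  set L : Finset ℕ := V \ H with hL
  set K : Finset ℕ := (range a).image (fun i => i + M) with hK
  set Jd : Finset ℕ := (range b).image (fun i => i + M) with hJd
  have hLK := AppC_shift L M a (fun x hx => hM x (Finset.mem_union_left _ (Finset.mem_sdiff.mp hx).1))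
  have hCJ := AppC_shift C M b (fun x hx => hM x (Finset.mem_union_right _ hx))
  rw [← hK] at hLK
  rw [← hJd] at hCJ
  have hAV : ∀ A : Finset ℕ, A ∩ L ∪ H ⊆ V := by
    intro A x hx
    rw [Finset.mem_union, Finset.mem_inter] at hx
    rcases hx with hx | hx
    · exact (Finset.mem_sdiff.mp hx.2).1
    · exact hH hx
  have hT : TopData (L ∪ K) (C ∪ Jd) (fun A => Wc C F (A ∩ L ∪ H) ∪ Jd) (fun _ _ => False)
      (fun _ _ => ∅) := by
    constructor
    · intro A _
      exact Finset.union_subset_union (Wc_sub C F _) (Finset.Subset.refl _)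
    · intro A B hAB _
      apply Finset.union_subset_union _ (Finset.Subset.refl _)
      apply Wc_mono V C F hX _ _ _ (hAV B)
      exact Finset.union_subset_union (Finset.inter_subset_inter hAB (Finset.Subset.refl _))
        (Finset.Subset.refl _)
    · intro A B hA hB hAB hW _
      have hW' : Wc C F (A ∩ L ∪ H) = Wc C F (B ∩ L ∪ H) := by
        have h1 : ∀ U : Finset ℕ, (Wc C F U ∪ Jd) ∩ C = Wc C F U := by
          intro U
          rw [Finset.union_inter_distrib_right, Finset.inter_eq_left.mpr (Wc_sub C F U),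
            Finset.disjoint_iff_inter_eq_empty.mp hCJ.1.symm, Finset.union_empty]
        rw [← h1 (A ∩ L ∪ H), ← h1 (B ∩ L ∪ H)]
        exact congrArg (fun Z => Z ∩ C) hW
      have hAL : A ∩ L ⊆ L := Finset.inter_subset_right
      have hBL : B ∩ L ⊆ L := Finset.inter_subset_right
      have hd : Disjoint (A ∩ L) (B ∩ L) :=
        Finset.disjoint_of_subset_left Finset.inter_subset_left
          (Finset.disjoint_of_subset_right Finset.inter_subset_left hAB)
      have hs := small V d C F hS H (A ∩ L) (B ∩ L) hH hAL hBL hd hW'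
      have hcc := hcell (A ∩ L) (B ∩ L) hAL hBL hd hs.1 hs.2 hW'
      have hcard : ∀ X : Finset ℕ, X ⊆ L ∪ K → X.card = (X ∩ L).card + (X ∩ K).card := by
        intro X hX
        rw [← Finset.card_union_of_disjoint (Finset.disjoint_of_subset_left
          Finset.inter_subset_right (Finset.disjoint_of_subset_right
          Finset.inter_subset_right hLK.1)), ← Finset.inter_union_distrib_left,
          Finset.inter_eq_left.mpr hX]
      have hKK : (A ∩ K).card + (B ∩ K).card ≤ a := by
        rw [← Finset.card_union_of_disjoint (Finset.disjoint_of_subset_left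
          Finset.inter_subset_left (Finset.disjoint_of_subset_right
          Finset.inter_subset_left hAB)), ← Finset.union_inter_distrib_right]
        calc ((A ∪ B) ∩ K).card ≤ K.card := Finset.card_le_card Finset.inter_subset_right
          _ = a := hLK.2
      have hWc : (Wc C F (A ∩ L ∪ H) ∪ Jd).card = (Wc C F (A ∩ L ∪ H)).card + b := by
        rw [Finset.card_union_of_disjoint (Finset.disjoint_of_subset_left (Wc_sub C F _) hCJ.1),
          hCJ.2]
      show A.card + B.card ≤ (Wc C F (A ∩ L ∪ H) ∪ Jd).card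
      rw [hWc, hcard A hA, hcard B hB]
      omega
    · intro A B _ _ _ h
      exact absurd h (fun h => h)
    · intro A B Y Z _ _ _ h
      exact absurd h (fun h => h)
    · intro A B A' B' Y Z _ _ _ h
      exact absurd h (fun h => h)
  apply top_thm _ _ _ _ _ hT
  · intro A B h
    exact absurd h (fun h => h)
  · rw [Finset.card_union_of_disjoint hLK.1, Finset.card_union_of_disjoint hCJ.1, hLK.2, hCJ.2]
    exact hc

end Pool.Agent.Lib.MP_6805b2_co.ST
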