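import Pool.Agent.Lib.MP_6805b2_co.ST.Defs

/-!
# Cnt: double counting

`sum_wt`: every `x ∈ V` lies in `C(v - 1, k - 1)` of the `k`-subsets of `V`; exchange the sums.

`dc`: by `cov`, `sum_{X ∈ S} (1 + wt d X) ≤ sum_{X ∈ S} |col C F X|`, and the right side is the
number of pairs `(X, c)`, `X ∈ S`, `c ∈ C`, `X ∈ F c` (`Finset.sum_card_bipartiteAbove_eq...` or
`Finset.sum_comm` with indicator functions).

`dc_all`: `dc` with `S = V.powersetCard 4`, using `sum_wt` and that every member of `F c` is in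
`V.powersetCard 4`.
-/

namespace Pool.Agent.Lib.MP_6805b2_co.ST

open Finset

private theorem cnt_img (V : Finset ℕ) (x : ℕ) (hx : x ∈ V) (k : ℕ) :
    (V.powersetCard (k + 1)).filter (fun X => x ∈ X) =
      ((V.erase x).powersetCard k).image (insert x) := by
  ext X
  simp only [mem_filter, mem_powersetCard, mem_image]
  constructor
  · rintro ⟨⟨h1, h2⟩, h3⟩
    exact ⟨X.erase x, ⟨erase_subset_erase x h1, by rw [card_erase_of_mem h3, h2]; rfl⟩,
      insert_erase h3⟩
  · rintro ⟨Y, ⟨h1, h2⟩, rfl⟩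
    have hxY : x ∉ Y := fun h => (notMem_erase x V) (h1 h)
    refine ⟨⟨insert_subset hx (h1.trans (erase_subset _ _)), ?_⟩, mem_insert_self _ _⟩
    rw [card_insert_of_notMem hxY, h2]

private theorem cnt_inj (V : Finset ℕ) (x : ℕ) (k : ℕ) :
    Set.InjOn (insert x : Finset ℕ → Finset ℕ) ((V.erase x).powersetCard k : Finset (Finset ℕ)) := by
  intro Y hY Z hZ h
  have hY' : x ∉ Y := fun hh => (notMem_erase x V) ((mem_powersetCard.1 hY).1 hh)
  have hZ' : x ∉ Z := fun hh => (notMem_erase x V) ((mem_powersetCard.1 hZ).1 hh)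
  have := congrArg (fun T => Finset.erase T x) h
  simpa [erase_insert hY', erase_insert hZ'] using this

private theorem cnt_pc (V : Finset ℕ) (x : ℕ) (hx : x ∈ V) (k : ℕ) :
    ((V.powersetCard (k + 1)).filter (fun X => x ∈ X)).card = (V.card - 1).choose k := by
  rw [cnt_img V x hx k, card_image_of_injOn (cnt_inj V x k), card_powersetCard,
    card_erase_of_mem hx]

theorem sum_wt (V : Finset ℕ) (d : ℕ → ℕ) (k : ℕ) (hk : 1 ≤ k) :
    ∑ X ∈ V.powersetCard k, wt d X = wt d V * (V.card - 1).choose (k - 1) := by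
  obtain ⟨m, rfl⟩ : ∃ m, k = m + 1 := ⟨k - 1, by omega⟩
  have h1 : ∀ X ∈ V.powersetCard (m + 1), wt d X = ∑ x ∈ V, if x ∈ X then d x else 0 := by
    intro X hX
    have hs := (mem_powersetCard.1 hX).1
    unfold wt
    rw [← sum_filter]
    apply sum_congr _ (fun _ _ => rfl)
    ext y
    simp only [mem_filter]
    exact ⟨fun h => ⟨hs h, h⟩, fun h => h.2⟩
  rw [sum_congr rfl h1, sum_comm]
  unfold wt
  rw [sum_mul]
  apply sum_congr rfl
  intro x hx
  rw [← sum_filter, sum_const, cnt_pc V x hx m, smul_eq_mul, mul_comm]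
  rfl

theorem dc (V : Finset ℕ) (d : ℕ → ℕ) (C : Finset ℕ) (F : ℕ → Finset (Finset ℕ))
    (hS : Sys V d C F) (S : Finset (Finset ℕ)) (h : S ⊆ V.powersetCard 4) :
    ∑ X ∈ S, (1 + wt d X) ≤ ∑ c ∈ C, ((F c).filter (fun X => X ∈ S)).card := by
  have h1 : ∑ X ∈ S, (1 + wt d X) ≤ ∑ X ∈ S, (col C F X).card := by
    apply sum_le_sum
    intro X hX
    have := mem_powersetCard.1 (h hX)
    exact hS.cov X this.1 this.2
  refine h1.trans (le_of_eq ?_)
  have h2 : ∀ X ∈ S, (col C F X).card = ∑ c ∈ C, if X ∈ F c then 1 else 0 := by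
    intro X _
    unfold col
    rw [card_filter]
  rw [sum_congr rfl h2, sum_comm]
  apply sum_congr rfl
  intro c _
  rw [← card_filter]
  congr 1
  ext X
  simp only [mem_filter]
  exact And.comm

theorem dc_all (V : Finset ℕ) (d : ℕ → ℕ) (C : Finset ℕ) (F : ℕ → Finset (Finset ℕ))
    (hS : Sys V d C F) :
    V.card.choose 4 + wt d V * (V.card - 1).choose 3 ≤ ∑ c ∈ C, (F c).card := by
  have h1 := dc V d C F hS (V.powersetCard 4) (Subset.refl _)
  rw [sum_add_distrib, sum_wt V d 4 (by norm_num), sum_const, card_powersetCard, smul_eq_mul,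
    mul_one] at h1
  refine h1.trans (sum_le_sum ?_)
  intro c _
  exact card_filter_le _ _

/-- the sets containing a given point `h` -/
theorem dc_pt (V : Finset ℕ) (d : ℕ → ℕ) (C : Finset ℕ) (F : ℕ → Finset (Finset ℕ))
    (hS : Sys V d C F) (h : ℕ) (hh : h ∈ V) :
    (1 + d h) * (V.card - 1).choose 3 + (wt d V - d h) * (V.card - 2).choose 2 ≤
      ∑ c ∈ C, ((F c).filter (fun X => h ∈ X)).card := by
  have h1 := dc V d C F hS ((V.powersetCard 4).filter (fun X => h ∈ X)) (filter_subset _ _)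
  have h2 : ∑ X ∈ (V.powersetCard 4).filter (fun X => h ∈ X), (1 + wt d X) =
      (1 + d h) * (V.card - 1).choose 3 + (wt d V - d h) * (V.card - 2).choose 2 := by
    rw [cnt_img V h hh 3, sum_image (cnt_inj V h 3)]
    have h3 : ∀ Y ∈ (V.erase h).powersetCard 3, (1 + wt d (insert h Y)) =
        (1 + d h) + wt d Y := by
      intro Y hY
      have hY' : h ∉ Y := fun hn => (notMem_erase h V) ((mem_powersetCard.1 hY).1 hn)
      unfold wt
      rw [sum_insert hY']
      ring
    rw [sum_congr rfl h3, sum_add_distrib, sum_wt (V.erase h) d 3 (by norm_num), sum_const,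
      card_powersetCard, card_erase_of_mem hh, smul_eq_mul]
    have h4 : wt d (V.erase h) = wt d V - d h := by
      have : wt d (V.erase h) + d h = wt d V := by
        unfold wt
        exact sum_erase_add V d hh
      omega
    rw [h4]
    have h5 : V.card - 1 - 1 = V.card - 2 := by omega
    rw [h5]
    ring
  rw [← h2]
  refine h1.trans (sum_le_sum ?_)
  intro c _
  apply card_le_card
  intro X hX
  simp only [mem_filter] at hX ⊢
  exact ⟨hX.1, hX.2.2⟩

end Pool.Agent.Lib.MP_6805b2_co.ST
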