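import Mathlib

/-!
# Num: numerical inequalities

`hm v = 2 v^2 - 16 v + 35` bounds a non-trivial intersecting family.

`num1`: let `v ≥ 9`, `T + 7 = v + D`, and
`C(v,4) + D * C(v-1,3) + 16 v T ≤ T (2 v^2 + 35)`. Then `v ≥ 10`, `D ≤ 5`, `D = 5 → 13 ≤ v ≤ 15`,
`D = 4 → 12 ≤ v ≤ 20`, `D ≥ 2 → v ≥ 11`. Multiply by `24`:
`v(v-1)(v-2)(v-3) + 4 D (v-1)(v-2)(v-3) ≤ 24 (v + D - 7) (2 v^2 - 16 v + 35)`. The difference
`left - right` has the coefficient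
`4 (v-1)(v-2)(v-3) - 24 (2 v^2 - 16 v + 35) = 4 (v-4) (v^2 - 14 v + 54) > 0` of `D`... (check:
`= 4 (C(v-5,3) * 6 - 6)`, positive for `v ≥ 9`), so it is enough to treat the smallest `D` in
each range:
* `v = 9`: fails for all `D` (`D = 0`: `126 > 2 * 53`).
* `v = 10`, `D = 2`: `210 + 168 = 378 > 5 * 75`.
* `D = 6`, all `v ≥ 9`; `D = 5` and `v ≥ 16`; `D = 5` and `9 ≤ v ≤ 12`; `D = 4` and `v ≥ 21`;
  `D = 4`, `9 ≤ v ≤ 11`.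
For large `v` use the polynomial: with `D = 4`, after division by `v - 3`:
`v^3 - 35 v^2 + 338 v - 808 > 0` for `v ≥ 21`.
(`interval_cases v` for `v ≤ 40`, `nlinarith` for `v ≥ 41`.)

`num2`: for `g ≥ 9`, `ρ ≥ 2`, with `M = 2 g^2 - 16 g + 35` the following inequality between
integers: `4 M (g + D - 5 + ρ - e) - (M - 1) (ρ g + D - 3 e) < 4 C(g,4) + 4 D C(g-1,3)`.
The left side is decreasing in `e` (coefficient `-4 M + 3 (M - 1)`), decreasing in `ρ` (coefficient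
`4 M - (M - 1) g < 0` for `g ≥ 9`), the coefficient of `D` is `3 M + 1 ≤ 4 C(g-1,3)`
(`M ≤ C(g-1,3)`, `M - ... = C(g-1,3) - C(g-5,3) + 1`). So it is enough: `e = 0`, `ρ = 2`, `D = 0`:
`M (2 g - 12) + 2 g < 4 C(g,4) = g(g-1)(g-2)(g-3)/6`. Values at `g = 9, ..., 16`:
`336 < 504`, `620 < 840`, `1032 < 1320`, `1596 < 1980`, `2336 < 2860`, `3276 < 4004`,
`4440 < 5460`, `5852 < 7280`.
-/

namespace Pool.Agent.Lib.MP_6805b2_co.ST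

private theorem c4 (w : ℕ) : 24 * (w + 9).choose 4 = (w + 9) * (w + 8) * (w + 7) * (w + 6) := by
  have h := Nat.descFactorial_eq_factorial_mul_choose (w + 9) 4
  have h1 : (4 : ℕ).factorial = 24 := rfl
  rw [h1] at h
  rw [← h]
  simp only [Nat.descFactorial_succ, Nat.descFactorial_zero, mul_one]
  have e0 : w + 9 - 0 = w + 9 := rfl
  have e1 : w + 9 - 1 = w + 8 := rfl
  have e2 : w + 9 - 2 = w + 7 := rfl
  have e3 : w + 9 - 3 = w + 6 := rfl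
  rw [e0, e1, e2, e3]
  ring

private theorem c3 (w : ℕ) : 6 * (w + 8).choose 3 = (w + 8) * (w + 7) * (w + 6) := by
  have h := Nat.descFactorial_eq_factorial_mul_choose (w + 8) 3
  have h1 : (3 : ℕ).factorial = 6 := rfl
  rw [h1] at h
  rw [← h]
  simp only [Nat.descFactorial_succ, Nat.descFactorial_zero, mul_one]
  have e0 : w + 8 - 0 = w + 8 := rfl
  have e1 : w + 8 - 1 = w + 7 := rfl
  have e2 : w + 8 - 2 = w + 6 := rfl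
  rw [e0, e1, e2]
  ring

theorem num1 (v D T : ℕ) (hv : 9 ≤ v) (hT : T + 7 = v + D)
    (h : v.choose 4 + D * (v - 1).choose 3 + 16 * v * T ≤ T * (2 * v ^ 2 + 35)) :
    10 ≤ v ∧ D ≤ 5 ∧ (D = 5 → 13 ≤ v ∧ v ≤ 15) ∧ (D = 4 → 12 ≤ v ∧ v ≤ 20) ∧
      (2 ≤ D → 11 ≤ v) := by
  obtain ⟨w, rfl⟩ : ∃ w, v = w + 9 := ⟨v - 9, by omega⟩
  have hT' : T = w + 2 + D := by omega
  subst hT'
  have h8 : w + 9 - 1 = w + 8 := rfl
  rw [h8] at h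
  have hc4 := c4 w
  have hc3 := c3 w
  zify at h hc4 hc3
  have hw0 : (0 : ℤ) ≤ (w : ℤ) := Int.natCast_nonneg w
  have hD0 : (0 : ℤ) ≤ (D : ℤ) := Int.natCast_nonneg D
  have hF : (w : ℤ) ^ 4 - 18 * (w : ℤ) ^ 3 - 241 * (w : ℤ) ^ 2 - 582 * (w : ℤ) + 480 +
      4 * (D : ℤ) * ((w : ℤ) ^ 3 + 9 * (w : ℤ) ^ 2 + 26 * (w : ℤ) + 18) ≤ 0 := by
    have e1 : 24 * ((((w + 9).choose 4 : ℕ) : ℤ) + (D : ℤ) * (((w + 8).choose 3 : ℕ) : ℤ)) =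
        ((w : ℤ) + 9) * ((w : ℤ) + 8) * ((w : ℤ) + 7) * ((w : ℤ) + 6) +
          4 * (D : ℤ) * (((w : ℤ) + 8) * ((w : ℤ) + 7) * ((w : ℤ) + 6)) := by
      rw [← hc4, ← hc3]; ring
    have e2 : (w : ℤ) ^ 4 - 18 * (w : ℤ) ^ 3 - 241 * (w : ℤ) ^ 2 - 582 * (w : ℤ) + 480 +
        4 * (D : ℤ) * ((w : ℤ) ^ 3 + 9 * (w : ℤ) ^ 2 + 26 * (w : ℤ) + 18) =
        24 * ((((w + 9).choose 4 : ℕ) : ℤ) + (D : ℤ) * (((w + 8).choose 3 : ℕ) : ℤ) +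
          16 * ((w : ℤ) + 9) * ((w : ℤ) + 2 + (D : ℤ))) -
        24 * (((w : ℤ) + 2 + (D : ℤ)) * (2 * ((w : ℤ) + 9) ^ 2 + 35)) := by
      linear_combination -e1
    rw [e2]
    linarith
  clear h hc4 hc3
  have hk : 0 ≤ (w : ℤ) ^ 3 + 9 * (w : ℤ) ^ 2 + 26 * (w : ℤ) + 18 := by positivity
  have hw1 : 1 ≤ w := by
    by_contra hcon
    have hw : w = 0 := by omega
    subst hw
    have e4 : (((0 : ℕ) : ℤ)) ^ 4 - 18 * (((0 : ℕ) : ℤ)) ^ 3 - 241 * (((0 : ℕ) : ℤ)) ^ 2 -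
        582 * (((0 : ℕ) : ℤ)) + 480 + 4 * (D : ℤ) * ((((0 : ℕ) : ℤ)) ^ 3 +
        9 * (((0 : ℕ) : ℤ)) ^ 2 + 26 * (((0 : ℕ) : ℤ)) + 18) = 480 + 72 * (D : ℤ) := by
      push_cast; ring
    rw [e4] at hF
    linarith
  have hD6 : D ≤ 5 := by
    by_contra hcon
    have hD : (6 : ℤ) ≤ (D : ℤ) := by
      have : 6 ≤ D := by omega
      exact_mod_cast this
    have h1 := mul_nonneg (sub_nonneg.mpr hD) hk
    have h2 := sq_nonneg ((w : ℤ) ^ 2 + 3 * (w : ℤ) - 17)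
    have e4 : (w : ℤ) ^ 4 - 18 * (w : ℤ) ^ 3 - 241 * (w : ℤ) ^ 2 - 582 * (w : ℤ) + 480 +
      4 * (D : ℤ) * ((w : ℤ) ^ 3 + 9 * (w : ℤ) ^ 2 + 26 * (w : ℤ) + 18) =
      ((w : ℤ) ^ 2 + 3 * (w : ℤ) - 17) ^ 2 + 144 * (w : ℤ) + 623 +
      4 * (((D : ℤ) - 6) * ((w : ℤ) ^ 3 + 9 * (w : ℤ) ^ 2 + 26 * (w : ℤ) + 18)) := by ring
    rw [e4] at hF
    linarith
  refine ⟨by omega, hD6, ?_, ?_, ?_⟩
  · intro hD
    subst hD
    have hF' : ((w : ℤ) ^ 2 + (w : ℤ) - 20) * ((w : ℤ) ^ 2 + (w : ℤ) - 42) ≤ 0 := by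
      have e3 : ((w : ℤ) ^ 2 + (w : ℤ) - 20) * ((w : ℤ) ^ 2 + (w : ℤ) - 42) =
        (w : ℤ) ^ 4 - 18 * (w : ℤ) ^ 3 - 241 * (w : ℤ) ^ 2 - 582 * (w : ℤ) + 480 +
        4 * ((5 : ℕ) : ℤ) * ((w : ℤ) ^ 3 + 9 * (w : ℤ) ^ 2 + 26 * (w : ℤ) + 18) := by
        push_cast; ring
      rw [e3]; exact hF
    constructor
    · by_contra hcon
      have hw : w ≤ 3 := by omega
      interval_cases w <;> norm_num at hF'
    · by_contra hcon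
      obtain ⟨u, rfl⟩ : ∃ u, w = u + 7 := ⟨w - 7, by omega⟩
      have e : (((u + 7 : ℕ) : ℤ) ^ 2 + ((u + 7 : ℕ) : ℤ) - 20) *
          (((u + 7 : ℕ) : ℤ) ^ 2 + ((u + 7 : ℕ) : ℤ) - 42) =
          ((u : ℤ) ^ 2 + 15 * (u : ℤ) + 36) * ((u : ℤ) ^ 2 + 15 * (u : ℤ) + 14) := by
        push_cast; ring
      rw [e] at hF'
      have : 0 < ((u : ℤ) ^ 2 + 15 * (u : ℤ) + 36) * ((u : ℤ) ^ 2 + 15 * (u : ℤ) + 14) := by
        positivity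
      linarith
  · intro hD
    subst hD
    have hF' : (w : ℤ) ^ 4 - 2 * (w : ℤ) ^ 3 - 97 * (w : ℤ) ^ 2 - 166 * (w : ℤ) + 768 ≤ 0 := by
      have e3 : (w : ℤ) ^ 4 - 2 * (w : ℤ) ^ 3 - 97 * (w : ℤ) ^ 2 - 166 * (w : ℤ) + 768 =
        (w : ℤ) ^ 4 - 18 * (w : ℤ) ^ 3 - 241 * (w : ℤ) ^ 2 - 582 * (w : ℤ) + 480 +
        4 * ((4 : ℕ) : ℤ) * ((w : ℤ) ^ 3 + 9 * (w : ℤ) ^ 2 + 26 * (w : ℤ) + 18) := by
        push_cast; ring
      rw [e3]; exact hF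
    constructor
    · by_contra hcon
      have hw : w ≤ 2 := by omega
      interval_cases w <;> norm_num at hF'
    · by_contra hcon
      obtain ⟨u, rfl⟩ : ∃ u, w = u + 12 := ⟨w - 12, by omega⟩
      have hu0 : (0 : ℤ) ≤ (u : ℤ) := Int.natCast_nonneg u
      have e : ((u + 12 : ℕ) : ℤ) ^ 4 - 2 * ((u + 12 : ℕ) : ℤ) ^ 3 - 97 * ((u + 12 : ℕ) : ℤ) ^ 2 -
          166 * ((u + 12 : ℕ) : ℤ) + 768 =
          (u : ℤ) ^ 4 + 46 * (u : ℤ) ^ 3 + 695 * (u : ℤ) ^ 2 + 3554 * (u : ℤ) + 2088 := by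
        push_cast; ring
      rw [e] at hF'
      have : 0 < (u : ℤ) ^ 4 + 46 * (u : ℤ) ^ 3 + 695 * (u : ℤ) ^ 2 + 3554 * (u : ℤ) + 2088 := by
        positivity
      linarith
  · intro hD
    by_contra hcon
    have hw : w = 1 := by omega
    subst hw
    have hD2 : (2 : ℤ) ≤ (D : ℤ) := by exact_mod_cast hD
    norm_num at hF
    linarith

theorem num2 (g D ρ e : ℤ) (hg : 9 ≤ g) (hD : 0 ≤ D) (hρ : 2 ≤ ρ) (he : 0 ≤ e) :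
    4 * (2 * g ^ 2 - 16 * g + 35) * (g + D - 5 + ρ - e) -
      ((2 * g ^ 2 - 16 * g + 35) - 1) * (ρ * g + D - 3 * e) <
      4 * (g.toNat.choose 4 : ℤ) + 4 * D * ((g.toNat - 1).choose 3 : ℤ) := by
  obtain ⟨w, hw⟩ : ∃ w : ℕ, g = (w : ℤ) + 9 := ⟨(g - 9).toNat, by omega⟩
  subst hw
  have h1 : ((w : ℤ) + 9).toNat = w + 9 := by omega
  rw [h1]
  have h8 : w + 9 - 1 = w + 8 := rfl
  rw [h8]
  obtain ⟨r, rfl⟩ : ∃ r : ℤ, ρ = 2 + r := ⟨ρ - 2, by ring⟩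
  have hr : 0 ≤ r := by linarith
  have hc4 := c4 w
  have hc3 := c3 w
  zify at hc4 hc3
  have hw0 : (0 : ℤ) ≤ (w : ℤ) := Int.natCast_nonneg w
  set W : ℤ := (w : ℤ) with hW
  have key : 0 < (W ^ 4 + 6 * W ^ 3 + 23 * W ^ 2 + 282 * W + 1008) +
      r * (6 * ((2 * W ^ 2 + 20 * W + 53) * (W + 5) - (W + 9))) +
      e * (6 * (2 * W ^ 2 + 20 * W + 53) + 18) +
      D * (4 * W ^ 3 + 48 * W ^ 2 + 224 * W + 384) := by
    have k1 : 0 ≤ (2 * W ^ 2 + 20 * W + 53) * (W + 5) - (W + 9) := by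
      have : (2 * W ^ 2 + 20 * W + 53) * (W + 5) - (W + 9) =
        2 * W ^ 3 + 30 * W ^ 2 + 152 * W + 256 := by ring
      rw [this]; positivity
    have k2 := mul_nonneg hr (mul_nonneg (by norm_num : (0 : ℤ) ≤ 6) k1)
    have k3 : 0 ≤ e * (6 * (2 * W ^ 2 + 20 * W + 53) + 18) := by positivity
    have k4 : 0 ≤ D * (4 * W ^ 3 + 48 * W ^ 2 + 224 * W + 384) := by positivity
    have k5 : 0 < W ^ 4 + 6 * W ^ 3 + 23 * W ^ 2 + 282 * W + 1008 := by positivity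
    linarith
  have hid : 6 * ((4 * (((w + 9).choose 4 : ℕ) : ℤ) + 4 * D * (((w + 8).choose 3 : ℕ) : ℤ)) -
      (4 * (2 * (W + 9) ^ 2 - 16 * (W + 9) + 35) * (W + 9 + D - 5 + (2 + r) - e) -
      ((2 * (W + 9) ^ 2 - 16 * (W + 9) + 35) - 1) * ((2 + r) * (W + 9) + D - 3 * e))) =
      (W ^ 4 + 6 * W ^ 3 + 23 * W ^ 2 + 282 * W + 1008) +
      r * (6 * ((2 * W ^ 2 + 20 * W + 53) * (W + 5) - (W + 9))) +
      e * (6 * (2 * W ^ 2 + 20 * W + 53) + 18) +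
      D * (4 * W ^ 3 + 48 * W ^ 2 + 224 * W + 384) := by
    linear_combination hc4 + 4 * D * hc3
  rw [← hid] at key
  clear hid hc4 hc3
  have h6 : (0 : ℤ) < 6 := by norm_num
  exact sub_pos.mp ((mul_pos_iff_of_pos_left h6).mp key)

end Pool.Agent.Lib.MP_6805b2_co.ST
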