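import Mathlib

/-!
# Stability of intersecting families of 4-sets

`F` a family of 4-subsets of `range v`, `v ≥ 8`, intersecting.  Then some point is missed by at most
one member of `F`, or `2 |F| + 19 v ≤ 3 v ^ 2 + 30`.

Shifting (replace `j` by `i < j`) as long as every point is missed by at least two members.
* All shifts done: `{1,2,3,4}, {1,2,3,5} ∈ F`, induction on `v` (deletion and link of the last
  point), the links are families of triples, then of pairs.
* Otherwise all members of `F` except `c ≤ 1` meet some `{x, y}`; this gives two cross-intersecting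
  families of triples on `v - 2` points, bounded by shifting and the same induction.
-/

namespace Pool.Agent.Stahl

open Finset

/-- replace `j` by `i` -/
def sh (i j : ℕ) (A : Finset ℕ) : Finset ℕ := if j ∈ A ∧ i ∉ A then insert i (A.erase j) else A

/-- the shifted family -/
def SH (i j : ℕ) (F : Finset (Finset ℕ)) : Finset (Finset ℕ) :=
  F.image fun A => if sh i j A ∈ F then A else sh i j A

/-- shifted -/
def Shd (F : Finset (Finset ℕ)) : Prop :=
  ∀ A ∈ F, ∀ j ∈ A, ∀ i, i < j → i ∉ A → insert i (A.erase j) ∈ F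

/-- cross-intersecting -/
def Cross (F G : Finset (Finset ℕ)) : Prop := ∀ A ∈ F, ∀ B ∈ G, (A ∩ B).Nonempty

/-- `k`-subsets of `range n` -/
def Unif (k n : ℕ) (F : Finset (Finset ℕ)) : Prop := ∀ A ∈ F, A ⊆ range n ∧ A.card = k

/-- weight -/
def wt (F : Finset (Finset ℕ)) : ℕ := ∑ A ∈ F, ∑ a ∈ A, a

theorem Cross.symm {F G : Finset (Finset ℕ)} (h : Cross F G) : Cross G F := by
  intro A hA B hB
  rw [inter_comm]
  exact h B hB A hA

theorem sh_pos {i j : ℕ} {A : Finset ℕ} (h1 : j ∈ A) (h2 : i ∉ A) :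
    sh i j A = insert i (A.erase j) := if_pos ⟨h1, h2⟩

theorem sh_neg {i j : ℕ} {A : Finset ℕ} (h : ¬ (j ∈ A ∧ i ∉ A)) : sh i j A = A := if_neg h

theorem card_mv {i j : ℕ} {A : Finset ℕ} (h1 : j ∈ A) (h2 : i ∉ A) :
    (insert i (A.erase j)).card = A.card := by
  rw [card_insert_of_notMem (fun h => h2 (mem_of_mem_erase h)), card_erase_of_mem h1]
  have := card_pos.2 ⟨j, h1⟩
  omega

theorem sum_mv {i j : ℕ} {A : Finset ℕ} (h1 : j ∈ A) (h2 : i ∉ A) :
    ∑ a ∈ insert i (A.erase j), a + j = ∑ a ∈ A, a + i := by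
  rw [sum_insert (fun h => h2 (mem_of_mem_erase h))]
  have h3 : j + ∑ a ∈ A.erase j, a = ∑ a ∈ A, a := add_sum_erase A (fun a => a) h1
  omega

theorem mem_SH {i j : ℕ} {F : Finset (Finset ℕ)} {B : Finset ℕ} :
    B ∈ SH i j F ↔ (B ∈ F ∧ sh i j B ∈ F) ∨
      ∃ A ∈ F, j ∈ A ∧ i ∉ A ∧ insert i (A.erase j) ∉ F ∧ B = insert i (A.erase j) := by
  unfold SH
  rw [mem_image]
  constructor
  · rintro ⟨A, hA, rfl⟩
    by_cases h : sh i j A ∈ F
    · rw [if_pos h]
      exact Or.inl ⟨hA, h⟩
    · rw [if_neg h]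
      right
      by_cases h2 : j ∈ A ∧ i ∉ A
      · have e : sh i j A = insert i (A.erase j) := if_pos h2
        rw [e] at h ⊢
        exact ⟨A, hA, h2.1, h2.2, h, rfl⟩
      · rw [sh_neg h2] at h
        exact absurd hA h
  · rintro (⟨h1, h2⟩ | ⟨A, hA, h1, h2, h3, rfl⟩)
    · exact ⟨B, h1, if_pos h2⟩
    · refine ⟨A, hA, ?_⟩
      rw [sh_pos h1 h2, if_neg h3]

theorem SH_injOn (i j : ℕ) (F : Finset (Finset ℕ)) :
    Set.InjOn (fun A => if sh i j A ∈ F then A else sh i j A) (F : Set (Finset ℕ)) := by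
  intro A hA B hB h
  have hA' : A ∈ F := hA
  have hB' : B ∈ F := hB
  have h' : (if sh i j A ∈ F then A else sh i j A) = (if sh i j B ∈ F then B else sh i j B) := h
  by_cases h1 : sh i j A ∈ F <;> by_cases h2 : sh i j B ∈ F
  · rw [if_pos h1, if_pos h2] at h'
    exact h'
  · rw [if_pos h1, if_neg h2] at h'
    rw [← h'] at h2
    exact absurd hA' h2
  · rw [if_neg h1, if_pos h2] at h'
    rw [h'] at h1
    exact absurd hB' h1
  · rw [if_neg h1, if_neg h2] at h'
    have key : ∀ C ∈ F, sh i j C ∉ F → (j ∈ C ∧ i ∉ C) := by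
      intro C hC h3
      by_contra h4
      rw [sh_neg h4] at h3
      exact h3 hC
    obtain ⟨a1, a2⟩ := key A hA' h1
    obtain ⟨b1, b2⟩ := key B hB' h2
    rw [sh_pos a1 a2, sh_pos b1 b2] at h'
    have h3 : A.erase j = B.erase j := by
      have e1 : (insert i (A.erase j)).erase i = A.erase j :=
        erase_insert (fun h => a2 (mem_of_mem_erase h))
      have e2 : (insert i (B.erase j)).erase i = B.erase j :=
        erase_insert (fun h => b2 (mem_of_mem_erase h))
      rw [← e1, ← e2, h']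
    rw [← insert_erase a1, ← insert_erase b1, h3]

theorem card_SH (i j : ℕ) (F : Finset (Finset ℕ)) : (SH i j F).card = F.card :=
  card_image_of_injOn (SH_injOn i j F)

theorem SH_unif {k n i j : ℕ} {F : Finset (Finset ℕ)} (hij : i < j) (h : Unif k n F) :
    Unif k n (SH i j F) := by
  intro B hB
  rcases mem_SH.1 hB with ⟨h1, _⟩ | ⟨A, hA, h1, h2, _, rfl⟩
  · exact h B h1
  · refine ⟨?_, ?_⟩
    · intro x hx
      rcases mem_insert.1 hx with rfl | hx
      · have h3 := mem_range.1 ((h A hA).1 h1)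
        exact mem_range.2 (lt_trans hij h3)
      · exact (h A hA).1 (mem_of_mem_erase hx)
    · rw [card_mv h1 h2]
      exact (h A hA).2

theorem SH_cross {i j : ℕ} {F G : Finset (Finset ℕ)} (h : Cross F G) :
    Cross (SH i j F) (SH i j G) := by
  have key : ∀ F G : Finset (Finset ℕ), Cross F G → ∀ A ∈ F, j ∈ A → i ∉ A →
      ∀ B ∈ G, sh i j B ∈ G → (insert i (A.erase j) ∩ B).Nonempty := by
    intro F G h A hA h1 h2 B hB hB'
    by_cases hi : i ∈ B
    · exact ⟨i, mem_inter.2 ⟨mem_insert_self _ _, hi⟩⟩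
    · by_cases hj : j ∈ B
      · rw [sh_pos hj hi] at hB'
        obtain ⟨x, hx⟩ := h A hA _ hB'
        rw [mem_inter] at hx
        obtain ⟨x1, x2⟩ := hx
        rcases mem_insert.1 x2 with rfl | x3
        · exact absurd x1 h2
        · have x4 := mem_erase.1 x3
          exact ⟨x, mem_inter.2 ⟨mem_insert_of_mem (mem_erase.2 ⟨x4.1, x1⟩), x4.2⟩⟩
      · obtain ⟨x, hx⟩ := h A hA B hB
        rw [mem_inter] at hx
        obtain ⟨x1, x2⟩ := hx
        have x3 : x ≠ j := fun hh => hj (hh ▸ x2)
        exact ⟨x, mem_inter.2 ⟨mem_insert_of_mem (mem_erase.2 ⟨x3, x1⟩), x2⟩⟩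
  intro A hA B hB
  rcases mem_SH.1 hA with ⟨a1, a2⟩ | ⟨A', hA', a1, a2, _, rfl⟩ <;>
    rcases mem_SH.1 hB with ⟨b1, b2⟩ | ⟨B', hB', b1, b2, _, rfl⟩
  · exact h A a1 B b1
  · rw [inter_comm]
    exact key G F h.symm B' hB' b1 b2 A a1 a2
  · exact key F G h A' hA' a1 a2 B b1 b2
  · exact ⟨i, mem_inter.2 ⟨mem_insert_self _ _, mem_insert_self _ _⟩⟩

theorem wt_SH_le {i j : ℕ} (hij : i < j) (F : Finset (Finset ℕ)) : wt (SH i j F) ≤ wt F := by
  unfold wt SH
  rw [sum_image (SH_injOn i j F)]
  refine sum_le_sum fun A _ => ?_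
  by_cases h : sh i j A ∈ F
  · rw [if_pos h]
  · rw [if_neg h]
    by_cases h2 : j ∈ A ∧ i ∉ A
    · rw [sh_pos h2.1 h2.2]
      have := sum_mv h2.1 h2.2
      omega
    · rw [sh_neg h2]

theorem wt_SH_lt {i j : ℕ} (hij : i < j) {F : Finset (Finset ℕ)} {A : Finset ℕ} (hA : A ∈ F)
    (h1 : j ∈ A) (h2 : i ∉ A) (h3 : insert i (A.erase j) ∉ F) : wt (SH i j F) < wt F := by
  unfold wt SH
  rw [sum_image (SH_injOn i j F)]
  refine sum_lt_sum (fun A _ => ?_) ⟨A, hA, ?_⟩
  · by_cases h : sh i j A ∈ F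
    · rw [if_pos h]
    · rw [if_neg h]
      by_cases h2 : j ∈ A ∧ i ∉ A
      · rw [sh_pos h2.1 h2.2]
        have := sum_mv h2.1 h2.2
        omega
      · rw [sh_neg h2]
  · rw [sh_pos h1 h2, if_neg h3]
    have := sum_mv h1 h2
    omega

theorem not_shd {F : Finset (Finset ℕ)} (h : ¬ Shd F) :
    ∃ i j A, i < j ∧ A ∈ F ∧ j ∈ A ∧ i ∉ A ∧ insert i (A.erase j) ∉ F := by
  unfold Shd at h
  push Not at h
  obtain ⟨A, hA, j, hj, i, hij, hi, hn⟩ := h
  exact ⟨i, j, A, hij, hA, hj, hi, hn⟩

theorem exists_shd_pair {k n : ℕ} : ∀ (N : ℕ) (F G : Finset (Finset ℕ)), wt F + wt G ≤ N →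
    Cross F G → Unif k n F → Unif k n G → ∃ F' G' : Finset (Finset ℕ), Shd F' ∧ Shd G' ∧
      Cross F' G' ∧ Unif k n F' ∧ Unif k n G' ∧ F'.card = F.card ∧ G'.card = G.card := by
  intro N
  induction N with
  | zero =>
    intro F G hN hc hF hG
    by_cases h1 : Shd F
    · by_cases h2 : Shd G
      · exact ⟨F, G, h1, h2, hc, hF, hG, rfl, rfl⟩
      · exfalso
        obtain ⟨i, j, A, hij, hA, a1, a2, a3⟩ := not_shd h2
        have := wt_SH_lt hij hA a1 a2 a3
        omega
    · exfalso
      obtain ⟨i, j, A, hij, hA, a1, a2, a3⟩ := not_shd h1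
      have := wt_SH_lt hij hA a1 a2 a3
      omega
  | succ N ih =>
    intro F G hN hc hF hG
    have step : ∀ i j : ℕ, i < j → wt (SH i j F) + wt (SH i j G) ≤ N →
        ∃ F' G' : Finset (Finset ℕ), Shd F' ∧ Shd G' ∧
          Cross F' G' ∧ Unif k n F' ∧ Unif k n G' ∧ F'.card = F.card ∧ G'.card = G.card := by
      intro i j hij hw
      obtain ⟨F', G', r1, r2, r3, r4, r5, r6, r7⟩ :=
        ih (SH i j F) (SH i j G) hw (SH_cross hc) (SH_unif hij hF) (SH_unif hij hG)
      exact ⟨F', G', r1, r2, r3, r4, r5, r6.trans (card_SH i j F), r7.trans (card_SH i j G)⟩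
    by_cases h1 : Shd F
    · by_cases h2 : Shd G
      · exact ⟨F, G, h1, h2, hc, hF, hG, rfl, rfl⟩
      · obtain ⟨i, j, A, hij, hA, a1, a2, a3⟩ := not_shd h2
        have e1 := wt_SH_lt hij hA a1 a2 a3
        have e2 := wt_SH_le hij F
        exact step i j hij (by omega)
    · obtain ⟨i, j, A, hij, hA, a1, a2, a3⟩ := not_shd h1
      have e1 := wt_SH_lt hij hA a1 a2 a3
      have e2 := wt_SH_le hij G
      exact step i j hij (by omega)

/-! ### the smallest members -/

theorem shd_min {F : Finset (Finset ℕ)} (hF : Shd F) (s k : ℕ) : ∀ (N : ℕ) (A : Finset ℕ),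
    ∑ a ∈ A, a ≤ N → A ∈ F → A.card = k → (∀ a ∈ A, s ≤ a) → Ico s (s + k) ∈ F := by
  have key : ∀ A : Finset ℕ, A ∈ F → A.card = k → (∀ a ∈ A, s ≤ a) → A ≠ Ico s (s + k) →
      ∃ i j, i < j ∧ j ∈ A ∧ i ∉ A ∧ s ≤ i ∧ insert i (A.erase j) ∈ F := by
    intro A hA hk hs hne
    have h1 : (Ico s (s + k)).card = k := by
      rw [Nat.card_Ico]
      omega
    have h2 : ¬ Ico s (s + k) ⊆ A := by
      intro h
      exact hne (eq_of_subset_of_card_le h (by rw [h1, hk])).symm
    have h3 : ¬ A ⊆ Ico s (s + k) := by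
      intro h
      exact hne (eq_of_subset_of_card_le h (by rw [h1, hk]))
    rw [not_subset] at h2 h3
    obtain ⟨i, i1, i2⟩ := h2
    obtain ⟨j, j1, j2⟩ := h3
    rw [mem_Ico] at i1 j2
    have hj := hs j j1
    have hij : i < j := by omega
    exact ⟨i, j, hij, j1, i2, i1.1, hF A hA j j1 i hij i2⟩
  intro N
  induction N with
  | zero =>
    intro A hN hA hk hs
    by_contra hcon
    have hne : A ≠ Ico s (s + k) := fun h => hcon (h ▸ hA)
    obtain ⟨i, j, hij, j1, i1, _, _⟩ := key A hA hk hs hne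
    have := sum_mv j1 i1
    omega
  | succ N ih =>
    intro A hN hA hk hs
    by_cases hne : A = Ico s (s + k)
    · rw [← hne]
      exact hA
    · obtain ⟨i, j, hij, j1, i1, hsi, hm⟩ := key A hA hk hs hne
      have h1 := sum_mv j1 i1
      refine ih _ (by omega) hm (by rw [card_mv j1 i1, hk]) ?_
      intro a ha
      rcases mem_insert.1 ha with rfl | ha
      · exact hsi
      · exact hs a (mem_of_mem_erase ha)

theorem shd_second {F : Finset (Finset ℕ)} (hF : Shd F) (s k : ℕ) : ∀ (N : ℕ) (A : Finset ℕ),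
    ∑ a ∈ A, a ≤ N → A ∈ F → A.card = k + 1 → (∀ a ∈ A, s ≤ a) → A ≠ Ico s (s + (k + 1)) →
      insert (s + k + 1) (Ico s (s + k)) ∈ F := by
  intro N
  induction N using Nat.strong_induction_on with
  | _ N ih =>
    intro A hN hA hk hs hne
    obtain ⟨I, hI⟩ : ∃ I, I = Ico s (s + (k + 1)) := ⟨_, rfl⟩
    rw [← hI] at hne
    have hIc : I.card = k + 1 := by
      rw [hI, Nat.card_Ico]
      omega
    have h2 : ¬ I ⊆ A := by
      intro h
      exact hne (eq_of_subset_of_card_le h (by rw [hIc, hk])).symm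
    have h3 : ¬ A ⊆ I := by
      intro h
      exact hne (eq_of_subset_of_card_le h (by rw [hIc, hk]))
    rw [not_subset] at h2 h3
    obtain ⟨i, i1, i2⟩ := h2
    obtain ⟨j, j1, j2⟩ := h3
    have i1' := i1
    have j2' := j2
    rw [hI, mem_Ico] at i1' j2'
    have hj := hs j j1
    have hij : i < j := by omega
    have hm := hF A hA j j1 i hij i2
    have hsum := sum_mv j1 i2
    have hge : ∀ a ∈ insert i (A.erase j), s ≤ a := by
      intro a ha
      rcases mem_insert.1 ha with rfl | ha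
      · exact i1'.1
      · exact hs a (mem_of_mem_erase ha)
    by_cases hA' : insert i (A.erase j) = I
    · -- A = I - i + j
      have hAe : ∀ x, x ∈ A ↔ x = j ∨ (x ∈ I ∧ x ≠ i) := by
        intro x
        constructor
        · intro hx
          by_cases hxj : x = j
          · exact Or.inl hxj
          · right
            refine ⟨?_, fun h => i2 (h ▸ hx)⟩
            rw [← hA']
            exact mem_insert_of_mem (mem_erase.2 ⟨hxj, hx⟩)
        · rintro (rfl | ⟨h1, h2⟩)
          · exact j1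
          · rw [← hA'] at h1
            rcases mem_insert.1 h1 with h1 | h1
            · exact absurd h1 h2
            · exact mem_of_mem_erase h1
      by_cases hj2 : j = s + k + 1
      · by_cases hi2 : i = s + k
        · have e : A = insert (s + k + 1) (Ico s (s + k)) := by
            ext x
            rw [hAe x, hI, mem_Ico, mem_insert, mem_Ico]
            omega
          rw [← e]
          exact hA
        · have hmem : s + k ∈ A := by
            rw [hAe, hI, mem_Ico]
            omega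
          have hlt : i < s + k := by omega
          have hm2 := hF A hA (s + k) hmem i hlt i2
          have e : insert i (A.erase (s + k)) = insert (s + k + 1) (Ico s (s + k)) := by
            ext x
            rw [mem_insert, mem_erase, hAe x, hI, mem_Ico, mem_insert, mem_Ico]
            omega
          rw [← e]
          exact hm2
      · have hnm : s + k + 1 ∉ A := by
          rw [hAe, hI, mem_Ico]
          omega
        have hlt : s + k + 1 < j := by omega
        have hm2 := hF A hA j j1 (s + k + 1) hlt hnm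
        have hsum2 := sum_mv j1 hnm
        refine ih (∑ a ∈ insert (s + k + 1) (A.erase j), a) (by omega) _ le_rfl hm2
          (by rw [card_mv j1 hnm, hk]) ?_ ?_
        · intro a ha
          rcases mem_insert.1 ha with rfl | ha
          · omega
          · exact hs a (mem_of_mem_erase ha)
        · intro h
          have h5 : s + k + 1 ∈ Ico s (s + (k + 1)) := by
            rw [← h]
            exact mem_insert_self _ _
          rw [mem_Ico] at h5
          omega
    · refine ih (∑ a ∈ insert i (A.erase j), a) (by omega) _ le_rfl hm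
        (by rw [card_mv j1 i2, hk]) hge ?_
      rw [← hI]
      exact hA'

/-! ### deletion and link -/

/-- members without `n` -/
def del (n : ℕ) (F : Finset (Finset ℕ)) : Finset (Finset ℕ) := F.filter fun A => n ∉ A

/-- link of `n` -/
def lk (n : ℕ) (F : Finset (Finset ℕ)) : Finset (Finset ℕ) :=
  (F.filter fun A => n ∈ A).image fun A => A.erase n

theorem mem_del {n : ℕ} {F : Finset (Finset ℕ)} {A : Finset ℕ} :
    A ∈ del n F ↔ A ∈ F ∧ n ∉ A := mem_filter

theorem mem_lk {n : ℕ} {F : Finset (Finset ℕ)} {T : Finset ℕ} :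
    T ∈ lk n F ↔ n ∉ T ∧ insert n T ∈ F := by
  unfold lk
  rw [mem_image]
  constructor
  · rintro ⟨A, hA, rfl⟩
    rw [mem_filter] at hA
    refine ⟨notMem_erase n A, ?_⟩
    rw [insert_erase hA.2]
    exact hA.1
  · rintro ⟨h1, h2⟩
    exact ⟨insert n T, mem_filter.2 ⟨h2, mem_insert_self _ _⟩, erase_insert h1⟩

theorem erase_injOn (n : ℕ) (F : Finset (Finset ℕ)) :
    Set.InjOn (fun A : Finset ℕ => A.erase n) ((F.filter fun A => n ∈ A : Finset (Finset ℕ)) :
      Set (Finset ℕ)) := by
  intro A hA B hB h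
  have hA' := (mem_filter.1 (mem_coe.1 hA)).2
  have hB' := (mem_filter.1 (mem_coe.1 hB)).2
  have h' : A.erase n = B.erase n := h
  rw [← insert_erase hA', ← insert_erase hB', h']

theorem card_lk (n : ℕ) (F : Finset (Finset ℕ)) :
    (lk n F).card = (F.filter fun A => n ∈ A).card := card_image_of_injOn (erase_injOn n F)

theorem card_del_lk (n : ℕ) (F : Finset (Finset ℕ)) : F.card = (del n F).card + (lk n F).card := by
  rw [card_lk]
  have h := card_filter_add_card_filter_not (s := F) (fun A => n ∈ A)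
  unfold del
  omega

theorem del_unif {k n : ℕ} {F : Finset (Finset ℕ)} (h : Unif k (n + 1) F) :
    Unif k n (del n F) := by
  intro A hA
  rw [mem_del] at hA
  refine ⟨?_, (h A hA.1).2⟩
  intro x hx
  have h1 := mem_range.1 ((h A hA.1).1 hx)
  have h2 : x ≠ n := fun hh => hA.2 (hh ▸ hx)
  exact mem_range.2 (by omega)

theorem lk_unif {k n : ℕ} {F : Finset (Finset ℕ)} (h : Unif (k + 1) (n + 1) F) :
    Unif k n (lk n F) := by
  intro T hT
  rw [mem_lk] at hT
  obtain ⟨h1, h2⟩ := h _ hT.2
  rw [card_insert_of_notMem hT.1] at h2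
  refine ⟨?_, by omega⟩
  intro x hx
  have h3 := mem_range.1 (h1 (mem_insert_of_mem hx))
  have h4 : x ≠ n := fun hh => hT.1 (hh ▸ hx)
  exact mem_range.2 (by omega)

theorem del_shd {k n : ℕ} {F : Finset (Finset ℕ)} (hu : Unif k (n + 1) F) (h : Shd F) :
    Shd (del n F) := by
  intro A hA j hj i hij hi
  rw [mem_del] at hA ⊢
  refine ⟨h A hA.1 j hj i hij hi, ?_⟩
  have h1 := mem_range.1 ((hu A hA.1).1 hj)
  intro hn
  rcases mem_insert.1 hn with hn | hn
  · omega
  · exact hA.2 (mem_of_mem_erase hn)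

theorem lk_shd {k n : ℕ} {F : Finset (Finset ℕ)} (hu : Unif k (n + 1) F) (h : Shd F) :
    Shd (lk n F) := by
  intro T hT j hj i hij hi
  rw [mem_lk] at hT ⊢
  have h1 := mem_range.1 ((hu _ hT.2).1 (mem_insert_of_mem hj))
  have hin : i ≠ n := by omega
  have hjn : j ≠ n := fun hh => hT.1 (hh ▸ hj)
  refine ⟨?_, ?_⟩
  · intro hn
    rcases mem_insert.1 hn with hn | hn
    · exact hin hn.symm
    · exact hT.1 (mem_of_mem_erase hn)
  · have h2 := h _ hT.2 j (mem_insert_of_mem hj) i hij (by
      intro hh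
      rcases mem_insert.1 hh with hh | hh
      · exact hin hh
      · exact hi hh)
    have e : insert n (insert i (T.erase j)) = insert i ((insert n T).erase j) := by
      rw [erase_insert_of_ne hjn.symm, Finset.insert_comm]
    rw [e]
    exact h2

theorem del_cross {n : ℕ} {F G : Finset (Finset ℕ)} (h : Cross F G) :
    Cross (del n F) (del n G) := fun A hA B hB => h A (mem_del.1 hA).1 B (mem_del.1 hB).1

theorem lk_cross {k n : ℕ} {F G : Finset (Finset ℕ)} (hF : Unif (k + 1) (n + 1) F)
    (hG : Unif (k + 1) (n + 1) G) (hk : 2 * k < n) (hs : Shd F) (h : Cross F G) :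
    Cross (lk n F) (lk n G) := by
  intro A hA B hB
  have uA := lk_unif hF A hA
  have uB := lk_unif hG B hB
  rw [mem_lk] at hA hB
  by_contra hcon
  rw [not_nonempty_iff_eq_empty] at hcon
  have h1 : (A ∪ B).card ≤ 2 * k := by
    have := card_union_le A B
    omega
  have h2 : ¬ range n ⊆ A ∪ B := by
    intro hh
    have := card_le_card hh
    rw [card_range] at this
    omega
  rw [not_subset] at h2
  obtain ⟨x, x1, x2⟩ := h2
  rw [mem_range] at x1
  rw [mem_union, not_or] at x2
  have h3 := hs _ hA.2 n (mem_insert_self _ _) x x1 (by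
    intro hh
    rcases mem_insert.1 hh with hh | hh
    · omega
    · exact x2.1 hh)
  rw [erase_insert hA.1] at h3
  obtain ⟨y, hy⟩ := h _ h3 _ hB.2
  rw [mem_inter, mem_insert, mem_insert] at hy
  rcases hy with ⟨y1, y2⟩
  rcases y1 with rfl | y1
  · rcases y2 with y2 | y2
    · omega
    · exact x2.2 y2
  · rcases y2 with rfl | y2
    · exact hA.1 y1
    · have h5 : y ∈ A ∩ B := mem_inter.2 ⟨y1, y2⟩
      rw [hcon] at h5
      exact absurd h5 (notMem_empty y)

/-- complements -/
theorem half {k : ℕ} {F G : Finset (Finset ℕ)} (hF : Unif k (2 * k) F) (hG : Unif k (2 * k) G)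
    (h : Cross F G) : F.card + G.card ≤ (2 * k).choose k := by
  have h1 : (G.image fun A => range (2 * k) \ A).card = G.card := by
    refine card_image_of_injOn ?_
    intro A hA B hB hh
    have hh' : range (2 * k) \ A = range (2 * k) \ B := hh
    rw [← Finset.sdiff_sdiff_eq_self (hG A hA).1, ← Finset.sdiff_sdiff_eq_self (hG B hB).1, hh']
  have h2 : Disjoint F (G.image fun A => range (2 * k) \ A) := by
    rw [disjoint_left]
    intro A hA hA'
    obtain ⟨B, hB, rfl⟩ := mem_image.1 hA'
    obtain ⟨x, hx⟩ := h _ hA B hB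
    rw [mem_inter, mem_sdiff] at hx
    exact hx.1.2 hx.2
  have h3 : F ∪ (G.image fun A => range (2 * k) \ A) ⊆ powersetCard k (range (2 * k)) := by
    intro A hA
    rw [mem_powersetCard]
    rcases mem_union.1 hA with hA | hA
    · exact hF A hA
    · obtain ⟨B, hB, rfl⟩ := mem_image.1 hA
      refine ⟨sdiff_subset, ?_⟩
      rw [card_sdiff_of_subset (hG B hB).1, card_range, (hG B hB).2]
      omega
  have h4 := card_le_card h3
  rw [card_union_of_disjoint h2, h1, card_powersetCard, card_range] at h4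
  exact h4

/-! ### pairs -/

theorem pair_form {n : ℕ} {P : Finset ℕ} (h : P ⊆ range n ∧ P.card = 2) :
    ∃ a b, a < b ∧ b < n ∧ P = {a, b} := by
  obtain ⟨a, b, hab, rfl⟩ := card_eq_two.1 h.2
  have ha := mem_range.1 (h.1 (mem_insert_self a {b}))
  have hb := mem_range.1 (h.1 (mem_insert_of_mem (mem_singleton_self b)))
  rcases lt_or_gt_of_ne hab with h1 | h1
  · exact ⟨a, b, h1, hb, rfl⟩
  · exact ⟨b, a, h1, ha, pair_comm a b⟩

/-- replace the larger element -/
theorem pair_b {F : Finset (Finset ℕ)} (hF : Shd F) {a b c : ℕ} (hab : a < b) (h : {a, b} ∈ F)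
    (hcb : c < b) (hca : c ≠ a) : {a, c} ∈ F := by
  have h1 := hF _ h b (mem_insert_of_mem (mem_singleton_self b)) c hcb (by
    intro hh
    rw [mem_insert, mem_singleton] at hh
    omega)
  have e : insert c (({a, b} : Finset ℕ).erase b) = {a, c} := by
    ext x
    simp only [mem_insert, mem_erase, mem_singleton]
    omega
  rw [← e]
  exact h1

/-- replace the smaller element -/
theorem pair_a {F : Finset (Finset ℕ)} (hF : Shd F) {a b c : ℕ} (hab : a < b) (h : {a, b} ∈ F)
    (hca : c < a) : {c, b} ∈ F := by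
  have h1 := hF _ h a (mem_insert_self a _) c hca (by
    intro hh
    rw [mem_insert, mem_singleton] at hh
    omega)
  have e : insert c (({a, b} : Finset ℕ).erase a) = {c, b} := by
    ext x
    simp only [mem_insert, mem_erase, mem_singleton]
    omega
  rw [← e]
  exact h1

theorem pair_min {n : ℕ} {F : Finset (Finset ℕ)} (hF : Shd F) (hu : Unif 2 n F)
    (h : F.Nonempty) : {0, 1} ∈ F := by
  obtain ⟨A, hA⟩ := h
  have h1 := shd_min hF 0 2 _ A le_rfl hA (hu A hA).2 (fun a _ => Nat.zero_le a)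
  have e : Ico 0 (0 + 2) = ({0, 1} : Finset ℕ) := by decide
  rw [← e]
  exact h1

theorem pair_min1 {n : ℕ} {F : Finset (Finset ℕ)} (hF : Shd F) (hu : Unif 2 n F)
    {A : Finset ℕ} (hA : A ∈ F) (h0 : 0 ∉ A) : {1, 2} ∈ F := by
  have h1 := shd_min hF 1 2 _ A le_rfl hA (hu A hA).2 (by
    intro a ha
    by_contra hh
    have : a = 0 := by omega
    exact h0 (this ▸ ha))
  have e : Ico 1 (1 + 2) = ({1, 2} : Finset ℕ) := by decide
  rw [← e]
  exact h1

/-- the pairs through `0` -/
theorem star0_card (n : ℕ) (hn : 1 ≤ n) :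
    (((range n).erase 0).image fun b => ({0, b} : Finset ℕ)).card + 1 ≤ n := by
  have h1 := card_image_le (s := (range n).erase 0) (f := fun b => ({0, b} : Finset ℕ))
  rw [card_erase_of_mem (mem_range.2 (by omega)), card_range] at h1
  omega

theorem star1_card (n : ℕ) (hn : 2 ≤ n) :
    ((((range n).erase 0).erase 1).image fun b => ({1, b} : Finset ℕ)).card + 2 ≤ n := by
  have h1 := card_image_le (s := ((range n).erase 0).erase 1) (f := fun b => ({1, b} : Finset ℕ))
  rw [card_erase_of_mem (by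
      rw [mem_erase, mem_range]
      omega),
    card_erase_of_mem (mem_range.2 (by omega)), card_range] at h1
  omega

theorem star2_card (n : ℕ) (hn : 3 ≤ n) :
    (((((range n).erase 0).erase 1).erase 2).image fun b => ({2, b} : Finset ℕ)).card + 3 ≤ n := by
  have h1 := card_image_le (s := (((range n).erase 0).erase 1).erase 2)
    (f := fun b => ({2, b} : Finset ℕ))
  rw [card_erase_of_mem (by
      rw [mem_erase, mem_erase, mem_range]
      omega),
    card_erase_of_mem (by
      rw [mem_erase, mem_range]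
      omega),
    card_erase_of_mem (mem_range.2 (by omega)), card_range] at h1
  omega

theorem mem_star0 {n b : ℕ} (hb : b < n) (h : 0 < b) :
    ({0, b} : Finset ℕ) ∈ ((range n).erase 0).image fun b => ({0, b} : Finset ℕ) :=
  mem_image.2 ⟨b, mem_erase.2 ⟨by omega, mem_range.2 hb⟩, rfl⟩

theorem mem_star1 {n b : ℕ} (hb : b < n) (h : 1 < b) :
    ({1, b} : Finset ℕ) ∈ (((range n).erase 0).erase 1).image fun b => ({1, b} : Finset ℕ) :=
  mem_image.2 ⟨b, mem_erase.2 ⟨by omega, mem_erase.2 ⟨by omega, mem_range.2 hb⟩⟩, rfl⟩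

theorem mem_star2 {n b : ℕ} (hb : b < n) (h : 2 < b) :
    ({2, b} : Finset ℕ) ∈
      ((((range n).erase 0).erase 1).erase 2).image fun b => ({2, b} : Finset ℕ) :=
  mem_image.2 ⟨b, mem_erase.2 ⟨by omega, mem_erase.2 ⟨by omega, mem_erase.2 ⟨by omega,
    mem_range.2 hb⟩⟩⟩, rfl⟩

theorem count1 {n : ℕ} (hn : 1 ≤ n) {F : Finset (Finset ℕ)} (hu : Unif 2 n F)
    (h : ∀ P ∈ F, 0 ∈ P) : F.card + 1 ≤ n := by
  have h1 : F ⊆ ((range n).erase 0).image fun b => ({0, b} : Finset ℕ) := by
    intro P hP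
    obtain ⟨a, b, hab, hb, rfl⟩ := pair_form (hu P hP)
    have h2 := h _ hP
    rw [mem_insert, mem_singleton] at h2
    have h3 : a = 0 := by omega
    subst h3
    exact mem_star0 hb hab
  have := card_le_card h1
  have := star0_card n hn
  omega

theorem count1' {n : ℕ} (hn : 1 ≤ n) {F : Finset (Finset ℕ)} (hu : Unif 2 n F)
    (h : ∀ P ∈ F, 0 ∈ P ∨ P = {1, 2}) : F.card ≤ n := by
  have h1 : F ⊆ insert {1, 2} (((range n).erase 0).image fun b => ({0, b} : Finset ℕ)) := by
    intro P hP
    rw [mem_insert]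
    rcases h P hP with h2 | h2
    · right
      obtain ⟨a, b, hab, hb, rfl⟩ := pair_form (hu P hP)
      rw [mem_insert, mem_singleton] at h2
      have h3 : a = 0 := by omega
      subst h3
      exact mem_star0 hb hab
    · exact Or.inl h2
  have := card_le_card h1
  have := card_insert_le ({1, 2} : Finset ℕ)
    (((range n).erase 0).image fun b => ({0, b} : Finset ℕ))
  have := star0_card n hn
  omega

theorem count2 {n : ℕ} (hn : 2 ≤ n) {F : Finset (Finset ℕ)} (hu : Unif 2 n F)
    (h : ∀ P ∈ F, (P ∩ {0, 1}).Nonempty) : F.card + 3 ≤ 2 * n := by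
  have h1 : F ⊆ (((range n).erase 0).image fun b => ({0, b} : Finset ℕ)) ∪
      ((((range n).erase 0).erase 1).image fun b => ({1, b} : Finset ℕ)) := by
    intro P hP
    obtain ⟨x, hx⟩ := h P hP
    obtain ⟨a, b, hab, hb, rfl⟩ := pair_form (hu P hP)
    simp only [mem_inter, mem_insert, mem_singleton] at hx
    rw [mem_union]
    have h3 : a = 0 ∨ a = 1 := by omega
    rcases h3 with rfl | rfl
    · exact Or.inl (mem_star0 hb hab)
    · exact Or.inr (mem_star1 hb hab)
  have := card_le_card h1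
  have := card_union_le (((range n).erase 0).image fun b => ({0, b} : Finset ℕ))
    ((((range n).erase 0).erase 1).image fun b => ({1, b} : Finset ℕ))
  have := star0_card n (by omega)
  have := star1_card n hn
  omega

theorem count2' {n : ℕ} (hn : 2 ≤ n) {F : Finset (Finset ℕ)} (hu : Unif 2 n F)
    (h : ∀ P ∈ F, (P ∩ {0, 1, 2}).Nonempty) (h' : ∀ P ∈ F, (P ∩ {0, 1, 3}).Nonempty) :
    F.card + 2 ≤ 2 * n := by
  have h1 : F ⊆ insert {2, 3} ((((range n).erase 0).image fun b => ({0, b} : Finset ℕ)) ∪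
      ((((range n).erase 0).erase 1).image fun b => ({1, b} : Finset ℕ))) := by
    intro P hP
    obtain ⟨x, hx⟩ := h P hP
    obtain ⟨y, hy⟩ := h' P hP
    obtain ⟨a, b, hab, hb, rfl⟩ := pair_form (hu P hP)
    simp only [mem_inter, mem_insert, mem_singleton] at hx hy
    rw [mem_insert, mem_union]
    have h3 : a = 0 ∨ a = 1 ∨ (a = 2 ∧ b = 3) := by omega
    rcases h3 with rfl | rfl | ⟨rfl, rfl⟩
    · exact Or.inr (Or.inl (mem_star0 hb hab))
    · exact Or.inr (Or.inr (mem_star1 hb hab))
    · exact Or.inl rfl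
  have := card_le_card h1
  have := card_insert_le ({2, 3} : Finset ℕ)
    ((((range n).erase 0).image fun b => ({0, b} : Finset ℕ)) ∪
      ((((range n).erase 0).erase 1).image fun b => ({1, b} : Finset ℕ)))
  have := card_union_le (((range n).erase 0).image fun b => ({0, b} : Finset ℕ))
    ((((range n).erase 0).erase 1).image fun b => ({1, b} : Finset ℕ))
  have := star0_card n (by omega)
  have := star1_card n hn
  omega

theorem count3 {n : ℕ} (hn : 3 ≤ n) {F : Finset (Finset ℕ)} (hu : Unif 2 n F)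
    (h : ∀ P ∈ F, (P ∩ {0, 1, 2}).Nonempty) : F.card + 6 ≤ 3 * n := by
  have h1 : F ⊆ (((range n).erase 0).image fun b => ({0, b} : Finset ℕ)) ∪
      (((((range n).erase 0).erase 1).image fun b => ({1, b} : Finset ℕ)) ∪
      (((((range n).erase 0).erase 1).erase 2).image fun b => ({2, b} : Finset ℕ))) := by
    intro P hP
    obtain ⟨x, hx⟩ := h P hP
    obtain ⟨a, b, hab, hb, rfl⟩ := pair_form (hu P hP)
    simp only [mem_inter, mem_insert, mem_singleton] at hx
    rw [mem_union, mem_union]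
    have h3 : a = 0 ∨ a = 1 ∨ a = 2 := by omega
    rcases h3 with rfl | rfl | rfl
    · exact Or.inl (mem_star0 hb hab)
    · exact Or.inr (Or.inl (mem_star1 hb hab))
    · exact Or.inr (Or.inr (mem_star2 hb hab))
  have := card_le_card h1
  have := card_union_le (((range n).erase 0).image fun b => ({0, b} : Finset ℕ))
    (((((range n).erase 0).erase 1).image fun b => ({1, b} : Finset ℕ)) ∪
      (((((range n).erase 0).erase 1).erase 2).image fun b => ({2, b} : Finset ℕ)))
  have := card_union_le ((((range n).erase 0).erase 1).image fun b => ({1, b} : Finset ℕ))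
    (((((range n).erase 0).erase 1).erase 2).image fun b => ({2, b} : Finset ℕ))
  have := star0_card n (by omega)
  have := star1_card n (by omega)
  have := star2_card n hn
  omega

/-- intersecting pairs -/
theorem pairs_single {n : ℕ} {F : Finset (Finset ℕ)} (hu : Unif 2 n F) (hs : Shd F)
    (hc : Cross F F) (h1 : ∀ P ∈ F, (P ∩ {1, 2, 3, 4}).Nonempty)
    (h2 : ∀ P ∈ F, (P ∩ {1, 2, 3, 5}).Nonempty) : F.card ≤ 3 := by
  have key : ∀ P ∈ F, P = {0, 1} ∨ P = {0, 2} ∨ (P = {0, 3} ∧ {1, 2} ∉ F) ∨ P = {1, 2} := by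
    intro P hP
    obtain ⟨x, hx⟩ := h1 P hP
    obtain ⟨y, hy⟩ := h2 P hP
    have h01 := pair_min hs hu ⟨P, hP⟩
    obtain ⟨z, hz⟩ := hc P hP _ h01
    obtain ⟨a, b, hab, hb, rfl⟩ := pair_form (hu P hP)
    simp only [mem_inter, mem_insert, mem_singleton] at hx hy hz
    have ha : a = 0 ∨ a = 1 := by omega
    rcases ha with rfl | rfl
    · have hb' : b = 1 ∨ b = 2 ∨ b = 3 := by omega
      rcases hb' with rfl | rfl | rfl
      · exact Or.inl rfl
      · exact Or.inr (Or.inl rfl)
      · refine Or.inr (Or.inr (Or.inl ⟨rfl, ?_⟩))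
        intro h12
        obtain ⟨w, hw⟩ := hc _ hP _ h12
        simp only [mem_inter, mem_insert, mem_singleton] at hw
        omega
    · have h0b := pair_a hs hab hP Nat.zero_lt_one
      have h12 := pair_min1 hs hu hP (by
        intro hh
        rw [mem_insert, mem_singleton] at hh
        omega)
      obtain ⟨w, hw⟩ := hc _ h0b _ h12
      simp only [mem_inter, mem_insert, mem_singleton] at hw
      have hb' : b = 2 := by omega
      subst hb'
      exact Or.inr (Or.inr (Or.inr rfl))
  by_cases h12 : {1, 2} ∈ F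
  · have h3 : F ⊆ {{0, 1}, {0, 2}, {1, 2}} := by
      intro P hP
      rw [mem_insert, mem_insert, mem_singleton]
      rcases key P hP with h | h | h | h
      · exact Or.inl h
      · exact Or.inr (Or.inl h)
      · exact absurd h12 h.2
      · exact Or.inr (Or.inr h)
    exact (card_le_card h3).trans card_le_three
  · have h3 : F ⊆ {{0, 1}, {0, 2}, {0, 3}} := by
      intro P hP
      rw [mem_insert, mem_insert, mem_singleton]
      rcases key P hP with h | h | h | h
      · exact Or.inl h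
      · exact Or.inr (Or.inl h)
      · exact Or.inr (Or.inr h.1)
      · exact absurd (h ▸ hP) h12
    exact (card_le_card h3).trans card_le_three

/-- cross-intersecting pairs, one family with a member missing `0` -/
theorem pairs_cross_aux {n : ℕ} (hn : 4 ≤ n) {F G : Finset (Finset ℕ)} (uF : Unif 2 n F)
    (uG : Unif 2 n G) (sF : Shd F) (sG : Shd G) (hc : Cross F G) (hG : G.Nonempty)
    {A : Finset ℕ} (hA : A ∈ F) (hA0 : 0 ∉ A) : F.card + G.card + 2 ≤ 2 * n := by
  have f01 := pair_min sF uF ⟨A, hA⟩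
  have g01 := pair_min sG uG hG
  have f12 := pair_min1 sF uF hA hA0
  have key : ∀ F G : Finset (Finset ℕ), Unif 2 n G → Shd G → Cross F G → {0, 1} ∈ F →
      {1, 2} ∈ F → ∀ P ∈ G, P = {0, 1} ∨ P = {0, 2} ∨ P = {1, 2} := by
    intro F G uG sG hc f01 f12 P hP
    obtain ⟨x, hx⟩ := hc _ f01 P hP
    obtain ⟨y, hy⟩ := hc _ f12 P hP
    obtain ⟨a, b, hab, hb, rfl⟩ := pair_form (uG P hP)
    simp only [mem_inter, mem_insert, mem_singleton] at hx hy
    have ha : a = 0 ∨ a = 1 := by omega
    rcases ha with rfl | rfl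
    · have hb' : b = 1 ∨ b = 2 := by omega
      rcases hb' with rfl | rfl
      · exact Or.inl rfl
      · exact Or.inr (Or.inl rfl)
    · have h0b := pair_a sG hab hP Nat.zero_lt_one
      obtain ⟨w, hw⟩ := hc _ f12 _ h0b
      simp only [mem_inter, mem_insert, mem_singleton] at hw
      have hb' : b = 2 := by omega
      subst hb'
      exact Or.inr (Or.inr rfl)
  have kG := key F G uG sG hc f01 f12
  by_cases g12 : {1, 2} ∈ G
  · have kF := key G F uF sF hc.symm g01 g12
    have h3 : F ⊆ {{0, 1}, {0, 2}, {1, 2}} := by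
      intro P hP
      rw [mem_insert, mem_insert, mem_singleton]
      exact kF P hP
    have h4 : G ⊆ {{0, 1}, {0, 2}, {1, 2}} := by
      intro P hP
      rw [mem_insert, mem_insert, mem_singleton]
      exact kG P hP
    have h5 := (card_le_card h3).trans card_le_three
    have h6 := (card_le_card h4).trans card_le_three
    omega
  · by_cases g02 : {0, 2} ∈ G
    · have h4 : G ⊆ {{0, 1}, {0, 2}} := by
        intro P hP
        rw [mem_insert, mem_singleton]
        rcases kG P hP with h | h | h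
        · exact Or.inl h
        · exact Or.inr h
        · exact absurd (h ▸ hP) g12
      have h6 := (card_le_card h4).trans card_le_two
      have h5 : F.card ≤ n := by
        refine count1' (by omega) uF ?_
        intro P hP
        obtain ⟨x, hx⟩ := hc P hP _ g01
        obtain ⟨y, hy⟩ := hc P hP _ g02
        obtain ⟨a, b, hab, hb, rfl⟩ := pair_form (uF P hP)
        simp only [mem_inter, mem_insert, mem_singleton] at hx hy ⊢
        have ha : a = 0 ∨ (a = 1 ∧ b = 2) := by omega
        rcases ha with rfl | ⟨rfl, rfl⟩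
        · exact Or.inl (Or.inl rfl)
        · exact Or.inr rfl
      omega
    · have h4 : G ⊆ {{0, 1}} := by
        intro P hP
        rw [mem_singleton]
        rcases kG P hP with h | h | h
        · exact h
        · exact absurd (h ▸ hP) g02
        · exact absurd (h ▸ hP) g12
      have h6 := card_le_card h4
      rw [card_singleton] at h6
      have h5 := count2 (by omega) uF (fun P hP => hc P hP _ g01)
      omega

/-- cross-intersecting pairs -/
theorem pairs_cross {n : ℕ} (hn : 4 ≤ n) {F G : Finset (Finset ℕ)} (uF : Unif 2 n F)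
    (uG : Unif 2 n G) (sF : Shd F) (sG : Shd G) (hc : Cross F G) (hF : F.Nonempty)
    (hG : G.Nonempty) : F.card + G.card + 2 ≤ 2 * n := by
  by_cases h1 : ∃ A ∈ F, 0 ∉ A
  · obtain ⟨A, hA, hA0⟩ := h1
    exact pairs_cross_aux hn uF uG sF sG hc hG hA hA0
  · by_cases h2 : ∃ A ∈ G, 0 ∉ A
    · obtain ⟨A, hA, hA0⟩ := h2
      have := pairs_cross_aux hn uG uF sG sF hc.symm hF hA hA0
      omega
    · push Not at h1 h2
      have e1 := count1 (by omega) uF h1
      have e2 := count1 (by omega) uG h2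
      omega

/-! ### triples and quadruples: one shifted family -/

/-- an intersection with a small set does not use a large point -/
theorem ne_of_insert {n : ℕ} {T K : Finset ℕ} (h : (insert n T ∩ K).Nonempty) (hn : n ∉ K) :
    (T ∩ K).Nonempty := by
  obtain ⟨x, hx⟩ := h
  rw [mem_inter, mem_insert] at hx
  rcases hx with ⟨rfl | h1, h2⟩
  · exact absurd h2 hn
  · exact ⟨x, mem_inter.2 ⟨h1, h2⟩⟩

theorem triples_single {n : ℕ} (hn : 6 ≤ n) : ∀ F : Finset (Finset ℕ), Unif 3 n F → Shd F →
    Cross F F → (∀ P ∈ F, (P ∩ {1, 2, 3, 4}).Nonempty) → (∀ P ∈ F, (P ∩ {1, 2, 3, 5}).Nonempty) →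
      F.card + 8 ≤ 3 * n := by
  induction n, hn using Nat.le_induction with
  | base =>
    intro F hu _ hc _ _
    have h1 := half (k := 3) (F := F) (G := F) hu hu hc
    have h2 : (2 * 3).choose 3 = 20 := by decide
    omega
  | succ n hn ih =>
    intro F hu hs hc h1 h2
    have e1 := ih (del n F) (del_unif hu) (del_shd hu hs) (del_cross hc)
      (fun P hP => h1 P (mem_del.1 hP).1) (fun P hP => h2 P (mem_del.1 hP).1)
    have e2 := pairs_single (lk_unif hu) (lk_shd hu hs)
      (lk_cross hu hu (by omega) hs hc)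
      (fun P hP => ne_of_insert (h1 _ (mem_lk.1 hP).2) (by
        simp only [mem_insert, mem_singleton]
        omega))
      (fun P hP => ne_of_insert (h2 _ (mem_lk.1 hP).2) (by
        simp only [mem_insert, mem_singleton]
        omega))
    have e3 := card_del_lk n F
    omega

theorem quads_single {v : ℕ} (hv : 8 ≤ v) : ∀ F : Finset (Finset ℕ), Unif 4 v F → Shd F →
    Cross F F → {1, 2, 3, 4} ∈ F → {1, 2, 3, 5} ∈ F → 2 * F.card + 19 * v ≤ 3 * v ^ 2 + 30 := by
  induction v, hv using Nat.le_induction with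
  | base =>
    intro F hu _ hc _ _
    have h1 := half (k := 4) (F := F) (G := F) hu hu hc
    have h2 : (2 * 4).choose 4 = 70 := by decide
    omega
  | succ n hn ih =>
    intro F hu hs hc h1 h2
    have m1 : {1, 2, 3, 4} ∈ del n F := mem_del.2 ⟨h1, by
      simp only [mem_insert, mem_singleton]
      omega⟩
    have m2 : {1, 2, 3, 5} ∈ del n F := mem_del.2 ⟨h2, by
      simp only [mem_insert, mem_singleton]
      omega⟩
    have e1 := ih (del n F) (del_unif hu) (del_shd hu hs) (del_cross hc) m1 m2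
    have e2 := triples_single (n := n) (by omega) (lk n F) (lk_unif hu) (lk_shd hu hs)
      (lk_cross hu hu (by omega) hs hc)
      (fun P hP => ne_of_insert (hc _ (mem_lk.1 hP).2 _ h1) (by
        simp only [mem_insert, mem_singleton]
        omega))
      (fun P hP => ne_of_insert (hc _ (mem_lk.1 hP).2 _ h2) (by
        simp only [mem_insert, mem_singleton]
        omega))
    have e3 := card_del_lk n F
    have e4 : 3 * (n + 1) ^ 2 + 30 = 3 * n ^ 2 + 30 + (6 * n + 3) := by ring
    rw [e4, e3]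
    omega

/-! ### cross-intersecting triples -/

theorem triplesX {n : ℕ} (hn : 6 ≤ n) : ∀ F G : Finset (Finset ℕ), Unif 3 n F → Unif 3 n G →
    Shd F → Shd G → Cross F G → {0, 1, 2} ∈ F → {0, 1, 3} ∈ F → {0, 1, 2} ∈ G → {0, 1, 3} ∈ G →
      F.card + G.card + 3 * n ≤ n ^ 2 + 2 := by
  induction n, hn using Nat.le_induction with
  | base =>
    intro F G uF uG _ _ hc _ _ _ _
    have h1 := half (k := 3) uF uG hc
    have h2 : (2 * 3).choose 3 = 20 := by decide
    omega
  | succ n hn ih =>
    intro F G uF uG sF sG hc f1 f2 g1 g2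
    have n1 : n ∉ ({0, 1, 2} : Finset ℕ) := by
      simp only [mem_insert, mem_singleton]
      omega
    have n2 : n ∉ ({0, 1, 3} : Finset ℕ) := by
      simp only [mem_insert, mem_singleton]
      omega
    have e1 := ih (del n F) (del n G) (del_unif uF) (del_unif uG) (del_shd uF sF) (del_shd uG sG)
      (del_cross hc) (mem_del.2 ⟨f1, n1⟩) (mem_del.2 ⟨f2, n2⟩) (mem_del.2 ⟨g1, n1⟩)
      (mem_del.2 ⟨g2, n2⟩)
    have lF := lk_unif (k := 2) uF
    have lG := lk_unif (k := 2) uG
    have e2 : (lk n F).card + (lk n G).card + 2 ≤ 2 * n := by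
      rcases (lk n F).eq_empty_or_nonempty with h | h
      · rw [h, card_empty, zero_add]
        exact count2' (by omega) lG
          (fun P hP => ne_of_insert (hc.symm _ (mem_lk.1 hP).2 _ f1) n1)
          (fun P hP => ne_of_insert (hc.symm _ (mem_lk.1 hP).2 _ f2) n2)
      · rcases (lk n G).eq_empty_or_nonempty with h' | h'
        · rw [h', card_empty, add_zero]
          exact count2' (by omega) lF
            (fun P hP => ne_of_insert (hc _ (mem_lk.1 hP).2 _ g1) n1)
            (fun P hP => ne_of_insert (hc _ (mem_lk.1 hP).2 _ g2) n2)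
        · exact pairs_cross (by omega) lF lG (lk_shd uF sF) (lk_shd uG sG)
            (lk_cross uF uG (by omega) sF hc) h h'
    have e3 := card_del_lk n F
    have e4 := card_del_lk n G
    have e5 : (n + 1) ^ 2 + 2 = n ^ 2 + 2 + (2 * n + 1) := by ring
    rw [e5, e3, e4]
    omega

theorem triplesY {n : ℕ} (hn : 6 ≤ n) : ∀ F G : Finset (Finset ℕ), Unif 3 n F → Unif 3 n G →
    Shd F → Shd G → Cross F G → {0, 1, 2} ∈ F → {0, 1, 2} ∈ G →
      2 * (F.card + G.card) + 15 * n ≤ 3 * n ^ 2 + 22 := by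
  induction n, hn using Nat.le_induction with
  | base =>
    intro F G uF uG _ _ hc _ _
    have h1 := half (k := 3) uF uG hc
    have h2 : (2 * 3).choose 3 = 20 := by decide
    omega
  | succ n hn ih =>
    intro F G uF uG sF sG hc f1 g1
    have n1 : n ∉ ({0, 1, 2} : Finset ℕ) := by
      simp only [mem_insert, mem_singleton]
      omega
    have e1 := ih (del n F) (del n G) (del_unif uF) (del_unif uG) (del_shd uF sF) (del_shd uG sG)
      (del_cross hc) (mem_del.2 ⟨f1, n1⟩) (mem_del.2 ⟨g1, n1⟩)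
    have lF := lk_unif (k := 2) uF
    have lG := lk_unif (k := 2) uG
    have e2 : (lk n F).card + (lk n G).card + 6 ≤ 3 * n := by
      rcases (lk n F).eq_empty_or_nonempty with h | h
      · rw [h, card_empty, zero_add]
        exact count3 (by omega) lG
          (fun P hP => ne_of_insert (hc.symm _ (mem_lk.1 hP).2 _ f1) n1)
      · rcases (lk n G).eq_empty_or_nonempty with h' | h'
        · rw [h', card_empty, add_zero]
          exact count3 (by omega) lF
            (fun P hP => ne_of_insert (hc _ (mem_lk.1 hP).2 _ g1) n1)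
        · have := pairs_cross (by omega) lF lG (lk_shd uF sF) (lk_shd uG sG)
            (lk_cross uF uG (by omega) sF hc) h h'
          omega
    have e3 := card_del_lk n F
    have e4 := card_del_lk n G
    have e5 : 3 * (n + 1) ^ 2 + 22 = 3 * n ^ 2 + 22 + (6 * n + 3) := by ring
    rw [e5, e3, e4]
    omega

theorem min012 {n : ℕ} {F : Finset (Finset ℕ)} (hu : Unif 3 n F) (hs : Shd F)
    (h : F.Nonempty) : {0, 1, 2} ∈ F := by
  obtain ⟨A, hA⟩ := h
  have h1 := shd_min hs 0 3 _ A le_rfl hA (hu A hA).2 (fun a _ => Nat.zero_le a)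
  have e : Ico 0 (0 + 3) = ({0, 1, 2} : Finset ℕ) := by decide
  rw [← e]
  exact h1

theorem min013 {n : ℕ} {F : Finset (Finset ℕ)} (hu : Unif 3 n F) (hs : Shd F)
    (h : 2 ≤ F.card) : {0, 1, 3} ∈ F := by
  have h1 : ∃ A ∈ F, A ≠ Ico 0 (0 + (2 + 1)) := by
    by_contra hcon
    push Not at hcon
    have h2 : F ⊆ {Ico 0 (0 + (2 + 1))} := fun A hA => mem_singleton.2 (hcon A hA)
    have h3 := card_le_card h2
    rw [card_singleton] at h3
    omega
  obtain ⟨A, hA, hne⟩ := h1
  have h2 := shd_second hs 0 2 _ A le_rfl hA (hu A hA).2 (fun a _ => Nat.zero_le a) hne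
  have e : insert (0 + 2 + 1) (Ico 0 (0 + 2)) = ({0, 1, 3} : Finset ℕ) := by decide
  rw [← e]
  exact h2

/-- cross-intersecting families of triples, both with at least two members -/
theorem crossX {n : ℕ} (hn : 6 ≤ n) {F G : Finset (Finset ℕ)} (uF : Unif 3 n F)
    (uG : Unif 3 n G) (hc : Cross F G) (hF : 2 ≤ F.card) (hG : 2 ≤ G.card) :
    F.card + G.card + 3 * n ≤ n ^ 2 + 2 := by
  obtain ⟨F', G', r1, r2, r3, r4, r5, r6, r7⟩ := exists_shd_pair _ F G le_rfl hc uF uG
  rw [← r6] at hF ⊢
  rw [← r7] at hG ⊢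
  exact triplesX hn F' G' r4 r5 r1 r2 r3
    (min012 r4 r1 (card_pos.1 (by omega))) (min013 r4 r1 hF)
    (min012 r5 r2 (card_pos.1 (by omega))) (min013 r5 r2 hG)

/-- cross-intersecting families of triples, both not empty -/
theorem crossY {n : ℕ} (hn : 6 ≤ n) {F G : Finset (Finset ℕ)} (uF : Unif 3 n F)
    (uG : Unif 3 n G) (hc : Cross F G) (hF : 1 ≤ F.card) (hG : 1 ≤ G.card) :
    2 * (F.card + G.card) + 15 * n ≤ 3 * n ^ 2 + 22 := by
  obtain ⟨F', G', r1, r2, r3, r4, r5, r6, r7⟩ := exists_shd_pair _ F G le_rfl hc uF uG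
  rw [← r6] at hF ⊢
  rw [← r7] at hG ⊢
  exact triplesY hn F' G' r4 r5 r1 r2 r3
    (min012 r4 r1 (card_pos.1 (by omega))) (min012 r5 r2 (card_pos.1 (by omega)))

/-- relabelling -/
theorem relabel {k : ℕ} (W : Finset ℕ) (F G : Finset (Finset ℕ))
    (hF : ∀ A ∈ F, A ⊆ W ∧ A.card = k) (hG : ∀ A ∈ G, A ⊆ W ∧ A.card = k) (hc : Cross F G) :
    ∃ F' G' : Finset (Finset ℕ), Unif k W.card F' ∧ Unif k W.card G' ∧ Cross F' G' ∧
      F'.card = F.card ∧ G'.card = G.card := by
  obtain ⟨e, he⟩ : ∃ e : ℕ → ℕ, e = fun i => (W.filter fun x => x < i).card := ⟨_, rfl⟩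
  have hlt : ∀ i ∈ W, ∀ j ∈ W, i < j → e i < e j := by
    intro i hi j _ hij
    rw [he]
    refine card_lt_card ?_
    rw [ssubset_iff_of_subset]
    · refine ⟨i, mem_filter.2 ⟨hi, hij⟩, ?_⟩
      rw [mem_filter]
      exact fun h => lt_irrefl _ h.2
    · intro x hx
      rw [mem_filter] at hx ⊢
      exact ⟨hx.1, hx.2.trans hij⟩
  have hinj : ∀ i ∈ W, ∀ j ∈ W, e i = e j → i = j := by
    intro i hi j hj h
    rcases lt_trichotomy i j with h1 | h1 | h1
    · have := hlt i hi j hj h1
      omega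
    · exact h1
    · have := hlt j hj i hi h1
      omega
  have hrange : ∀ i ∈ W, e i < W.card := by
    intro i hi
    rw [he]
    refine card_lt_card ?_
    rw [ssubset_iff_of_subset (filter_subset _ _)]
    refine ⟨i, hi, ?_⟩
    rw [mem_filter]
    exact fun h => lt_irrefl _ h.2
  have hinjOn : ∀ A : Finset ℕ, A ⊆ W → Set.InjOn e (A : Set ℕ) :=
    fun A hA i hi j hj h => hinj i (hA hi) j (hA hj) h
  have hU : ∀ F : Finset (Finset ℕ), (∀ A ∈ F, A ⊆ W ∧ A.card = k) →
      Unif k W.card (F.image fun A => A.image e) ∧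
        (F.image fun A => A.image e).card = F.card := by
    intro F hF
    refine ⟨?_, card_image_of_injOn ?_⟩
    · intro B hB
      obtain ⟨A, hA, rfl⟩ := mem_image.1 hB
      obtain ⟨h1, h2⟩ := hF A hA
      refine ⟨?_, ?_⟩
      · intro x hx
        obtain ⟨i, hi, rfl⟩ := mem_image.1 hx
        exact mem_range.2 (hrange i (h1 hi))
      · rw [card_image_of_injOn (hinjOn A h1), h2]
    · intro A hA B hB h
      have hAW := (hF A hA).1
      have hBW := (hF B hB).1
      have h' : A.image e = B.image e := h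
      ext x
      constructor
      · intro hx
        have h1 : e x ∈ B.image e := by
          rw [← h']
          exact mem_image_of_mem e hx
        obtain ⟨y, hy, hxy⟩ := mem_image.1 h1
        rw [← hinj y (hBW hy) x (hAW hx) hxy]
        exact hy
      · intro hx
        have h1 : e x ∈ A.image e := by
          rw [h']
          exact mem_image_of_mem e hx
        obtain ⟨y, hy, hxy⟩ := mem_image.1 h1
        rw [← hinj y (hAW hy) x (hBW hx) hxy]
        exact hy
  refine ⟨F.image fun A => A.image e, G.image fun A => A.image e, (hU F hF).1, (hU G hG).1, ?_,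
    (hU F hF).2, (hU G hG).2⟩
  intro A' hA' B' hB'
  obtain ⟨A, hA, rfl⟩ := mem_image.1 hA'
  obtain ⟨B, hB, rfl⟩ := mem_image.1 hB'
  obtain ⟨x, hx⟩ := hc A hA B hB
  rw [mem_inter] at hx
  exact ⟨e x, mem_inter.2 ⟨mem_image_of_mem e hx.1, mem_image_of_mem e hx.2⟩⟩

/-! ### the last step -/

/-- number of members missing a point -/
def miss (l : ℕ) (F : Finset (Finset ℕ)) : ℕ := (F.filter fun A => l ∉ A).card

theorem miss_SH {i j l : ℕ} (hl : l ≠ i) (F : Finset (Finset ℕ)) :
    miss l F ≤ miss l (SH i j F) := by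
  unfold miss
  refine card_le_card_of_injOn (fun A => if sh i j A ∈ F then A else sh i j A) ?_ ?_
  · intro A hA
    have hA' := mem_filter.1 (mem_coe.1 hA)
    refine mem_coe.2 (mem_filter.2 ⟨mem_image_of_mem _ hA'.1, ?_⟩)
    show l ∉ (if sh i j A ∈ F then A else sh i j A)
    by_cases h : sh i j A ∈ F
    · rw [if_pos h]
      exact hA'.2
    · rw [if_neg h]
      by_cases h2 : j ∈ A ∧ i ∉ A
      · rw [sh_pos h2.1 h2.2]
        intro hh
        rcases mem_insert.1 hh with hh | hh
        · exact hl hh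
        · exact hA'.2 (mem_of_mem_erase hh)
      · rw [sh_neg h2]
        exact hA'.2
  · intro A hA B hB h
    exact SH_injOn i j F (mem_coe.2 (mem_filter.1 (mem_coe.1 hA)).1)
      (mem_coe.2 (mem_filter.1 (mem_coe.1 hB)).1) h

theorem miss_both {i j : ℕ} (F : Finset (Finset ℕ)) :
    (F.filter fun A => i ∉ A ∧ j ∉ A).card ≤ miss i (SH i j F) := by
  unfold miss
  refine card_le_card ?_
  intro A hA
  rw [mem_filter] at hA ⊢
  refine ⟨mem_SH.2 (Or.inl ⟨hA.1, ?_⟩), hA.2.1⟩
  rw [sh_neg (fun h => hA.2.2 h.1)]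
  exact hA.1

theorem ch2 (w : ℕ) : 2 * (w + 1).choose 2 = (w + 1) * w := by
  induction w with
  | zero => rfl
  | succ w ih =>
    rw [Nat.choose_succ_succ (w + 1) 1, Nat.choose_one_right, Nat.mul_add, ih]
    ring

theorem ch3 (w : ℕ) : 6 * (w + 2).choose 3 = (w + 2) * (w + 1) * w := by
  induction w with
  | zero => rfl
  | succ w ih =>
    rw [Nat.choose_succ_succ (w + 2) 2, Nat.mul_add, ih]
    have h := ch2 (w + 1)
    have e : 6 * (w + 2).choose (2) = 3 * (2 * (w + 1 + 1).choose 2) := by ring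
    rw [e, h]
    ring

theorem final4 {v : ℕ} (hv : 8 ≤ v) {F : Finset (Finset ℕ)} (hu : Unif 4 v F) (hc : Cross F F)
    {x y : ℕ} (hx : x < v) (hy : y < v) (hxy : x ≠ y) (mx : 2 ≤ miss x F) (my : 2 ≤ miss y F)
    (hc1 : (F.filter fun A => x ∉ A ∧ y ∉ A).card ≤ 1) :
    2 * F.card + 19 * v ≤ 3 * v ^ 2 + 30 := by
  obtain ⟨w, rfl⟩ : ∃ w, v = w + 2 := ⟨v - 2, by omega⟩
  have hw : 6 ≤ w := by omega
  obtain ⟨W, hW⟩ : ∃ W, W = ((range (w + 2)).erase x).erase y := ⟨_, rfl⟩
  have hWc : W.card = w := by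
    rw [hW, card_erase_of_mem (mem_erase.2 ⟨hxy.symm, mem_range.2 hy⟩),
      card_erase_of_mem (mem_range.2 hx), card_range]
    omega
  have hWm : ∀ z, z ∈ W ↔ z ≠ y ∧ z ≠ x ∧ z < w + 2 := by
    intro z
    rw [hW, mem_erase, mem_erase, mem_range]
  obtain ⟨A0, hA0⟩ : ∃ A0, A0 = F.filter fun A => x ∈ A ∧ y ∉ A := ⟨_, rfl⟩
  obtain ⟨B0, hB0⟩ : ∃ B0, B0 = F.filter fun A => y ∈ A ∧ x ∉ A := ⟨_, rfl⟩
  obtain ⟨C0, hC0⟩ : ∃ C0, C0 = F.filter fun A => x ∈ A ∧ y ∈ A := ⟨_, rfl⟩
  obtain ⟨D0, hD0⟩ : ∃ D0, D0 = F.filter fun A => x ∉ A ∧ y ∉ A := ⟨_, rfl⟩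
  have hcx : F.card = (F.filter fun A => x ∈ A).card + (F.filter fun A => x ∉ A).card :=
    (card_filter_add_card_filter_not (s := F) (fun A => x ∈ A)).symm
  have hcy : F.card = (F.filter fun A => y ∈ A).card + (F.filter fun A => y ∉ A).card :=
    (card_filter_add_card_filter_not (s := F) (fun A => y ∈ A)).symm
  have h1 : (F.filter fun A => x ∈ A).card = C0.card + A0.card := by
    rw [← card_filter_add_card_filter_not (s := F.filter fun A => x ∈ A) (fun A => y ∈ A),
      filter_filter, filter_filter, hA0, hC0]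
  have h2 : (F.filter fun A => x ∉ A).card = B0.card + D0.card := by
    rw [← card_filter_add_card_filter_not (s := F.filter fun A => x ∉ A) (fun A => y ∈ A),
      filter_filter, filter_filter, hB0, hD0]
    congr 2
    ext A
    rw [mem_filter, mem_filter]
    tauto
  have h3 : (F.filter fun A => y ∉ A).card = A0.card + D0.card := by
    rw [← card_filter_add_card_filter_not (s := F.filter fun A => y ∉ A) (fun A => x ∈ A),
      filter_filter, filter_filter, hA0, hD0]
    congr 2
    · ext A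
      rw [mem_filter, mem_filter]
      tauto
    · ext A
      rw [mem_filter, mem_filter]
      tauto
  have mx' : 2 ≤ B0.card + D0.card := by
    rw [← h2]
    exact mx
  have my' : 2 ≤ A0.card + D0.card := by
    rw [← h3]
    exact my
  have hD1 : D0.card ≤ 1 := by
    rw [hD0]
    exact hc1
  -- the triples
  have hA : ∀ T ∈ lk x A0, T ⊆ W ∧ T.card = 3 := by
    intro T hT
    rw [mem_lk, hA0, mem_filter] at hT
    obtain ⟨t1, t2, _, t3⟩ := hT
    obtain ⟨u1, u2⟩ := hu _ t2
    rw [card_insert_of_notMem t1] at u2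
    refine ⟨fun z hz => ?_, by omega⟩
    rw [hWm]
    exact ⟨fun h => t3 (h ▸ mem_insert_of_mem hz), fun h => t1 (h ▸ hz),
      mem_range.1 (u1 (mem_insert_of_mem hz))⟩
  have hB : ∀ T ∈ lk y B0, T ⊆ W ∧ T.card = 3 := by
    intro T hT
    rw [mem_lk, hB0, mem_filter] at hT
    obtain ⟨t1, t2, _, t3⟩ := hT
    obtain ⟨u1, u2⟩ := hu _ t2
    rw [card_insert_of_notMem t1] at u2
    refine ⟨fun z hz => ?_, by omega⟩
    rw [hWm]
    exact ⟨fun h => t1 (h ▸ hz), fun h => t3 (h ▸ mem_insert_of_mem hz),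
      mem_range.1 (u1 (mem_insert_of_mem hz))⟩
  have cA : (lk x A0).card = A0.card := by
    rw [card_lk]
    congr 1
    rw [filter_eq_self, hA0]
    intro A hA
    exact (mem_filter.1 hA).2.1
  have cB : (lk y B0).card = B0.card := by
    rw [card_lk]
    congr 1
    rw [filter_eq_self, hB0]
    intro A hA
    exact (mem_filter.1 hA).2.1
  have hAB : Cross (lk x A0) (lk y B0) := by
    intro T hT S hS
    rw [mem_lk, hA0, mem_filter] at hT
    rw [mem_lk, hB0, mem_filter] at hS
    obtain ⟨t1, t2, _, t3⟩ := hT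
    obtain ⟨s1, s2, _, s3⟩ := hS
    obtain ⟨z, hz⟩ := hc _ t2 _ s2
    rw [mem_inter] at hz
    obtain ⟨z1, z2⟩ := hz
    rcases mem_insert.1 z1 with z3 | z3
    · rw [z3] at z2
      exact absurd z2 s3
    · rcases mem_insert.1 z2 with z4 | z4
      · rw [z4] at z1
        exact absurd z1 t3
      · exact ⟨z, mem_inter.2 ⟨z3, z4⟩⟩
  obtain ⟨A', B', r1, r2, r3, r4, r5⟩ := relabel W (lk x A0) (lk y B0) hA hB hAB
  rw [hWc] at r1 r2
  -- the pairs
  have cC : (C0.image fun A => (A.erase x).erase y).card = C0.card := by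
    refine card_image_of_injOn ?_
    intro A hA B hB h
    have hA' := mem_coe.1 hA
    have hB' := mem_coe.1 hB
    rw [hC0, mem_filter] at hA' hB'
    have h' : (A.erase x).erase y = (B.erase x).erase y := h
    have e1 : A.erase x = B.erase x := by
      rw [← insert_erase (mem_erase.2 ⟨hxy.symm, hA'.2.2⟩),
        ← insert_erase (mem_erase.2 ⟨hxy.symm, hB'.2.2⟩), h']
    rw [← insert_erase hA'.2.1, ← insert_erase hB'.2.1, e1]
  have hCs : (C0.image fun A => (A.erase x).erase y) ⊆ powersetCard 2 W := by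
    intro P hP
    obtain ⟨A, hA, rfl⟩ := mem_image.1 hP
    rw [hC0, mem_filter] at hA
    obtain ⟨u1, u2⟩ := hu _ hA.1
    rw [mem_powersetCard]
    refine ⟨fun z hz => ?_, ?_⟩
    · rw [mem_erase, mem_erase] at hz
      rw [hWm]
      exact ⟨hz.1, hz.2.1, mem_range.1 (u1 hz.2.2)⟩
    · rw [card_erase_of_mem (mem_erase.2 ⟨hxy.symm, hA.2.2⟩), card_erase_of_mem hA.2.1, u2]
  have hsq : 3 * (w + 2) ^ 2 + 30 = 3 * w ^ 2 + 12 * w + 42 := by ring
  have hww : w ^ 2 = w * w := by ring
  obtain ⟨w', hw'⟩ : ∃ w', w = w' + 6 := ⟨w - 6, by omega⟩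
  rcases Nat.eq_zero_or_pos D0.card with hD | hD
  · have hX := crossX hw r1 r2 r3 (by omega) (by omega)
    have hC := card_le_card hCs
    rw [cC, card_powersetCard, hWc] at hC
    have hch : 2 * w.choose 2 = w * w - w := by
      have := ch2 (w' + 5)
      rw [hw', show w' + 5 + 1 = w' + 6 from rfl] at *
      rw [this]
      have e : (w' + 6) * (w' + 6) = (w' + 6) * (w' + 5) + (w' + 6) := by ring
      omega
    have hle : w ≤ w * w := Nat.le_mul_self w
    rw [hsq]
    rw [hww] at hX ⊢
    omega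
  · have hY := crossY hw r1 r2 r3 (by omega) (by omega)
    obtain ⟨D, hD'⟩ := card_pos.1 hD
    rw [hD0, mem_filter] at hD'
    obtain ⟨d1, d2, d3⟩ := hD'
    obtain ⟨u1, u2⟩ := hu _ d1
    have hDW : D ⊆ W := by
      intro z hz
      rw [hWm]
      exact ⟨fun h => d3 (h ▸ hz), fun h => d2 (h ▸ hz), mem_range.1 (u1 hz)⟩
    have hCs2 : (C0.image fun A => (A.erase x).erase y) ⊆
        powersetCard 2 W \ powersetCard 2 (W \ D) := by
      intro P hP
      rw [mem_sdiff]
      refine ⟨hCs hP, ?_⟩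
      obtain ⟨A, hA, rfl⟩ := mem_image.1 hP
      rw [hC0, mem_filter] at hA
      intro hh
      rw [mem_powersetCard] at hh
      obtain ⟨z, hz⟩ := hc _ hA.1 _ d1
      rw [mem_inter] at hz
      have z1 : z ∈ (A.erase x).erase y := by
        rw [mem_erase, mem_erase]
        exact ⟨fun h => d3 (h ▸ hz.2), fun h => d2 (h ▸ hz.2), hz.1⟩
      exact (mem_sdiff.1 (hh.1 z1)).2 hz.2
    have hC := card_le_card hCs2
    have hsub : powersetCard 2 (W \ D) ⊆ powersetCard 2 W := powersetCard_mono sdiff_subset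
    rw [cC, card_sdiff_of_subset hsub, card_powersetCard, card_powersetCard, card_sdiff_of_subset hDW,
      hWc, u2] at hC
    have hch : 2 * w.choose 2 = w * w - w := by
      have := ch2 (w' + 5)
      rw [hw', show w' + 5 + 1 = w' + 6 from rfl] at *
      rw [this]
      have e : (w' + 6) * (w' + 6) = (w' + 6) * (w' + 5) + (w' + 6) := by ring
      omega
    have hch2 : 2 * (w - 4).choose 2 + 9 * w = w * w + 20 := by
      have := ch2 (w' + 1)
      rw [hw']
      have e0 : w' + 6 - 4 = w' + 1 + 1 := by omega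
      rw [e0, this]
      ring
    have hle : w ≤ w * w := Nat.le_mul_self w
    rw [hsq]
    rw [hww] at hY ⊢
    omega

theorem stab4_aux {v : ℕ} (hv : 8 ≤ v) : ∀ (N : ℕ) (F : Finset (Finset ℕ)), wt F ≤ N →
    Unif 4 v F → Cross F F → (∀ i, i < v → 2 ≤ miss i F) →
      2 * F.card + 19 * v ≤ 3 * v ^ 2 + 30 := by
  intro N
  induction N using Nat.strong_induction_on with
  | _ N ih =>
    intro F hN hu hc hm
    by_cases hs : Shd F
    · have h0 := hm 0 (by omega)
      unfold miss at h0
      have m1 : {1, 2, 3, 4} ∈ F := by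
        obtain ⟨A, hA⟩ := card_pos.1 (show 0 < (F.filter fun A => 0 ∉ A).card by omega)
        rw [mem_filter] at hA
        have h1 := shd_min hs 1 4 _ A le_rfl hA.1 (hu A hA.1).2 (by
          intro a ha
          by_contra hh
          have : a = 0 := by omega
          exact hA.2 (this ▸ ha))
        have e : Ico 1 (1 + 4) = ({1, 2, 3, 4} : Finset ℕ) := by decide
        rw [← e]
        exact h1
      have m2 : {1, 2, 3, 5} ∈ F := by
        have h1 : ∃ A ∈ F.filter (fun A => 0 ∉ A), A ≠ Ico 1 (1 + (3 + 1)) := by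
          by_contra hcon
          push Not at hcon
          have h2 : (F.filter fun A => 0 ∉ A) ⊆ {Ico 1 (1 + (3 + 1))} :=
            fun A hA => mem_singleton.2 (hcon A hA)
          have h3 := card_le_card h2
          rw [card_singleton] at h3
          omega
        obtain ⟨A, hA, hne⟩ := h1
        rw [mem_filter] at hA
        have h2 := shd_second hs 1 3 _ A le_rfl hA.1 (hu A hA.1).2 (by
          intro a ha
          by_contra hh
          have : a = 0 := by omega
          exact hA.2 (this ▸ ha)) hne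
        have e : insert (1 + 3 + 1) (Ico 1 (1 + 3)) = ({1, 2, 3, 5} : Finset ℕ) := by decide
        rw [← e]
        exact h2
      exact quads_single hv F hu hs hc m1 m2
    · obtain ⟨i, j, A, hij, hA, a1, a2, a3⟩ := not_shd hs
      have hjv := mem_range.1 ((hu A hA).1 a1)
      by_cases hall : ∀ l, l < v → 2 ≤ miss l (SH i j F)
      · have hw := wt_SH_lt hij hA a1 a2 a3
        have h1 := ih (wt (SH i j F)) (by omega) (SH i j F) le_rfl (SH_unif hij hu) (SH_cross hc)
          hall
        rw [card_SH] at h1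
        exact h1
      · push Not at hall
        obtain ⟨l, hl, hl2⟩ := hall
        have hli : l = i := by
          by_contra hne
          have h1 := miss_SH (j := j) hne F
          have h2 := hm l hl
          omega
        rw [hli] at hl2 hl
        have h3 := miss_both (i := i) (j := j) F
        exact final4 hv hu hc hl hjv (by omega) (hm i hl) (hm j hjv) (by omega)

/-- stability: an intersecting family of 4-subsets of `range v`, `v ≥ 8`: some point is missed by
at most one member, or there are at most `(3 v ^ 2 - 19 v + 30) / 2` members -/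
theorem stab4 (v : ℕ) (hv : 8 ≤ v) (F : Finset (Finset ℕ)) (hs : ∀ A ∈ F, A ⊆ range v)
    (hc : ∀ A ∈ F, A.card = 4) (hi : ∀ A ∈ F, ∀ B ∈ F, (A ∩ B).Nonempty) :
    (∃ i ∈ range v, (F.filter fun A => i ∉ A).card ≤ 1) ∨
      2 * F.card + 19 * v ≤ 3 * v ^ 2 + 30 := by
  by_cases h : ∃ i ∈ range v, (F.filter fun A => i ∉ A).card ≤ 1
  · exact Or.inl h
  · right
    push Not at h
    refine stab4_aux hv _ F le_rfl (fun A hA => ⟨hs A hA, hc A hA⟩) hi ?_
    intro i hi
    exact h i (mem_range.2 hi)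

/-- Hilton-Milner for `k = 4` -/
theorem hm4 (v : ℕ) (hv : 8 ≤ v) (F : Finset (Finset ℕ)) (hs : ∀ A ∈ F, A ⊆ range v)
    (hc : ∀ A ∈ F, A.card = 4) (hi : ∀ A ∈ F, ∀ B ∈ F, (A ∩ B).Nonempty)
    (hst : ∀ i ∈ range v, ∃ A ∈ F, i ∉ A) : F.card + 16 * v ≤ 2 * v ^ 2 + 35 := by
  obtain ⟨u, rfl⟩ : ∃ u, v = u + 8 := ⟨v - 8, by omega⟩
  have hsq : 2 * (u + 8) ^ 2 + 35 = 2 * (u * u) + 32 * u + 163 := by ring
  have hsq3 : 3 * (u + 8) ^ 2 + 30 = 3 * (u * u) + 48 * u + 222 := by ring
  rcases stab4 (u + 8) hv F hs hc hi with ⟨i, hi', h1⟩ | h1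
  · obtain ⟨A, hA, hiA⟩ := hst i hi'
    obtain ⟨W, hW⟩ : ∃ W, W = (range (u + 8)).erase i := ⟨_, rfl⟩
    have hWc : W.card = u + 7 := by
      rw [hW, card_erase_of_mem hi', card_range]
      omega
    have hAW : A ⊆ W := by
      intro z hz
      rw [hW, mem_erase]
      exact ⟨fun h => hiA (h ▸ hz), hs A hA hz⟩
    have hsub : lk i F ⊆ powersetCard 3 W \ powersetCard 3 (W \ A) := by
      intro T hT
      rw [mem_lk] at hT
      have c1 := hc _ hT.2
      rw [card_insert_of_notMem hT.1] at c1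
      have c2 := hs _ hT.2
      rw [mem_sdiff, mem_powersetCard, mem_powersetCard]
      refine ⟨⟨fun z hz => ?_, by omega⟩, ?_⟩
      · rw [hW, mem_erase]
        exact ⟨fun h => hT.1 (h ▸ hz), c2 (mem_insert_of_mem hz)⟩
      · rintro ⟨h2, _⟩
        obtain ⟨z, hz⟩ := hi _ hT.2 _ hA
        rw [mem_inter, mem_insert] at hz
        rcases hz with ⟨rfl | z1, z2⟩
        · exact hiA z2
        · exact (mem_sdiff.1 (h2 z1)).2 z2
    have h2 := card_le_card hsub
    have hsub2 : powersetCard 3 (W \ A) ⊆ powersetCard 3 W := powersetCard_mono sdiff_subset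
    rw [card_sdiff_of_subset hsub2, card_powersetCard, card_powersetCard,
      card_sdiff_of_subset hAW, hWc, hc A hA] at h2
    have h3 := card_del_lk i F
    unfold del at h3
    have h4 := ch3 (u + 5)
    have h5 := ch3 (u + 1)
    have e1 : u + 7 - 4 = u + 1 + 2 := by omega
    have e2 : u + 7 = u + 5 + 2 := rfl
    rw [e1, e2] at h2
    have e3 : (u + 5 + 2) * (u + 5 + 1) * (u + 5) =
        (u + 1 + 2) * (u + 1 + 1) * (u + 1) + (12 * (u * u) + 96 * u + 204) := by ring
    rw [e3, ← h5] at h4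
    rw [hsq]
    omega
  · rw [hsq3] at h1
    rw [hsq]
    have : u ≤ u * u ∨ u = 0 := by
      rcases Nat.eq_zero_or_pos u with h | h
      · exact Or.inr h
      · exact Or.inl (Nat.le_mul_of_pos_left u h)
    omega

end Pool.Agent.Stahl
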