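import Pool.Agent.Lib.MP_6805b2_co.ST.Defs

/-!
# StabM: two simple bounds

`mis`: members containing `i` when some member `Y` misses `i`: they are `insert i Z`, `Z` a 3-subset
of `V.erase i` meeting `Y`; the 3-subsets of `V.erase i` disjoint from `Y` are the 3-subsets of
`(V.erase i) \ Y`, there are `C(v - 5, 3)` of them, out of `C(v - 1, 3)`.

`eight`: of two complementary 4-subsets of an 8-set at most one is a member; `70 / 2 = 35`
(the map `X ↦ V \ X` sends `F` injectively into `V.powersetCard 4 \ F`).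
-/

namespace Pool.Agent.Lib.MP_6805b2_co.ST

open Finset

theorem mis (V : Finset ℕ) (hv : 5 ≤ V.card) (F : Finset (Finset ℕ)) (hF : Unif 4 V F)
    (h : Cross F F) (i : ℕ) (hi : i ∈ V) (Y : Finset ℕ) (hY : Y ∈ F) (hiY : i ∉ Y) :
    (F.filter (fun X => i ∈ X)).card + (V.card - 5).choose 3 ≤ (V.card - 1).choose 3 := by
  have hYW : Y ⊆ V.erase i := fun z hz =>
    mem_erase.2 ⟨fun hh => hiY (hh ▸ hz), (hF Y hY).1 hz⟩
  have hWc : (V.erase i).card = V.card - 1 := card_erase_of_mem hi
  have hc : ((F.filter (fun X => i ∈ X)).image fun X => X.erase i).card =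
      (F.filter (fun X => i ∈ X)).card := by
    refine card_image_of_injOn ?_
    intro A hA B hB hh
    have hA' := (mem_filter.1 (mem_coe.1 hA)).2
    have hB' := (mem_filter.1 (mem_coe.1 hB)).2
    have h' : A.erase i = B.erase i := hh
    rw [← insert_erase hA', ← insert_erase hB', h']
  have hsub : ((F.filter (fun X => i ∈ X)).image fun X => X.erase i) ⊆
      powersetCard 3 (V.erase i) \ powersetCard 3 (V.erase i \ Y) := by
    intro T hT
    obtain ⟨X, hX, rfl⟩ := mem_image.1 hT
    rw [mem_filter] at hX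
    obtain ⟨u1, u2⟩ := hF X hX.1
    rw [mem_sdiff, mem_powersetCard, mem_powersetCard]
    refine ⟨⟨erase_subset_erase i u1, ?_⟩, ?_⟩
    · rw [card_erase_of_mem hX.2, u2]
    · rintro ⟨h2, _⟩
      refine h X hX.1 Y hY ?_
      rw [disjoint_left]
      intro z z1 z2
      have z3 : z ≠ i := fun hh => hiY (hh ▸ z2)
      exact (mem_sdiff.1 (h2 (mem_erase.2 ⟨z3, z1⟩))).2 z2
  have h1 := card_le_card hsub
  have hsub2 : powersetCard 3 (V.erase i \ Y) ⊆ powersetCard 3 (V.erase i) :=
    powersetCard_mono sdiff_subset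
  rw [hc, card_sdiff_of_subset hsub2, card_powersetCard, card_powersetCard,
    card_sdiff_of_subset hYW, hWc, (hF Y hY).2] at h1
  have e : V.card - 1 - 4 = V.card - 5 := by omega
  rw [e] at h1
  have h3 : (V.card - 5).choose 3 ≤ (V.card - 1).choose 3 := Nat.choose_le_choose 3 (by omega)
  omega

theorem eight (V : Finset ℕ) (hv : V.card = 8) (F : Finset (Finset ℕ)) (hF : Unif 4 V F)
    (h : Cross F F) : F.card ≤ 35 := by
  have h1 : (F.image fun A => V \ A).card = F.card := by
    refine card_image_of_injOn ?_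
    intro A hA B hB hh
    have hh' : V \ A = V \ B := hh
    rw [← Finset.sdiff_sdiff_eq_self (hF A (mem_coe.1 hA)).1,
      ← Finset.sdiff_sdiff_eq_self (hF B (mem_coe.1 hB)).1, hh']
  have h2 : Disjoint F (F.image fun A => V \ A) := by
    rw [disjoint_left]
    intro A hA hA'
    obtain ⟨B, hB, rfl⟩ := mem_image.1 hA'
    exact h _ hA B hB sdiff_disjoint
  have h3 : F ∪ (F.image fun A => V \ A) ⊆ powersetCard 4 V := by
    intro A hA
    rw [mem_powersetCard]
    rcases mem_union.1 hA with hA | hA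
    · exact hF A hA
    · obtain ⟨B, hB, rfl⟩ := mem_image.1 hA
      refine ⟨sdiff_subset, ?_⟩
      rw [card_sdiff_of_subset (hF B hB).1, hv, (hF B hB).2]
  have h4 := card_le_card h3
  rw [card_union_of_disjoint h2, h1, card_powersetCard, hv] at h4
  have h5 : (8 : ℕ).choose 4 = 70 := by decide
  omega

end Pool.Agent.Lib.MP_6805b2_co.ST
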