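import Pool.Agent.Lib.MP_6805b2_co.ST.Rel
import Pool.Agent.Lib.MP_6805b2_co.ST.StabM
import Pool.Agent.Lib.MP_6805b2_co.ST.Stab4

/-!
# StabV: the stability theorem and the Hilton-Milner bound on a ground set `V`

helper18 proves `stab4` (the same statement on `range v`) and the Hilton-Milner bound `hm4` on
`range v` (file `Stab4.lean`); here they are transferred to a finite set `V` of naturals with `Rel`
(`relabel`, `rel_unif`, `rel_card`, `rel_cross`, `rel_miss`). A point of `range V.card` is `e i`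
with `i ∈ V`.
-/

namespace Pool.Agent.Lib.MP_6805b2_co.ST

open Finset

private theorem stab_nd {X Y : Finset ℕ} (h : ¬ Disjoint X Y) : (X ∩ Y).Nonempty := by
  rw [disjoint_iff_inter_eq_empty] at h
  exact nonempty_iff_ne_empty.2 h

theorem stabV (V : Finset ℕ) (hv : 9 ≤ V.card) (F : Finset (Finset ℕ)) (hF : Unif 4 V F)
    (h : Cross F F) :
    (∃ i ∈ V, (F.filter (fun X => i ∉ X)).card ≤ 1) ∨
      2 * F.card + 19 * V.card ≤ 3 * V.card ^ 2 + 30 := by
  obtain ⟨e, he, hV⟩ := relabel V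
  have h1 := rel_unif 4 V e he hV F hF
  have h2 := rel_cross 4 V e he F F hF hF h
  rcases Pool.Agent.Stahl.stab4 V.card (by omega) (F.image (fun X => X.image e))
    (fun A hA => (h1 A hA).1) (fun A hA => (h1 A hA).2)
    (fun A hA B hB => stab_nd (h2 A hA B hB)) with ⟨i, hi, h3⟩ | h3
  · left
    rw [← hV] at hi
    obtain ⟨j, hj, rfl⟩ := mem_image.1 hi
    rw [rel_miss 4 V e he F hF j hj] at h3
    exact ⟨j, hj, h3⟩
  · right
    rw [rel_card 4 V e he F hF] at h3
    exact h3

theorem hmb (V : Finset ℕ) (hv : 9 ≤ V.card) (F : Finset (Finset ℕ)) (hF : Unif 4 V F)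
    (h : Cross F F) (hns : ∀ i ∈ V, ∃ X ∈ F, i ∉ X) :
    F.card + 16 * V.card ≤ 2 * V.card ^ 2 + 35 := by
  obtain ⟨e, he, hV⟩ := relabel V
  have h1 := rel_unif 4 V e he hV F hF
  have h2 := rel_cross 4 V e he F F hF hF h
  have h3 := Pool.Agent.Stahl.hm4 V.card (by omega) (F.image (fun X => X.image e))
    (fun A hA => (h1 A hA).1) (fun A hA => (h1 A hA).2)
    (fun A hA B hB => stab_nd (h2 A hA B hB)) (by
      intro i hi
      rw [← hV] at hi
      obtain ⟨j, hj, rfl⟩ := mem_image.1 hi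
      obtain ⟨X, hX, hjX⟩ := hns j hj
      refine ⟨X.image e, mem_image_of_mem _ hX, ?_⟩
      intro hh
      obtain ⟨y, hy, hxy⟩ := mem_image.1 hh
      rw [he (mem_coe.2 ((hF X hX).1 hy)) (mem_coe.2 hj) hxy] at hy
      exact hjX hy)
  rw [rel_card 4 V e he F hF] at h3
  exact h3

end Pool.Agent.Lib.MP_6805b2_co.ST
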