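import Pool.Agent.Lib.MP_6805b2_co.ST.MinA
import Pool.Agent.Lib.MP_6805b2_co.ST.StabV
import Pool.Agent.Lib.MP_6805b2_co.ST.Num

/-!
# Count: the Hilton-Milner count

By `nostar` and `hmb` every class satisfies `|F c| + 16 v ≤ 2 v^2 + 35`; sum over `c ∈ C` and use
`dc_all`, `teq` and `num1`.
-/

namespace Pool.Agent.Lib.MP_6805b2_co.ST

open Finset

theorem count (V : Finset ℕ) (d : ℕ → ℕ) (C : Finset ℕ) (F : ℕ → Finset (Finset ℕ))
    (h : Minl V d C F) :
    10 ≤ V.card ∧ wt d V ≤ 5 ∧ (wt d V = 5 → 13 ≤ V.card ∧ V.card ≤ 15) ∧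
      (wt d V = 4 → 12 ≤ V.card ∧ V.card ≤ 20) ∧ (2 ≤ wt d V → 11 ≤ V.card) := by
  have h9 := v9 V d C F h.bad
  have ht := teq V d C F h
  have hu : ∀ c ∈ C, Unif 4 V (F c) := fun c hc X hX => h.bad.sys.sub c hc X hX
  have hb : ∀ c ∈ C, (F c).card + 16 * V.card ≤ 2 * V.card ^ 2 + 35 := by
    intro c hc
    refine hmb V h9 (F c) (hu c hc) (fun X hX Y hY => h.bad.sys.int c hc X hX Y hY) ?_
    intro i hi
    exact nostar V d C F h c hc i hi
  have hs := Finset.sum_le_sum hb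
  rw [Finset.sum_add_distrib, Finset.sum_const, Finset.sum_const, smul_eq_mul, smul_eq_mul] at hs
  have hd := dc_all V d C F h.bad.sys
  have := num1 V.card (wt d V) C.card h9 ht (by nlinarith)
  exact this

end Pool.Agent.Lib.MP_6805b2_co.ST
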