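import Pool.Agent.Lib.MP_6805b2_co.ST.D5A

/-!
# D4A: one heavy point of excess four

`d h = 4`, `d = 0` elsewhere on `V`; `12 ≤ v ≤ 20` (`count`), `T = v - 3` (`teq`), `t := |nonHM|`,
`t ≤ 3` (`tb4`). A class outside `nonHM` has data `(i, X)` (`hmc`); by `surg_wt` `d i ≤ d j` for
`j ∈ X`; if `i = h` then `d j ≥ 4` for the four points `j ∈ X`, `j ≠ h`: impossible. So `i ≠ h` and
it has at most `C(v-2,2) + 1` members containing `h` (`hmpt`). A class in `nonHM` has a member
missing `h` (`nostar`), so by `mis` at most `C(v-1,3) - C(v-5,3)` members containing `h`. `dc_pt` at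
`h`: `5 C(v-1,3) ≤ (T - t) (C(v-2,2) + 1) + t (C(v-1,3) - C(v-5,3))`: false for `v = 12, ..., 20`
and `t ≤ 3`.
-/

namespace Pool.Agent.Lib.MP_6805b2_co.ST

open Finset

private theorem d4A_num (v A B : ℕ) (h1 : 12 ≤ v) (h2 : v ≤ 20) (hA : A ≤ 3) (hAB : A + B + 3 = v)
    (h : 5 * (v - 1).choose 3 + A * (v - 5).choose 3 ≤
      B * ((v - 2).choose 2 + 1) + A * (v - 1).choose 3) : False := by
  obtain rfl : B = v - 3 - A := by omega
  interval_cases v <;> interval_cases A <;> revert h <;> decide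

theorem d4A (V : Finset ℕ) (d : ℕ → ℕ) (C : Finset ℕ) (F : ℕ → Finset (Finset ℕ))
    (hM : Minl V d C F) (h : ℕ) (hh : h ∈ V) (h4 : d h = 4) (hd : ∀ x ∈ V, x ≠ h → d x = 0) :
    False := by
  have hD : wt d V = 4 := by
    unfold wt
    rw [Finset.sum_eq_single_of_mem h hh (fun x hx hne => hd x hx hne), h4]
  obtain ⟨hv12, hv20⟩ := (count V d C F hM).2.2.2.1 hD
  have hT := teq V d C F hM
  rw [hD] at hT
  have ht := (tb4 V d C F hM hD).1
  have hsys := hM.bad.sys
  have hu : ∀ c ∈ C, Unif 4 V (F c) := fun c hc X hX => hsys.sub c hc X hX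
  have hdc := dc_pt V d C F hsys h hh
  rw [h4, hD] at hdc
  have hsplit := Finset.sum_filter_add_sum_filter_not C (fun c => c ∈ nonHM V C F)
    (fun c => ((F c).filter (fun X => h ∈ X)).card)
  have hf : C.filter (fun c => c ∈ nonHM V C F) = nonHM V C F := by
    ext c
    rw [mem_filter]
    refine ⟨fun hc => hc.2, fun hc => ⟨?_, hc⟩⟩
    unfold nonHM at hc
    exact (mem_filter.1 hc).1
  have hcard := Finset.card_filter_add_card_filter_not (s := C) (fun c => c ∈ nonHM V C F)
  rw [hf] at hsplit hcard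
  have hA : ∑ c ∈ nonHM V C F, (((F c).filter (fun X => h ∈ X)).card + (V.card - 5).choose 3) ≤
      ∑ _c ∈ nonHM V C F, (V.card - 1).choose 3 := by
    refine Finset.sum_le_sum fun c hc => ?_
    have hcC : c ∈ C := by
      unfold nonHM at hc
      exact (mem_filter.1 hc).1
    obtain ⟨Y, hY, hhY⟩ := nostar V d C F hM c hcC h hh
    exact mis V (by omega) (F c) (hu c hcC) (fun X hX Y hY => hsys.int c hcC X hX Y hY) h hh Y hY hhY
  have hB : ∑ c ∈ C.filter (fun c => ¬ c ∈ nonHM V C F), ((F c).filter (fun X => h ∈ X)).card ≤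
      ∑ _c ∈ C.filter (fun c => ¬ c ∈ nonHM V C F), ((V.card - 2).choose 2 + 1) := by
    refine Finset.sum_le_sum fun c hc => ?_
    obtain ⟨hcC, hcn⟩ := mem_filter.1 hc
    obtain ⟨i, hi, X, hX, hiX, ho⟩ := hmc V d C F hM c hcC hcn
    obtain ⟨hXV, hX4⟩ := hsys.sub c hcC X hX
    have hne : h ≠ i := by
      rintro rfl
      have hXne : X.Nonempty := by
        rw [← Finset.card_pos]
        omega
      obtain ⟨j, hj⟩ := hXne
      have h5 := surg_wt V d C F hM c hcC h hi X hX hiX ho j hj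
      have h6 : d j = 0 := hd j (hXV hj) (fun hjh => hiX (hjh ▸ hj))
      omega
    exact hmpt V (F c) (hu c hcC) i hi X ho h hh hne
  rw [Finset.sum_add_distrib, Finset.sum_const, Finset.sum_const, smul_eq_mul, smul_eq_mul] at hA
  rw [Finset.sum_const, smul_eq_mul] at hB
  refine d4A_num V.card (nonHM V C F).card (C.filter (fun c => ¬ c ∈ nonHM V C F)).card hv12 hv20 ht
    (by omega) ?_
  omega

end Pool.Agent.Lib.MP_6805b2_co.ST
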