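import Pool.Agent.Lib.MP_6805b2_co.ST.Tb

/-!
# D4B: four heavy points of excess one, counting

`H ⊆ V`, `|H| = 4`, `d = 1` on `H`, `d = 0` on `V \ H`, `v = |V| ≥ 12`.
`s3 H A` is the number of members `Y` of `A` with `|Y ∩ H| ≥ 3`, `s1 H A` those with
`|Y ∩ H| ≤ 1`.

`s3_sum`: `dc` for the 4-sets with `|Y ∩ H| ≥ 3`: `4 (v - 4)` of them with weight `3` and one
(`H`) with weight `4`: `16 (v - 4) + 5 ≤ sum_c s3 H (F c)`.
`s1_sum`: `dc` for the 4-sets with `|Y ∩ H| ≤ 1`: `4 C(v-4,3)` with weight one and `C(v-4,4)` with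
weight zero: `8 C(v-4,3) + C(v-4,4) ≤ sum_c s1 H (F c)`.
`s3_all`: `s3 H (F c) ≤ 4 (v - 4) + 1` for every class, and if equality holds then all 4-sets with
`|Y ∩ H| ≥ 3` are members, and then `s1 H (F c) = 0`: a 4-set `Y` with `|Y ∩ H| ≤ 1` is disjoint from
some `insert x T`, `T` a 3-subset of `H` disjoint from `Y`, `x ∈ V \ (H ∪ Y)` (`v ≥ 9`).
`s3_hm`: for data `(i, X)` with `i ∈ V \ H` (`X ∈ A`, `i ∉ X`, all other members contain `i`):
`s3 H A ≤ 5` (`X` and the four sets `insert i T`), and if `s3 H A = 5` then `|X ∩ H| ≥ 3`, and then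
`s1 H A + C(v-5,3) ≤ 4 C(v-5,2) + C(v-5,3)`: the members counted in `s1` are not `X`, so they are
`insert i Z` with `Z` a 3-subset of `V.erase i`, `|Z ∩ H| ≤ 1`, meeting `X`. The number of
3-subsets `Z` of `V.erase i` with `|Z ∩ H| ≤ 1` is `4 C(v-5,2) + C(v-5,3)` (`V.erase i` has `4`
points in `H` and `v - 5` others), and those disjoint from `X` are all 3-subsets of
`(V.erase i) \ X` (`v - 5` points, at most one of them in `H`): `C(v-5,3)`.
-/

namespace Pool.Agent.Lib.MP_6805b2_co.ST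

open Finset

theorem D4B_cnt (V H : Finset ℕ) (hH : H ⊆ V) (k j : ℕ) (hj : j ≤ k) :
    ((V.powersetCard k).filter (fun X => (X ∩ H).card = j)).card =
      H.card.choose j * (V.card - H.card).choose (k - j) := by
  rw [← card_powersetCard j H, ← card_sdiff_of_subset hH, ← card_powersetCard (k - j) (V \ H),
    ← card_product]
  refine card_nbij' (fun X => (X ∩ H, X \ H)) (fun p => p.1 ∪ p.2) ?_ ?_ ?_ ?_
  · intro X hX
    simp only [coe_filter, mem_powersetCard, Set.mem_ofPred_eq] at hX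
    obtain ⟨⟨h1, h2⟩, h3⟩ := hX
    simp only [coe_product, Set.mem_prod, mem_coe, mem_powersetCard]
    refine ⟨⟨inter_subset_right, h3⟩, sdiff_subset_sdiff h1 le_rfl, ?_⟩
    have := card_sdiff_add_card_inter X H
    omega
  · intro p hp
    simp only [coe_product, Set.mem_prod, mem_coe, mem_powersetCard] at hp
    obtain ⟨⟨h1, h2⟩, h3, h4⟩ := hp
    have hd : Disjoint p.2 H := disjoint_of_subset_left h3 sdiff_disjoint
    have hd' : Disjoint p.1 p.2 := (disjoint_of_subset_right h1 hd).symm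
    simp only [coe_filter, mem_powersetCard, Set.mem_ofPred_eq]
    refine ⟨⟨union_subset (h1.trans hH) (h3.trans sdiff_subset), ?_⟩, ?_⟩
    · rw [card_union_of_disjoint hd']; omega
    · rw [union_inter_distrib_right, inter_eq_left.2 h1, disjoint_iff_inter_eq_empty.1 hd,
        union_empty, h2]
  · intro X _
    show X ∩ H ∪ X \ H = X
    rw [union_comm, sdiff_union_inter]
  · intro p hp
    simp only [coe_product, Set.mem_prod, mem_coe, mem_powersetCard] at hp
    obtain ⟨⟨h1, h2⟩, h3, h4⟩ := hp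
    have hd : Disjoint p.2 H := disjoint_of_subset_left h3 sdiff_disjoint
    ext1
    · simp only
      rw [union_inter_distrib_right, inter_eq_left.2 h1, disjoint_iff_inter_eq_empty.1 hd,
        union_empty]
    · simp only
      rw [union_sdiff_distrib, sdiff_eq_empty_iff_subset.2 h1, empty_union,
        sdiff_eq_self_of_disjoint hd]

theorem D4B_wt (V : Finset ℕ) (d : ℕ → ℕ) (H : Finset ℕ) (h1 : ∀ x ∈ H, d x = 1)
    (hz : ∀ x ∈ V \ H, d x = 0) (X : Finset ℕ) (hX : X ⊆ V) : wt d X = (X ∩ H).card := by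
  unfold wt
  rw [← sum_inter_add_sum_sdiff X H]
  have h2 : ∑ x ∈ X ∩ H, d x = (X ∩ H).card := by
    rw [card_eq_sum_ones]
    exact sum_congr rfl fun x hx => h1 x (mem_inter.1 hx).2
  have h3 : ∑ x ∈ X \ H, d x = 0 := by
    refine sum_eq_zero fun x hx => hz x ?_
    rw [mem_sdiff] at hx ⊢
    exact ⟨hX hx.1, hx.2⟩
  omega

theorem D4B_sum (V : Finset ℕ) (d : ℕ → ℕ) (H : Finset ℕ) (hH : H ⊆ V) (h1 : ∀ x ∈ H, d x = 1)
    (hz : ∀ x ∈ V \ H, d x = 0) (j : ℕ) (hj : j ≤ 4) :
    ∑ X ∈ (V.powersetCard 4).filter (fun X => (X ∩ H).card = j), (1 + wt d X) =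
      (H.card.choose j * (V.card - H.card).choose (4 - j)) * (1 + j) := by
  rw [← D4B_cnt V H hH 4 j hj, ← smul_eq_mul, ← sum_const]
  refine sum_congr rfl fun X hX => ?_
  simp only [mem_filter, mem_powersetCard] at hX
  rw [D4B_wt V d H h1 hz X hX.1.1, hX.2]

theorem s3_sum (V : Finset ℕ) (d : ℕ → ℕ) (C : Finset ℕ) (F : ℕ → Finset (Finset ℕ))
    (hS : Sys V d C F) (H : Finset ℕ) (hH : H ⊆ V) (hH4 : H.card = 4) (h1 : ∀ x ∈ H, d x = 1)
    (hz : ∀ x ∈ V \ H, d x = 0) :
    16 * (V.card - 4) + 5 ≤ ∑ c ∈ C, s3 H (F c) := by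
  have h := dc V d C F hS ((V.powersetCard 4).filter (fun X => (X ∩ H).card = 3) ∪
    (V.powersetCard 4).filter (fun X => (X ∩ H).card = 4))
    (union_subset (filter_subset _ _) (filter_subset _ _))
  rw [sum_union, D4B_sum V d H hH h1 hz 3 (by norm_num), D4B_sum V d H hH h1 hz 4 le_rfl, hH4] at h
  · have h2 : ∑ c ∈ C, ((F c).filter (fun X => X ∈
        (V.powersetCard 4).filter (fun X => (X ∩ H).card = 3) ∪
        (V.powersetCard 4).filter (fun X => (X ∩ H).card = 4))).card ≤ ∑ c ∈ C, s3 H (F c) := by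
      refine sum_le_sum fun c _ => card_le_card fun X hX => ?_
      simp only [mem_filter, mem_union] at hX ⊢
      refine ⟨hX.1, ?_⟩
      rcases hX.2 with h3 | h3 <;> omega
    simp only [Nat.choose_self, Nat.sub_self, Nat.choose_zero_right] at h
    rw [show (4 : ℕ).choose 3 = 4 by rfl, show 4 - 3 = 1 by rfl, Nat.choose_one_right] at h
    omega
  · rw [disjoint_left]
    intro X hX hX'
    simp only [mem_filter] at hX hX'
    omega

theorem s1_sum (V : Finset ℕ) (d : ℕ → ℕ) (C : Finset ℕ) (F : ℕ → Finset (Finset ℕ))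
    (hS : Sys V d C F) (H : Finset ℕ) (hH : H ⊆ V) (hH4 : H.card = 4) (h1 : ∀ x ∈ H, d x = 1)
    (hz : ∀ x ∈ V \ H, d x = 0) :
    8 * (V.card - 4).choose 3 + (V.card - 4).choose 4 ≤ ∑ c ∈ C, s1 H (F c) := by
  have h := dc V d C F hS ((V.powersetCard 4).filter (fun X => (X ∩ H).card = 1) ∪
    (V.powersetCard 4).filter (fun X => (X ∩ H).card = 0))
    (union_subset (filter_subset _ _) (filter_subset _ _))
  rw [sum_union, D4B_sum V d H hH h1 hz 1 (by norm_num), D4B_sum V d H hH h1 hz 0 (by norm_num),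
    hH4] at h
  · have h2 : ∑ c ∈ C, ((F c).filter (fun X => X ∈
        (V.powersetCard 4).filter (fun X => (X ∩ H).card = 1) ∪
        (V.powersetCard 4).filter (fun X => (X ∩ H).card = 0))).card ≤ ∑ c ∈ C, s1 H (F c) := by
      refine sum_le_sum fun c _ => card_le_card fun X hX => ?_
      simp only [mem_filter, mem_union] at hX ⊢
      refine ⟨hX.1, ?_⟩
      rcases hX.2 with h3 | h3 <;> omega
    simp only [Nat.choose_zero_right, Nat.choose_one_right, Nat.sub_zero] at h
    rw [show 4 - 1 = 3 by rfl] at h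
    omega
  · rw [disjoint_left]
    intro X hX hX'
    simp only [mem_filter] at hX hX'
    omega

theorem D4B_sub (V : Finset ℕ) (A : Finset (Finset ℕ)) (hA : Unif 4 V A) (H : Finset ℕ)
    (hH4 : H.card = 4) : A.filter (fun X => 3 ≤ (X ∩ H).card) ⊆
      (V.powersetCard 4).filter (fun X => (X ∩ H).card = 3) ∪
        (V.powersetCard 4).filter (fun X => (X ∩ H).card = 4) := by
  intro X hX
  simp only [mem_filter, mem_union, mem_powersetCard] at hX ⊢
  have h1 : (X ∩ H).card ≤ 4 := hH4 ▸ card_le_card inter_subset_right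
  have h2 := hA X hX.1
  by_cases h3 : (X ∩ H).card = 3
  · exact Or.inl ⟨h2, h3⟩
  · exact Or.inr ⟨h2, by omega⟩

theorem D4B_card (V : Finset ℕ) (H : Finset ℕ) (hH : H ⊆ V)
    (hH4 : H.card = 4) : ((V.powersetCard 4).filter (fun X => (X ∩ H).card = 3) ∪
        (V.powersetCard 4).filter (fun X => (X ∩ H).card = 4)).card = 4 * (V.card - 4) + 1 := by
  rw [card_union_of_disjoint, D4B_cnt V H hH 4 3 (by norm_num), D4B_cnt V H hH 4 4 le_rfl, hH4]
  · simp only [Nat.choose_self, Nat.sub_self, Nat.choose_zero_right]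
    rw [show (4 : ℕ).choose 3 = 4 by rfl, show 4 - 3 = 1 by rfl, Nat.choose_one_right]
  · rw [disjoint_left]
    intro X hX hX'
    simp only [mem_filter] at hX hX'
    omega

theorem s3_all (V : Finset ℕ) (A : Finset (Finset ℕ)) (hA : Unif 4 V A) (hC : Cross A A)
    (hv : 9 ≤ V.card) (H : Finset ℕ) (hH : H ⊆ V) (hH4 : H.card = 4) :
    s3 H A ≤ 4 * (V.card - 4) + 1 ∧ (s3 H A = 4 * (V.card - 4) + 1 → s1 H A = 0) := by
  have hsub := D4B_sub V A hA H hH4
  have hcard := D4B_card V H hH hH4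
  refine ⟨hcard ▸ card_le_card hsub, fun he => ?_⟩
  have heq := eq_of_subset_of_card_le hsub (by rw [hcard, ← he]; exact le_rfl)
  unfold s1
  rw [card_eq_zero, filter_eq_empty_iff]
  intro Y hY hY1
  have h1 : 3 ≤ (H \ Y).card := by
    have := card_sdiff_add_card_inter H Y
    rw [inter_comm] at this
    omega
  obtain ⟨T, hT, hT3⟩ := exists_subset_card_eq h1
  have h2 : (V \ (H ∪ Y)).Nonempty := by
    rw [← card_pos]
    have h3 := le_card_sdiff (H ∪ Y) V
    have h4 := card_union_le H Y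
    have h5 := (hA Y hY).2
    omega
  obtain ⟨x, hx⟩ := h2
  rw [mem_sdiff, mem_union, not_or] at hx
  have hTH : T ⊆ H := hT.trans sdiff_subset
  have hxT : x ∉ T := fun h => hx.2.1 (hTH h)
  have hmem : insert x T ∈ A.filter (fun X => 3 ≤ (X ∩ H).card) := by
    rw [heq, mem_union, mem_filter, mem_powersetCard]
    refine Or.inl ⟨⟨insert_subset hx.1 (hTH.trans hH), ?_⟩, ?_⟩
    · rw [card_insert_of_notMem hxT, hT3]
    · rw [insert_inter_of_notMem hx.2.1, inter_eq_left.2 hTH, hT3]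
  refine hC _ (mem_filter.1 hmem).1 Y hY ?_
  rw [disjoint_insert_left]
  exact ⟨hx.2.2, disjoint_of_subset_left hT sdiff_disjoint⟩

theorem s3_hm (V : Finset ℕ) (A : Finset (Finset ℕ)) (hA : Unif 4 V A) (hC : Cross A A)
    (hv : 9 ≤ V.card) (H : Finset ℕ) (hH : H ⊆ V) (hH4 : H.card = 4) (i : ℕ) (hi : i ∈ V \ H)
    (X : Finset ℕ) (hX : X ∈ A) (hiX : i ∉ X) (ho : ∀ Y ∈ A, Y ≠ X → i ∈ Y) :
    s3 H A ≤ 5 ∧ (s3 H A = 5 → s1 H A ≤ 4 * (V.card - 5).choose 2) := by
  rw [mem_sdiff] at hi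
  have hsub : A.filter (fun Y => 3 ≤ (Y ∩ H).card) ⊆
      insert X ((H.powersetCard 3).image (insert i)) := by
    intro Y hY
    rw [mem_filter] at hY
    rw [mem_insert]
    by_cases hYX : Y = X
    · exact Or.inl hYX
    · right
      have hiY := ho Y hY.1 hYX
      have h4 := (hA Y hY.1).2
      have h5 : Y ∩ H ⊆ Y.erase i := by
        intro a ha
        rw [mem_inter] at ha
        rw [mem_erase]
        exact ⟨fun h => hi.2 (h ▸ ha.2), ha.1⟩
      have h6 : (Y.erase i).card = 3 := by rw [card_erase_of_mem hiY]; omega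
      have h7 : Y ∩ H = Y.erase i := eq_of_subset_of_card_le h5 (by omega)
      rw [mem_image]
      refine ⟨Y ∩ H, mem_powersetCard.2 ⟨inter_subset_right, by rw [h7]; exact h6⟩, ?_⟩
      rw [h7, insert_erase hiY]
  have hcard : (insert X ((H.powersetCard 3).image (insert i))).card ≤ 5 := by
    refine (card_insert_le _ _).trans ?_
    have h1 : ((H.powersetCard 3).image (insert i)).card ≤ (H.powersetCard 3).card := card_image_le
    rw [card_powersetCard, hH4, show (4 : ℕ).choose 3 = 4 by rfl] at h1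
    omega
  refine ⟨(card_le_card hsub).trans hcard, fun he => ?_⟩
  have heq := eq_of_subset_of_card_le hsub (by
    have : (A.filter (fun Y => 3 ≤ (Y ∩ H).card)).card = 5 := he
    omega)
  have hX3 : 3 ≤ (X ∩ H).card := by
    have : X ∈ A.filter (fun Y => 3 ≤ (Y ∩ H).card) := by rw [heq]; exact mem_insert_self _ _
    exact (mem_filter.1 this).2
  have hX4 := (hA X hX).2
  have hXV := (hA X hX).1
  set W := V.erase i with hW
  have hHW : H ⊆ W := fun a ha => mem_erase.2 ⟨fun h => hi.2 (h ▸ ha), hH ha⟩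
  have hXW : X ⊆ W := fun a ha => mem_erase.2 ⟨fun h => hiX (h ▸ ha), hXV ha⟩
  have hWc : W.card = V.card - 1 := card_erase_of_mem hi.1
  set P := (W.powersetCard 3).filter (fun Z => (Z ∩ H).card = 1) ∪
    (W.powersetCard 3).filter (fun Z => (Z ∩ H).card = 0) with hP
  have hPc : P.card ≤ 4 * (V.card - 5).choose 2 + (V.card - 5).choose 3 := by
    refine (card_union_le _ _).trans ?_
    rw [D4B_cnt W H hHW 3 1 (by norm_num), D4B_cnt W H hHW 3 0 (by norm_num), hH4, hWc,
      Nat.choose_one_right, Nat.choose_zero_right, one_mul, show V.card - 1 - 4 = V.card - 5 by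
        omega]
  have hQP : (W \ X).powersetCard 3 ⊆ P := by
    intro Z hZ
    rw [mem_powersetCard] at hZ
    have h1 : Z ∩ H ⊆ H \ X := by
      intro a ha
      rw [mem_inter] at ha
      exact mem_sdiff.2 ⟨ha.2, (mem_sdiff.1 (hZ.1 ha.1)).2⟩
    have h2 := card_le_card h1
    have h3 := card_sdiff_add_card_inter H X
    rw [inter_comm H X] at h3
    have h4 : Z ∈ W.powersetCard 3 := mem_powersetCard.2 ⟨hZ.1.trans sdiff_subset, hZ.2⟩
    rw [hP, mem_union, mem_filter, mem_filter]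
    by_cases h5 : (Z ∩ H).card = 1
    · exact Or.inl ⟨h4, h5⟩
    · exact Or.inr ⟨h4, by omega⟩
  have hQc : ((W \ X).powersetCard 3).card = (V.card - 5).choose 3 := by
    rw [card_powersetCard, card_sdiff_of_subset hXW, hWc, hX4,
      show V.card - 1 - 4 = V.card - 5 by omega]
  have hs1 : A.filter (fun Y => (Y ∩ H).card ≤ 1) ⊆ (P \ (W \ X).powersetCard 3).image (insert i) := by
    intro Y hY
    rw [mem_filter] at hY
    have hYX : Y ≠ X := by
      rintro rfl
      omega
    have hiY := ho Y hY.1 hYX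
    have h4 := (hA Y hY.1).2
    have h5 := (hA Y hY.1).1
    rw [mem_image]
    refine ⟨Y.erase i, ?_, insert_erase hiY⟩
    have h6 : (Y.erase i).card = 3 := by rw [card_erase_of_mem hiY]; omega
    have h7 : Y.erase i ∈ W.powersetCard 3 := mem_powersetCard.2 ⟨erase_subset_erase i h5, h6⟩
    have h8 : (Y.erase i ∩ H).card ≤ 1 :=
      (card_le_card (inter_subset_inter (erase_subset i Y) le_rfl)).trans hY.2
    rw [mem_sdiff]
    refine ⟨?_, ?_⟩
    · rw [hP, mem_union, mem_filter, mem_filter]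
      by_cases h9 : (Y.erase i ∩ H).card = 1
      · exact Or.inl ⟨h7, h9⟩
      · exact Or.inr ⟨h7, by omega⟩
    · intro h9
      rw [mem_powersetCard] at h9
      refine hC Y hY.1 X hX ?_
      rw [← insert_erase hiY, disjoint_insert_left]
      exact ⟨hiX, disjoint_of_subset_left h9.1 sdiff_disjoint⟩
  have h10 : s1 H A ≤ (P \ (W \ X).powersetCard 3).card :=
    (card_le_card hs1).trans card_image_le
  rw [card_sdiff_of_subset hQP, hQc] at h10
  omega

end Pool.Agent.Lib.MP_6805b2_co.ST
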