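import Pool.Agent.Lib.MP_6805b2_co.ST.D4B

/-!
# D4C: four heavy points of excess one, the contradiction

`12 ≤ v ≤ 20` (`count`), `T = v - 3` (`teq`), `t := |nonHM| ≤ 3` (`tb4`). A class outside `nonHM`
has data `(i, X)` (`hmc`); if `i ∈ H` then by `surg_wt` all four points of `X` have `d ≥ 1`, so
`X ⊆ H.erase i`, impossible. So `i ∈ V \ H` and `s3 ≤ 5` (`s3_hm`). Classes in `nonHM` have
`s3 ≤ 4 (v - 4) + 1` (`s3_all`). `s3_sum`:
`16 (v - 4) + 5 ≤ 5 (T - t) + t (4 (v - 4) + 1)`. This is false for `t ≤ 2` and, for `t = 3`, for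
`v = 12, ..., 15`; `t = 3` only if `14 ≤ v ≤ 16` (`tb4`). So `v = 16`, `t = 3`, `T = 13`,
`197 ≤ sum_c s3 ≤ 5 * 10 + 3 * 49 = 197`: equality for every class. By `s3_all` and `s3_hm`,
`s1 = 0` for `c ∈ nonHM` and `s1 ≤ 4 C(11, 2) = 220` for the ten others: `sum_c s1 ≤ 2200`, but
`s1_sum` gives `sum_c s1 ≥ 8 C(12,3) + C(12,4) = 1760 + 495 = 2255`.
-/

namespace Pool.Agent.Lib.MP_6805b2_co.ST

open Finset

theorem d4C (V : Finset ℕ) (d : ℕ → ℕ) (C : Finset ℕ) (F : ℕ → Finset (Finset ℕ))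
    (hM : Minl V d C F) (H : Finset ℕ) (hH : H ⊆ V) (hH4 : H.card = 4) (h1 : ∀ x ∈ H, d x = 1)
    (hz : ∀ x ∈ V \ H, d x = 0) : False := by
  have hsys := hM.bad.sys
  have hD : wt d V = 4 := by
    rw [D4B_wt V d H h1 hz V (Subset.refl _), inter_eq_right.2 hH, hH4]
  obtain ⟨hv12, hv20⟩ := (count V d C F hM).2.2.2.1 hD
  have ht := teq V d C F hM
  obtain ⟨ht3, htv⟩ := tb4 V d C F hM hD
  have hNC : nonHM V C F ⊆ C := filter_subset _ _
  -- classes of Hilton-Milner type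
  have hhm : ∀ c ∈ C \ nonHM V C F, s3 H (F c) ≤ 5 ∧
      (s3 H (F c) = 5 → s1 H (F c) ≤ 4 * (V.card - 5).choose 2) := by
    intro c hc
    rw [mem_sdiff] at hc
    obtain ⟨i, hi, X, hX, hiX, ho⟩ := hmc V d C F hM c hc.1 hc.2
    obtain ⟨hXV, hX4⟩ := hsys.sub c hc.1 X hX
    have hiH : i ∉ H := by
      intro hiH
      have h2 : X ⊆ H.erase i := by
        intro j hj
        rw [mem_erase]
        refine ⟨fun hji => hiX (hji ▸ hj), ?_⟩
        by_contra hjH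
        have h3 := surg_wt V d C F hM c hc.1 i hi X hX hiX ho j hj
        have h4 := hz j (mem_sdiff.2 ⟨hXV hj, hjH⟩)
        have h5 := h1 i hiH
        omega
      have h3 := card_le_card h2
      rw [card_erase_of_mem hiH, hH4, hX4] at h3
      omega
    exact s3_hm V (F c) (fun Y hY => hsys.sub c hc.1 Y hY)
      (fun Y hY Z hZ => hsys.int c hc.1 Y hY Z hZ) (by omega) H hH hH4 i
      (mem_sdiff.2 ⟨hi, hiH⟩) X hX hiX ho
  have hno : ∀ c ∈ nonHM V C F, s3 H (F c) ≤ 4 * (V.card - 4) + 1 ∧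
      (s3 H (F c) = 4 * (V.card - 4) + 1 → s1 H (F c) = 0) := by
    intro c hc
    exact s3_all V (F c) (fun Y hY => hsys.sub c (hNC hc) Y hY)
      (fun Y hY Z hZ => hsys.int c (hNC hc) Y hY Z hZ) (by omega) H hH hH4
  have hs3 := s3_sum V d C F hsys H hH hH4 h1 hz
  have hsplit3 : ∑ c ∈ C \ nonHM V C F, s3 H (F c) + ∑ c ∈ nonHM V C F, s3 H (F c) =
      ∑ c ∈ C, s3 H (F c) := sum_sdiff hNC
  have hb1 : ∑ c ∈ C \ nonHM V C F, s3 H (F c) ≤ ∑ c ∈ C \ nonHM V C F, 5 :=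
    sum_le_sum fun c hc => (hhm c hc).1
  have hb2 : ∑ c ∈ nonHM V C F, s3 H (F c) ≤ ∑ c ∈ nonHM V C F, (4 * (V.card - 4) + 1) :=
    sum_le_sum fun c hc => (hno c hc).1
  have hc1 : ∑ c ∈ C \ nonHM V C F, 5 = (C.card - (nonHM V C F).card) * 5 := by
    rw [sum_const, smul_eq_mul, card_sdiff_of_subset hNC]
  have hc2 : ∑ c ∈ nonHM V C F, (4 * (V.card - 4) + 1) =
      (nonHM V C F).card * (4 * (V.card - 4) + 1) := by
    rw [sum_const, smul_eq_mul]
  have htC := card_le_card hNC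
  have hkey : V.card = 16 ∧ (nonHM V C F).card = 3 := by
    have h2 : 16 * (V.card - 4) + 5 ≤ (C.card - (nonHM V C F).card) * 5 +
        (nonHM V C F).card * (4 * (V.card - 4) + 1) := by omega
    rcases Nat.lt_or_ge (nonHM V C F).card 3 with h3 | h3
    · exfalso
      obtain ⟨t, ht'⟩ : ∃ t, (nonHM V C F).card = t := ⟨_, rfl⟩
      rw [ht'] at h2 h3
      interval_cases t <;> omega
    · have h4 : (nonHM V C F).card = 3 := by omega
      have h5 := htv h4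
      rw [h4] at h2
      omega
  obtain ⟨hv, ht0⟩ := hkey
  have hC13 : C.card = 13 := by omega
  rw [hC13, ht0] at hc1
  rw [ht0, hv] at hc2
  rw [hv] at hb2 hs3
  have he1 : ∑ c ∈ C \ nonHM V C F, s3 H (F c) = ∑ c ∈ C \ nonHM V C F, 5 := by omega
  have he2 : ∑ c ∈ nonHM V C F, s3 H (F c) = ∑ c ∈ nonHM V C F, (4 * (16 - 4) + 1) := by omega
  have hq1 := (sum_eq_sum_iff_of_le fun c hc => (hhm c hc).1).1 he1
  have hq2 := (sum_eq_sum_iff_of_le (s := nonHM V C F) (f := fun c => s3 H (F c))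
    (g := fun _ => 4 * (16 - 4) + 1) fun c hc => by
      have := (hno c hc).1
      rw [hv] at this
      exact this).1 he2
  have hs1 := s1_sum V d C F hsys H hH hH4 h1 hz
  have hsplit1 : ∑ c ∈ C \ nonHM V C F, s1 H (F c) + ∑ c ∈ nonHM V C F, s1 H (F c) =
      ∑ c ∈ C, s1 H (F c) := sum_sdiff hNC
  have hd1 : ∑ c ∈ C \ nonHM V C F, s1 H (F c) ≤ ∑ c ∈ C \ nonHM V C F, 220 := by
    refine sum_le_sum fun c hc => ?_
    have h2 := (hhm c hc).2 (hq1 c hc)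
    rw [hv] at h2
    exact h2
  have hd2 : ∑ c ∈ nonHM V C F, s1 H (F c) = 0 := by
    refine sum_eq_zero fun c hc => ?_
    refine (hno c hc).2 ?_
    rw [hv]
    exact hq2 c hc
  have hc3 : ∑ c ∈ C \ nonHM V C F, 220 = 2200 := by
    rw [sum_const, smul_eq_mul, card_sdiff_of_subset hNC, hC13, ht0]
  rw [hv] at hs1
  have hch : 8 * (16 - 4).choose 3 + (16 - 4).choose 4 = 2255 := by decide
  rw [hch] at hs1
  omega

end Pool.Agent.Lib.MP_6805b2_co.ST
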