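import Pool.Agent.Lib.MP_6805b2_co.ST.Tb

/-!
# D5A: total excess five, all classes with light centre

`hmpt`: `F` is intersecting on `V`, `i ∈ V`, `X ∈ F`, `i ∉ X`, all other members contain `i`;
`h ∈ V`, `h ≠ i`. The members containing `h` are `X` and sets containing `i` and `h`: at most
`C(v - 2, 2) + 1`.

`d5A`: choose `h ∈ V` with `d h ≥ 1` (`wt d V = 5`). Every class has a centre `i` with `d i = 0`, so
`i ≠ h`. `dc_pt` at `h`:
`(1 + d h) C(v-1,3) + (5 - d h) C(v-2,2) ≤ T (C(v-2,2) + 1)`, `T = v - 2`, `v = 13, 14, 15`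
(`count`), `1 ≤ d h ≤ 5`: false in all 15 cases (for `d h = 1`: `660 > 616`, `836 > 804`,
`1040 > 1027`).
-/

namespace Pool.Agent.Lib.MP_6805b2_co.ST

open Finset

theorem hmpt (V : Finset ℕ) (F : Finset (Finset ℕ)) (hF : Unif 4 V F) (i : ℕ) (hi : i ∈ V)
    (X : Finset ℕ) (ho : ∀ Y ∈ F, Y ≠ X → i ∈ Y) (h : ℕ) (hh : h ∈ V) (hne : h ≠ i) :
    (F.filter (fun Y => h ∈ Y)).card ≤ (V.card - 2).choose 2 + 1 := by
  have hsub : F.filter (fun Y => h ∈ Y) ⊆
      insert X ((((V.erase i).erase h).powersetCard 2).image (fun Z => insert i (insert h Z))) := by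
    intro Y hY
    rw [mem_filter] at hY
    rw [mem_insert]
    by_cases hYX : Y = X
    · exact Or.inl hYX
    · right
      have hiY := ho Y hY.1 hYX
      obtain ⟨h1, h2⟩ := hF Y hY.1
      have hhY : h ∈ Y.erase i := mem_erase.2 ⟨hne, hY.2⟩
      rw [mem_image]
      refine ⟨(Y.erase i).erase h, ?_, ?_⟩
      · rw [mem_powersetCard]
        refine ⟨erase_subset_erase h (erase_subset_erase i h1), ?_⟩
        rw [card_erase_of_mem hhY, card_erase_of_mem hiY, h2]
      · rw [insert_erase hhY, insert_erase hiY]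
  have h1 := card_le_card hsub
  have h2 := card_insert_le X
    ((((V.erase i).erase h).powersetCard 2).image (fun Z => insert i (insert h Z)))
  have h3 : ((((V.erase i).erase h).powersetCard 2).image (fun Z => insert i (insert h Z))).card ≤
      (V.card - 2).choose 2 := by
    refine card_image_le.trans ?_
    rw [card_powersetCard, card_erase_of_mem (mem_erase.2 ⟨hne, hh⟩), card_erase_of_mem hi]
    rfl
  omega

theorem d5A (V : Finset ℕ) (d : ℕ → ℕ) (C : Finset ℕ) (F : ℕ → Finset (Finset ℕ))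
    (h : Minl V d C F) (hD : wt d V = 5)
    (hl : ∀ c ∈ C, ∃ i ∈ V, d i = 0 ∧ ∃ X ∈ F c, i ∉ X ∧ ∀ Y ∈ F c, Y ≠ X → i ∈ Y) : False := by
  obtain ⟨x, hx, hdx⟩ : ∃ x ∈ V, 1 ≤ d x := by
    by_contra hcon
    push Not at hcon
    have h0 : wt d V = 0 := by
      unfold wt
      refine sum_eq_zero fun y hy => ?_
      have := hcon y hy
      omega
    omega
  have hdx5 : d x ≤ 5 := by
    rw [← hD]
    unfold wt
    exact single_le_sum (f := d) (fun _ _ => Nat.zero_le _) hx
  have hsys := h.bad.sys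
  have h1 := dc_pt V d C F hsys x hx
  have h2 : ∑ c ∈ C, ((F c).filter (fun X => x ∈ X)).card ≤
      C.card * ((V.card - 2).choose 2 + 1) := by
    rw [← smul_eq_mul, ← sum_const]
    refine sum_le_sum fun c hc => ?_
    obtain ⟨i, hi, hdi, X, hX, hiX, ho⟩ := hl c hc
    refine hmpt V (F c) (fun Y hY => hsys.sub c hc Y hY) i hi X ho x hx ?_
    rintro rfl
    omega
  have h3 := teq V d C F h
  obtain ⟨h4, h5⟩ := (count V d C F h).2.2.1 hD
  rw [hD] at h1 h3
  have h6 := h1.trans h2
  have h7 : C.card = V.card - 2 := by omega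
  rw [h7] at h6
  clear h1 h2 h3 h7 hl
  generalize V.card = v at *
  generalize d x = e at *
  interval_cases v <;> interval_cases e <;> revert h6 <;> decide

end Pool.Agent.Lib.MP_6805b2_co.ST
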