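import Pool.Agent.Lib.MP_6805b2_co.ST.D5A

/-!
# D5B: total excess five, some class with heavy centre

Let `c0 ∈ C` have the Hilton-Milner data `(i, X)` with `d i ≥ 1`. By `surg_wt` `d j ≥ d i ≥ 1` for
all `j ∈ X`, so `H := insert i X` has five points of weight at least one; as `wt d V = 5`,
`d = 1` on `H` and `d = 0` on `V \ H`. By `surg_ins`, `surg_card`:
`|ins C F H| ≤ |col C F X| = 1 + 4 = 5`.

Let `S` be the 4-subsets `Y` of `V` with `|Y ∩ H| ≥ 3`: `10 (v - 5)` of them with `wt d Y = 3`
and `5` with `wt d Y = 4`: `sum_{Y ∈ S} (1 + wt d Y) = 40 (v - 5) + 25`.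

By `tb5` no class is in `nonHM`; let `(i_c, X_c)` be the data of `c` (`hmc`).
* `d i_c = 0`: the members in `S` are `X_c` and sets `insert i_c T`, `T` a 3-subset of `H`:
  at most `11`.
* `d i_c ≥ 1`: `i_c ∈ H`, all points of `X_c` have weight at least one (`surg_wt`), so
  `X_c = H.erase i_c ⊆ H` and `c ∈ ins C F H`. The members in `S` are `X_c` and sets containing
  `i_c` with at least two more points of `H`: `6 (v - 5) + 4`; together at most
  `6 (v - 5) + 5`.
Let `s` be the number of classes of the second kind, `s ≤ 5`. `dc` with `S`: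
`40 (v - 5) + 25 ≤ 11 (T - s) + s (6 (v - 5) + 5)`, `T = v - 2`, `v = 13, 14, 15`: false for
`s ≤ 5` (`331 < 345`, `372 < 385`, `413 < 425` at `s = 5`).

`d5`: every class has data by `tb5` and `hmc`; either all can be chosen with `d i = 0` (`d5A`) or
some class has data with `d i ≥ 1`.
-/

namespace Pool.Agent.Lib.MP_6805b2_co.ST

open Finset

private theorem d5B_cnt (V H : Finset ℕ) (hHV : H ⊆ V) (j k : ℕ) (hjk : j ≤ k) :
    ((V.powersetCard k).filter (fun Y => (Y ∩ H).card = j)).card =
      H.card.choose j * (V \ H).card.choose (k - j) := by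
  classical
  rw [← card_powersetCard, ← card_powersetCard, ← card_product]
  refine Finset.card_nbij' (fun Y => (Y ∩ H, Y \ H)) (fun p => p.1 ∪ p.2) ?_ ?_ ?_ ?_
  · intro Y hY
    simp only [coe_filter, mem_powersetCard, Set.mem_ofPred_eq] at hY
    obtain ⟨⟨h1, h2⟩, h3⟩ := hY
    simp only [coe_product, Set.mem_prod, mem_coe, mem_powersetCard]
    refine ⟨⟨inter_subset_right, h3⟩, sdiff_subset_sdiff h1 (Subset.refl _), ?_⟩
    have := card_sdiff_add_card_inter Y H
    omega
  · intro p hp
    simp only [coe_product, Set.mem_prod, mem_coe, mem_powersetCard] at hp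
    obtain ⟨⟨h1, h2⟩, h3, h4⟩ := hp
    have hd : Disjoint p.1 p.2 := disjoint_of_subset_left h1 (disjoint_of_subset_right h3 disjoint_sdiff)
    simp only [coe_filter, mem_powersetCard, Set.mem_ofPred_eq]
    refine ⟨⟨union_subset (h1.trans hHV) (h3.trans sdiff_subset), ?_⟩, ?_⟩
    · rw [card_union_of_disjoint hd]; omega
    · have : (p.1 ∪ p.2) ∩ H = p.1 := by
        ext x
        simp only [mem_inter, mem_union]
        constructor
        · rintro ⟨hx | hx, hH⟩
          · exact hx
          · exact absurd hH (mem_sdiff.1 (h3 hx)).2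
        · intro hx; exact ⟨Or.inl hx, h1 hx⟩
      rw [this, h2]
  · intro Y hY
    ext x
    simp only [mem_union, mem_inter, mem_sdiff]
    tauto
  · intro p hp
    simp only [coe_product, Set.mem_prod, mem_coe, mem_powersetCard] at hp
    obtain ⟨⟨h1, h2⟩, h3, h4⟩ := hp
    have e1 : (p.1 ∪ p.2) ∩ H = p.1 := by
      ext x
      simp only [mem_inter, mem_union]
      constructor
      · rintro ⟨hx | hx, hH⟩
        · exact hx
        · exact absurd hH (mem_sdiff.1 (h3 hx)).2
      · intro hx; exact ⟨Or.inl hx, h1 hx⟩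
    have e2 : (p.1 ∪ p.2) \ H = p.2 := by
      ext x
      simp only [mem_sdiff, mem_union]
      constructor
      · rintro ⟨hx | hx, hH⟩
        · exact absurd (h1 hx) hH
        · exact hx
      · intro hx; exact ⟨Or.inr hx, (mem_sdiff.1 (h3 hx)).2⟩
    exact Prod.ext e1 e2

theorem d5B (V : Finset ℕ) (d : ℕ → ℕ) (C : Finset ℕ) (F : ℕ → Finset (Finset ℕ))
    (h : Minl V d C F) (hD : wt d V = 5) (c0 : ℕ) (hc0 : c0 ∈ C) (i : ℕ) (hi : i ∈ V)
    (hdi : 1 ≤ d i) (X : Finset ℕ) (hX : X ∈ F c0) (hiX : i ∉ X)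
    (ho : ∀ Y ∈ F c0, Y ≠ X → i ∈ Y) : False := by
  classical
  have hcnt := (count V d C F h).2.2.1 hD
  have ht := teq V d C F h
  rw [hD] at ht
  obtain ⟨hXV, hX4⟩ := h.bad.sys.sub c0 hc0 X hX
  obtain ⟨H, hH⟩ : ∃ H : Finset ℕ, H = insert i X := ⟨_, rfl⟩
  have hH5 : H.card = 5 := by rw [hH, card_insert_of_notMem hiX, hX4]
  have hHV : H ⊆ V := by rw [hH]; exact insert_subset hi hXV
  have hge : ∀ x ∈ H, 1 ≤ d x := by
    intro x hx
    rw [hH, mem_insert] at hx
    rcases hx with rfl | hx
    · exact hdi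
    · exact hdi.trans (surg_wt V d C F h c0 hc0 i hi X hX hiX ho x hx)
  have hsum : ∑ x ∈ V \ H, d x + ∑ x ∈ H, d x = 5 := by
    rw [sum_sdiff hHV]; exact hD
  have hlow : ∀ K : Finset ℕ, K ⊆ H → K.card ≤ ∑ x ∈ K, d x := by
    intro K hK
    calc K.card = ∑ x ∈ K, 1 := by simp
      _ ≤ _ := sum_le_sum fun x hx => hge x (hK hx)
  have hHl := hlow H (Subset.refl _)
  have hout : ∀ x ∈ V \ H, d x = 0 := by
    have h0 : ∑ x ∈ V \ H, d x = 0 := by omega
    intro x hx
    exact (sum_eq_zero_iff.1 h0) x hx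
  have hin : ∀ x ∈ H, d x = 1 := by
    intro x hx
    have h1 := hge x hx
    have h2 := hlow (H.erase x) (erase_subset _ _)
    have h3 := add_sum_erase H d hx
    have h4 := card_erase_of_mem hx
    omega
  have hwt : ∀ Y, Y ⊆ V → wt d Y = (Y ∩ H).card := by
    intro Y hY
    unfold wt
    rw [← sum_sdiff (inter_subset_left : Y ∩ H ⊆ Y)]
    have e1 : ∑ x ∈ Y \ (Y ∩ H), d x = 0 := by
      refine sum_eq_zero fun x hx => hout x ?_
      rw [mem_sdiff, mem_inter] at hx
      rw [mem_sdiff]
      exact ⟨hY hx.1, fun hh => hx.2 ⟨hx.1, hh⟩⟩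
    have e2 : ∑ x ∈ Y ∩ H, d x = (Y ∩ H).card := by
      rw [card_eq_sum_ones]
      exact sum_congr rfl fun x hx => hin x (mem_inter.1 hx).2
    rw [e1, e2, zero_add]
  have hins : (ins C F H).card ≤ 5 := by
    have h1 := card_le_card (surg_ins V d C F h c0 hc0 i hi X hX hiX ho)
    rw [← hH, surg_card V d C F h c0 hc0 i hi X hX hiX ho] at h1
    have h2 := hwt X hXV
    have h3 : X ∩ H = X := inter_eq_left.2 (by rw [hH]; exact subset_insert _ _)
    rw [h3, hX4] at h2
    omega
  -- the family S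
  obtain ⟨S, hS⟩ : ∃ S : Finset (Finset ℕ),
      S = (V.powersetCard 4).filter (fun Y => 3 ≤ (Y ∩ H).card) := ⟨_, rfl⟩
  have hSs : S ⊆ V.powersetCard 4 := by rw [hS]; exact filter_subset _ _
  have hVH : (V \ H).card = V.card - 5 := by rw [card_sdiff_of_subset hHV, hH5]
  have hSeq : S = (V.powersetCard 4).filter (fun Y => (Y ∩ H).card = 3) ∪
      (V.powersetCard 4).filter (fun Y => (Y ∩ H).card = 4) := by
    rw [hS]
    ext Y
    simp only [mem_filter, mem_union, mem_powersetCard]
    constructor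
    · rintro ⟨⟨h1, h2⟩, h3⟩
      have := card_le_card (inter_subset_left : Y ∩ H ⊆ Y)
      rcases Nat.lt_or_ge 3 (Y ∩ H).card with h4 | h4
      · right; exact ⟨⟨h1, h2⟩, by omega⟩
      · left; exact ⟨⟨h1, h2⟩, by omega⟩
    · rintro (⟨h1, h2⟩ | ⟨h1, h2⟩)
      · exact ⟨h1, by omega⟩
      · exact ⟨h1, by omega⟩
  have hlhs : 40 * (V.card - 5) + 25 ≤ ∑ Y ∈ S, (1 + wt d Y) := by
    have hdis : Disjoint ((V.powersetCard 4).filter (fun Y => (Y ∩ H).card = 3))
        ((V.powersetCard 4).filter (fun Y => (Y ∩ H).card = 4)) := by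
      rw [disjoint_left]
      intro Y h1 h2
      have := (mem_filter.1 h1).2
      have := (mem_filter.1 h2).2
      omega
    rw [hSeq, sum_union hdis]
    have s3 : ∑ Y ∈ (V.powersetCard 4).filter (fun Y => (Y ∩ H).card = 3), (1 + wt d Y) =
        10 * (V.card - 5) * 4 := by
      rw [sum_congr rfl (g := fun _ => 4), sum_const, smul_eq_mul, d5B_cnt V H hHV 3 4 (by norm_num), hH5, hVH]
      · norm_num
        left
        decide
      · intro Y hY
        rw [mem_filter, mem_powersetCard] at hY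
        rw [hwt Y hY.1.1, hY.2]
    have s4 : ∑ Y ∈ (V.powersetCard 4).filter (fun Y => (Y ∩ H).card = 4), (1 + wt d Y) = 25 := by
      rw [sum_congr rfl (g := fun _ => 5), sum_const, smul_eq_mul, d5B_cnt V H hHV 4 4 (by norm_num), hH5, hVH]
      · norm_num
      · intro Y hY
        rw [mem_filter, mem_powersetCard] at hY
        rw [hwt Y hY.1.1, hY.2]
    rw [s3, s4]
    omega
  have h0 := tb5 V d C F h hD
  -- bound for a class
  have hcls : ∀ c ∈ C, ((F c).filter (fun Y => Y ∈ S)).card ≤ 11 ∨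
      (c ∈ ins C F H ∧ ((F c).filter (fun Y => Y ∈ S)).card ≤ 6 * (V.card - 5) + 5) := by
    intro c hc
    have hn : c ∉ nonHM V C F := by
      rw [card_eq_zero] at h0
      rw [h0]
      exact notMem_empty c
    obtain ⟨ic, hic, Xc, hXc, hicX, hoc⟩ := hmc V d C F h c hc hn
    obtain ⟨hXcV, hXc4⟩ := h.bad.sys.sub c hc Xc hXc
    have hsplit : ((F c).filter (fun Y => Y ∈ S)).card ≤ 1 + (S.filter (fun Y => ic ∈ Y)).card := by
      have : (F c).filter (fun Y => Y ∈ S) ⊆ insert Xc (S.filter (fun Y => ic ∈ Y)) := by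
        intro Y hY
        rw [mem_filter] at hY
        rw [mem_insert]
        by_cases hYX : Y = Xc
        · exact Or.inl hYX
        · exact Or.inr (mem_filter.2 ⟨hY.2, hoc Y hY.1 hYX⟩)
      have h1 := card_le_card this
      have h2 := card_insert_le Xc (S.filter (fun Y => ic ∈ Y))
      omega
    by_cases hicH : ic ∈ H
    · right
      have hXcH : Xc ⊆ H := by
        intro x hx
        by_contra hxH
        have h1 := surg_wt V d C F h c hc ic hic Xc hXc hicX hoc x hx
        have h2 := hout x (mem_sdiff.2 ⟨hXcV hx, hxH⟩)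
        have h3 := hge ic hicH
        omega
      refine ⟨mem_filter.2 ⟨hc, Xc, hXc, hXcH⟩, hsplit.trans ?_⟩
      -- sets in S containing ic
      have hV' : H.erase ic ⊆ V.erase ic := erase_subset_erase _ hHV
      have c2 := d5B_cnt (V.erase ic) (H.erase ic) hV' 2 3 (by norm_num)
      have c3 := d5B_cnt (V.erase ic) (H.erase ic) hV' 3 3 (by norm_num)
      have hH' : (H.erase ic).card = 4 := by rw [card_erase_of_mem hicH, hH5]
      have hVc : (V.erase ic \ H.erase ic).card = V.card - 5 := by
        rw [card_sdiff_of_subset hV', hH', card_erase_of_mem hic]; omega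
      rw [hH', hVc] at c2 c3
      have hle : (S.filter (fun Y => ic ∈ Y)).card ≤
          (((V.erase ic).powersetCard 3).filter (fun Y => (Y ∩ H.erase ic).card = 2) ∪
            ((V.erase ic).powersetCard 3).filter (fun Y => (Y ∩ H.erase ic).card = 3)).card := by
        refine card_le_card_of_injOn (fun Y => Y.erase ic) ?_ ?_
        · intro Y hY
          rw [mem_coe, mem_filter, hS, mem_filter, mem_powersetCard] at hY
          obtain ⟨⟨⟨h1, h2⟩, h3⟩, h4⟩ := hY
          have e1 : Y.erase ic ∩ H.erase ic = (Y ∩ H).erase ic := by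
            ext x
            simp only [mem_inter, mem_erase]
            tauto
          have e2 : ((Y ∩ H).erase ic).card = (Y ∩ H).card - 1 :=
            card_erase_of_mem (mem_inter.2 ⟨h4, hicH⟩)
          have e3 : (Y.erase ic).card = 3 := by rw [card_erase_of_mem h4, h2]
          have e4 := card_le_card (inter_subset_left : Y ∩ H ⊆ Y)
          rw [mem_coe, mem_union, mem_filter, mem_filter, mem_powersetCard]
          dsimp only
          rw [e1, e2, e3]
          have e5 : Y.erase ic ⊆ V.erase ic := erase_subset_erase _ h1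
          rcases Nat.lt_or_ge 3 (Y ∩ H).card with h5 | h5
          · right; exact ⟨⟨e5, rfl⟩, by omega⟩
          · left; exact ⟨⟨e5, rfl⟩, by omega⟩
        · intro Y hY Z hZ hYZ
          rw [mem_coe, mem_filter] at hY hZ
          dsimp only at hYZ
          rw [← insert_erase hY.2, ← insert_erase hZ.2, hYZ]
      have hun := card_union_le (((V.erase ic).powersetCard 3).filter (fun Y => (Y ∩ H.erase ic).card = 2))
        (((V.erase ic).powersetCard 3).filter (fun Y => (Y ∩ H.erase ic).card = 3))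
      have k2 : Nat.choose 4 2 = 6 := by decide
      have k3 : Nat.choose 4 3 = 4 := by decide
      rw [c2, c3, k2, k3] at hun
      simp only [Nat.reduceSub, Nat.choose_one_right, tsub_self, Nat.choose_zero_right] at hun
      omega
    · left
      refine hsplit.trans ?_
      have hle : (S.filter (fun Y => ic ∈ Y)).card ≤ (H.powersetCard 3).card := by
        refine card_le_card_of_injOn (fun Y => Y ∩ H) ?_ ?_
        · intro Y hY
          rw [mem_coe, mem_filter, hS, mem_filter, mem_powersetCard] at hY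
          obtain ⟨⟨⟨h1, h2⟩, h3⟩, h4⟩ := hY
          rw [mem_coe, mem_powersetCard]
          refine ⟨inter_subset_right, ?_⟩
          have e1 : Y ∩ H ⊆ Y.erase ic := by
            intro x hx
            rw [mem_inter] at hx
            exact mem_erase.2 ⟨fun hh => hicH (hh ▸ hx.2), hx.1⟩
          have e2 := card_le_card e1
          rw [card_erase_of_mem h4, h2] at e2
          dsimp only
          omega
        · have key : ∀ Y ∈ S.filter (fun Y => ic ∈ Y), Y = insert ic (Y ∩ H) := by
            intro Y hY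
            rw [mem_filter, hS, mem_filter, mem_powersetCard] at hY
            obtain ⟨⟨⟨h1, h2⟩, h3⟩, h4⟩ := hY
            symm
            apply eq_of_subset_of_card_le
            · exact insert_subset h4 inter_subset_left
            · rw [card_insert_of_notMem (fun hh => hicH (mem_inter.1 hh).2), h2]
              omega
          intro Y hY Z hZ hYZ
          dsimp only at hYZ
          rw [key Y hY, key Z hZ, hYZ]
      rw [card_powersetCard, hH5] at hle
      have k3 : Nat.choose 5 3 = 10 := by decide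
      omega
  -- the sum over the classes
  have hdc := dc V d C F h.bad.sys S hSs
  have hsub : ins C F H ⊆ C := filter_subset _ _
  have hrhs : ∑ c ∈ C, ((F c).filter (fun Y => Y ∈ S)).card ≤
      (C.card - (ins C F H).card) * 11 + (ins C F H).card * (6 * (V.card - 5) + 5) := by
    rw [← sum_sdiff hsub]
    have r1 : ∑ c ∈ C \ ins C F H, ((F c).filter (fun Y => Y ∈ S)).card ≤
        (C.card - (ins C F H).card) * 11 := by
      rw [← card_sdiff_of_subset hsub, ← smul_eq_mul]
      refine sum_le_card_nsmul _ _ _ ?_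
      intro c hc
      rw [mem_sdiff] at hc
      rcases hcls c hc.1 with h1 | h1
      · exact h1
      · exact absurd h1.1 hc.2
    have r2 : ∑ c ∈ ins C F H, ((F c).filter (fun Y => Y ∈ S)).card ≤
        (ins C F H).card * (6 * (V.card - 5) + 5) := by
      rw [← smul_eq_mul]
      refine sum_le_card_nsmul _ _ _ ?_
      intro c hc
      rcases hcls c (hsub hc) with h1 | h1
      · have := hcnt.1
        omega
      · exact h1.2
    exact Nat.add_le_add r1 r2
  have hfin := (hlhs.trans hdc).trans hrhs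
  obtain ⟨s, hs⟩ : ∃ s : ℕ, s = (ins C F H).card := ⟨_, rfl⟩
  obtain ⟨v, hv⟩ : ∃ v : ℕ, v = V.card := ⟨_, rfl⟩
  obtain ⟨T, hT⟩ : ∃ T : ℕ, T = C.card := ⟨_, rfl⟩
  rw [← hs, ← hv, ← hT] at hfin
  rw [← hs] at hins
  rw [← hv] at hcnt ht
  rw [← hT] at ht
  have hT2 : T = v - 2 := by omega
  subst hT2
  obtain ⟨hv1, hv2⟩ := hcnt
  interval_cases v <;> interval_cases s <;> omega

theorem d5 (V : Finset ℕ) (d : ℕ → ℕ) (C : Finset ℕ) (F : ℕ → Finset (Finset ℕ))
    (h : Minl V d C F) (hD : wt d V = 5) : False := by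
  have h0 := tb5 V d C F h hD
  have hn : ∀ c ∈ C, c ∉ nonHM V C F := by
    intro c _ hc
    rw [Finset.card_eq_zero] at h0
    rw [h0] at hc
    exact absurd hc (Finset.notMem_empty c)
  by_cases hl : ∀ c ∈ C, ∃ i ∈ V, d i = 0 ∧ ∃ X ∈ F c, i ∉ X ∧ ∀ Y ∈ F c, Y ≠ X → i ∈ Y
  · exact d5A V d C F h hD hl
  push Not at hl
  obtain ⟨c0, hc0, hl⟩ := hl
  obtain ⟨i, hi, X, hX, hiX, ho⟩ := hmc V d C F h c0 hc0 (hn c0 hc0)
  have hdi : 1 ≤ d i := by
    by_contra hcon
    obtain ⟨Y, hY, hYX, hiY⟩ := hl i hi (by omega) X hX hiX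
    exact hiY (ho Y hY hYX)
  exact d5B V d C F h hD c0 hc0 i hi hdi X hX hiX ho

end Pool.Agent.Lib.MP_6805b2_co.ST
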