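import Mathlib

/-!
# Stahl's conjecture for n = 4: definitions

Points and colours are natural numbers. A system on a finite set `V` with weights `d` consists of
a finite set `C` of colours and for every colour `c` an intersecting family `F c` of 4-subsets of
`V`, such that every 4-subset `X` of `V` has at least `1 + d(X)` colours. It is bad if
`|V| ≥ 8` and `|C| ≤ |V| + d(V) - 7`.
-/

namespace Pool.Agent.Lib.MP_6805b2_co.ST

open Finset

/-- total weight of a set -/
def wt (d : ℕ → ℕ) (X : Finset ℕ) : ℕ := ∑ x ∈ X, d x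

/-- the colours of the set `X` -/
def col (C : Finset ℕ) (F : ℕ → Finset (Finset ℕ)) (X : Finset ℕ) : Finset ℕ :=
  C.filter (fun c => X ∈ F c)

/-- the colours with a member inside `U` -/
def ins (C : Finset ℕ) (F : ℕ → Finset (Finset ℕ)) (U : Finset ℕ) : Finset ℕ :=
  C.filter (fun c => ∃ X ∈ F c, X ⊆ U)

/-- the colours for which `U` meets all members -/
def trv (C : Finset ℕ) (F : ℕ → Finset (Finset ℕ)) (U : Finset ℕ) : Finset ℕ :=
  C.filter (fun c => ∀ X ∈ F c, ¬ Disjoint U X)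

/-- a system of intersecting families of 4-sets -/
structure Sys (V : Finset ℕ) (d : ℕ → ℕ) (C : Finset ℕ) (F : ℕ → Finset (Finset ℕ)) : Prop where
  sub : ∀ c ∈ C, ∀ X ∈ F c, X ⊆ V ∧ X.card = 4
  int : ∀ c ∈ C, ∀ X ∈ F c, ∀ Y ∈ F c, ¬ Disjoint X Y
  cov : ∀ X, X ⊆ V → X.card = 4 → 1 + wt d X ≤ (col C F X).card

/-- a bad system: a counterexample to the weighted form of the conjecture -/
structure Bad (V : Finset ℕ) (d : ℕ → ℕ) (C : Finset ℕ) (F : ℕ → Finset (Finset ℕ)) : Prop where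
  sys : Sys V d C F
  hv : 8 ≤ V.card
  hT : C.card + 7 ≤ V.card + wt d V

/-- a bad system with minimal `|V| + d(V)` -/
structure Minl (V : Finset ℕ) (d : ℕ → ℕ) (C : Finset ℕ) (F : ℕ → Finset (Finset ℕ)) : Prop where
  bad : Bad V d C F
  min : ∀ (V' : Finset ℕ) (d' : ℕ → ℕ) (C' : Finset ℕ) (F' : ℕ → Finset (Finset ℕ)),
    Bad V' d' C' F' → V.card + wt d V ≤ V'.card + wt d' V'

/-- every class is a maximal intersecting family of 4-subsets of `V` -/
def Maxl (V : Finset ℕ) (C : Finset ℕ) (F : ℕ → Finset (Finset ℕ)) : Prop :=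
  ∀ c ∈ C, ∀ X : Finset ℕ, X ⊆ V → X.card = 4 → (∀ Y ∈ F c, ¬ Disjoint X Y) → X ∈ F c

/-- two cross-intersecting families -/
def Cross (A B : Finset (Finset ℕ)) : Prop := ∀ X ∈ A, ∀ Y ∈ B, ¬ Disjoint X Y

/-- a family of `k`-subsets of `V` -/
def Unif (k : ℕ) (V : Finset ℕ) (A : Finset (Finset ℕ)) : Prop := ∀ X ∈ A, X ⊆ V ∧ X.card = k

/-- the points of `G` contained in all members of the class `F c` -/
def cen (G : Finset ℕ) (A : Finset (Finset ℕ)) : Finset ℕ := G.filter (fun x => ∀ X ∈ A, x ∈ X)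

/-- number of colours centred at `x` -/
def deg (C : Finset ℕ) (F : ℕ → Finset (Finset ℕ)) (x : ℕ) : ℕ :=
  (C.filter (fun c => ∀ X ∈ F c, x ∈ X)).card

/-- the carrier set of the topological part -/
def Wc (C : Finset ℕ) (F : ℕ → Finset (Finset ℕ)) (U : Finset ℕ) : Finset ℕ :=
  if 4 ≤ U.card then ins C F U else if U.card = 3 then trv C F U else ∅

/-- boundary of a chain of signed sets; `z A B` is the coefficient of the signed set with positive
part `A` and negative part `B` -/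
def bd (J : Finset ℕ) (z : Finset ℕ → Finset ℕ → ZMod 2) : Finset ℕ → Finset ℕ → ZMod 2 :=
  fun A B => ∑ j ∈ J \ (A ∪ B), (z (insert j A) B + z A (insert j B))

/-- the antipodal chain -/
def sw (z : Finset ℕ → Finset ℕ → ZMod 2) : Finset ℕ → Finset ℕ → ZMod 2 := fun A B => z B A

/-- the chain is supported on signed sets of size `k` with positive part in `P` and negative part
in `Q` -/
def Sup (k : ℕ) (P Q : Finset ℕ) (z : Finset ℕ → Finset ℕ → ZMod 2) : Prop :=
  ∀ A B : Finset ℕ, z A B ≠ 0 → A ⊆ P ∧ B ⊆ Q ∧ Disjoint A B ∧ A.card + B.card = k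

/-- the sum of the values of `f` on the faces of codimension one of the signed set `(A, B)` -/
def fac (f : Finset ℕ → Finset ℕ → Finset ℕ → Finset ℕ → ZMod 2) (A B : Finset ℕ) :
    Finset ℕ → Finset ℕ → ZMod 2 :=
  (∑ i ∈ A, f (A.erase i) B) + ∑ i ∈ B, f A (B.erase i)

/-- the chain of the empty signed set -/
def pt : Finset ℕ → Finset ℕ → ZMod 2 := fun A B => if A = ∅ ∧ B = ∅ then 1 else 0

/-- the data of the topological theorem: `W` is a monotone map from subsets of `I` to subsets of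
`J`; `W A = W B` forces `|A| + |B| ≤ |W A|` except for the bad pairs, which have excess one and
come with an antipodal choice of a facet `(S A B, W A \\ S A B)` of the sphere of signed subsets
of `W A`. -/
structure TopData (I J : Finset ℕ) (W : Finset ℕ → Finset ℕ) (bad : Finset ℕ → Finset ℕ → Prop)
    (S : Finset ℕ → Finset ℕ → Finset ℕ) : Prop where
  wj : ∀ A, A ⊆ I → W A ⊆ J
  mono : ∀ A B, A ⊆ B → B ⊆ I → W A ⊆ W B
  nb : ∀ A B, A ⊆ I → B ⊆ I → Disjoint A B → W A = W B → ¬ bad A B →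
    A.card + B.card ≤ (W A).card
  bd1 : ∀ A B, A ⊆ I → B ⊆ I → Disjoint A B → bad A B →
    W A = W B ∧ A.card + B.card = (W A).card + 1 ∧ bad B A ∧ S A B ⊆ W A ∧
      S B A = W A \ S A B
  bd2 : ∀ A B Y Z, A ⊆ I → B ⊆ I → Disjoint A B → bad A B → Y ⊆ A → Z ⊆ B →
    A.card + B.card = Y.card + Z.card + 1 → W Y = W Z ∨
      ¬ (S A B ⊆ W Y ∧ W A \ S A B ⊆ W Z)
  bd3 : ∀ A B A' B' Y Z, A ⊆ I → B ⊆ I → Disjoint A B → bad A B →
    A' ⊆ I → B' ⊆ I → Disjoint A' B' → bad A' B' → Y ⊆ A → Z ⊆ B → Y ⊆ A' → Z ⊆ B' →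
    A.card + B.card = Y.card + Z.card + 1 → A'.card + B'.card = Y.card + Z.card + 1 →
    W Y = W Z → S A B = S A' B'

/-- the colours containing all sets `insert h A`, `h ∈ H` -/
def Mm (C : Finset ℕ) (F : ℕ → Finset (Finset ℕ)) (H A : Finset ℕ) : Finset ℕ :=
  C.filter (fun c => ∀ h ∈ H, insert h A ∈ F c)

/-- the pairs `(h, c)` with `insert h A ∈ F c` -/
def Tt (C : Finset ℕ) (F : ℕ → Finset (Finset ℕ)) (H A : Finset ℕ) : Finset (ℕ × ℕ) :=
  (H ×ˢ C).filter (fun p => insert p.1 A ∈ F p.2)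

/-- number of members with at least `3` points of `H` -/
def s3 (H : Finset ℕ) (A : Finset (Finset ℕ)) : ℕ := (A.filter (fun X => 3 ≤ (X ∩ H).card)).card

/-- number of members with at most one point of `H` -/
def s1 (H : Finset ℕ) (A : Finset (Finset ℕ)) : ℕ := (A.filter (fun X => (X ∩ H).card ≤ 1)).card

end Pool.Agent.Lib.MP_6805b2_co.ST
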