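import Pool.Agent.Lib.MP_6805b2_co.ST.Main

/-!
# Fin: from a homomorphism to a bad system

Let `φ` be a homomorphism. Put `V = range m`, `d = fun _ => q - 1`, `C = range (q m - 7)`, and for
`c < q m - 7`, `F c` the set of all 4-subsets `X` of `range m` such that the vertex `X'` of the
first graph corresponding to `X` (`X' = univ.filter (fun i : Fin m => i.val ∈ X)`, or use
`Finset.map Fin.valEmbedding`) has `c ∈ φ X'` (as an element of `Fin`). Simplest definition:
`F c = (univ.filter (fun s : {s : Finset (Fin m) // s.card = 4} => ∃ j ∈ (φ s).1, j.val = c)).image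
(fun s => s.1.map Fin.valEmbedding)`.
* `sub`: members are 4-subsets of `range m`.
* `int`: if `X, Y ∈ F c` come from `s, t` and are disjoint, then `s.1, t.1` are disjoint and
  nonempty, so `s ≠ t` and `s, t` are adjacent; then `φ s, φ t` are adjacent, so `(φ s).1`,
  `(φ t).1` are disjoint, but both contain the element with value `c`.
* `cov`: every 4-subset `X` of `range m` is `s.1.map Fin.valEmbedding` for a unique `s`, and
  `col C F X` has `|(φ s).1| = (q - 1) * 4 + 1 = 1 + wt d X` elements.
* `|C| + 7 = q m - 7 + 7 = q m = m + (q - 1) m = |V| + wt d V` (`q m ≥ 8`), `|V| = m ≥ 8`.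
-/

namespace Pool.Agent.Lib.MP_6805b2_co.ST

open Finset

private theorem fin_bad (m q : ℕ) (hm : 8 ≤ m) (hq : 1 ≤ q)
    (φ : SimpleGraph.fromRel
          (fun s t : {s : Finset (Fin m) // s.card = 4} => Disjoint s.1 t.1) →g
        SimpleGraph.fromRel
          (fun s t : {s : Finset (Fin (q * m - 2 * (4 - 1) - 1)) // s.card = (q - 1) * 4 + 1} =>
            Disjoint s.1 t.1)) :
    ∃ F, Bad (range m) (fun _ => q - 1) (range (q * m - 2 * (4 - 1) - 1)) F := by
  classical
  refine ⟨fun c => ((univ : Finset {s : Finset (Fin m) // s.card = 4}).filter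
    (fun s => ∃ j ∈ (φ s).1, j.val = c)).image (fun s => s.1.map Fin.valEmbedding),
    ⟨?_, ?_, ?_⟩, ?_, ?_⟩
  · intro c _ X hX
    obtain ⟨s, _, rfl⟩ := Finset.mem_image.mp hX
    refine ⟨?_, ?_⟩
    · intro x hx
      obtain ⟨i, _, rfl⟩ := Finset.mem_map.mp hx
      exact Finset.mem_range.mpr i.isLt
    · rw [Finset.card_map]
      exact s.2
  · intro c _ X hX Y hY hd
    obtain ⟨s, hs, rfl⟩ := Finset.mem_image.mp hX
    obtain ⟨t, ht, rfl⟩ := Finset.mem_image.mp hY
    obtain ⟨j, hj, hjc⟩ := (Finset.mem_filter.mp hs).2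
    obtain ⟨j', hj', hjc'⟩ := (Finset.mem_filter.mp ht).2
    have hjj : j = j' := Fin.ext (by rw [hjc, hjc'])
    subst hjj
    have hd' : Disjoint s.1 t.1 := (Finset.disjoint_map Fin.valEmbedding).mp hd
    have hne : s ≠ t := by
      intro h
      subst h
      have h1 : s.1 = ∅ := (Finset.disjoint_self_iff_empty s.1).mp hd'
      have h2 := s.2
      rw [h1] at h2
      simp at h2
    have hadj : (SimpleGraph.fromRel
          (fun s t : {s : Finset (Fin m) // s.card = 4} => Disjoint s.1 t.1)).Adj s t := by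
      rw [SimpleGraph.fromRel_adj]
      exact ⟨hne, Or.inl hd'⟩
    have h3 := φ.map_rel hadj
    have h4 := (SimpleGraph.fromRel_adj _ _ _).mp h3
    rcases h4.2 with h5 | h5
    · exact Finset.disjoint_left.mp h5 hj hj'
    · exact Finset.disjoint_left.mp h5 hj' hj
  · intro X hX hX4
    have hmap : ((univ : Finset (Fin m)).filter (fun i => i.val ∈ X)).map Fin.valEmbedding = X := by
      ext x
      rw [Finset.mem_map]
      constructor
      · rintro ⟨i, hi, rfl⟩
        exact (Finset.mem_filter.mp hi).2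
      · intro hx
        exact ⟨⟨x, Finset.mem_range.mp (hX hx)⟩,
          Finset.mem_filter.mpr ⟨Finset.mem_univ _, hx⟩, rfl⟩
    have hcard : ((univ : Finset (Fin m)).filter (fun i => i.val ∈ X)).card = 4 := by
      rw [← hX4]
      conv_rhs => rw [← hmap]
      rw [Finset.card_map]
    have hsub : ((φ ⟨_, hcard⟩).1.map Fin.valEmbedding) ⊆
        col (range (q * m - 2 * (4 - 1) - 1)) (fun c =>
          ((univ : Finset {s : Finset (Fin m) // s.card = 4}).filter
          (fun s => ∃ j ∈ (φ s).1, j.val = c)).image (fun s => s.1.map Fin.valEmbedding)) X := by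
      intro c hc
      obtain ⟨j, hj, rfl⟩ := Finset.mem_map.mp hc
      refine Finset.mem_filter.mpr ⟨Finset.mem_range.mpr j.isLt, ?_⟩
      refine Finset.mem_image.mpr ⟨⟨_, hcard⟩, Finset.mem_filter.mpr ⟨Finset.mem_univ _, j, hj,
        rfl⟩, hmap⟩
    have h1 := Finset.card_le_card hsub
    rw [Finset.card_map, (φ ⟨_, hcard⟩).2] at h1
    refine le_trans ?_ h1
    unfold wt
    rw [Finset.sum_const, hX4, smul_eq_mul]
    omega
  · rw [Finset.card_range]
    exact hm
  · unfold wt
    rw [Finset.sum_const, Finset.card_range, Finset.card_range, smul_eq_mul]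
    obtain ⟨p, rfl⟩ : ∃ p, q = p + 1 := ⟨q - 1, by omega⟩
    have h1 : (p + 1) * m = m * p + m := by ring
    rw [h1, Nat.add_sub_cancel]
    omega

theorem fin (m q : ℕ) (hm : 8 ≤ m) (hq : 1 ≤ q) :
    IsEmpty
      (SimpleGraph.fromRel
          (fun s t : {s : Finset (Fin m) // s.card = 4} => Disjoint s.1 t.1) →g
        SimpleGraph.fromRel
          (fun s t : {s : Finset (Fin (q * m - 2 * (4 - 1) - 1)) // s.card = (q - 1) * 4 + 1} =>
            Disjoint s.1 t.1)) := by
  refine ⟨fun φ => ?_⟩
  obtain ⟨F, hF⟩ := fin_bad m q hm hq φ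
  exact no_bad _ _ _ F hF

end Pool.Agent.Lib.MP_6805b2_co.ST
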