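import Pool.Agent.Lib.MP_6805b2_co.ST.SSa

/-!
# SSe: second step of the small set lemma (only `era_step` below is proved here)

`ss`: strong induction on `|G| + wt d G` (for all `C, F, e, δ`). If `|G| = 8`: `ss8`. If
`|G| ≥ 9` and no class has exactly one centre: `ss9`. Otherwise let `γ ∈ C` with
`cen G (F γ) = {x}`.
* `d x > 0` (`dec_step`): `d' = Function.update d x (d x - 1)`, `C' = C.erase γ`, same `G, F, e, δ`.
  Coverage: a set containing `x` loses at most one colour and its requirement drops by one, a set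
  without `x` does not have the colour `γ`. `deg C' F x = deg C F x - 1`,
  `deg C' F y = deg C F y` for `y ≠ x` (`γ` is centred only at `x`).
* `d x = 0` (`era_step`): `G' = G.erase x`, `C' = C.filter (fun c => ∃ X ∈ F c, x ∉ X)`,
  `F' c = (F c).filter (fun X => x ∉ X)`. Let `E = (C \ C').erase γ` (classes centred at `x`,
  different from `γ ∈ C \ C'`), `e' = |E|`,
  `δ' y = δ y + #{c ∈ E | all members of F c contain y}`. Then `|C'| = |C| - 1 - e'`, so
  `|C'| + (e + e') + 5 ≤ |G'| + wt d G' + ρ`. For `y ∈ G'`: the classes in `C'` centred at `y` in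
  `F` are centred at `y` in `F'`, and the classes in `C \ C'` centred at `y` are in `E` (`γ` is
  centred only at `x`), so `deg C' F' y + δ' y ≥ deg C F y + δ y`.
  `sum_{y ∈ G'} δ' y ≤ 3 e + sum_{c ∈ E} (|cen G (F c)| - 1) ≤ 3 e + 3 e'`.
  Coverage: a 4-subset of `G'` has the same colours as before (they are in `C'`).

`trl`: let `U ⊆ V`, `|U| = 3`, `|V| ≥ 11`, and suppose `t := |trv C F U| < wt d U`. Put
`G = V \ U`, `C' = C \ trv C F U`, `F' c = (F c).filter (fun X => Disjoint U X)`,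
`ρ = 1 + wt d U - t ≥ 2`, `e = 0`, `δ = 0`. Then `SSh G d C' F' 0 0 ρ`:
* a 4-subset of `G` has the same colours as before (such a colour has a member disjoint from `U`).
* `F' c` is nonempty for `c ∈ C'`.
* `x ∈ G`: the set `insert x U` has at least `1 + wt d U + d x` colours, at most `t` of them in
  `trv C F U`; the others are in `C'`, and all members of `F' c` contain `x` (they meet
  `insert x U` but not `U`). So `deg C' F' x ≥ 1 + wt d U + d x - t = ρ + d x`.
* `|C'| + 5 = |C| - t + 5 ≤ |V| + wt d V - 7 - t + 5 = |G| + 3 + wt d G + wt d U - 2 - t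
  = |G| + wt d G + ρ`.
-/

namespace Pool.Agent.Lib.MP_6805b2_co.ST

open Finset

theorem era_step (G : Finset ℕ) (d : ℕ → ℕ) (C : Finset ℕ) (F : ℕ → Finset (Finset ℕ)) (e : ℕ)
    (δ : ℕ → ℕ) (ρ : ℕ) (h : SSh G d C F e δ ρ) (γ : ℕ) (hγ : γ ∈ C) (x : ℕ)
    (hx : cen G (F γ) = {x}) (hd : d x = 0) :
    ∃ C' F' e' δ', SSh (G.erase x) d C' F' e' δ' ρ := by
  classical
  have hxc : x ∈ cen G (F γ) := by
    rw [hx]
    exact mem_singleton_self x
  have hxG : x ∈ G := (mem_filter.mp hxc).1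
  have hγx : ∀ X ∈ F γ, x ∈ X := (mem_filter.mp hxc).2
  set C' := C.filter (fun c => ∃ X ∈ F c, x ∉ X) with hC'
  set E := (C.filter (fun c => ¬ ∃ X ∈ F c, x ∉ X)).erase γ with hE
  have hEx : ∀ c ∈ E, c ∈ C ∧ ∀ X ∈ F c, x ∈ X := by
    intro c hc
    rw [hE, mem_erase, mem_filter] at hc
    refine ⟨hc.2.1, fun X hX => ?_⟩
    by_contra hcon
    exact hc.2.2 ⟨X, hX, hcon⟩
  have hγm : γ ∈ C.filter (fun c => ¬ ∃ X ∈ F c, x ∉ X) := by
    rw [mem_filter]
    refine ⟨hγ, ?_⟩
    rintro ⟨X, hX, hX'⟩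
    exact hX' (hγx X hX)
  have hcard : C'.card + (E.card + 1) = C.card := by
    rw [hE, card_erase_add_one hγm]
    exact card_filter_add_card_filter_not _
  refine ⟨C', fun c => (F c).filter (fun X => x ∉ X), e + E.card,
    fun y => δ y + (E.filter (fun c => ∀ X ∈ F c, y ∈ X)).card, ?_⟩
  refine ⟨⟨?_, ?_, ?_⟩, ?_, h.hρ, ?_, ?_, ?_⟩
  · intro c hc X hX
    rw [mem_filter] at hX
    obtain ⟨h1, h2⟩ := h.sys.sub c (mem_filter.mp hc).1 X hX.1
    exact ⟨subset_erase.mpr ⟨h1, hX.2⟩, h2⟩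
  · intro c hc X hX Y hY
    exact h.sys.int c (mem_filter.mp hc).1 X (mem_filter.mp hX).1 Y (mem_filter.mp hY).1
  · intro X hX hX4
    obtain ⟨h1, h2⟩ := subset_erase.mp hX
    refine (h.sys.cov X h1 hX4).trans (card_le_card ?_)
    intro c hc
    obtain ⟨h3, h4⟩ := mem_filter.mp hc
    exact mem_filter.mpr ⟨mem_filter.mpr ⟨h3, X, h4, h2⟩, mem_filter.mpr ⟨h4, h2⟩⟩
  · intro c hc
    obtain ⟨_, X, hX, hX'⟩ := mem_filter.mp hc
    exact ⟨X, mem_filter.mpr ⟨hX, hX'⟩⟩
  · rw [sum_add_distrib, mul_add]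
    refine add_le_add ((sum_le_sum_of_subset (erase_subset x G)).trans h.hδ) ?_
    have h1 : ∑ y ∈ G.erase x, (E.filter (fun c => ∀ X ∈ F c, y ∈ X)).card =
        ∑ c ∈ E, (cen (G.erase x) (F c)).card := by
      simp only [cen, card_filter]
      exact sum_comm
    rw [h1]
    have h2 : ∀ c ∈ E, (cen (G.erase x) (F c)).card ≤ 3 := by
      intro c hc
      obtain ⟨h3, h4⟩ := hEx c hc
      obtain ⟨g1, _⟩ := cen_card G (F c) (ssa_cross G d C F e δ ρ h c h3).1 (h.hne c h3)
      have h5 : x ∈ cen G (F c) := mem_filter.mpr ⟨hxG, h4⟩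
      have h6 : cen (G.erase x) (F c) ⊆ (cen G (F c)).erase x := by
        intro y hy
        obtain ⟨h7, h8⟩ := mem_filter.mp hy
        obtain ⟨h9, h10⟩ := mem_erase.mp h7
        exact mem_erase.mpr ⟨h9, mem_filter.mpr ⟨h10, h8⟩⟩
      have h7 := card_le_card h6
      rw [card_erase_of_mem h5] at h7
      omega
    calc ∑ c ∈ E, (cen (G.erase x) (F c)).card ≤ ∑ _c ∈ E, 3 := sum_le_sum h2
      _ = 3 * E.card := by rw [sum_const, smul_eq_mul, mul_comm]
  · intro y hy
    obtain ⟨hyx, hyG⟩ := mem_erase.mp hy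
    have h1 := h.hdeg y hyG
    have h2 : deg C F y ≤ deg C' (fun c => (F c).filter (fun X => x ∉ X)) y +
        (E.filter (fun c => ∀ X ∈ F c, y ∈ X)).card := by
      unfold deg
      refine le_trans (card_le_card ?_) (card_union_le _ _)
      intro c hc
      obtain ⟨h3, h4⟩ := mem_filter.mp hc
      rw [mem_union]
      by_cases hcx : ∃ X ∈ F c, x ∉ X
      · left
        exact mem_filter.mpr ⟨mem_filter.mpr ⟨h3, hcx⟩, fun X hX => h4 X (mem_filter.mp hX).1⟩
      · right
        refine mem_filter.mpr ⟨?_, h4⟩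
        rw [hE, mem_erase, mem_filter]
        refine ⟨?_, h3, hcx⟩
        rintro rfl
        have h5 : y ∈ cen G (F c) := mem_filter.mpr ⟨hyG, h4⟩
        rw [hx, mem_singleton] at h5
        exact hyx h5
    omega
  · have h1 := h.hN
    have h2 : (G.erase x).card + 1 = G.card := card_erase_add_one hxG
    have h3 : wt d (G.erase x) = wt d G := by
      unfold wt
      rw [← add_sum_erase G d hxG, hd, zero_add]
    rw [h3]
    omega

end Pool.Agent.Lib.MP_6805b2_co.ST
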