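import Pool.Agent.Lib.MP_6805b2_co.ST.SSd
import Pool.Agent.Lib.MP_6805b2_co.ST.SSe

/-!
# SSb: the small set lemma (`ss` is proved, `trl` is the task)

`ss`: strong induction on `|G| + wt d G` (for all `C, F, e, δ`). If `|G| = 8`: `ss8`. If
`|G| ≥ 9` and no class has exactly one centre: `ss9`. Otherwise let `γ ∈ C` with
`cen G (F γ) = {x}`.
* `d x > 0` (`dec_step`): `d' = Function.update d x (d x - 1)`, `C' = C.erase γ`, same `G, F, e, δ`.
  Coverage: a set containing `x` loses at most one colour and its requirement drops by one, a set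
  without `x` does not have the colour `γ`. `deg C' F x = deg C F x - 1`,
  `deg C' F y = deg C F y` for `y ≠ x` (`γ` is centred only at `x`).
* `d x = 0` (`era_step`): `G' = G.erase x`, `C' = C.filter (fun c => ∃ X ∈ F c, x ∉ X)`,
  `F' c = (F c).filter (fun X => x ∉ X)`. Let `E = (C \ C').erase γ` (classes centred at `x`,
  different from `γ ∈ C \ C'`), `e' = |E|`,
  `δ' y = δ y + #{c ∈ E | all members of F c contain y}`. Then `|C'| = |C| - 1 - e'`, so
  `|C'| + (e + e') + 5 ≤ |G'| + wt d G' + ρ`. For `y ∈ G'`: the classes in `C'` centred at `y` in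
  `F` are centred at `y` in `F'`, and the classes in `C \ C'` centred at `y` are in `E` (`γ` is
  centred only at `x`), so `deg C' F' y + δ' y ≥ deg C F y + δ y`.
  `sum_{y ∈ G'} δ' y ≤ 3 e + sum_{c ∈ E} (|cen G (F c)| - 1) ≤ 3 e + 3 e'`.
  Coverage: a 4-subset of `G'` has the same colours as before (they are in `C'`).

`trl`: let `U ⊆ V`, `|U| = 3`, `|V| ≥ 11`, and suppose `t := |trv C F U| < wt d U`. Put
`G = V \ U`, `C' = C \ trv C F U`, `F' c = (F c).filter (fun X => Disjoint U X)`,
`ρ = 1 + wt d U - t ≥ 2`, `e = 0`, `δ = 0`. Then `SSh G d C' F' 0 0 ρ`: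
* a 4-subset of `G` has the same colours as before (such a colour has a member disjoint from `U`).
* `F' c` is nonempty for `c ∈ C'`.
* `x ∈ G`: the set `insert x U` has at least `1 + wt d U + d x` colours, at most `t` of them in
  `trv C F U`; the others are in `C'`, and all members of `F' c` contain `x` (they meet
  `insert x U` but not `U`). So `deg C' F' x ≥ 1 + wt d U + d x - t = ρ + d x`.
* `|C'| + 5 = |C| - t + 5 ≤ |V| + wt d V - 7 - t + 5 = |G| + 3 + wt d G + wt d U - 2 - t
  = |G| + wt d G + ρ`.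
-/

namespace Pool.Agent.Lib.MP_6805b2_co.ST

open Finset

theorem ss (n : ℕ) : ∀ (G : Finset ℕ) (d : ℕ → ℕ) (C : Finset ℕ) (F : ℕ → Finset (Finset ℕ))
    (e : ℕ) (δ : ℕ → ℕ) (ρ : ℕ), SSh G d C F e δ ρ → 8 ≤ G.card → G.card + wt d G ≤ n →
    False := by
  induction n with
  | zero => intro G d C F e δ ρ h hg hn; omega
  | succ n ih =>
    intro G d C F e δ ρ h hg hn
    rcases Nat.eq_or_lt_of_le hg with hg8 | hg9
    · exact ss8 G d C F e δ ρ h hg8.symm
    by_cases h1 : ∀ c ∈ C, (cen G (F c)).card ≠ 1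
    · exact ss9 G d C F e δ ρ h hg9 h1
    push Not at h1
    obtain ⟨γ, hγ, hc⟩ := h1
    obtain ⟨x, hx⟩ := Finset.card_eq_one.mp hc
    have hxG : x ∈ G := by
      have : x ∈ cen G (F γ) := by rw [hx]; exact Finset.mem_singleton_self x
      exact (Finset.mem_filter.mp this).1
    rcases Nat.eq_zero_or_pos (d x) with hd | hd
    · obtain ⟨C', F', e', δ', h'⟩ := era_step G d C F e δ ρ h γ hγ x hx hd
      have hcard : (G.erase x).card = G.card - 1 := Finset.card_erase_of_mem hxG
      have hw : wt d (G.erase x) = wt d G := by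
        have := Finset.sum_erase (s := G) (f := d) hd
        exact this
      exact ih (G.erase x) d C' F' e' δ' ρ h' (by omega) (by omega)
    · obtain ⟨d', C', h', hw⟩ := dec_step G d C F e δ ρ h γ hγ x hx hd
      exact ih G d' C' F e δ ρ h' hg (by omega)

theorem trl (V : Finset ℕ) (d : ℕ → ℕ) (C : Finset ℕ) (F : ℕ → Finset (Finset ℕ))
    (h : Bad V d C F) (hv : 11 ≤ V.card) (U : Finset ℕ) (hU : U ⊆ V) (hU3 : U.card = 3) :
    wt d U ≤ (trv C F U).card := by
  classical
  by_contra hlt
  rw [not_le] at hlt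
  have hS := h.sys
  have hT := h.hT
  have htC : trv C F U ⊆ C := Finset.filter_subset _ _
  have hGc : (V \ U).card = V.card - 3 := by rw [Finset.card_sdiff_of_subset hU, hU3]
  have hwt : wt d (V \ U) + wt d U = wt d V := Finset.sum_sdiff hU
  have hmem : ∀ c ∈ C, ∀ X ∈ F c, Disjoint U X → c ∈ C \ trv C F U := by
    intro c hc X hX hd
    refine Finset.mem_sdiff.2 ⟨hc, fun ht => ?_⟩
    exact (Finset.mem_filter.1 ht).2 X hX hd
  have hSS : SSh (V \ U) d (C \ trv C F U) (fun c => (F c).filter (fun X => Disjoint U X)) 0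
      (fun _ => 0) (1 + wt d U - (trv C F U).card) := by
    refine ⟨⟨?_, ?_, ?_⟩, ?_, ?_, ?_, ?_, ?_⟩
    · intro c hc X hX
      obtain ⟨hX1, hX2⟩ := Finset.mem_filter.1 hX
      obtain ⟨h1, h2⟩ := hS.sub c (Finset.mem_sdiff.1 hc).1 X hX1
      exact ⟨Finset.subset_sdiff.2 ⟨h1, hX2.symm⟩, h2⟩
    · intro c hc X hX Y hY
      exact hS.int c (Finset.mem_sdiff.1 hc).1 X (Finset.mem_filter.1 hX).1 Y
        (Finset.mem_filter.1 hY).1
    · intro X hX h4
      obtain ⟨hXV, hXU⟩ := Finset.subset_sdiff.1 hX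
      refine (hS.cov X hXV h4).trans (Finset.card_le_card ?_)
      intro c hc
      obtain ⟨hc1, hc2⟩ := Finset.mem_filter.1 hc
      exact Finset.mem_filter.2 ⟨hmem c hc1 X hc2 hXU.symm,
        Finset.mem_filter.2 ⟨hc2, hXU.symm⟩⟩
    · intro c hc
      obtain ⟨hc1, hc2⟩ := Finset.mem_sdiff.1 hc
      by_contra hemp
      rw [Finset.not_nonempty_iff_eq_empty] at hemp
      refine hc2 (Finset.mem_filter.2 ⟨hc1, fun X hX hd => ?_⟩)
      have : X ∈ (F c).filter (fun X => Disjoint U X) := Finset.mem_filter.2 ⟨hX, hd⟩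
      rw [hemp] at this
      exact absurd this (Finset.notMem_empty X)
    · omega
    · simp
    · intro x hx
      obtain ⟨hxV, hxU⟩ := Finset.mem_sdiff.1 hx
      have hins : insert x U ⊆ V := Finset.insert_subset hxV hU
      have h4 : (insert x U).card = 4 := by rw [Finset.card_insert_of_notMem hxU, hU3]
      have h1 := hS.cov (insert x U) hins h4
      have h2 : wt d (insert x U) = d x + wt d U := Finset.sum_insert hxU
      have h3 : col C F (insert x U) ⊆ trv C F U ∪ (C \ trv C F U).filter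
          (fun c => ∀ X ∈ (F c).filter (fun X => Disjoint U X), x ∈ X) := by
        intro c hc
        obtain ⟨hc1, hc2⟩ := Finset.mem_filter.1 hc
        by_cases ht : c ∈ trv C F U
        · exact Finset.mem_union_left _ ht
        · refine Finset.mem_union_right _ (Finset.mem_filter.2
            ⟨Finset.mem_sdiff.2 ⟨hc1, ht⟩, fun Y hY => ?_⟩)
          obtain ⟨hY1, hY2⟩ := Finset.mem_filter.1 hY
          by_contra hxY
          refine hS.int c hc1 (insert x U) hc2 Y hY1 ?_
          rw [Finset.disjoint_insert_left]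
          exact ⟨hxY, hY2⟩
      have h5 := (Finset.card_le_card h3).trans (Finset.card_union_le _ _)
      change 1 + wt d U - (trv C F U).card + d x ≤ ((C \ trv C F U).filter
          (fun c => ∀ X ∈ (F c).filter (fun X => Disjoint U X), x ∈ X)).card + 0
      omega
    · rw [Finset.card_sdiff_of_subset htC, hGc]
      have h6 := Finset.card_le_card htC
      omega
  exact ss ((V \ U).card + wt d (V \ U)) _ _ _ _ _ _ _ hSS (by omega) le_rfl

end Pool.Agent.Lib.MP_6805b2_co.ST
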