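import Pool.Agent.Lib.MP_6805b2_co.ST.MaxA
import Pool.Agent.Lib.MP_6805b2_co.ST.SSb
import Pool.Agent.Lib.MP_6805b2_co.ST.App1
import Pool.Agent.Lib.MP_6805b2_co.ST.App2
import Pool.Agent.Lib.MP_6805b2_co.ST.App3c
import Pool.Agent.Lib.MP_6805b2_co.ST.D5B
import Pool.Agent.Lib.MP_6805b2_co.ST.D4A
import Pool.Agent.Lib.MP_6805b2_co.ST.D4C

/-!
# Main: there is no bad system
-/

namespace Pool.Agent.Lib.MP_6805b2_co.ST

open Finset

theorem no_bad (V : Finset ℕ) (d : ℕ → ℕ) (C : Finset ℕ) (F : ℕ → Finset (Finset ℕ))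
    (h : Bad V d C F) : False := by
  obtain ⟨V, d, C, F, h0⟩ := exists_minl V d C F h
  obtain ⟨F', hM, hX⟩ := exists_max V d C F h0
  clear h0 h
  obtain ⟨hc10, hc5, -, hc4, hc2⟩ := count V d C F' hM
  by_cases h5 : wt d V = 5
  · exact d5 V d C F' hM h5
  have hw4 : wt d V ≤ 4 := by omega
  have ht : 2 ≤ wt d V → ∀ U ⊆ V, U.card = 3 → wt d U ≤ (trv C F' U).card := by
    intro h2 U hU hU3
    exact trl V d C F' hM.bad (hc2 h2) U hU hU3
  have hdef : ∀ x ∈ V \ V.filter (fun x => 0 < d x), d x = 0 := by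
    intro x hx
    rw [Finset.mem_sdiff, Finset.mem_filter] at hx
    by_contra hcon
    exact hx.2 ⟨hx.1, Nat.pos_of_ne_zero hcon⟩
  have hH : V.filter (fun x => 0 < d x) ⊆ V := Finset.filter_subset _ _
  have hpos : ∀ x ∈ V.filter (fun x => 0 < d x), 1 ≤ d x := by
    intro x hx
    exact (Finset.mem_filter.mp hx).2
  have hsum : wt d (V.filter (fun x => 0 < d x)) = wt d V := by
    unfold wt
    refine Finset.sum_subset hH ?_
    intro x hx hx'
    exact hdef x (Finset.mem_sdiff.mpr ⟨hx, hx'⟩)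
  generalize hHd : V.filter (fun x => 0 < d x) = H at hdef hH hpos hsum
  have hcardle : H.card ≤ wt d H := by
    unfold wt
    calc H.card = ∑ x ∈ H, 1 := by simp
      _ ≤ ∑ x ∈ H, d x := Finset.sum_le_sum hpos
  have hcases : H.card = 0 ∨ H.card = 1 ∨ H.card = 2 ∨ H.card = 3 ∨ H.card = 4 := by omega
  rcases hcases with hu | hu | hu | hu | hu
  · have hH0 : H = ∅ := Finset.card_eq_zero.mp hu
    refine app0 V d C F' hM.bad hX ?_
    rw [← hsum, hH0]
    simp [wt]
  · obtain ⟨h, hh⟩ := Finset.card_eq_one.mp hu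
    have hhV : h ∈ V := hH (by rw [hh]; exact Finset.mem_singleton_self h)
    have hd0 : ∀ x ∈ V, x ≠ h → d x = 0 := by
      intro x hx hxh
      refine hdef x (Finset.mem_sdiff.mpr ⟨hx, ?_⟩)
      rw [hh, Finset.mem_singleton]
      exact hxh
    have hdh : d h = wt d V := by
      rw [← hsum, hh]
      simp [wt]
    have hd1 : 1 ≤ d h := hpos h (by rw [hh]; exact Finset.mem_singleton_self h)
    by_cases h4 : d h = 4
    · exact d4A V d C F' hM h hhV h4 hd0
    · exact app1 V d C F' hM.bad hX ht h hhV hd0 hd1 (by omega)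
  · obtain ⟨h1, h2, hne, hh⟩ := Finset.card_eq_two.mp hu
    have m1 : h1 ∈ H := by rw [hh]; simp
    have m2 : h2 ∈ H := by rw [hh]; simp
    have hs : d h1 + d h2 = wt d V := by
      rw [← hsum, hh]
      unfold wt
      rw [Finset.sum_pair hne]
    refine app2 V d C F' hM.bad hX ht h1 h2 (hH m1) (hH m2) hne ?_ (hpos h1 m1) (hpos h2 m2)
      (by omega)
    intro x hx hx1 hx2
    refine hdef x (Finset.mem_sdiff.mpr ⟨hx, ?_⟩)
    rw [hh, Finset.mem_insert, Finset.mem_singleton]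
    push Not
    exact ⟨hx1, hx2⟩
  · exact app3 V d C F' hM.bad hX (ht (by omega)) H hH hu hdef hpos
  · refine d4C V d C F' hM H hH hu ?_ hdef
    have hle : ∑ x ∈ H, d x ≤ ∑ x ∈ H, 1 := by
      have : wt d H ≤ 4 := by omega
      simpa [wt, hu] using this
    intro x hx
    by_contra hcon
    have hlt : ∑ x ∈ H, 1 < ∑ x ∈ H, d x := by
      refine Finset.sum_lt_sum hpos ⟨x, hx, ?_⟩
      have := hpos x hx
      omega
    omega

end Pool.Agent.Lib.MP_6805b2_co.ST
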