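import Pool.Agent.Lib.MP_6805b2_co.ST.MinA

/-!
# MaxA: the classes may be taken maximal

For every `c ∈ C` choose an intersecting family `F' c ⊆ V.powersetCard 4` containing `F c` with
the maximal number of members (for `c ∉ C` keep `F c`). Then `(V, d, C, F')` is a bad system
(`col C F X ⊆ col C F' X`) and `Maxl V C F'` holds: if a 4-subset `X` of `V` meets all members of
`F' c` then `insert X (F' c)` is intersecting (`X` meets itself since it is nonempty), so `X` is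
already a member.
-/

namespace Pool.Agent.Lib.MP_6805b2_co.ST

open Finset

theorem maxA_one (V : Finset ℕ) (A : Finset (Finset ℕ)) (hA : ∀ X ∈ A, X ⊆ V ∧ X.card = 4)
    (hI : ∀ X ∈ A, ∀ Y ∈ A, ¬ Disjoint X Y) :
    ∃ B : Finset (Finset ℕ), A ⊆ B ∧ (∀ X ∈ B, X ⊆ V ∧ X.card = 4) ∧
      (∀ X ∈ B, ∀ Y ∈ B, ¬ Disjoint X Y) ∧
      (∀ X : Finset ℕ, X ⊆ V → X.card = 4 → (∀ Y ∈ B, ¬ Disjoint X Y) → X ∈ B) := by
  classical
  let S : Finset (Finset (Finset ℕ)) := (V.powersetCard 4).powerset.filter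
    (fun B => A ⊆ B ∧ ∀ X ∈ B, ∀ Y ∈ B, ¬ Disjoint X Y)
  have hAS : A ∈ S := by
    refine Finset.mem_filter.2 ⟨?_, Finset.Subset.refl _, hI⟩
    rw [Finset.mem_powerset]
    intro X hX
    exact Finset.mem_powersetCard.2 (hA X hX)
  obtain ⟨B, hB, hmax⟩ := Finset.exists_max_image S (fun B => B.card) ⟨A, hAS⟩
  obtain ⟨hB1, hB2, hB3⟩ := Finset.mem_filter.1 hB
  rw [Finset.mem_powerset] at hB1
  have hBV : ∀ X ∈ B, X ⊆ V ∧ X.card = 4 := fun X hX => Finset.mem_powersetCard.1 (hB1 hX)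
  refine ⟨B, hB2, hBV, hB3, ?_⟩
  intro X hXV hX4 hXB
  by_contra hXn
  have hXX : ¬ Disjoint X X := by
    intro h0
    rw [disjoint_self, Finset.bot_eq_empty] at h0
    rw [h0] at hX4
    simp at hX4
  have hnew : insert X B ∈ S := by
    refine Finset.mem_filter.2 ⟨?_, hB2.trans (Finset.subset_insert _ _), ?_⟩
    · rw [Finset.mem_powerset]
      intro Y hY
      rcases Finset.mem_insert.1 hY with rfl | hY
      · exact Finset.mem_powersetCard.2 ⟨hXV, hX4⟩
      · exact hB1 hY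
    · intro Y hY Z hZ
      rcases Finset.mem_insert.1 hY with hY1 | hY1 <;>
        rcases Finset.mem_insert.1 hZ with hZ1 | hZ1
      · rw [hY1, hZ1]
        exact hXX
      · rw [hY1]
        exact hXB Z hZ1
      · intro h0
        rw [hZ1] at h0
        exact hXB Y hY1 h0.symm
      · exact hB3 Y hY1 Z hZ1
  have h1 := hmax _ hnew
  rw [Finset.card_insert_of_notMem hXn] at h1
  omega

theorem exists_max (V : Finset ℕ) (d : ℕ → ℕ) (C : Finset ℕ) (F : ℕ → Finset (Finset ℕ))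
    (h : Minl V d C F) : ∃ F', Minl V d C F' ∧ Maxl V C F' := by
  classical
  have hb := h.bad
  have key : ∀ c, ∃ B : Finset (Finset ℕ), c ∈ C → (F c ⊆ B ∧ (∀ X ∈ B, X ⊆ V ∧ X.card = 4) ∧
      (∀ X ∈ B, ∀ Y ∈ B, ¬ Disjoint X Y) ∧
      (∀ X : Finset ℕ, X ⊆ V → X.card = 4 → (∀ Y ∈ B, ¬ Disjoint X Y) → X ∈ B)) := by
    intro c
    by_cases hc : c ∈ C
    · obtain ⟨B, hB⟩ := maxA_one V (F c) (hb.sys.sub c hc) (hb.sys.int c hc)
      exact ⟨B, fun _ => hB⟩
    · exact ⟨∅, fun hc' => absurd hc' hc⟩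
  choose F' hF' using key
  have hb' : Bad V d C F' := by
    refine ⟨⟨fun c hc => (hF' c hc).2.1, fun c hc => (hF' c hc).2.2.1, ?_⟩, hb.hv, hb.hT⟩
    intro X hX hX4
    refine (hb.sys.cov X hX hX4).trans (Finset.card_le_card ?_)
    intro c hc
    unfold col at hc ⊢
    rw [Finset.mem_filter] at hc ⊢
    exact ⟨hc.1, (hF' c hc.1).1 hc.2⟩
  exact ⟨F', same V d C C F F' h hb', fun c hc => (hF' c hc).2.2.2⟩

end Pool.Agent.Lib.MP_6805b2_co.ST
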