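import Pool.Agent.Lib.MP_6805b2_co.ST.Cnt

/-!
# MinA: elementary properties of a minimal bad system

`exists_minl`: well-ordering of the naturals.

`v9`: if `|V| = 8` take a 4-subset `X` and `Y = V \ X`; `col X` and `col Y` are disjoint (`int`),
so `2 + wt d V = (1 + wt d X) + (1 + wt d Y) ≤ |C| ≤ 8 + wt d V - 7`, contradiction.

`teq`: otherwise `|C| + 8 ≤ |V| + wt d V`. If some `x ∈ V` has `d x > 0`, replace `d` by
`Function.update d x (d x - 1)`: still a bad system, with smaller `|V| + d(V)`. If all `d x = 0` on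
`V` then `|V| ≥ 9` (by `v9`); remove one point `x`: `V' = V.erase x`,
`F' c = (F c).filter (fun X => x ∉ X)`, again bad, smaller.

`nostar`: suppose all members of `F c` contain `i ∈ V`. If `d i > 0`: `C' = C.erase c`,
`d' = Function.update d i (d i - 1)`, same `V`, `F`: the set `X ∋ i` loses at most one colour and
its requirement drops by one, `X ∌ i` did not have the colour `c`. If `d i = 0`: `V' = V.erase i`,
`C' = C.erase c`, `F' c' = (F c').filter (fun X => i ∉ X)`, `|V'| ≥ 8` by `v9`. Both are bad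
(`|C'| + 7 ≤ |V'| + d'(V')`) and smaller.

`same`: any bad system on the same `V`, `d` is again minimal.
-/

namespace Pool.Agent.Lib.MP_6805b2_co.ST

open Finset

theorem exists_minl (V : Finset ℕ) (d : ℕ → ℕ) (C : Finset ℕ) (F : ℕ → Finset (Finset ℕ))
    (h : Bad V d C F) : ∃ V' d' C' F', Minl V' d' C' F' := by
  classical
  let P : ℕ → Prop := fun n => ∃ (V' : Finset ℕ) (d' : ℕ → ℕ) (C' : Finset ℕ)
    (F' : ℕ → Finset (Finset ℕ)), Bad V' d' C' F' ∧ V'.card + wt d' V' = n
  have hP : ∃ n, P n := ⟨_, V, d, C, F, h, rfl⟩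
  obtain ⟨V', d', C', F', hb, hn⟩ := Nat.find_spec hP
  refine ⟨V', d', C', F', hb, ?_⟩
  intro V2 d2 C2 F2 h2
  rw [hn]
  exact Nat.find_min' hP ⟨V2, d2, C2, F2, h2, rfl⟩

theorem minA_wt_mem (d : ℕ → ℕ) (x : ℕ) (X : Finset ℕ) (hx : x ∈ X) (hd : 0 < d x) :
    wt (Function.update d x (d x - 1)) X + 1 = wt d X := by
  unfold wt
  rw [Finset.sum_update_of_mem hx, ← Finset.sum_sdiff (Finset.singleton_subset_iff.2 hx),
    Finset.sum_singleton]
  omega

theorem minA_wt_nmem (d : ℕ → ℕ) (x : ℕ) (X : Finset ℕ) (hx : x ∉ X) (a : ℕ) :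
    wt (Function.update d x a) X = wt d X := by
  unfold wt
  refine Finset.sum_congr rfl ?_
  intro y hy
  have : y ≠ x := fun h => hx (h ▸ hy)
  simp [Function.update, this]

theorem minA_wt_erase (d : ℕ → ℕ) (x : ℕ) (X : Finset ℕ) (hx : x ∈ X) :
    wt d (X.erase x) + d x = wt d X := by
  unfold wt
  exact Finset.sum_erase_add X d hx

theorem minA_del (V : Finset ℕ) (d : ℕ → ℕ) (C C' : Finset ℕ) (F : ℕ → Finset (Finset ℕ))
    (hS : Sys V d C F) (x : ℕ) (hC : C' ⊆ C)
    (hcol : ∀ c ∈ C, ∀ X ∈ F c, x ∉ X → c ∈ C') :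
    Sys (V.erase x) d C' (fun c => (F c).filter (fun X => x ∉ X)) := by
  refine ⟨?_, ?_, ?_⟩
  · intro c hc X hX
    rw [Finset.mem_filter] at hX
    obtain ⟨h1, h2⟩ := hS.sub c (hC hc) X hX.1
    refine ⟨?_, h2⟩
    intro y hy
    rw [Finset.mem_erase]
    exact ⟨fun h => hX.2 (h ▸ hy), h1 hy⟩
  · intro c hc X hX Y hY
    rw [Finset.mem_filter] at hX hY
    exact hS.int c (hC hc) X hX.1 Y hY.1
  · intro X hX hX4
    have hxX : x ∉ X := fun h => by
      have := hX h
      simp at this
    have h1 := hS.cov X (hX.trans (Finset.erase_subset _ _)) hX4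
    refine h1.trans (Finset.card_le_card ?_)
    intro c hc
    unfold col at hc ⊢
    rw [Finset.mem_filter] at hc ⊢
    refine ⟨hcol c hc.1 X hc.2 hxX, ?_⟩
    rw [Finset.mem_filter]
    exact ⟨hc.2, hxX⟩

theorem minA_dec (V : Finset ℕ) (d : ℕ → ℕ) (C C' : Finset ℕ) (F : ℕ → Finset (Finset ℕ))
    (hS : Sys V d C F) (x : ℕ) (hd : 0 < d x) (hC : C' ⊆ C) (hC1 : (C \ C').card ≤ 1)
    (hcol : ∀ c ∈ C, ∀ X ∈ F c, x ∉ X → c ∈ C') :
    Sys V (Function.update d x (d x - 1)) C' F := by
  refine ⟨fun c hc => hS.sub c (hC hc), fun c hc => hS.int c (hC hc), ?_⟩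
  intro X hX hX4
  have h1 := hS.cov X hX hX4
  by_cases hxX : x ∈ X
  · have h2 := minA_wt_mem d x X hxX hd
    have h3 : (col C F X).card ≤ (col C' F X).card + 1 := by
      have : col C F X ⊆ col C' F X ∪ (C \ C') := by
        intro c hc
        unfold col at hc ⊢
        rw [Finset.mem_filter] at hc
        rw [Finset.mem_union, Finset.mem_filter, Finset.mem_sdiff]
        by_cases h : c ∈ C'
        · exact Or.inl ⟨h, hc.2⟩
        · exact Or.inr ⟨hc.1, h⟩
      refine (Finset.card_le_card this).trans ((Finset.card_union_le _ _).trans ?_)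
      omega
    omega
  · rw [minA_wt_nmem d x X hxX]
    refine h1.trans (Finset.card_le_card ?_)
    intro c hc
    unfold col at hc ⊢
    rw [Finset.mem_filter] at hc ⊢
    exact ⟨hcol c hc.1 X hc.2 hxX, hc.2⟩

theorem v9 (V : Finset ℕ) (d : ℕ → ℕ) (C : Finset ℕ) (F : ℕ → Finset (Finset ℕ))
    (h : Bad V d C F) : 9 ≤ V.card := by
  by_contra hlt
  have hv8 : V.card = 8 := by
    have := h.hv
    omega
  obtain ⟨X, hXV, hX4⟩ := Finset.exists_subset_card_eq (show 4 ≤ V.card by omega)
  have hY4 : (V \ X).card = 4 := by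
    rw [Finset.card_sdiff_of_subset hXV]
    omega
  have h1 := h.sys.cov X hXV hX4
  have h2 := h.sys.cov (V \ X) Finset.sdiff_subset hY4
  have hdisj : Disjoint (col C F X) (col C F (V \ X)) := by
    rw [Finset.disjoint_left]
    intro c hc hc'
    unfold col at hc hc'
    rw [Finset.mem_filter] at hc hc'
    exact h.sys.int c hc.1 X hc.2 (V \ X) hc'.2 Finset.disjoint_sdiff
  have h3 : (col C F X).card + (col C F (V \ X)).card ≤ C.card := by
    rw [← Finset.card_union_of_disjoint hdisj]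
    refine Finset.card_le_card ?_
    intro c hc
    rw [Finset.mem_union] at hc
    rcases hc with hc | hc
    · exact (Finset.mem_filter.1 hc).1
    · exact (Finset.mem_filter.1 hc).1
  have h4 : wt d X + wt d (V \ X) = wt d V := by
    unfold wt
    rw [add_comm]
    exact Finset.sum_sdiff hXV
  have h5 := h.hT
  omega

theorem teq (V : Finset ℕ) (d : ℕ → ℕ) (C : Finset ℕ) (F : ℕ → Finset (Finset ℕ))
    (h : Minl V d C F) : C.card + 7 = V.card + wt d V := by
  have hb := h.bad
  have h9 := v9 V d C F hb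
  by_contra hne
  have hT := hb.hT
  have hlt : C.card + 8 ≤ V.card + wt d V := by omega
  by_cases hex : ∃ x ∈ V, 0 < d x
  · obtain ⟨x, hx, hd⟩ := hex
    have h2 := minA_wt_mem d x V hx hd
    have hb' : Bad V (Function.update d x (d x - 1)) C F := by
      refine ⟨minA_dec V d C C F hb.sys x hd (Finset.Subset.refl _) (by simp)
        (fun c hc _ _ _ => hc), hb.hv, ?_⟩
      omega
    have := h.min _ _ _ _ hb'
    omega
  · have hx0 : ∀ x ∈ V, d x = 0 := by
      intro x hx
      by_contra h0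
      exact hex ⟨x, hx, Nat.pos_of_ne_zero h0⟩
    obtain ⟨x, hx⟩ := Finset.card_pos.1 (show 0 < V.card by omega)
    have h2 := minA_wt_erase d x V hx
    have h3 : (V.erase x).card + 1 = V.card := Finset.card_erase_add_one hx
    have hd := hx0 x hx
    have hb' : Bad (V.erase x) d C (fun c => (F c).filter (fun X => x ∉ X)) := by
      refine ⟨minA_del V d C C F hb.sys x (Finset.Subset.refl _) (fun c hc _ _ _ => hc),
        ?_, ?_⟩
      · omega
      · omega
    have := h.min _ _ _ _ hb'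
    omega

theorem nostar (V : Finset ℕ) (d : ℕ → ℕ) (C : Finset ℕ) (F : ℕ → Finset (Finset ℕ))
    (h : Minl V d C F) (c : ℕ) (hc : c ∈ C) (i : ℕ) (hi : i ∈ V) : ∃ X ∈ F c, i ∉ X := by
  by_contra hno
  have hall : ∀ X ∈ F c, i ∈ X := by
    intro X hX
    by_contra hiX
    exact hno ⟨X, hX, hiX⟩
  have hb := h.bad
  have h9 := v9 V d C F hb
  have hT := hb.hT
  have hCc : (C.erase c).card + 1 = C.card := Finset.card_erase_add_one hc
  have hcol : ∀ c' ∈ C, ∀ X ∈ F c', i ∉ X → c' ∈ C.erase c := by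
    intro c' hc' X hX hiX
    rw [Finset.mem_erase]
    refine ⟨?_, hc'⟩
    rintro rfl
    exact hiX (hall X hX)
  by_cases hd : 0 < d i
  · have h2 := minA_wt_mem d i V hi hd
    have h1 : (C \ C.erase c).card ≤ 1 := by
      rw [Finset.sdiff_erase_self hc, Finset.card_singleton]
    have hb' : Bad V (Function.update d i (d i - 1)) (C.erase c) F := by
      refine ⟨minA_dec V d C (C.erase c) F hb.sys i hd (Finset.erase_subset _ _) h1 hcol,
        hb.hv, ?_⟩
      omega
    have := h.min _ _ _ _ hb'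
    omega
  · have h2 := minA_wt_erase d i V hi
    have h3 : (V.erase i).card + 1 = V.card := Finset.card_erase_add_one hi
    have hb' : Bad (V.erase i) d (C.erase c) (fun c => (F c).filter (fun X => i ∉ X)) := by
      refine ⟨minA_del V d C (C.erase c) F hb.sys i (Finset.erase_subset _ _) hcol, ?_, ?_⟩
      · omega
      · omega
    have := h.min _ _ _ _ hb'
    omega

theorem same (V : Finset ℕ) (d : ℕ → ℕ) (C C' : Finset ℕ) (F F' : ℕ → Finset (Finset ℕ))
    (h : Minl V d C F) (h' : Bad V d C' F') : Minl V d C' F' :=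
  ⟨h', h.min⟩

end Pool.Agent.Lib.MP_6805b2_co.ST
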