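import Pool.Agent.Lib.MP_6805b2_co.ST.Defs

/-!
# Rel: relabelling the ground set

`e` is any bijection from `V` to `range V.card` (for example `V.orderIsoOfFin`), extended
arbitrarily outside `V`.
-/

namespace Pool.Agent.Lib.MP_6805b2_co.ST

open Finset

private theorem rel_aux (V : Finset ℕ) (e : ℕ → ℕ) (he : Set.InjOn e (V : Set ℕ)) {X : Finset ℕ}
    (hX : X ⊆ V) {x : ℕ} (hx : x ∈ V) : e x ∈ X.image e ↔ x ∈ X := by
  constructor
  · intro h
    obtain ⟨y, hy, hxy⟩ := mem_image.1 h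
    rw [← he (mem_coe.2 (hX hy)) (mem_coe.2 hx) hxy]
    exact hy
  · intro h
    exact mem_image_of_mem e h

private theorem rel_inj (V : Finset ℕ) (e : ℕ → ℕ) (he : Set.InjOn e (V : Set ℕ))
    {X Y : Finset ℕ} (hX : X ⊆ V) (hY : Y ⊆ V) (h : X.image e = Y.image e) : X = Y := by
  ext x
  constructor
  · intro hx
    rw [← rel_aux V e he hY (hX hx), ← h]
    exact mem_image_of_mem e hx
  · intro hx
    rw [← rel_aux V e he hX (hY hx), h]
    exact mem_image_of_mem e hx

theorem relabel (V : Finset ℕ) : ∃ e : ℕ → ℕ, Set.InjOn e (V : Set ℕ) ∧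
    V.image e = range V.card := by
  obtain ⟨e, he⟩ : ∃ e : ℕ → ℕ, e = fun i => (V.filter fun x => x < i).card := ⟨_, rfl⟩
  have hlt : ∀ i ∈ V, ∀ j ∈ V, i < j → e i < e j := by
    intro i hi j _ hij
    rw [he]
    refine card_lt_card ?_
    rw [ssubset_iff_of_subset]
    · refine ⟨i, mem_filter.2 ⟨hi, hij⟩, ?_⟩
      rw [mem_filter]
      exact fun h => lt_irrefl _ h.2
    · intro x hx
      rw [mem_filter] at hx ⊢
      exact ⟨hx.1, hx.2.trans hij⟩
  have hinj : Set.InjOn e (V : Set ℕ) := by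
    intro i hi j hj h
    rcases lt_trichotomy i j with h1 | h1 | h1
    · have := hlt i (mem_coe.1 hi) j (mem_coe.1 hj) h1
      omega
    · exact h1
    · have := hlt j (mem_coe.1 hj) i (mem_coe.1 hi) h1
      omega
  have hrange : ∀ i ∈ V, e i < V.card := by
    intro i hi
    rw [he]
    refine card_lt_card ?_
    rw [ssubset_iff_of_subset (filter_subset _ _)]
    refine ⟨i, hi, ?_⟩
    rw [mem_filter]
    exact fun h => lt_irrefl _ h.2
  refine ⟨e, hinj, eq_of_subset_of_card_le ?_ ?_⟩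
  · intro x hx
    obtain ⟨i, hi, rfl⟩ := mem_image.1 hx
    exact mem_range.2 (hrange i hi)
  · rw [card_range, card_image_of_injOn hinj]

/-- relabelling a family -/
theorem rel_unif (k : ℕ) (V : Finset ℕ) (e : ℕ → ℕ) (he : Set.InjOn e (V : Set ℕ))
    (hV : V.image e = range V.card) (A : Finset (Finset ℕ)) (hA : Unif k V A) :
    Unif k (range V.card) (A.image (fun X => X.image e)) := by
  intro Y hY
  obtain ⟨X, hX, rfl⟩ := mem_image.1 hY
  obtain ⟨h1, h2⟩ := hA X hX
  refine ⟨?_, ?_⟩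
  · rw [← hV]
    exact image_subset_image h1
  · rw [card_image_of_injOn (he.mono (coe_subset.2 h1)), h2]

theorem rel_card (k : ℕ) (V : Finset ℕ) (e : ℕ → ℕ) (he : Set.InjOn e (V : Set ℕ))
    (A : Finset (Finset ℕ)) (hA : Unif k V A) :
    (A.image (fun X => X.image e)).card = A.card := by
  refine card_image_of_injOn ?_
  intro X hX Y hY h
  exact rel_inj V e he (hA X (mem_coe.1 hX)).1 (hA Y (mem_coe.1 hY)).1 h

theorem rel_cross (k : ℕ) (V : Finset ℕ) (e : ℕ → ℕ) (he : Set.InjOn e (V : Set ℕ))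
    (A B : Finset (Finset ℕ)) (hA : Unif k V A) (hB : Unif k V B) (h : Cross A B) :
    Cross (A.image (fun X => X.image e)) (B.image (fun X => X.image e)) := by
  intro X' hX' Y' hY' hd
  obtain ⟨X, hX, rfl⟩ := mem_image.1 hX'
  obtain ⟨Y, hY, rfl⟩ := mem_image.1 hY'
  refine h X hX Y hY ?_
  rw [disjoint_left] at hd ⊢
  intro x hx hy
  exact hd (mem_image_of_mem e hx) (mem_image_of_mem e hy)

/-- members missing a point -/
theorem rel_miss (k : ℕ) (V : Finset ℕ) (e : ℕ → ℕ) (he : Set.InjOn e (V : Set ℕ))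
    (A : Finset (Finset ℕ)) (hA : Unif k V A) (i : ℕ) (hi : i ∈ V) :
    ((A.image (fun X => X.image e)).filter (fun X => e i ∉ X)).card =
      (A.filter (fun X => i ∉ X)).card := by
  have h1 : (A.image (fun X => X.image e)).filter (fun X => e i ∉ X) =
      (A.filter (fun X => i ∉ X)).image (fun X => X.image e) := by
    ext Y
    constructor
    · intro hY
      rw [mem_filter] at hY
      obtain ⟨X, hX, rfl⟩ := mem_image.1 hY.1
      refine mem_image.2 ⟨X, mem_filter.2 ⟨hX, ?_⟩, rfl⟩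
      intro h
      exact hY.2 ((rel_aux V e he (hA X hX).1 hi).2 h)
    · intro hY
      obtain ⟨X, hX, rfl⟩ := mem_image.1 hY
      rw [mem_filter] at hX
      refine mem_filter.2 ⟨mem_image_of_mem _ hX.1, ?_⟩
      intro h
      exact hX.2 ((rel_aux V e he (hA X hX.1).1 hi).1 h)
  rw [h1]
  exact rel_card k V e he _ (fun X hX => hA X (mem_filter.1 hX).1)

end Pool.Agent.Lib.MP_6805b2_co.ST
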