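import Pool.Agent.Lib.MP_6805b2_co.ST.Cnt
import Pool.Agent.Lib.MP_6805b2_co.ST.StabV
import Pool.Agent.Lib.MP_6805b2_co.ST.Num

/-!
# SSa: the counting part of the small set lemma

`cen G (F c)` is the set of common points of the members of `F c`. Double counting:
`sum_{c ∈ C} |cen G (F c)| = sum_{x ∈ G} deg C F x` (`cen_sum`), and by `hdeg`, `hδ`
`sum_{x ∈ G} deg C F x ≥ ρ g + wt d G - 3 e`.

A nonempty class with `j = |cen G (F c)|` centres has `j ≤ 4` and at most `C(g - j, 4 - j)` members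
(they contain `cen`), `cen_card`.

`ss8` (`g = 8`): for every class `3 |F c| + 34 j ≤ 139`: `j ≤ 1`: `|F c| ≤ 35` (`eight`, or
`C(7,3) = 35`); `j = 2`: `15`; `j = 3`: `5`; `j = 4`: `1`. Sum over `c`; by `dc_all`
`70 + 35 D ≤ sum |F c|` (`D = wt d G`). So
`3 (70 + 35 D) + 34 (8 ρ + D - 3 e) ≤ 139 N`, `N = |C| ≤ 3 + D + ρ - e`. This gives
`133 ρ + 37 e ≤ 207`, contradiction with `ρ ≥ 2`. (Work in `ℤ` or add `34 * 3 e` on both sides.)

`ss9` (`g ≥ 9`, no class has exactly one centre): with `M = 2 g^2 - 16 g + 35`, every class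
satisfies `4 |F c| + (M - 1) j ≤ 4 M`: `j = 0`: `hmb` (no point of `G` is in all members);
`j = 2`: `|F c| ≤ C(g-2,2)`, `2 C(g-2,2) ≤ M + 1` iff `(g-5)(g-6) ≥ 0`; `j = 3`:
`|F c| ≤ g - 3`, `4 (g-3) ≤ M + 3`; `j = 4`: `|F c| ≤ 1`. Sum and use `dc_all` and `num2` (which
is the exact negation of the result).
-/

namespace Pool.Agent.Lib.MP_6805b2_co.ST

open Finset

/-- hypotheses of the small set lemma -/
structure SSh (G : Finset ℕ) (d : ℕ → ℕ) (C : Finset ℕ) (F : ℕ → Finset (Finset ℕ)) (e : ℕ)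
    (δ : ℕ → ℕ) (ρ : ℕ) : Prop where
  sys : Sys G d C F
  hne : ∀ c ∈ C, (F c).Nonempty
  hρ : 2 ≤ ρ
  hδ : ∑ x ∈ G, δ x ≤ 3 * e
  hdeg : ∀ x ∈ G, ρ + d x ≤ deg C F x + δ x
  hN : C.card + e + 5 ≤ G.card + wt d G + ρ

theorem cen_sum (G C : Finset ℕ) (F : ℕ → Finset (Finset ℕ)) :
    ∑ c ∈ C, (cen G (F c)).card = ∑ x ∈ G, deg C F x := by
  simp only [cen, deg, card_filter]
  exact sum_comm

theorem cen_card (G : Finset ℕ) (A : Finset (Finset ℕ)) (hA : Unif 4 G A) (hne : A.Nonempty) :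
    (cen G A).card ≤ 4 ∧
      A.card ≤ (G.card - (cen G A).card).choose (4 - (cen G A).card) := by
  have hsub : ∀ X ∈ A, cen G A ⊆ X := by
    intro X hX x hx
    exact (mem_filter.mp hx).2 X hX
  constructor
  · obtain ⟨X, hX⟩ := hne
    have := card_le_card (hsub X hX)
    rw [(hA X hX).2] at this
    exact this
  · have hcG : cen G A ⊆ G := filter_subset _ _
    rw [← card_sdiff_of_subset hcG, ← card_powersetCard]
    apply card_le_card_of_injOn (fun X => X \ cen G A)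
    · intro X hX
      rw [mem_coe] at hX
      rw [mem_coe, mem_powersetCard]
      exact ⟨sdiff_subset_sdiff (hA X hX).1 subset_rfl, by
        rw [card_sdiff_of_subset (hsub X hX), (hA X hX).2]⟩
    · intro X hX Y hY hXY
      rw [mem_coe] at hX hY
      simp only at hXY
      rw [← sdiff_union_of_subset (hsub X hX), ← sdiff_union_of_subset (hsub Y hY), hXY]

/-- the lower bound for the number of pairs (class, centre) -/
theorem ssa_cen (G : Finset ℕ) (d : ℕ → ℕ) (C : Finset ℕ) (F : ℕ → Finset (Finset ℕ)) (e : ℕ)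
    (δ : ℕ → ℕ) (ρ : ℕ) (h : SSh G d C F e δ ρ) :
    ρ * G.card + wt d G ≤ ∑ c ∈ C, (cen G (F c)).card + 3 * e := by
  have h1 := sum_le_sum (fun x hx => h.hdeg x hx)
  rw [sum_add_distrib, sum_add_distrib, sum_const, smul_eq_mul, ← cen_sum] at h1
  have h2 := h.hδ
  unfold wt
  rw [mul_comm]
  omega

theorem ssa_cross (G : Finset ℕ) (d : ℕ → ℕ) (C : Finset ℕ) (F : ℕ → Finset (Finset ℕ)) (e : ℕ)
    (δ : ℕ → ℕ) (ρ : ℕ) (h : SSh G d C F e δ ρ) (c : ℕ) (hc : c ∈ C) :
    Unif 4 G (F c) ∧ Cross (F c) (F c) :=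
  ⟨fun X hX => h.sys.sub c hc X hX, fun X hX Y hY => h.sys.int c hc X hX Y hY⟩

theorem ss8 (G : Finset ℕ) (d : ℕ → ℕ) (C : Finset ℕ) (F : ℕ → Finset (Finset ℕ)) (e : ℕ)
    (δ : ℕ → ℕ) (ρ : ℕ) (h : SSh G d C F e δ ρ) (hg : G.card = 8) : False := by
  have h1 := ssa_cen G d C F e δ ρ h
  have h2 := dc_all G d C F h.sys
  have h3 := h.hN
  have h4 := h.hρ
  rw [hg] at h1 h2 h3
  have e1 : Nat.choose 8 4 = 70 := by decide
  have e2 : Nat.choose (8 - 1) 3 = 35 := by decide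
  rw [e1, e2] at h2
  have h5 : ∀ c ∈ C, 3 * (F c).card + 34 * (cen G (F c)).card ≤ 139 := by
    intro c hc
    obtain ⟨hu, hx⟩ := ssa_cross G d C F e δ ρ h c hc
    obtain ⟨g1, g2⟩ := cen_card G (F c) hu (h.hne c hc)
    have g3 := eight G hg (F c) hu hx
    rw [hg] at g2
    generalize (cen G (F c)).card = j at *
    interval_cases j
    · omega
    · omega
    · have : Nat.choose (8 - 2) (4 - 2) = 15 := by decide
      omega
    · have : Nat.choose (8 - 3) (4 - 3) = 5 := by decide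
      omega
    · have : Nat.choose (8 - 4) (4 - 4) = 1 := by decide
      omega
  have h6 := sum_le_sum h5
  rw [sum_add_distrib, ← mul_sum, ← mul_sum, sum_const, smul_eq_mul] at h6
  omega

theorem ss9 (G : Finset ℕ) (d : ℕ → ℕ) (C : Finset ℕ) (F : ℕ → Finset (Finset ℕ)) (e : ℕ)
    (δ : ℕ → ℕ) (ρ : ℕ) (h : SSh G d C F e δ ρ) (hg : 9 ≤ G.card)
    (h1 : ∀ c ∈ C, (cen G (F c)).card ≠ 1) : False := by
  have h2 := ssa_cen G d C F e δ ρ h
  have h3 := dc_all G d C F h.sys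
  have h4 := h.hN
  have h5 := h.hρ
  obtain ⟨g, hgg⟩ : ∃ g : ℤ, g = (G.card : ℤ) := ⟨_, rfl⟩
  have hg9 : 9 ≤ g := by rw [hgg]; exact_mod_cast hg
  have h6 := num2 g (wt d G) ρ e hg9 (Int.natCast_nonneg _) (by exact_mod_cast h5)
    (Int.natCast_nonneg _)
  have e0 : g.toNat = G.card := by rw [hgg]; exact Int.toNat_natCast _
  rw [e0] at h6
  obtain ⟨M, hM⟩ : ∃ M : ℤ, M = 2 * g ^ 2 - 16 * g + 35 := ⟨_, rfl⟩
  rw [← hM] at h6
  have hM1 : 1 ≤ M := by rw [hM]; nlinarith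
  have h7 : ∀ c ∈ C, 4 * ((F c).card : ℤ) + (M - 1) * ((cen G (F c)).card : ℤ) ≤ 4 * M := by
    intro c hc
    obtain ⟨hu, hx⟩ := ssa_cross G d C F e δ ρ h c hc
    obtain ⟨g1, g2⟩ := cen_card G (F c) hu (h.hne c hc)
    have g4 := h1 c hc
    by_cases hj0 : (cen G (F c)).card = 0
    · have g3 := hmb G hg (F c) hu hx (by
        intro i hi
        by_contra hcon
        push Not at hcon
        have : i ∈ cen G (F c) := mem_filter.mpr ⟨hi, hcon⟩
        rw [card_eq_zero.mp hj0] at this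
        exact absurd this (notMem_empty i))
      have g5 : ((F c).card : ℤ) + 16 * (G.card : ℤ) ≤ 2 * (G.card : ℤ) ^ 2 + 35 := by
        exact_mod_cast g3
      rw [← hgg] at g5
      rw [hj0]
      push_cast
      linarith
    · have hj : (cen G (F c)).card = 2 ∨ (cen G (F c)).card = 3 ∨ (cen G (F c)).card = 4 := by
        omega
      obtain ⟨v, hv⟩ : ∃ v, G.card = v + 4 := ⟨G.card - 4, by omega⟩
      rcases hj with hj | hj | hj
      · rw [hj] at g2 ⊢
        rw [hv, show v + 4 - 2 = v + 2 by omega, show 4 - 2 = 2 by omega] at g2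
        have g6 : 2 * (v + 2).choose 2 = (v + 2) * (v + 1) := by
          rw [Nat.choose_two_right, Nat.mul_div_cancel']
          · rfl
          · exact (Nat.even_mul_pred_self (v + 2)).two_dvd
        have g7 : 2 * ((F c).card : ℤ) ≤ ((v : ℤ) + 2) * (v + 1) := by
          exact_mod_cast (Nat.mul_le_mul_left 2 g2).trans g6.le
        have g8 : (v : ℤ) = g - 4 := by
          rw [hgg, hv]
          push_cast
          ring
        rw [g8] at g7
        push_cast
        nlinarith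
      · rw [hj] at g2 ⊢
        rw [show 4 - 3 = 1 by omega, Nat.choose_one_right] at g2
        have g7 : ((F c).card : ℤ) ≤ g - 3 := by
          rw [hgg]
          have : (F c).card + 3 ≤ G.card := by omega
          have h' : ((F c).card : ℤ) + 3 ≤ (G.card : ℤ) := by exact_mod_cast this
          linarith
        push_cast
        nlinarith [sq_nonneg (g - 5)]
      · rw [hj] at g2 ⊢
        rw [show 4 - 4 = 0 by omega, Nat.choose_zero_right] at g2
        have g7 : ((F c).card : ℤ) ≤ 1 := by exact_mod_cast g2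
        push_cast
        linarith
  have h8 := sum_le_sum h7
  rw [sum_add_distrib, ← mul_sum, ← mul_sum, sum_const, nsmul_eq_mul] at h8
  have h9 : ((G.card.choose 4 : ℕ) : ℤ) + (wt d G : ℤ) * (((G.card - 1).choose 3 : ℕ) : ℤ) ≤
      ∑ c ∈ C, ((F c).card : ℤ) := by exact_mod_cast h3
  have h10 : (ρ : ℤ) * g + (wt d G : ℤ) ≤ ∑ c ∈ C, ((cen G (F c)).card : ℤ) + 3 * (e : ℤ) := by
    rw [hgg]
    exact_mod_cast h2
  have h11 : (C.card : ℤ) + e + 5 ≤ g + wt d G + ρ := by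
    rw [hgg]
    exact_mod_cast h4
  have h12 : (M - 1) * ((ρ : ℤ) * g + (wt d G : ℤ) - 3 * e) ≤
      (M - 1) * ∑ c ∈ C, ((cen G (F c)).card : ℤ) :=
    mul_le_mul_of_nonneg_left (by linarith) (by linarith)
  have h13 : (C.card : ℤ) * (4 * M) ≤ (g + wt d G - 5 + ρ - e) * (4 * M) :=
    mul_le_mul_of_nonneg_right (by linarith) (by linarith)
  nlinarith

end Pool.Agent.Lib.MP_6805b2_co.ST
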