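import Pool.Agent.Lib.MP_6805b2_co.ST.SSa

/-!
# SSd: first step of the small set lemma (only `dec_step` below is proved here)

`ss`: strong induction on `|G| + wt d G` (for all `C, F, e, δ`). If `|G| = 8`: `ss8`. If
`|G| ≥ 9` and no class has exactly one centre: `ss9`. Otherwise let `γ ∈ C` with
`cen G (F γ) = {x}`.
* `d x > 0` (`dec_step`): `d' = Function.update d x (d x - 1)`, `C' = C.erase γ`, same `G, F, e, δ`.
  Coverage: a set containing `x` loses at most one colour and its requirement drops by one, a set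
  without `x` does not have the colour `γ`. `deg C' F x = deg C F x - 1`,
  `deg C' F y = deg C F y` for `y ≠ x` (`γ` is centred only at `x`).
* `d x = 0` (`era_step`): `G' = G.erase x`, `C' = C.filter (fun c => ∃ X ∈ F c, x ∉ X)`,
  `F' c = (F c).filter (fun X => x ∉ X)`. Let `E = (C \ C').erase γ` (classes centred at `x`,
  different from `γ ∈ C \ C'`), `e' = |E|`,
  `δ' y = δ y + #{c ∈ E | all members of F c contain y}`. Then `|C'| = |C| - 1 - e'`, so
  `|C'| + (e + e') + 5 ≤ |G'| + wt d G' + ρ`. For `y ∈ G'`: the classes in `C'` centred at `y` in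
  `F` are centred at `y` in `F'`, and the classes in `C \ C'` centred at `y` are in `E` (`γ` is
  centred only at `x`), so `deg C' F' y + δ' y ≥ deg C F y + δ y`.
  `sum_{y ∈ G'} δ' y ≤ 3 e + sum_{c ∈ E} (|cen G (F c)| - 1) ≤ 3 e + 3 e'`.
  Coverage: a 4-subset of `G'` has the same colours as before (they are in `C'`).

`trl`: let `U ⊆ V`, `|U| = 3`, `|V| ≥ 11`, and suppose `t := |trv C F U| < wt d U`. Put
`G = V \ U`, `C' = C \ trv C F U`, `F' c = (F c).filter (fun X => Disjoint U X)`,
`ρ = 1 + wt d U - t ≥ 2`, `e = 0`, `δ = 0`. Then `SSh G d C' F' 0 0 ρ`: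
* a 4-subset of `G` has the same colours as before (such a colour has a member disjoint from `U`).
* `F' c` is nonempty for `c ∈ C'`.
* `x ∈ G`: the set `insert x U` has at least `1 + wt d U + d x` colours, at most `t` of them in
  `trv C F U`; the others are in `C'`, and all members of `F' c` contain `x` (they meet
  `insert x U` but not `U`). So `deg C' F' x ≥ 1 + wt d U + d x - t = ρ + d x`.
* `|C'| + 5 = |C| - t + 5 ≤ |V| + wt d V - 7 - t + 5 = |G| + 3 + wt d G + wt d U - 2 - t
  = |G| + wt d G + ρ`.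
-/

namespace Pool.Agent.Lib.MP_6805b2_co.ST

open Finset

private theorem ssd_wt_mem (d : ℕ → ℕ) (x : ℕ) (hd : 0 < d x) (X : Finset ℕ) (hx : x ∈ X) :
    wt (Function.update d x (d x - 1)) X + 1 = wt d X := by
  unfold wt
  rw [← Finset.add_sum_erase _ _ hx, ← Finset.add_sum_erase X d hx, Function.update_self]
  have h1 : ∑ y ∈ X.erase x, Function.update d x (d x - 1) y = ∑ y ∈ X.erase x, d y := by
    refine Finset.sum_congr rfl fun y hy => ?_
    rw [Function.update_of_ne (Finset.ne_of_mem_erase hy)]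
  rw [h1]
  omega

private theorem ssd_wt_not (d : ℕ → ℕ) (x : ℕ) (X : Finset ℕ) (hx : x ∉ X) :
    wt (Function.update d x (d x - 1)) X = wt d X := by
  unfold wt
  refine Finset.sum_congr rfl fun y hy => ?_
  rw [Function.update_of_ne]
  rintro rfl
  exact hx hy

theorem dec_step (G : Finset ℕ) (d : ℕ → ℕ) (C : Finset ℕ) (F : ℕ → Finset (Finset ℕ)) (e : ℕ)
    (δ : ℕ → ℕ) (ρ : ℕ) (h : SSh G d C F e δ ρ) (γ : ℕ) (hγ : γ ∈ C) (x : ℕ)
    (hx : cen G (F γ) = {x}) (hd : 0 < d x) :
    ∃ d' C', SSh G d' C' F e δ ρ ∧ wt d' G + 1 = wt d G := by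
  have hx0 : x ∈ cen G (F γ) := by
    rw [hx]
    exact Finset.mem_singleton_self x
  have hxG : x ∈ G := (Finset.mem_filter.1 hx0).1
  have hxF : ∀ X ∈ F γ, x ∈ X := (Finset.mem_filter.1 hx0).2
  have hyF : ∀ y ∈ G, y ≠ x → ¬ ∀ X ∈ F γ, y ∈ X := by
    intro y hy hne hall
    have h1 : y ∈ cen G (F γ) := Finset.mem_filter.2 ⟨hy, hall⟩
    rw [hx, Finset.mem_singleton] at h1
    exact hne h1
  have hwt := ssd_wt_mem d x hd G hxG
  refine ⟨Function.update d x (d x - 1), C.erase γ, ⟨⟨?_, ?_, ?_⟩, ?_, h.hρ, h.hδ, ?_, ?_⟩, hwt⟩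
  · exact fun c hc => h.sys.sub c (Finset.mem_of_mem_erase hc)
  · exact fun c hc => h.sys.int c (Finset.mem_of_mem_erase hc)
  · intro X hX hX4
    have h1 := h.sys.cov X hX hX4
    have h2 : col (C.erase γ) F X = (col C F X).erase γ := by
      ext c
      simp only [col, Finset.mem_filter, Finset.mem_erase]
      tauto
    rw [h2]
    by_cases hxX : x ∈ X
    · have h3 := ssd_wt_mem d x hd X hxX
      have h4 : (col C F X).card - 1 ≤ ((col C F X).erase γ).card := Finset.pred_card_le_card_erase
      omega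
    · rw [ssd_wt_not d x X hxX]
      have h3 : γ ∉ col C F X := by
        intro hc
        exact hxX (hxF X (Finset.mem_filter.1 hc).2)
      rw [Finset.erase_eq_of_notMem h3]
      exact h1
  · exact fun c hc => h.hne c (Finset.mem_of_mem_erase hc)
  · intro y hy
    have h1 := h.hdeg y hy
    have h2 : (C.erase γ).filter (fun c => ∀ X ∈ F c, y ∈ X) =
        (C.filter (fun c => ∀ X ∈ F c, y ∈ X)).erase γ := by
      ext c
      simp only [Finset.mem_filter, Finset.mem_erase]
      tauto
    unfold deg at h1 ⊢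
    rw [h2]
    by_cases hyx : y = x
    · subst hyx
      rw [Function.update_self]
      have h3 : (C.filter (fun c => ∀ X ∈ F c, y ∈ X)).card - 1 ≤
          ((C.filter (fun c => ∀ X ∈ F c, y ∈ X)).erase γ).card := Finset.pred_card_le_card_erase
      omega
    · rw [Function.update_of_ne hyx]
      have h3 : γ ∉ C.filter (fun c => ∀ X ∈ F c, y ∈ X) := by
        intro hc
        exact hyF y hy hyx (Finset.mem_filter.1 hc).2
      rw [Finset.erase_eq_of_notMem h3]
      exact h1
  · have h1 := h.hN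
    have h2 := Finset.card_erase_of_mem hγ
    have h3 : 0 < C.card := Finset.card_pos.2 ⟨γ, hγ⟩
    omega

end Pool.Agent.Lib.MP_6805b2_co.ST
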