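import Pool.Agent.Lib.MP_6805b2_co.ST.MinA

/-!
# Surg: surgery on Hilton-Milner classes

Let `γ ∈ C`, `i ∈ V`, `X ∈ F γ`, `i ∉ X`, and let all other members of `F γ` contain `i`.

`surg_card`: `|col C F X| = 1 + wt d X`. Otherwise it is at least `2 + wt d X`; replace `F γ` by
`(F γ).erase X`: still a bad system on the same `V`, `d` (only `X` loses a colour), it is minimal
(`same`) but its class `γ` is contained in the star of `i`, contradicting `nostar`.

`surg_main`: every colour `δ ∈ C` with `X ∉ F δ` has a member disjoint from `insert i X`. Suppose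
not. Note `δ ≠ γ`. New families: `F' γ := (V.powersetCard 4).filter (fun B => i ∈ B)`,
`F' δ := insert X ((F δ).filter (fun B => ¬ Disjoint B X))`, `F' c := F c` otherwise. `F' γ` and
`F' δ` are intersecting. Coverage of a 4-subset `B` of `V`:
* `B = X`: loses `γ`, gains `δ`: same number of colours.
* `B ≠ X`, `B ∩ X = ∅`, `B ∈ F δ`: as `δ` has no member disjoint from `insert i X`, `i ∈ B`. `B`
  loses `δ` and gains `γ` (`B ∉ F γ` since `X ∈ F γ` is disjoint from `B`; now `i ∈ B`).
* all other `B ≠ X`: if `B ∈ F γ` then `i ∈ B`, so `B ∈ F' γ`; the other colours of `B` are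
  unchanged. So `col C F B ⊆ col C F' B`.
So `(V, d, C, F')` is bad, hence minimal (`same`), and all members of `F' γ` contain `i`,
contradicting `nostar`.

`surg_ins`: `ins C F (insert i X) ⊆ col C F X`: if `c` has a member `B ⊆ insert i X` and `X ∉ F c`,
then by `surg_main` it has a member disjoint from `insert i X`, hence from `B`: contradiction.

`surg_wt`: for `j ∈ X` the set `B := insert i (X.erase j)` has `1 + wt d X - d j + d i` colours at
least, all in `ins C F (insert i X) ⊆ col C F X`, which has `1 + wt d X` elements. So `d i ≤ d j`.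
-/

namespace Pool.Agent.Lib.MP_6805b2_co.ST

open Finset

private theorem surg_absurd {V : Finset ℕ} {d : ℕ → ℕ} {C : Finset ℕ}
    {F F' : ℕ → Finset (Finset ℕ)} (h : Minl V d C F) (h' : Bad V d C F') {γ : ℕ} (hγ : γ ∈ C)
    {i : ℕ} (hi : i ∈ V) (hs : ∀ Y ∈ F' γ, i ∈ Y) : False := by
  obtain ⟨Y, hY, hiY⟩ := nostar V d C F' (same V d C C F F' h h') γ hγ i hi
  exact hiY (hs Y hY)

theorem surg_card (V : Finset ℕ) (d : ℕ → ℕ) (C : Finset ℕ) (F : ℕ → Finset (Finset ℕ))
    (h : Minl V d C F) (γ : ℕ) (hγ : γ ∈ C) (i : ℕ) (hi : i ∈ V) (X : Finset ℕ)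
    (hX : X ∈ F γ) (hiX : i ∉ X) (ho : ∀ Y ∈ F γ, Y ≠ X → i ∈ Y) :
    (col C F X).card = 1 + wt d X := by
  obtain ⟨hXV, hX4⟩ := h.bad.sys.sub γ hγ X hX
  have hge := h.bad.sys.cov X hXV hX4
  by_contra hne
  have hgt : 2 + wt d X ≤ (col C F X).card := by omega
  obtain ⟨F', hF'⟩ : ∃ F' : ℕ → Finset (Finset ℕ),
      F' = fun c => if c = γ then (F γ).erase X else F c := ⟨_, rfl⟩
  have hγ' : F' γ = (F γ).erase X := by rw [hF']; simp
  have hsub : ∀ c, F' c ⊆ F c := by
    intro c Y hY
    rw [hF'] at hY
    simp only at hY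
    split_ifs at hY with hc
    · rw [hc]
      exact Finset.mem_of_mem_erase hY
    · exact hY
  have hbad : Bad V d C F' := by
    refine ⟨⟨fun c hc Y hY => h.bad.sys.sub c hc Y (hsub c hY),
      fun c hc Y hY Z hZ => h.bad.sys.int c hc Y (hsub c hY) Z (hsub c hZ), ?_⟩, h.bad.hv, h.bad.hT⟩
    intro Y hYV hY4
    by_cases hYX : Y = X
    · rw [hYX]
      have h1 : (col C F X).erase γ ⊆ col C F' X := by
        intro c hc
        obtain ⟨hcγ, hc2⟩ := Finset.mem_erase.1 hc
        unfold col at hc2 ⊢
        rw [mem_filter] at hc2 ⊢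
        refine ⟨hc2.1, ?_⟩
        rw [hF']
        simp only [hcγ, if_false]
        exact hc2.2
      have h2 := card_le_card h1
      have h3 := Finset.pred_card_le_card_erase (s := col C F X) (a := γ)
      omega
    · have h1 : col C F Y ⊆ col C F' Y := by
        intro c hc
        unfold col at hc ⊢
        rw [mem_filter] at hc ⊢
        refine ⟨hc.1, ?_⟩
        rw [hF']
        simp only
        split_ifs with hcγ
        · rw [mem_erase]
          exact ⟨hYX, hcγ ▸ hc.2⟩
        · exact hc.2
      exact (h.bad.sys.cov Y hYV hY4).trans (card_le_card h1)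
  refine surg_absurd h hbad hγ hi ?_
  intro Y hY
  rw [hγ', mem_erase] at hY
  exact ho Y hY.2 hY.1

theorem surg_main (V : Finset ℕ) (d : ℕ → ℕ) (C : Finset ℕ) (F : ℕ → Finset (Finset ℕ))
    (h : Minl V d C F) (γ : ℕ) (hγ : γ ∈ C) (i : ℕ) (hi : i ∈ V) (X : Finset ℕ)
    (hX : X ∈ F γ) (hiX : i ∉ X) (ho : ∀ Y ∈ F γ, Y ≠ X → i ∈ Y) (δ : ℕ) (hδ : δ ∈ C)
    (hδX : X ∉ F δ) : ∃ B ∈ F δ, Disjoint B (insert i X) := by
  by_contra hcon
  push Not at hcon
  obtain ⟨hXV, hX4⟩ := h.bad.sys.sub γ hγ X hX
  have hδγ : δ ≠ γ := fun hh => hδX (hh ▸ hX)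
  obtain ⟨F', hF'⟩ : ∃ F' : ℕ → Finset (Finset ℕ),
      F' = fun c => if c = γ then (V.powersetCard 4).filter (fun B => i ∈ B)
        else if c = δ then insert X ((F δ).filter (fun B => ¬ Disjoint B X)) else F c := ⟨_, rfl⟩
  have hγ' : F' γ = (V.powersetCard 4).filter (fun B => i ∈ B) := by rw [hF']; simp
  have hδ' : F' δ = insert X ((F δ).filter (fun B => ¬ Disjoint B X)) := by
    rw [hF']
    simp only [hδγ, if_false, if_true]
  have ho' : ∀ c, c ≠ γ → c ≠ δ → F' c = F c := by
    intro c h1 h2
    rw [hF']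
    simp only [h1, h2, if_false]
  have hXX : ¬ Disjoint X X := by
    rw [disjoint_self, bot_eq_empty, ← card_eq_zero]
    omega
  have hbad : Bad V d C F' := by
    refine ⟨⟨?_, ?_, ?_⟩, h.bad.hv, h.bad.hT⟩
    · intro c hc Y hY
      by_cases h1 : c = γ
      · rw [h1, hγ', mem_filter, mem_powersetCard] at hY
        exact hY.1
      · by_cases h2 : c = δ
        · rw [h2, hδ', mem_insert, mem_filter] at hY
          rcases hY with rfl | hY
          · exact ⟨hXV, hX4⟩
          · exact h.bad.sys.sub δ hδ Y hY.1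
        · rw [ho' c h1 h2] at hY
          exact h.bad.sys.sub c hc Y hY
    · intro c hc Y hY Z hZ
      by_cases h1 : c = γ
      · rw [h1, hγ', mem_filter] at hY hZ
        exact Finset.not_disjoint_iff.2 ⟨i, hY.2, hZ.2⟩
      · by_cases h2 : c = δ
        · rw [h2, hδ', mem_insert, mem_filter] at hY hZ
          rcases hY with rfl | hY
          · rcases hZ with rfl | hZ
            · exact hXX
            · exact fun hd => hZ.2 hd.symm
          · rcases hZ with rfl | hZ
            · exact hY.2
            · exact h.bad.sys.int δ hδ Y hY.1 Z hZ.1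
        · rw [ho' c h1 h2] at hY hZ
          exact h.bad.sys.int c hc Y hY Z hZ
    · intro B hBV hB4
      refine (h.bad.sys.cov B hBV hB4).trans ?_
      by_cases hBX : B = X
      · have hmem : insert δ ((col C F X).erase γ) ⊆ col C F' X := by
          intro c hc
          rw [mem_insert, mem_erase] at hc
          unfold col at hc ⊢
          rw [mem_filter] at hc ⊢
          rcases hc with rfl | ⟨h1, h2, h3⟩
          · exact ⟨hδ, by rw [hδ']; exact mem_insert_self _ _⟩
          · have h4 : c ≠ δ := fun hh => hδX (hh ▸ h3)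
            exact ⟨h2, by rw [ho' c h1 h4]; exact h3⟩
        have h5 : δ ∉ (col C F X).erase γ := by
          intro hh
          have h6 := mem_of_mem_erase hh
          unfold col at h6
          rw [mem_filter] at h6
          exact hδX h6.2
        have h7 := card_le_card hmem
        rw [card_insert_of_notMem h5] at h7
        have h8 := Finset.pred_card_le_card_erase (s := col C F X) (a := γ)
        rw [hBX]
        omega
      · by_cases hcase : Disjoint B X ∧ B ∈ F δ
        · obtain ⟨hd, hBδ⟩ := hcase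
          have hiB : i ∈ B := by
            by_contra hiB
            exact hcon B hBδ (Finset.disjoint_insert_right.2 ⟨hiB, hd⟩)
          have hγB : γ ∉ (col C F B).erase δ := by
            intro hh
            have h6 := mem_of_mem_erase hh
            unfold col at h6
            rw [mem_filter] at h6
            exact h.bad.sys.int γ hγ B h6.2 X hX hd
          have hmem : insert γ ((col C F B).erase δ) ⊆ col C F' B := by
            intro c hc
            rw [mem_insert, mem_erase] at hc
            unfold col at hc ⊢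
            rw [mem_filter] at hc ⊢
            rcases hc with rfl | ⟨h1, h2, h3⟩
            · exact ⟨hγ, by
                rw [hγ', mem_filter, mem_powersetCard]
                exact ⟨⟨hBV, hB4⟩, hiB⟩⟩
            · have h4 : c ≠ γ := by
                rintro rfl
                exact h.bad.sys.int c hγ B h3 X hX hd
              exact ⟨h2, by rw [ho' c h4 h1]; exact h3⟩
          have h7 := card_le_card hmem
          rw [card_insert_of_notMem hγB] at h7
          have h8 := Finset.pred_card_le_card_erase (s := col C F B) (a := δ)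
          omega
        · apply card_le_card
          intro c hc
          unfold col at hc ⊢
          rw [mem_filter] at hc ⊢
          refine ⟨hc.1, ?_⟩
          by_cases h1 : c = γ
          · rw [h1] at hc ⊢
            rw [hγ', mem_filter, mem_powersetCard]
            exact ⟨⟨hBV, hB4⟩, ho B hc.2 hBX⟩
          · by_cases h2 : c = δ
            · rw [h2] at hc ⊢
              rw [hδ']
              apply mem_insert_of_mem
              rw [mem_filter]
              exact ⟨hc.2, fun hd => hcase ⟨hd, hc.2⟩⟩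
            · rw [ho' c h1 h2]
              exact hc.2
  refine surg_absurd h hbad hγ hi ?_
  intro Y hY
  rw [hγ', mem_filter] at hY
  exact hY.2

theorem surg_ins (V : Finset ℕ) (d : ℕ → ℕ) (C : Finset ℕ) (F : ℕ → Finset (Finset ℕ))
    (h : Minl V d C F) (γ : ℕ) (hγ : γ ∈ C) (i : ℕ) (hi : i ∈ V) (X : Finset ℕ)
    (hX : X ∈ F γ) (hiX : i ∉ X) (ho : ∀ Y ∈ F γ, Y ≠ X → i ∈ Y) :
    ins C F (insert i X) ⊆ col C F X := by
  intro c hc
  unfold ins at hc
  unfold col
  rw [mem_filter] at hc ⊢
  obtain ⟨hcC, B, hB, hBs⟩ := hc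
  refine ⟨hcC, ?_⟩
  by_contra hcX
  obtain ⟨B', hB', hd⟩ := surg_main V d C F h γ hγ i hi X hX hiX ho c hcC hcX
  exact h.bad.sys.int c hcC B' hB' B hB (Finset.disjoint_of_subset_right hBs hd)

theorem surg_wt (V : Finset ℕ) (d : ℕ → ℕ) (C : Finset ℕ) (F : ℕ → Finset (Finset ℕ))
    (h : Minl V d C F) (γ : ℕ) (hγ : γ ∈ C) (i : ℕ) (hi : i ∈ V) (X : Finset ℕ)
    (hX : X ∈ F γ) (hiX : i ∉ X) (ho : ∀ Y ∈ F γ, Y ≠ X → i ∈ Y) (j : ℕ) (hj : j ∈ X) :
    d i ≤ d j := by
  obtain ⟨hXV, hX4⟩ := h.bad.sys.sub γ hγ X hX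
  have hiE : i ∉ X.erase j := fun hh => hiX (mem_of_mem_erase hh)
  have hBV : insert i (X.erase j) ⊆ V :=
    Finset.insert_subset hi ((Finset.erase_subset _ _).trans hXV)
  have hB4 : (insert i (X.erase j)).card = 4 := by
    rw [card_insert_of_notMem hiE, card_erase_of_mem hj, hX4]
  have h1 := h.bad.sys.cov _ hBV hB4
  have h2 : col C F (insert i (X.erase j)) ⊆ ins C F (insert i X) := by
    intro c hc
    unfold col at hc
    unfold ins
    rw [mem_filter] at hc ⊢
    exact ⟨hc.1, _, hc.2, Finset.insert_subset_insert i (Finset.erase_subset _ _)⟩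
  have h3 := card_le_card (h2.trans (surg_ins V d C F h γ hγ i hi X hX hiX ho))
  rw [surg_card V d C F h γ hγ i hi X hX hiX ho] at h3
  have h4 : wt d (insert i (X.erase j)) = d i + wt d (X.erase j) := by
    unfold wt
    rw [sum_insert hiE]
  have h5 : wt d (X.erase j) + d j = wt d X := by
    unfold wt
    exact Finset.sum_erase_add _ _ hj
  omega

end Pool.Agent.Lib.MP_6805b2_co.ST
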