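import Pool.Agent.Lib.MP_6805b2_co.ST.Count
import Pool.Agent.Lib.MP_6805b2_co.ST.Surg

/-!
# Tb: few classes are not of Hilton-Milner type

`tsum`: with `t = |nonHM|`, `v = |V|`, `D = wt d V`: by `stabV` the classes in `nonHM` satisfy
`2 |F c| + 19 v ≤ 3 v^2 + 30`, the others `|F c| + 16 v ≤ 2 v^2 + 35` (`hmb`, `nostar`); sum and
use `dc_all`:
`2 (C(v,4) + D C(v-1,3)) + 32 v (T - t) + 19 v t ≤ (T - t) (4 v^2 + 70) + t (3 v^2 + 30)`.

`tb5`, `tb4`: evaluate for `v = 13, 14, 15` (`D = 5`, `T = v - 2`) and `v = 12, ..., 20`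
(`D = 4`, `T = v - 3`), `count` gives the ranges. True maximal `t`: `D = 5`: `0, 0, 0`;
`D = 4`: `1, 2, 3, 3, 3, 2, 2, 1, 0`.

`hmc`: a class outside `nonHM` has a point `i ∈ V` missed by at most one member, and by `nostar`
by exactly one member `X`.
-/

namespace Pool.Agent.Lib.MP_6805b2_co.ST

open Finset

/-- the classes such that every point of `V` is missed by at least two members -/
def nonHM (V C : Finset ℕ) (F : ℕ → Finset (Finset ℕ)) : Finset ℕ :=
  C.filter (fun c => ∀ i ∈ V, 2 ≤ ((F c).filter (fun X => i ∉ X)).card)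

theorem tsum (V : Finset ℕ) (d : ℕ → ℕ) (C : Finset ℕ) (F : ℕ → Finset (Finset ℕ))
    (h : Minl V d C F) :
    2 * (V.card.choose 4 + wt d V * (V.card - 1).choose 3) +
        32 * V.card * (C.card - (nonHM V C F).card) + 19 * V.card * (nonHM V C F).card ≤
      (C.card - (nonHM V C F).card) * (4 * V.card ^ 2 + 70) +
        (nonHM V C F).card * (3 * V.card ^ 2 + 30) := by
  have h9 := v9 V d C F h.bad
  have hu : ∀ c ∈ C, Unif 4 V (F c) := fun c hc X hX => h.bad.sys.sub c hc X hX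
  have hx : ∀ c ∈ C, Cross (F c) (F c) := fun c hc X hX Y hY => h.bad.sys.int c hc X hX Y hY
  have hN : nonHM V C F ⊆ C := Finset.filter_subset _ _
  have h1 : ∀ c ∈ C \ nonHM V C F, 2 * (F c).card + 32 * V.card ≤ 4 * V.card ^ 2 + 70 := by
    intro c hc
    have hcC := (Finset.mem_sdiff.1 hc).1
    have := hmb V h9 (F c) (hu c hcC) (hx c hcC) (fun i hi => nostar V d C F h c hcC i hi)
    omega
  have h2 : ∀ c ∈ nonHM V C F, 2 * (F c).card + 19 * V.card ≤ 3 * V.card ^ 2 + 30 := by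
    intro c hc
    have hcC := hN hc
    rcases stabV V h9 (F c) (hu c hcC) (hx c hcC) with ⟨i, hi, h3⟩ | h3
    · exfalso
      unfold nonHM at hc
      rw [Finset.mem_filter] at hc
      have := hc.2 i hi
      omega
    · exact h3
  have s1 := Finset.sum_le_sum h1
  have s2 := Finset.sum_le_sum h2
  rw [Finset.sum_add_distrib, Finset.sum_const, Finset.sum_const, smul_eq_mul, smul_eq_mul,
    ← Finset.mul_sum] at s1 s2
  rw [Finset.card_sdiff_of_subset hN] at s1
  have s3 : ∑ c ∈ C, (F c).card = ∑ c ∈ C \ nonHM V C F, (F c).card +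
      ∑ c ∈ nonHM V C F, (F c).card := (Finset.sum_sdiff hN).symm
  have s4 := dc_all V d C F h.bad.sys
  have e1 : 32 * V.card * (C.card - (nonHM V C F).card) =
      (C.card - (nonHM V C F).card) * (32 * V.card) := mul_comm _ _
  have e2 : 19 * V.card * (nonHM V C F).card = (nonHM V C F).card * (19 * V.card) := mul_comm _ _
  rw [e1, e2]
  omega

theorem tb5 (V : Finset ℕ) (d : ℕ → ℕ) (C : Finset ℕ) (F : ℕ → Finset (Finset ℕ))
    (h : Minl V d C F) (hD : wt d V = 5) : (nonHM V C F).card = 0 := by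
  have h1 := tsum V d C F h
  have h2 := (count V d C F h).2.2.1 hD
  have h3 := teq V d C F h
  have hN : (nonHM V C F).card ≤ C.card := Finset.card_le_card (Finset.filter_subset _ _)
  rw [hD] at h1 h3
  generalize (nonHM V C F).card = t at *
  generalize V.card = v at *
  generalize C.card = T at *
  obtain ⟨h4, h5⟩ := h2
  interval_cases v
  all_goals
    norm_num [Nat.choose] at h1
    omega

theorem tb4 (V : Finset ℕ) (d : ℕ → ℕ) (C : Finset ℕ) (F : ℕ → Finset (Finset ℕ))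
    (h : Minl V d C F) (hD : wt d V = 4) : (nonHM V C F).card ≤ 3 ∧
      ((nonHM V C F).card = 3 → 14 ≤ V.card ∧ V.card ≤ 16) := by
  have h1 := tsum V d C F h
  have h2 := (count V d C F h).2.2.2.1 hD
  have h3 := teq V d C F h
  have hN : (nonHM V C F).card ≤ C.card := Finset.card_le_card (Finset.filter_subset _ _)
  rw [hD] at h1 h3
  generalize (nonHM V C F).card = t at *
  generalize V.card = v at *
  generalize C.card = T at *
  obtain ⟨h4, h5⟩ := h2
  interval_cases v
  all_goals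
    norm_num [Nat.choose] at h1
    omega

theorem hmc (V : Finset ℕ) (d : ℕ → ℕ) (C : Finset ℕ) (F : ℕ → Finset (Finset ℕ))
    (h : Minl V d C F) (c : ℕ) (hc : c ∈ C) (hn : c ∉ nonHM V C F) :
    ∃ i ∈ V, ∃ X ∈ F c, i ∉ X ∧ ∀ Y ∈ F c, Y ≠ X → i ∈ Y := by
  unfold nonHM at hn
  rw [Finset.mem_filter] at hn
  push Not at hn
  obtain ⟨i, hi, h1⟩ := hn hc
  obtain ⟨X, hX, hiX⟩ := nostar V d C F h c hc i hi
  refine ⟨i, hi, X, hX, hiX, fun Y hY hYX => ?_⟩
  by_contra hiY
  have h2 : 1 < ((F c).filter (fun X => i ∉ X)).card :=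
    Finset.one_lt_card.2 ⟨Y, Finset.mem_filter.2 ⟨hY, hiY⟩, X, Finset.mem_filter.2 ⟨hX, hiX⟩, hYX⟩
  omega

end Pool.Agent.Lib.MP_6805b2_co.ST
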