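import Pool.Agent.Lib.MP_6805b2_co.ST.TopG

/-!
# TopA: elementary facts on chains of signed sets

All functions are `Finset ℕ → Finset ℕ → ZMod 2`; everything follows from the definitions.
-/

namespace Pool.Agent.Lib.MP_6805b2_co.ST

open Finset

theorem bd_add (J : Finset ℕ) (z w : Finset ℕ → Finset ℕ → ZMod 2) :
    bd J (z + w) = bd J z + bd J w := by
  funext A B
  show ∑ j ∈ J \ (A ∪ B), ((z (insert j A) B + w (insert j A) B) +
    (z A (insert j B) + w A (insert j B))) = (∑ j ∈ J \ (A ∪ B), (z (insert j A) B +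
      z A (insert j B))) + ∑ j ∈ J \ (A ∪ B), (w (insert j A) B + w A (insert j B))
  rw [← Finset.sum_add_distrib]
  exact Finset.sum_congr rfl fun j _ => by abel

theorem bd_sum {ι : Type} (J : Finset ℕ) (s : Finset ι) (g : ι → Finset ℕ → Finset ℕ → ZMod 2) :
    bd J (∑ i ∈ s, g i) = ∑ i ∈ s, bd J (g i) := by
  classical
  induction s using Finset.induction_on with
  | empty =>
    funext A B
    simp [bd]
  | insert a s ha ih => rw [Finset.sum_insert ha, Finset.sum_insert ha, bd_add, ih]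

theorem bd_sw (J : Finset ℕ) (z : Finset ℕ → Finset ℕ → ZMod 2) :
    bd J (sw z) = sw (bd J z) := by
  funext A B
  show ∑ j ∈ J \ (A ∪ B), (z B (insert j A) + z (insert j B) A) =
    ∑ j ∈ J \ (B ∪ A), (z (insert j B) A + z B (insert j A))
  rw [Finset.union_comm]
  exact Finset.sum_congr rfl fun j _ => add_comm _ _

theorem sup_sw (k : ℕ) (P Q : Finset ℕ) (z : Finset ℕ → Finset ℕ → ZMod 2) (h : Sup k P Q z) :
    Sup k Q P (sw z) := by
  intro A B hz
  obtain ⟨h1, h2, h3, h4⟩ := h B A hz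
  exact ⟨h2, h1, h3.symm, by omega⟩

theorem sup_add (k : ℕ) (P Q : Finset ℕ) (z w : Finset ℕ → Finset ℕ → ZMod 2)
    (hz : Sup k P Q z) (hw : Sup k P Q w) : Sup k P Q (z + w) := by
  intro A B h
  by_cases h1 : z A B = 0
  · refine hw A B ?_
    intro h2
    exact h (by show z A B + w A B = 0; rw [h1, h2, add_zero])
  · exact hz A B h1

theorem sup_sum {ι : Type} (k : ℕ) (P Q : Finset ℕ) (s : Finset ι)
    (g : ι → Finset ℕ → Finset ℕ → ZMod 2) (h : ∀ i ∈ s, Sup k P Q (g i)) :
    Sup k P Q (∑ i ∈ s, g i) := by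
  classical
  induction s using Finset.induction_on with
  | empty =>
    intro A B h0
    exact absurd (by simp) h0
  | insert a s ha ih =>
    rw [Finset.sum_insert ha]
    exact sup_add k P Q _ _ (h a (Finset.mem_insert_self a s))
      (ih fun i hi => h i (Finset.mem_insert_of_mem hi))

theorem sup_mono (k : ℕ) (P Q P' Q' : Finset ℕ) (z : Finset ℕ → Finset ℕ → ZMod 2)
    (hP : P ⊆ P') (hQ : Q ⊆ Q') (h : Sup k P Q z) : Sup k P' Q' z := by
  intro A B hz
  obtain ⟨h1, h2, h3, h4⟩ := h A B hz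
  exact ⟨h1.trans hP, h2.trans hQ, h3, h4⟩

/-- the boundary of a chain of size `k + 1` has size `k` -/
theorem sup_bd (k : ℕ) (J P Q : Finset ℕ) (z : Finset ℕ → Finset ℕ → ZMod 2)
    (h : Sup (k + 1) P Q z) : Sup k P Q (bd J z) := by
  intro A B hz
  obtain ⟨j, hj, hne⟩ := Finset.exists_ne_zero_of_sum_ne_zero hz
  rw [Finset.mem_sdiff, Finset.mem_union] at hj
  push Not at hj
  by_cases h1 : z (insert j A) B = 0
  · have h2 : z A (insert j B) ≠ 0 := by
      intro h2
      exact hne (by rw [h1, h2, add_zero])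
    obtain ⟨c1, c2, c3, c4⟩ := h A (insert j B) h2
    rw [Finset.card_insert_of_notMem hj.2.2] at c4
    exact ⟨c1, (Finset.subset_insert j B).trans c2,
      Disjoint.mono_right (Finset.subset_insert j B) c3, by omega⟩
  · obtain ⟨c1, c2, c3, c4⟩ := h (insert j A) B h1
    rw [Finset.card_insert_of_notMem hj.2.1] at c4
    exact ⟨(Finset.subset_insert j A).trans c1, c2,
      Disjoint.mono_left (Finset.subset_insert j A) c3, by omega⟩

end Pool.Agent.Lib.MP_6805b2_co.ST
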