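import Pool.Agent.Lib.MP_6805b2_co.ST.TopA

/-!
# TopB: cycles are boundaries

`cone`: put `w A B := if r ∈ A then z (A.erase r) B else 0`.
* Support: if `w A B ≠ 0` then `r ∈ A`, `A.erase r ⊆ P`, `B ⊆ Q` (so `r ∉ B`), and
  `|A| + |B| = k + 1`.
* `bd J w A B = z A B`:
  - `r ∈ B`: all terms vanish since `B ⊄ Q`, and `z A B = 0`.
  - `r ∈ A`, `r ∉ B`: for `j ∈ J \ (A ∪ B)`, `w (insert j A) B = z (insert j (A.erase r)) B` and
    `w A (insert j B) = z (A.erase r) (insert j B)`. Since
    `J \ (A.erase r ∪ B) = insert r (J \ (A ∪ B))` (here `r ∈ P ⊆ J`), the sum equals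
    `bd J z (A.erase r) B - (z A B + z (A.erase r) (insert r B)) = 0 - z A B - 0 = z A B`.
  - `r ∉ A`, `r ∉ B`: only `j = r` contributes: `w (insert r A) B = z A B`, all others are `0`.

`cone'` is `cone` for `sw z`.

`fill` (induction on `R`, cardinality): if `k = 0`, `z` is supported on the empty signed set, so
it is supported in `(R.erase r, R)` for any `r ∈ R` and `cone'` applies. If `k ≥ 1` pick `r ∈ R`,
put `z1 A B := if r ∈ A ∨ r ∈ B then 0 else z (insert r A) B`. It is supported in
`(R.erase r, R.erase r)` with size `k - 1`, and `bd J z1 = 0` (for `r ∉ A ∪ B`,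
`bd J z1 A B = bd J z (insert r A) B`, as `J \ (insert r A ∪ B) = (J \ (A ∪ B)).erase r` and the
term `j = r` of `z1` vanishes). By induction `z1 = bd J b` with `b` of size `k` supported in
`(R.erase r, R.erase r)`. Put `w1 A B := if r ∈ A then b (A.erase r) B else 0`. For `r ∈ A`,
`r ∉ B`: `bd J w1 A B = bd J b (A.erase r) B = z1 (A.erase r) B = z A B` (the term `j = r` of
`bd J b (A.erase r) B` vanishes as `b` is supported away from `r`). So `z' := z + bd J w1` is a
cycle of size `k` supported in `(R.erase r, R)`; by `cone'` (`r ∈ R`, `r ∉ R.erase r`)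
`z' = bd J w'`, and `w := w' + w1` works (`bd J w1 + bd J w1 = 0`).
-/

namespace Pool.Agent.Lib.MP_6805b2_co.ST

open Finset

private theorem topB_sdiff (J A B : Finset ℕ) (r : ℕ) (hJ : r ∈ J) (hA : r ∈ A) (hB : r ∉ B) :
    J \ (A.erase r ∪ B) = insert r (J \ (A ∪ B)) := by
  ext j
  simp only [mem_sdiff, mem_union, mem_erase, mem_insert]
  by_cases hj : j = r
  · subst hj
    simp [hJ, hB]
  · simp [hj]

private theorem topB_cd (z : Finset ℕ → Finset ℕ → ZMod 2) (A B : Finset ℕ) :
    z A B + z A B = 0 := CharTwo.add_self_eq_zero _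

private theorem topB_eq (a b : ZMod 2) (h : a + b = 0) : b = a := by
  have h2 : a + a = 0 := CharTwo.add_self_eq_zero a
  have : a + b = a + a := by rw [h, h2]
  exact add_left_cancel this

theorem cone (J : Finset ℕ) (k : ℕ) (P Q : Finset ℕ) (z : Finset ℕ → Finset ℕ → ZMod 2) (r : ℕ)
    (hP : P ⊆ J) (hr : r ∈ P) (hr' : r ∉ Q) (hz : Sup k P Q z) (hb : bd J z = 0) :
    ∃ w, Sup (k + 1) P Q w ∧ bd J w = z := by
  have hQ0 : ∀ A B, r ∈ B → z A B = 0 := by
    intro A B hB
    by_contra h
    exact hr' ((hz A B h).2.1 hB)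
  refine ⟨fun A B => if r ∈ A then z (A.erase r) B else 0, ?_, ?_⟩
  · intro A B h
    by_cases hA : r ∈ A
    · simp only [hA, if_true] at h
      obtain ⟨h1, h2, h3, h4⟩ := hz _ _ h
      have hrB : r ∉ B := fun hB => hr' (h2 hB)
      have hAe := insert_erase hA
      refine ⟨?_, h2, ?_, ?_⟩
      · rw [← hAe]
        exact insert_subset hr h1
      · rw [← hAe, disjoint_insert_left]
        exact ⟨hrB, h3⟩
      · have : A.card = (A.erase r).card + 1 := (card_erase_add_one hA).symm
        omega
    · simp [hA] at h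
  · funext A B
    by_cases hB : r ∈ B
    · rw [hQ0 A B hB]
      unfold bd
      apply sum_eq_zero
      intro j _
      have h1 : ∀ A', z A' B = 0 := fun A' => hQ0 A' B hB
      have h2 : ∀ A', z A' (insert j B) = 0 := fun A' => hQ0 A' _ (mem_insert_of_mem hB)
      simp [h1, h2]
    · by_cases hA : r ∈ A
      · have h0 : bd J z (A.erase r) B = 0 := by rw [hb]; rfl
        unfold bd at h0
        rw [topB_sdiff J A B r (hP hr) hA hB, sum_insert (by simp [hA])] at h0
        rw [insert_erase hA, hQ0 _ (insert r B) (mem_insert_self _ _), add_zero] at h0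
        have h1 := topB_eq _ _ h0
        rw [← h1]
        unfold bd
        apply sum_congr rfl
        intro j hj
        have hjr : j ≠ r := by
          rintro rfl
          simp [hA] at hj
        simp only [mem_insert_of_mem hA, hA, if_true, erase_insert_of_ne hjr]
      · unfold bd
        have hmem : r ∈ J \ (A ∪ B) := by
          simp [hP hr, hA, hB]
        rw [sum_eq_single_of_mem r hmem]
        · simp [hA]
        · intro j _ hjr
          have : r ∉ insert j A := by
            simp only [mem_insert, not_or]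
            exact ⟨fun h => hjr h.symm, hA⟩
          simp [this, hA]

theorem cone' (J : Finset ℕ) (k : ℕ) (P Q : Finset ℕ) (z : Finset ℕ → Finset ℕ → ZMod 2) (r : ℕ)
    (hQ : Q ⊆ J) (hr : r ∈ Q) (hr' : r ∉ P) (hz : Sup k P Q z) (hb : bd J z = 0) :
    ∃ w, Sup (k + 1) P Q w ∧ bd J w = z := by
  obtain ⟨w, hw, hbw⟩ := cone J k Q P (sw z) r hQ hr hr' (sup_sw k P Q z hz) (by
    rw [bd_sw, hb]; rfl)
  refine ⟨sw w, sup_sw (k + 1) Q P w hw, ?_⟩
  rw [bd_sw, hbw]
  rfl

theorem fill (J : Finset ℕ) (R : Finset ℕ) (hR : R ⊆ J) (k : ℕ) (hk : k < R.card)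
    (z : Finset ℕ → Finset ℕ → ZMod 2) (hz : Sup k R R z) (hb : bd J z = 0) :
    ∃ w, Sup (k + 1) R R w ∧ bd J w = z := by
  induction k generalizing R z with
  | zero =>
    obtain ⟨r, hr⟩ : R.Nonempty := card_pos.1 hk
    have hz' : Sup 0 (R.erase r) R z := by
      intro A B h
      obtain ⟨_, h2, h3, h4⟩ := hz A B h
      have hA : A = ∅ := card_eq_zero.1 (by omega)
      refine ⟨?_, h2, h3, h4⟩
      rw [hA]
      exact empty_subset _
    obtain ⟨w, hw, hbw⟩ := cone' J 0 (R.erase r) R z r hR hr (notMem_erase _ _) hz' hb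
    exact ⟨w, sup_mono _ _ _ _ _ _ (erase_subset _ _) (Subset.refl _) hw, hbw⟩
  | succ k ih =>
    obtain ⟨r, hr⟩ : R.Nonempty := card_pos.1 (by omega)
    have hJr : r ∈ J := hR hr
    set z1 : Finset ℕ → Finset ℕ → ZMod 2 :=
      fun A B => if r ∈ A ∨ r ∈ B then 0 else z (insert r A) B with hz1
    have hz1s : Sup k (R.erase r) (R.erase r) z1 := by
      intro A B h
      by_cases hAB : r ∈ A ∨ r ∈ B
      · simp [hz1, hAB] at h
      · have hAB' := hAB
        rw [not_or] at hAB'
        simp only [hz1, hAB, if_false] at h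
        obtain ⟨h1, h2, h3, h4⟩ := hz _ _ h
        rw [card_insert_of_notMem hAB'.1] at h4
        rw [disjoint_insert_left] at h3
        refine ⟨?_, ?_, h3.2, by omega⟩
        · intro x hx
          refine mem_erase.2 ⟨?_, h1 (mem_insert_of_mem hx)⟩
          rintro rfl
          exact hAB'.1 hx
        · intro x hx
          refine mem_erase.2 ⟨?_, h2 hx⟩
          rintro rfl
          exact hAB'.2 hx
    have hz1b : bd J z1 = 0 := by
      funext A B
      change bd J z1 A B = 0
      by_cases hAB : r ∈ A ∨ r ∈ B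
      · unfold bd
        apply sum_eq_zero
        intro j _
        have h1 : r ∈ insert j A ∨ r ∈ B := by
          rcases hAB with h | h
          · exact Or.inl (mem_insert_of_mem h)
          · exact Or.inr h
        have h2 : r ∈ A ∨ r ∈ insert j B := by
          rcases hAB with h | h
          · exact Or.inl h
          · exact Or.inr (mem_insert_of_mem h)
        simp only [hz1, h1, h2, if_true, add_zero]
      · have hAB' := hAB
        rw [not_or] at hAB'
        have h0 : bd J z (insert r A) B = 0 := by rw [hb]; rfl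
        unfold bd at h0 ⊢
        have hs := topB_sdiff J (insert r A) B r hJr (mem_insert_self _ _) hAB'.2
        rw [erase_insert hAB'.1] at hs
        rw [hs, sum_insert (by simp)]
        have e1 : z1 (insert r A) B = 0 := by simp [hz1]
        have e2 : z1 A (insert r B) = 0 := by simp [hz1]
        rw [e1, e2, add_zero, zero_add, ← h0]
        apply sum_congr rfl
        intro j hj
        have hjr : j ≠ r := by
          rintro rfl
          simp at hj
        have h1 : ¬ (r ∈ insert j A ∨ r ∈ B) := by
          simp only [mem_insert, not_or]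
          exact ⟨⟨fun h => hjr h.symm, hAB'.1⟩, hAB'.2⟩
        have h2 : ¬ (r ∈ A ∨ r ∈ insert j B) := by
          simp only [mem_insert, not_or]
          exact ⟨hAB'.1, ⟨fun h => hjr h.symm, hAB'.2⟩⟩
        simp only [hz1, h1, h2, if_false]
        rw [Finset.insert_comm]
    have hcR : (R.erase r).card + 1 = R.card := card_erase_add_one hr
    obtain ⟨b, hbs, hbb⟩ := ih (R.erase r) ((erase_subset _ _).trans hR) (by omega) z1 hz1s hz1b
    set w1 : Finset ℕ → Finset ℕ → ZMod 2 :=
      fun A B => if r ∈ A then b (A.erase r) B else 0 with hw1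
    have hw1s : Sup (k + 1 + 1) R R w1 := by
      intro A B h
      by_cases hA : r ∈ A
      · simp only [hw1, hA, if_true] at h
        obtain ⟨h1, h2, h3, h4⟩ := hbs _ _ h
        have hrB : r ∉ B := fun hB => (notMem_erase r R) (h2 hB)
        have hAe := insert_erase hA
        refine ⟨?_, h2.trans (erase_subset _ _), ?_, ?_⟩
        · rw [← hAe]
          exact insert_subset hr (h1.trans (erase_subset _ _))
        · rw [← hAe, disjoint_insert_left]
          exact ⟨hrB, h3⟩
        · have : A.card = (A.erase r).card + 1 := (card_erase_add_one hA).symm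
          omega
      · simp [hw1, hA] at h
    have hz's : Sup (k + 1) R R (z + bd J w1) :=
      sup_add _ _ _ _ _ hz (sup_bd _ _ _ _ _ hw1s)
    have hz'b : bd J (z + bd J w1) = 0 := by
      rw [bd_add, hb, bd_bd, add_zero]
    have hz's' : Sup (k + 1) (R.erase r) R (z + bd J w1) := by
      intro A B h
      obtain ⟨h1, h2, h3, h4⟩ := hz's A B h
      refine ⟨?_, h2, h3, h4⟩
      intro x hx
      refine mem_erase.2 ⟨?_, h1 hx⟩
      rintro rfl
      have hxB : x ∉ B := fun hB => (disjoint_left.1 h3) hx hB
      apply h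
      have key : bd J w1 A B = z A B := by
        have h0 : bd J b (A.erase x) B = z1 (A.erase x) B := by rw [hbb]
        have h5 : z1 (A.erase x) B = z A B := by
          have : ¬ (x ∈ A.erase x ∨ x ∈ B) := by
            simp [hxB]
          simp only [hz1, this, if_false, insert_erase hx]
        rw [h5] at h0
        rw [← h0]
        unfold bd
        rw [topB_sdiff J A B x hJr hx hxB, sum_insert (by simp [hx])]
        have e1 : b (insert x (A.erase x)) B = 0 := by
          by_contra hne
          exact (notMem_erase x R) ((hbs _ _ hne).1 (mem_insert_self _ _))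
        have e2 : b (A.erase x) (insert x B) = 0 := by
          by_contra hne
          exact (notMem_erase x R) ((hbs _ _ hne).2.1 (mem_insert_self _ _))
        rw [e1, e2, add_zero, zero_add]
        apply sum_congr rfl
        intro j hj
        have hjx : j ≠ x := by
          rintro rfl
          simp [hx] at hj
        simp only [hw1, mem_insert_of_mem hx, hx, if_true, erase_insert_of_ne hjx]
      change z A B + bd J w1 A B = 0
      rw [key]
      exact topB_cd z A B
    obtain ⟨w', hw's, hw'b⟩ := cone' J (k + 1) (R.erase r) R (z + bd J w1) r hR hr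
      (notMem_erase _ _) hz's' hz'b
    refine ⟨w' + w1, sup_add _ _ _ _ _
      (sup_mono _ _ _ _ _ _ (erase_subset _ _) (Subset.refl _) hw's) hw1s, ?_⟩
    rw [bd_add, hw'b]
    funext A B
    change z A B + bd J w1 A B + bd J w1 A B = z A B
    rw [add_assoc, topB_cd (bd J w1) A B, add_zero]

end Pool.Agent.Lib.MP_6805b2_co.ST
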