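import Pool.Agent.Lib.MP_6805b2_co.ST.TopA

/-!
# TopC: cycles of top dimension

`top_zero`: `z` is supported on signed sets `(S', R \ S')`, `S' ⊆ R`. For `S' ⊆ R`, `r ∈ R`,
`r ∉ S'`: `0 = bd J z S' ((R \ S').erase r)`. The index set is
`J \ (S' ∪ (R \ S').erase r) = J \ (R.erase r)`, the terms with `j ∉ R` vanish by the support, and
`j = r` gives `z (insert r S') ((R \ S').erase r) + z S' (R \ S')`, where
`(R \ S').erase r = R \ insert r S'`. So `z S' (R \ S')` does not change when one element is added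
to `S'`; hence it is the same for all `S' ⊆ R` (compare both with `S' = ∅`), so it is `0`.

`ful R` is the chain of all signed sets with support `R`.
-/

namespace Pool.Agent.Lib.MP_6805b2_co.ST

open Finset

private theorem tc_step (J R : Finset ℕ) (hR : R ⊆ J) (z : Finset ℕ → Finset ℕ → ZMod 2)
    (hz : Sup R.card R R z) (hb : bd J z = 0) (T : Finset ℕ) (hT : T ⊆ R) (r : ℕ) (hr : r ∈ R)
    (hrT : r ∉ T) : z (insert r T) (R \ insert r T) = z T (R \ T) := by
  have h0 : bd J z T ((R \ T).erase r) = 0 := by rw [hb]; rfl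
  have h1 : bd J z T ((R \ T).erase r) =
      z (insert r T) ((R \ T).erase r) + z T (insert r ((R \ T).erase r)) := by
    refine Finset.sum_eq_single r ?_ ?_
    · intro j hj hjr
      rw [Finset.mem_sdiff, Finset.mem_union] at hj
      push Not at hj
      have hjR : j ∉ R := by
        intro hjR
        exact hj.2.2 (Finset.mem_erase.mpr ⟨hjr, Finset.mem_sdiff.mpr ⟨hjR, hj.2.1⟩⟩)
      have a1 : z (insert j T) ((R \ T).erase r) = 0 := by
        by_contra hne
        exact hjR ((hz _ _ hne).1 (Finset.mem_insert_self j T))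
      have a2 : z T (insert j ((R \ T).erase r)) = 0 := by
        by_contra hne
        exact hjR ((hz _ _ hne).2.1 (Finset.mem_insert_self j _))
      rw [a1, a2, add_zero]
    · intro h
      exfalso
      apply h
      rw [Finset.mem_sdiff, Finset.mem_union]
      refine ⟨hR hr, ?_⟩
      push Not
      exact ⟨hrT, Finset.notMem_erase r _⟩
  have e1 : (R \ T).erase r = R \ insert r T := by
    ext i
    simp only [Finset.mem_sdiff, Finset.mem_insert, Finset.mem_erase]
    tauto
  have e2 : insert r ((R \ T).erase r) = R \ T :=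
    Finset.insert_erase (Finset.mem_sdiff.mpr ⟨hr, hrT⟩)
  rw [h1, e2, e1] at h0
  exact CharTwo.add_eq_zero.mp h0

private theorem tc_const (J R : Finset ℕ) (hR : R ⊆ J) (z : Finset ℕ → Finset ℕ → ZMod 2)
    (hz : Sup R.card R R z) (hb : bd J z = 0) (T : Finset ℕ) :
    T ⊆ R → z T (R \ T) = z ∅ R := by
  induction T using Finset.induction_on with
  | empty => intro _; rw [Finset.sdiff_empty]
  | insert r T hr ih =>
    intro h
    have h1 : T ⊆ R := (Finset.subset_insert r T).trans h
    rw [tc_step J R hR z hz hb T h1 r (h (Finset.mem_insert_self r T)) hr]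
    exact ih h1

theorem top_zero (J R : Finset ℕ) (hR : R ⊆ J) (z : Finset ℕ → Finset ℕ → ZMod 2)
    (hz : Sup R.card R R z) (hb : bd J z = 0) (S : Finset ℕ) (hS : S ⊆ R)
    (h0 : z S (R \ S) = 0) : z = 0 := by
  have hc : z ∅ R = 0 := by
    rw [← tc_const J R hR z hz hb S hS]
    exact h0
  funext A B
  show z A B = 0
  by_contra hne
  obtain ⟨h1, h2, h3, h4⟩ := hz A B hne
  have hB : B = R \ A := by
    apply Finset.eq_of_subset_of_card_le
    · intro x hx
      rw [Finset.mem_sdiff]
      exact ⟨h2 hx, fun hxA => (Finset.disjoint_left.mp h3) hxA hx⟩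
    · have := Finset.card_sdiff_of_subset h1
      omega
  rw [hB, tc_const J R hR z hz hb A h1] at hne
  exact hne hc

/-- the sum of all signed sets with support `R` -/
def ful (R : Finset ℕ) : Finset ℕ → Finset ℕ → ZMod 2 :=
  fun A B => if A ⊆ R ∧ B = R \ A then 1 else 0

theorem sup_ful (R : Finset ℕ) : Sup R.card R R (ful R) := by
  intro A B h
  have h1 : A ⊆ R ∧ B = R \ A := by
    by_contra hcon
    exact h (if_neg hcon)
  obtain ⟨h1, rfl⟩ := h1
  refine ⟨h1, Finset.sdiff_subset, Finset.disjoint_sdiff, ?_⟩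
  have := Finset.card_sdiff_of_subset h1
  have := Finset.card_le_card h1
  omega

theorem bd_ful (J R : Finset ℕ) (hR : R ⊆ J) : bd J (ful R) = 0 := by
  funext A B
  show ∑ j ∈ J \ (A ∪ B), (ful R (insert j A) B + ful R A (insert j B)) = 0
  refine Finset.sum_eq_zero fun j hj => ?_
  rw [Finset.mem_sdiff, Finset.mem_union] at hj
  push Not at hj
  have hiff : (insert j A ⊆ R ∧ B = R \ insert j A) ↔ (A ⊆ R ∧ insert j B = R \ A) := by
    constructor
    · rintro ⟨h1, h2⟩
      refine ⟨(Finset.subset_insert j A).trans h1, ?_⟩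
      rw [h2]
      ext i
      simp only [Finset.mem_insert, Finset.mem_sdiff]
      constructor
      · rintro (rfl | ⟨h3, h4⟩)
        · exact ⟨h1 (Finset.mem_insert_self _ A), hj.2.1⟩
        · exact ⟨h3, fun h5 => h4 (Or.inr h5)⟩
      · rintro ⟨h3, h4⟩
        by_cases hij : i = j
        · exact Or.inl hij
        · exact Or.inr ⟨h3, fun h5 => h5.elim hij h4⟩
    · rintro ⟨h1, h2⟩
      have hjR : j ∈ R \ A := by rw [← h2]; exact Finset.mem_insert_self j B
      refine ⟨Finset.insert_subset (Finset.mem_sdiff.mp hjR).1 h1, ?_⟩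
      have h3 : B = (insert j B).erase j := (Finset.erase_insert hj.2.2).symm
      rw [h3, h2]
      ext i
      simp only [Finset.mem_insert, Finset.mem_sdiff, Finset.mem_erase]
      tauto
  unfold ful
  by_cases hc : insert j A ⊆ R ∧ B = R \ insert j A
  · rw [if_pos hc, if_pos (hiff.mp hc)]
    exact CharTwo.add_self_eq_zero _
  · rw [if_neg hc, if_neg (fun h => hc (hiff.mpr h)), add_zero]

theorem ful_val (R S : Finset ℕ) (hS : S ⊆ R) : ful R S (R \ S) = 1 :=
  if_pos ⟨hS, rfl⟩

/-- a filler with coefficient zero at a given facet -/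
theorem fill0 (J : Finset ℕ) (R : Finset ℕ) (hR : R ⊆ J) (k : ℕ) (hk : k + 1 = R.card)
    (z w : Finset ℕ → Finset ℕ → ZMod 2) (hw : Sup (k + 1) R R w) (hb : bd J w = z)
    (S : Finset ℕ) (hS : S ⊆ R) :
    ∃ w', Sup (k + 1) R R w' ∧ bd J w' = z ∧ w' S (R \ S) = 0 := by
  by_cases h : w S (R \ S) = 0
  · exact ⟨w, hw, hb, h⟩
  · refine ⟨w + ful R, ?_, ?_, ?_⟩
    · refine sup_add _ _ _ _ _ hw ?_
      rw [hk]
      exact sup_ful R
    · rw [bd_add, bd_ful J R hR, add_zero, hb]
    · show w S (R \ S) + ful R S (R \ S) = 0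
      rw [ful_val R S hS]
      have h2 : ∀ a : ZMod 2, a ≠ 0 → a + 1 = 0 := by decide
      exact h2 _ h

end Pool.Agent.Lib.MP_6805b2_co.ST
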