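import Pool.Agent.Lib.MP_6805b2_co.ST.TopB
import Pool.Agent.Lib.MP_6805b2_co.ST.TopC

/-!
# TopD: one step of the construction of the chain map

`fac_cyc`: for `A, B ⊆ I` disjoint with `|A| + |B| = k + 1` and `f` satisfying
`bd J (f Y Z) = fac f Y Z` on all pairs with `1 ≤ |Y| + |Z| ≤ k` and `f ∅ ∅ = pt`:
`bd J (fac f A B) = 0`. If `k = 0` then `fac f A B = pt` and `bd J pt = 0` (directly from the
definitions: `insert j A ≠ ∅`). If `k ≥ 1`: `bd J (fac f A B)` is
`sum_{i ∈ A} fac f (A.erase i) B + sum_{i ∈ B} fac f A (B.erase i)` and this double sum vanishes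
in characteristic two: the terms `f ((A.erase i).erase j) B`, `i ≠ j` in `A`, cancel in pairs, so do
`f A ((B.erase i).erase j)`, and `f (A.erase i) (B.erase j)` occurs twice.

`fac_sup`: support of `fac f A B` (each summand is supported in `(W Y, W Z)` with `Y ⊆ A`,
`Z ⊆ B`, of size `k`).

`fil`: the filler. Put `z := fac f A B`, a cycle of size `k` supported in `(W A, W B)`.
* If `bad A B`: then `W A = W B =: R`, `k = |R|`; all faces `(Y, Z)` of `(A, B)` have coefficient
  `0` at `(S A B, R \ S A B)` (if `W Y = W Z` by `h4`, otherwise by `bd2` and the support), so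
  `z = 0` by `top_zero` and `w = 0` works.
* If `W A ≠ W B`: `cone` or `cone'`. The last clause (coefficient zero) holds since it is only
  about pairs with `W A = W B`.
* If `W A = W B =: R` and not bad: `k + 1 ≤ |R|` by `nb`, so `fill` gives `w`. If there is a bad
  pair `(A', B')` with `A ⊆ A'`, `B ⊆ B'`, `|A'| + |B'| = |A| + |B| + 1`, then `W A' = W B'`,
  `|W A'| = k + 1 ≤ |R|`, `R = W A ⊆ W A'`, so `R = W A'` and `fill0` changes `w` so that the
  coefficient at `(S A' B', R \ S A' B')` is zero; by `bd3` the set `S A' B'` is the same for all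
  such bad pairs.
  If `(A, B)` is bad the filler is `w = 0`, so the last clause holds.
-/

namespace Pool.Agent.Lib.MP_6805b2_co.ST

open Finset

/-- the properties of the chain map up to size `k` -/
structure Good (I J : Finset ℕ) (W : Finset ℕ → Finset ℕ) (bad : Finset ℕ → Finset ℕ → Prop)
    (S : Finset ℕ → Finset ℕ → Finset ℕ) (k : ℕ)
    (f : Finset ℕ → Finset ℕ → Finset ℕ → Finset ℕ → ZMod 2) : Prop where
  h0 : f ∅ ∅ = pt
  h1 : ∀ A B, A ⊆ I → B ⊆ I → Disjoint A B → A.card + B.card ≤ k →
    Sup (A.card + B.card) (W A) (W B) (f A B)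
  h2 : ∀ A B, A ⊆ I → B ⊆ I → Disjoint A B → A.card + B.card ≤ k → f B A = sw (f A B)
  h3 : ∀ A B, A ⊆ I → B ⊆ I → Disjoint A B → A.card + B.card ≤ k → 1 ≤ A.card + B.card →
    bd J (f A B) = fac f A B
  h4 : ∀ A B A' B', A ⊆ I → B ⊆ I → Disjoint A B → A.card + B.card ≤ k →
    A' ⊆ I → B' ⊆ I → Disjoint A' B' → bad A' B' → A ⊆ A' → B ⊆ B' →
    A'.card + B'.card = A.card + B.card + 1 → W A = W B → f A B (S A' B') (W A' \ S A' B') = 0

private theorem sym_sum {M : Type} [AddCommMonoid M] (hM : ∀ x : M, x + x = 0) (g : ℕ → ℕ → M)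
    (hg : ∀ i j, g i j = g j i) (s : Finset ℕ) : ∑ i ∈ s, ∑ j ∈ s.erase i, g i j = 0 := by
  induction s using Finset.induction_on with
  | empty => simp
  | insert a s ha ih =>
    rw [Finset.sum_insert ha, Finset.erase_insert ha]
    have h1 : ∑ i ∈ s, ∑ j ∈ (insert a s).erase i, g i j
        = ∑ i ∈ s, (g i a + ∑ j ∈ s.erase i, g i j) := by
      refine Finset.sum_congr rfl fun i hi => ?_
      have hai : a ≠ i := fun h => ha (h ▸ hi)
      rw [Finset.erase_insert_of_ne hai, Finset.sum_insert]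
      intro h
      exact ha (Finset.mem_of_mem_erase h)
    rw [h1, Finset.sum_add_distrib, ih, add_zero]
    have h2 : ∑ i ∈ s, g i a = ∑ j ∈ s, g a j := Finset.sum_congr rfl fun i _ => hg i a
    rw [h2]
    exact hM _

private theorem fn_two (x : Finset ℕ → Finset ℕ → ZMod 2) : x + x = 0 := by
  funext A B
  exact CharTwo.add_self_eq_zero (x A B)

private theorem bd_pt (J : Finset ℕ) : bd J pt = 0 := by
  funext A B
  show ∑ j ∈ J \ (A ∪ B), (pt (insert j A) B + pt A (insert j B)) = 0
  refine Finset.sum_eq_zero fun j _ => ?_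
  simp [pt]

theorem fac_cyc (I J : Finset ℕ) (W : Finset ℕ → Finset ℕ) (bad : Finset ℕ → Finset ℕ → Prop)
    (S : Finset ℕ → Finset ℕ → Finset ℕ) (k : ℕ)
    (f : Finset ℕ → Finset ℕ → Finset ℕ → Finset ℕ → ZMod 2) (hf : Good I J W bad S k f)
    (A B : Finset ℕ) (hA : A ⊆ I) (hB : B ⊆ I) (hAB : Disjoint A B)
    (hk : A.card + B.card = k + 1) : bd J (fac f A B) = 0 := by
  have hAe : ∀ i ∈ A, Disjoint (A.erase i) B := fun i _ =>
    Disjoint.mono_left (Finset.erase_subset i A) hAB
  have hBe : ∀ i ∈ B, Disjoint A (B.erase i) := fun i _ =>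
    Disjoint.mono_right (Finset.erase_subset i B) hAB
  rcases Nat.eq_zero_or_pos k with h0 | hpos
  · subst h0
    have hcase : (A.card = 1 ∧ B.card = 0) ∨ (A.card = 0 ∧ B.card = 1) := by omega
    have hfac : fac f A B = pt := by
      rcases hcase with ⟨h1, h2⟩ | ⟨h1, h2⟩
      · obtain ⟨a, rfl⟩ := Finset.card_eq_one.mp h1
        rw [Finset.card_eq_zero.mp h2]
        unfold fac
        simp [hf.h0]
      · obtain ⟨b, rfl⟩ := Finset.card_eq_one.mp h2
        rw [Finset.card_eq_zero.mp h1]
        unfold fac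
        simp [hf.h0]
    rw [hfac]
    exact bd_pt J
  · have e1 : bd J (fac f A B) = (∑ i ∈ A, fac f (A.erase i) B) + ∑ i ∈ B, fac f A (B.erase i) := by
      unfold fac
      rw [bd_add, bd_sum, bd_sum]
      congr 1
      · refine Finset.sum_congr rfl fun i hi => ?_
        have hc := Finset.card_erase_of_mem hi
        have hcp := Finset.card_pos.mpr ⟨i, hi⟩
        have := hf.h3 (A.erase i) B ((Finset.erase_subset i A).trans hA) hB (hAe i hi)
          (by omega) (by omega)
        rw [this]
        rfl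
      · refine Finset.sum_congr rfl fun i hi => ?_
        have hc := Finset.card_erase_of_mem hi
        have hcp := Finset.card_pos.mpr ⟨i, hi⟩
        have := hf.h3 A (B.erase i) hA ((Finset.erase_subset i B).trans hB) (hBe i hi)
          (by omega) (by omega)
        rw [this]
        rfl
    rw [e1]
    unfold fac
    rw [Finset.sum_add_distrib, Finset.sum_add_distrib]
    have s1 : ∑ i ∈ A, ∑ j ∈ A.erase i, f ((A.erase i).erase j) B = 0 :=
      sym_sum fn_two (fun i j => f ((A.erase i).erase j) B)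
        (fun i j => by simp only [Finset.erase_right_comm]) A
    have s2 : ∑ i ∈ B, ∑ j ∈ B.erase i, f A ((B.erase i).erase j) = 0 :=
      sym_sum fn_two (fun i j => f A ((B.erase i).erase j))
        (fun i j => by simp only [Finset.erase_right_comm]) B
    rw [s1, s2, zero_add, add_zero]
    rw [Finset.sum_comm]
    exact fn_two _

theorem fac_sup (I J : Finset ℕ) (W : Finset ℕ → Finset ℕ) (bad : Finset ℕ → Finset ℕ → Prop)
    (S : Finset ℕ → Finset ℕ → Finset ℕ) (hT : TopData I J W bad S) (k : ℕ)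
    (f : Finset ℕ → Finset ℕ → Finset ℕ → Finset ℕ → ZMod 2) (hf : Good I J W bad S k f)
    (A B : Finset ℕ) (hA : A ⊆ I) (hB : B ⊆ I) (hAB : Disjoint A B)
    (hk : A.card + B.card = k + 1) : Sup k (W A) (W B) (fac f A B) := by
  unfold fac
  refine sup_add _ _ _ _ _ (sup_sum _ _ _ _ _ fun i hi => ?_) (sup_sum _ _ _ _ _ fun i hi => ?_)
  · have hc := Finset.card_erase_of_mem hi
    have hcp := Finset.card_pos.mpr ⟨i, hi⟩
    have h := hf.h1 (A.erase i) B ((Finset.erase_subset i A).trans hA) hB
      (Disjoint.mono_left (Finset.erase_subset i A) hAB) (by omega)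
    have hkk : (A.erase i).card + B.card = k := by omega
    rw [hkk] at h
    exact sup_mono _ _ _ _ _ _ (hT.mono _ _ (Finset.erase_subset i A) hA) (Finset.Subset.refl _) h
  · have hc := Finset.card_erase_of_mem hi
    have hcp := Finset.card_pos.mpr ⟨i, hi⟩
    have h := hf.h1 A (B.erase i) hA ((Finset.erase_subset i B).trans hB)
      (Disjoint.mono_right (Finset.erase_subset i B) hAB) (by omega)
    have hkk : A.card + (B.erase i).card = k := by omega
    rw [hkk] at h
    exact sup_mono _ _ _ _ _ _ (Finset.Subset.refl _) (hT.mono _ _ (Finset.erase_subset i B) hB) h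

theorem fil (I J : Finset ℕ) (W : Finset ℕ → Finset ℕ) (bad : Finset ℕ → Finset ℕ → Prop)
    (S : Finset ℕ → Finset ℕ → Finset ℕ) (hT : TopData I J W bad S) (k : ℕ)
    (f : Finset ℕ → Finset ℕ → Finset ℕ → Finset ℕ → ZMod 2) (hf : Good I J W bad S k f)
    (A B : Finset ℕ) (hA : A ⊆ I) (hB : B ⊆ I) (hAB : Disjoint A B)
    (hk : A.card + B.card = k + 1) :
    ∃ w, Sup (k + 1) (W A) (W B) w ∧ bd J w = fac f A B ∧
      ∀ A' B', A' ⊆ I → B' ⊆ I → Disjoint A' B' → bad A' B' → A ⊆ A' → B ⊆ B' →
        A'.card + B'.card = A.card + B.card + 1 → W A = W B →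
        w (S A' B') (W A' \ S A' B') = 0 := by
  have hcyc := fac_cyc I J W bad S k f hf A B hA hB hAB hk
  have hsup := fac_sup I J W bad S hT k f hf A B hA hB hAB hk
  by_cases hbad : bad A B
  · obtain ⟨b1, b2, b3, b4, b5⟩ := hT.bd1 A B hA hB hAB hbad
    refine ⟨0, ?_, ?_, ?_⟩
    · intro X Y h
      exact absurd rfl h
    · have hz : fac f A B = 0 := by
        have hkR : k = (W A).card := by omega
        rw [← b1, hkR] at hsup
        refine top_zero J (W A) (hT.wj A hA) _ hsup hcyc (S A B) b4 ?_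
        unfold fac
        rw [Pi.add_apply, Pi.add_apply, Finset.sum_apply, Finset.sum_apply, Finset.sum_apply,
          Finset.sum_apply]
        have z1 : ∑ i ∈ A, f (A.erase i) B (S A B) (W A \ S A B) = 0 := by
          refine Finset.sum_eq_zero fun i hi => ?_
          have hc := Finset.card_erase_of_mem hi
          have hcp := Finset.card_pos.mpr ⟨i, hi⟩
          have hs1 := (Finset.erase_subset i A)
          have hd := Disjoint.mono_left hs1 hAB
          rcases hT.bd2 A B (A.erase i) B hA hB hAB hbad hs1 (Finset.Subset.refl _) (by omega)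
            with h | h
          · exact hf.h4 (A.erase i) B A B (hs1.trans hA) hB hd (by omega) hA hB hAB hbad hs1
              (Finset.Subset.refl _) (by omega) h
          · by_contra hne
            have hh := hf.h1 (A.erase i) B (hs1.trans hA) hB hd (by omega) _ _ hne
            exact h ⟨hh.1, hh.2.1⟩
        have z2 : ∑ i ∈ B, f A (B.erase i) (S A B) (W A \ S A B) = 0 := by
          refine Finset.sum_eq_zero fun i hi => ?_
          have hc := Finset.card_erase_of_mem hi
          have hcp := Finset.card_pos.mpr ⟨i, hi⟩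
          have hs1 := (Finset.erase_subset i B)
          have hd := Disjoint.mono_right hs1 hAB
          rcases hT.bd2 A B A (B.erase i) hA hB hAB hbad (Finset.Subset.refl _) hs1 (by omega)
            with h | h
          · exact hf.h4 A (B.erase i) A B hA (hs1.trans hB) hd (by omega) hA hB hAB hbad
              (Finset.Subset.refl _) hs1 (by omega) h
          · by_contra hne
            have hh := hf.h1 A (B.erase i) hA (hs1.trans hB) hd (by omega) _ _ hne
            exact h ⟨hh.1, hh.2.1⟩
        rw [z1, z2, add_zero]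
      rw [hz]
      funext X Y
      show ∑ j ∈ J \ (X ∪ Y), ((0 : Finset ℕ → Finset ℕ → ZMod 2) (insert j X) Y +
        (0 : Finset ℕ → Finset ℕ → ZMod 2) X (insert j Y)) = 0
      exact Finset.sum_eq_zero fun j _ => by simp
    · intro A' B' _ _ _ _ _ _ _ _
      rfl
  · by_cases hW : W A = W B
    · have hle := hT.nb A B hA hB hAB hW hbad
      rw [← hW] at hsup
      obtain ⟨w, hw1, hw2⟩ := fill J (W A) (hT.wj A hA) k (by omega) _ hsup hcyc
      rw [← hW]
      by_cases hex : ∃ A' B', A' ⊆ I ∧ B' ⊆ I ∧ Disjoint A' B' ∧ bad A' B' ∧ A ⊆ A' ∧ B ⊆ B' ∧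
          A'.card + B'.card = A.card + B.card + 1
      · obtain ⟨A', B', hA', hB', hAB', hbad', hAA, hBB, hcc⟩ := hex
        obtain ⟨b1, b2, b3, b4, b5⟩ := hT.bd1 A' B' hA' hB' hAB' hbad'
        have hsubW := hT.mono A A' hAA hA'
        have hWW : W A = W A' := Finset.eq_of_subset_of_card_le hsubW (by omega)
        have hWc : (W A).card = (W A').card := congrArg Finset.card hWW
        obtain ⟨w', hw1', hw2', hw3'⟩ := fill0 J (W A) (hT.wj A hA) k
          (by omega) (fac f A B) w hw1 hw2 (S A' B') (by rw [hWW]; exact b4)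
        refine ⟨w', hw1', hw2', ?_⟩
        intro A'' B'' hA'' hB'' hAB'' hbad'' hAA'' hBB'' hcc'' _
        obtain ⟨c1, c2, c3, c4, c5⟩ := hT.bd1 A'' B'' hA'' hB'' hAB'' hbad''
        have hsubW'' := hT.mono A A'' hAA'' hA''
        have hWW'' : W A = W A'' := Finset.eq_of_subset_of_card_le hsubW'' (by omega)
        have hSS := hT.bd3 A' B' A'' B'' A B hA' hB' hAB' hbad' hA'' hB'' hAB'' hbad''
          hAA hBB hAA'' hBB'' hcc hcc'' hW
        rw [← hWW'', ← hSS]
        exact hw3'
      · refine ⟨w, hw1, hw2, ?_⟩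
        intro A'' B'' hA'' hB'' hAB'' hbad'' hAA'' hBB'' hcc'' _
        exact absurd ⟨A'', B'', hA'', hB'', hAB'', hbad'', hAA'', hBB'', hcc''⟩ hex
    · have hne : (∃ r, r ∈ W A ∧ r ∉ W B) ∨ ∃ r, r ∈ W B ∧ r ∉ W A := by
        by_contra hcon
        push Not at hcon
        exact hW (Finset.Subset.antisymm hcon.1 hcon.2)
      rcases hne with ⟨r, hr, hr'⟩ | ⟨r, hr, hr'⟩
      · obtain ⟨w, hw1, hw2⟩ := cone J k (W A) (W B) _ r (hT.wj A hA) hr hr' hsup hcyc
        exact ⟨w, hw1, hw2, fun A' B' _ _ _ _ _ _ _ h => absurd h hW⟩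
      · obtain ⟨w, hw1, hw2⟩ := cone' J k (W A) (W B) _ r (hT.wj B hB) hr hr' hsup hcyc
        exact ⟨w, hw1, hw2, fun A' B' _ _ _ _ _ _ _ h => absurd h hW⟩

end Pool.Agent.Lib.MP_6805b2_co.ST
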