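import Pool.Agent.Lib.MP_6805b2_co.ST.TopD

/-!
# TopE: the chain map exists

Induction on `k` with `fil`. Start (`k = 0`): `f := fun _ _ => pt`; the only pair is `(∅, ∅)`;
`h4` for `k = 0`: the bad pair `(A', B')` has size one, `W A' = W B'`, `|W A'| = 0`, so
`S A' B' = ∅`; but a bad pair `(A', B')` of size one has (say) `B' = ∅`, `|A'| = 1`, and its face
`(∅, ∅)` satisfies `W ∅ = W ∅`. To avoid this degenerate case we assume `hne`: bad pairs have size
at least two; then `h4` for `k = 0` is vacuous (`|A'| + |B'| = 1`).

Step: given `Good k f` choose for every disjoint pair `(A, B)` of subsets of `I` with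
`|A| + |B| = k + 1` a filler `g A B` by `fil`. As `A ≠ B` (disjoint and not both empty), exactly one
of `Encodable.encode (A, B) < Encodable.encode (B, A)` and the opposite holds (encodings are
injective). Put `f' A B := f A B` if `|A| + |B| ≤ k`, and for `|A| + |B| = k + 1`:
`f' A B := g A B` if `encode (A, B) < encode (B, A)`, `f' A B := sw (g B A)` otherwise.
Then `fac f' A B = fac f A B` for `|A| + |B| ≤ k + 1`, `fac f B A = sw (fac f A B)` by `h2` for `f`,
so `bd J (sw (g B A)) = sw (fac f B A) = fac f A B`. The clause `h4` for `sw (g B A)`: the pair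
`(B', A')` is bad, `S B' A' = W A' \ S A' B'`, `W B' = W A'`, so
`sw (g B A) (S A' B') (W A' \ S A' B') = g B A (W A' \ S A' B') (S A' B')
= g B A (S B' A') (W B' \ S B' A') = 0` (using `S A' B' ⊆ W A'`).
-/

namespace Pool.Agent.Lib.MP_6805b2_co.ST

open Finset

private theorem sw_sw (z : Finset ℕ → Finset ℕ → ZMod 2) : sw (sw z) = z := rfl

private theorem sw_add (z w : Finset ℕ → Finset ℕ → ZMod 2) : sw (z + w) = sw z + sw w := rfl

private theorem sw_sum (s : Finset ℕ) (g : ℕ → Finset ℕ → Finset ℕ → ZMod 2) :
    sw (∑ i ∈ s, g i) = ∑ i ∈ s, sw (g i) := by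
  funext A B
  simp [sw, Finset.sum_apply]

private theorem fac_sw (I J : Finset ℕ) (W : Finset ℕ → Finset ℕ)
    (bad : Finset ℕ → Finset ℕ → Prop) (S : Finset ℕ → Finset ℕ → Finset ℕ) (k : ℕ)
    (f : Finset ℕ → Finset ℕ → Finset ℕ → Finset ℕ → ZMod 2) (hf : Good I J W bad S k f)
    (A B : Finset ℕ) (hA : A ⊆ I) (hB : B ⊆ I) (hAB : Disjoint A B)
    (hk : A.card + B.card ≤ k + 1) : sw (fac f B A) = fac f A B := by
  unfold fac
  rw [sw_add, sw_sum, sw_sum, add_comm]
  congr 1
  · refine Finset.sum_congr rfl fun i hi => ?_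
    have hc := Finset.card_erase_of_mem hi
    have hcp := Finset.card_pos.mpr ⟨i, hi⟩
    have h := hf.h2 (A.erase i) B ((Finset.erase_subset i A).trans hA) hB
      (Disjoint.mono_left (Finset.erase_subset i A) hAB) (by omega)
    rw [h]
    rfl
  · refine Finset.sum_congr rfl fun i hi => ?_
    have hc := Finset.card_erase_of_mem hi
    have hcp := Finset.card_pos.mpr ⟨i, hi⟩
    have h := hf.h2 A (B.erase i) hA ((Finset.erase_subset i B).trans hB)
      (Disjoint.mono_right (Finset.erase_subset i B) hAB) (by omega)
    rw [h]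
    rfl

theorem good_exists (I J : Finset ℕ) (W : Finset ℕ → Finset ℕ)
    (bad : Finset ℕ → Finset ℕ → Prop) (S : Finset ℕ → Finset ℕ → Finset ℕ)
    (hT : TopData I J W bad S) (hne : ∀ A B, bad A B → 2 ≤ A.card + B.card) (k : ℕ) :
    ∃ f, Good I J W bad S k f := by
  induction k with
  | zero =>
    refine ⟨fun _ _ => pt, rfl, ?_, ?_, ?_, ?_⟩
    · intro A B _ _ _ hk X Y hXY
      have hXY' : X = ∅ ∧ Y = ∅ := by
        by_contra hcon
        exact hXY (by simp [pt, hcon])
      obtain ⟨rfl, rfl⟩ := hXY'
      refine ⟨Finset.empty_subset _, Finset.empty_subset _, Finset.disjoint_empty_left _, ?_⟩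
      simp only [Finset.card_empty]
      omega
    · intro A B _ _ _ _
      funext X Y
      simp only [sw, pt, and_comm]
    · intro A B _ _ _ h1 h2
      omega
    · intro A B A' B' _ _ _ h1 _ _ _ hb _ _ h2 _
      have := hne A' B' hb
      omega
  | succ k ih =>
    obtain ⟨f, hf⟩ := ih
    have hex : ∀ A B : Finset ℕ, ∃ w : Finset ℕ → Finset ℕ → ZMod 2,
        A ⊆ I → B ⊆ I → Disjoint A B → A.card + B.card = k + 1 →
        Sup (k + 1) (W A) (W B) w ∧ bd J w = fac f A B ∧
        ∀ A' B', A' ⊆ I → B' ⊆ I → Disjoint A' B' → bad A' B' → A ⊆ A' → B ⊆ B' →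
          A'.card + B'.card = A.card + B.card + 1 → W A = W B →
          w (S A' B') (W A' \ S A' B') = 0 := by
      intro A B
      by_cases h : A ⊆ I ∧ B ⊆ I ∧ Disjoint A B ∧ A.card + B.card = k + 1
      · obtain ⟨w, hw⟩ := fil I J W bad S hT k f hf A B h.1 h.2.1 h.2.2.1 h.2.2.2
        exact ⟨w, fun _ _ _ _ => hw⟩
      · exact ⟨0, fun h1 h2 h3 h4 => absurd ⟨h1, h2, h3, h4⟩ h⟩
    choose g hg using hex
    have henc : ∀ A B : Finset ℕ, A.card + B.card = k + 1 → Disjoint A B →
        Encodable.encode (A, B) ≠ Encodable.encode (B, A) := by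
      intro A B hk hd h
      have h1 := Encodable.encode_injective h
      have h2 : A = B := congrArg Prod.fst h1
      subst h2
      have h3 : A = ∅ := Finset.disjoint_self_iff_empty A |>.mp hd
      rw [h3] at hk
      simp at hk
    let f' : Finset ℕ → Finset ℕ → Finset ℕ → Finset ℕ → ZMod 2 := fun A B =>
      if A.card + B.card ≤ k then f A B
      else if Encodable.encode (A, B) < Encodable.encode (B, A) then g A B else sw (g B A)
    have f1 : ∀ A B, A.card + B.card ≤ k → f' A B = f A B := fun A B h => if_pos h
    have f2 : ∀ A B, A.card + B.card = k + 1 →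
        Encodable.encode (A, B) < Encodable.encode (B, A) → f' A B = g A B := by
      intro A B h h'
      have : ¬ A.card + B.card ≤ k := by omega
      show (if A.card + B.card ≤ k then f A B
        else if Encodable.encode (A, B) < Encodable.encode (B, A) then g A B else sw (g B A)) = _
      rw [if_neg this, if_pos h']
    have f3 : ∀ A B, A.card + B.card = k + 1 →
        ¬ Encodable.encode (A, B) < Encodable.encode (B, A) → f' A B = sw (g B A) := by
      intro A B h h'
      have : ¬ A.card + B.card ≤ k := by omega
      show (if A.card + B.card ≤ k then f A B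
        else if Encodable.encode (A, B) < Encodable.encode (B, A) then g A B else sw (g B A)) = _
      rw [if_neg this, if_neg h']
    have hfac : ∀ A B, A.card + B.card ≤ k + 1 → fac f' A B = fac f A B := by
      intro A B h
      unfold fac
      congr 1
      · refine Finset.sum_congr rfl fun i hi => ?_
        have hc := Finset.card_erase_of_mem hi
        have hcp := Finset.card_pos.mpr ⟨i, hi⟩
        exact f1 _ _ (by omega)
      · refine Finset.sum_congr rfl fun i hi => ?_
        have hc := Finset.card_erase_of_mem hi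
        have hcp := Finset.card_pos.mpr ⟨i, hi⟩
        exact f1 _ _ (by omega)
    refine ⟨f', ?_, ?_, ?_, ?_, ?_⟩
    · rw [f1 ∅ ∅ (by simp)]
      exact hf.h0
    · intro A B hA hB hAB hk
      rcases Nat.lt_or_ge k (A.card + B.card) with hlt | hle
      · have heq : A.card + B.card = k + 1 := by omega
        by_cases he : Encodable.encode (A, B) < Encodable.encode (B, A)
        · rw [f2 A B heq he, heq]
          exact (hg A B hA hB hAB heq).1
        · rw [f3 A B heq he, heq]
          exact sup_sw _ _ _ _ (hg B A hB hA hAB.symm (by omega)).1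
      · rw [f1 A B hle]
        exact hf.h1 A B hA hB hAB hle
    · intro A B hA hB hAB hk
      rcases Nat.lt_or_ge k (A.card + B.card) with hlt | hle
      · have heq : A.card + B.card = k + 1 := by omega
        by_cases he : Encodable.encode (A, B) < Encodable.encode (B, A)
        · rw [f2 A B heq he, f3 B A (by omega) (by omega)]
        · have hne' := henc A B heq hAB
          rw [f3 A B heq he, f2 B A (by omega) (by omega), sw_sw]
      · rw [f1 A B hle, f1 B A (by omega)]
        exact hf.h2 A B hA hB hAB hle
    · intro A B hA hB hAB hk h1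
      rw [hfac A B hk]
      rcases Nat.lt_or_ge k (A.card + B.card) with hlt | hle
      · have heq : A.card + B.card = k + 1 := by omega
        by_cases he : Encodable.encode (A, B) < Encodable.encode (B, A)
        · rw [f2 A B heq he]
          exact (hg A B hA hB hAB heq).2.1
        · rw [f3 A B heq he, bd_sw, (hg B A hB hA hAB.symm (by omega)).2.1]
          exact fac_sw I J W bad S k f hf A B hA hB hAB hk
      · rw [f1 A B hle]
        exact hf.h3 A B hA hB hAB hle h1
    · intro A B A' B' hA hB hAB hk hA' hB' hAB' hb hAA hBB hcc hW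
      rcases Nat.lt_or_ge k (A.card + B.card) with hlt | hle
      · have heq : A.card + B.card = k + 1 := by omega
        by_cases he : Encodable.encode (A, B) < Encodable.encode (B, A)
        · rw [f2 A B heq he]
          exact (hg A B hA hB hAB heq).2.2 A' B' hA' hB' hAB' hb hAA hBB hcc hW
        · rw [f3 A B heq he]
          obtain ⟨b1, b2, b3, b4, b5⟩ := hT.bd1 A' B' hA' hB' hAB' hb
          have h := (hg B A hB hA hAB.symm (by omega)).2.2 B' A' hB' hA' hAB'.symm b3 hBB hAA
            (by omega) hW.symm
          rw [b5, ← b1, Finset.sdiff_sdiff_eq_self b4] at h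
          exact h
      · rw [f1 A B hle]
        exact hf.h4 A B A' B' hA hB hAB hle hA' hB' hAB' hb hAA hBB hcc hW

end Pool.Agent.Lib.MP_6805b2_co.ST
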