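import Pool.Agent.Lib.MP_6805b2_co.ST.Defs

/-!
# TopG: the boundary of a boundary is zero

All functions are `Finset ℕ → Finset ℕ → ZMod 2`; `ZMod 2` has characteristic two, so
`a + a = 0` (`CharTwo.add_self_eq_zero`).

Proof of `bd_bd`: `bd J (bd J z) A B` is the sum over `j ∈ J \ (A ∪ B)` of
`sum_{k ∈ J \ (insert j A ∪ B)} (z (A+j+k) B + z (A+j) (B+k))`
`+ sum_{k ∈ J \ (A ∪ insert j B)} (z (A+k) (B+j) + z A (B+j+k))`.
Both index sets are `(J \ (A ∪ B)).erase j`. So it is the sum over ordered pairs `(j, k)`, `j ≠ k`,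
in `D = J \ (A ∪ B)` of `g j k := z (A+j+k) B + z (A+j) (B+k) + z (A+k) (B+j) + z A (B+j+k)`, which
is symmetric in `j, k`; the sum over `D.offDiag` of a symmetric function is `0` in characteristic
two (`Finset.sum_involution` with `Prod.swap`).
-/

namespace Pool.Agent.Lib.MP_6805b2_co.ST

open Finset

private theorem symg (g : ℕ → ℕ → ZMod 2) (hg : ∀ i j, g i j = g j i) (s : Finset ℕ) :
    ∑ i ∈ s, ∑ j ∈ s.erase i, g i j = 0 := by
  induction s using Finset.induction_on with
  | empty => simp
  | insert a s ha ih =>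
    rw [Finset.sum_insert ha, Finset.erase_insert ha]
    have h1 : ∑ i ∈ s, ∑ j ∈ (insert a s).erase i, g i j
        = ∑ i ∈ s, (g i a + ∑ j ∈ s.erase i, g i j) := by
      refine Finset.sum_congr rfl fun i hi => ?_
      have hai : a ≠ i := fun h => ha (h ▸ hi)
      rw [Finset.erase_insert_of_ne hai, Finset.sum_insert]
      intro h
      exact ha (Finset.mem_of_mem_erase h)
    rw [h1, Finset.sum_add_distrib, ih, add_zero]
    have h2 : ∑ i ∈ s, g i a = ∑ j ∈ s, g a j := Finset.sum_congr rfl fun i _ => hg i a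
    rw [h2]
    exact CharTwo.add_self_eq_zero _

theorem bd_bd (J : Finset ℕ) (z : Finset ℕ → Finset ℕ → ZMod 2) : bd J (bd J z) = 0 := by
  funext A B
  show ∑ j ∈ J \ (A ∪ B), ((∑ i ∈ J \ (insert j A ∪ B),
      (z (insert i (insert j A)) B + z (insert j A) (insert i B))) +
    ∑ i ∈ J \ (A ∪ insert j B), (z (insert i A) (insert j B) + z A (insert i (insert j B)))) = 0
  have h : ∀ j ∈ J \ (A ∪ B), ((∑ i ∈ J \ (insert j A ∪ B),
      (z (insert i (insert j A)) B + z (insert j A) (insert i B))) +
    ∑ i ∈ J \ (A ∪ insert j B), (z (insert i A) (insert j B) + z A (insert i (insert j B)))) =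
    ∑ i ∈ (J \ (A ∪ B)).erase j, (z (insert i (insert j A)) B + z (insert j A) (insert i B) +
      (z (insert i A) (insert j B) + z A (insert i (insert j B)))) := by
    intro j hj
    have e1 : J \ (insert j A ∪ B) = (J \ (A ∪ B)).erase j := by
      ext i
      simp only [Finset.mem_sdiff, Finset.mem_union, Finset.mem_insert, Finset.mem_erase]
      tauto
    have e2 : J \ (A ∪ insert j B) = (J \ (A ∪ B)).erase j := by
      ext i
      simp only [Finset.mem_sdiff, Finset.mem_union, Finset.mem_insert, Finset.mem_erase]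
      tauto
    rw [e1, e2, ← Finset.sum_add_distrib]
  rw [Finset.sum_congr rfl h]
  refine symg _ ?_ _
  intro i j
  rw [Finset.insert_comm j i A, Finset.insert_comm j i B]
  abel

end Pool.Agent.Lib.MP_6805b2_co.ST
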