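import Pool.Agent.Lib.MP_6805b2_co.ST.Defs

/-!
# WcL: the carrier sets

`Wc C F U` is `ins C F U` if `|U| ≥ 4`, `trv C F U` if `|U| = 3`, and empty if `|U| ≤ 2`.

`Wc_mono`: only `|U| = 3`, `|U'| ≥ 4` needs an argument: take `y ∈ U' \ U`, `X = insert y U`. All
members of `F c` (`c ∈ trv C F U`) meet `U`, hence `X`, so `X ∈ F c` by maximality, `X ⊆ U'`.

`Wc_disj`: `U`, `U'` disjoint, `|U| ≥ 4`. A colour in `ins U` has a member `X ⊆ U`; if it is in
`ins U'` it has a member in `U'` disjoint from `X`; if it is in `trv U'` then `X` meets `U'`: both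
are impossible.

`Wc_col`: `X ⊆ U`, `|X| = 4` (so `|U| ≥ 4`): `col C F X ⊆ Wc C F U`.

`small`: if `A ∪ H` and `B ∪ H` have the same carrier set and `|A| ≥ 4` take a 4-subset `X` of
`A`: `col C F X` is nonempty, contained in `Wc (A ∪ H) = Wc (B ∪ H)` and in `Wc X`, but `X` and
`B ∪ H` are disjoint: contradiction with `Wc_disj`. The same for `B`.
-/

namespace Pool.Agent.Lib.MP_6805b2_co.ST

open Finset

theorem Wc_three (C : Finset ℕ) (F : ℕ → Finset (Finset ℕ)) (U : Finset ℕ) (h : U.card = 3) :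
    Wc C F U = trv C F U := by
  unfold Wc
  rw [if_neg (by omega), if_pos h]

theorem Wc_small (C : Finset ℕ) (F : ℕ → Finset (Finset ℕ)) (U : Finset ℕ) (h : U.card ≤ 2) :
    Wc C F U = ∅ := by
  unfold Wc
  rw [if_neg (by omega), if_neg (by omega)]

theorem Wc_four (C : Finset ℕ) (F : ℕ → Finset (Finset ℕ)) (U : Finset ℕ) (h : 4 ≤ U.card) :
    Wc C F U = ins C F U := by
  unfold Wc
  rw [if_pos h]

theorem Wc_sub (C : Finset ℕ) (F : ℕ → Finset (Finset ℕ)) (U : Finset ℕ) : Wc C F U ⊆ C := by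
  rcases le_or_gt 4 U.card with h | h
  · rw [Wc_four C F U h]
    exact Finset.filter_subset _ _
  · rcases eq_or_ne U.card 3 with h3 | h3
    · rw [Wc_three C F U h3]
      exact Finset.filter_subset _ _
    · rw [Wc_small C F U (by omega)]
      exact Finset.empty_subset _

theorem Wc_mono (V C : Finset ℕ) (F : ℕ → Finset (Finset ℕ)) (hX : Maxl V C F)
    (U U' : Finset ℕ) (hU : U ⊆ U') (hU' : U' ⊆ V) : Wc C F U ⊆ Wc C F U' := by
  have hcard := Finset.card_le_card hU
  rcases le_or_gt 4 U.card with h | h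
  · rw [Wc_four C F U h, Wc_four C F U' (by omega)]
    intro c hc
    unfold ins at hc ⊢
    rw [Finset.mem_filter] at hc ⊢
    obtain ⟨h1, X, hX1, hX2⟩ := hc
    exact ⟨h1, X, hX1, hX2.trans hU⟩
  · rcases eq_or_ne U.card 3 with h3 | h3
    · rcases le_or_gt 4 U'.card with h' | h'
      · rw [Wc_three C F U h3, Wc_four C F U' h']
        intro c hc
        unfold trv at hc
        unfold ins
        rw [Finset.mem_filter] at hc ⊢
        obtain ⟨y, hy, hyU⟩ := Finset.exists_mem_notMem_of_card_lt_card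
          (show U.card < U'.card by omega)
        refine ⟨hc.1, insert y U, ?_, ?_⟩
        · apply hX c hc.1
          · intro z hz
            rw [Finset.mem_insert] at hz
            rcases hz with rfl | hz
            · exact hU' hy
            · exact hU' (hU hz)
          · rw [Finset.card_insert_of_notMem hyU, h3]
          · intro Y hY hd
            apply hc.2 Y hY
            exact Finset.disjoint_of_subset_left (Finset.subset_insert _ _) hd
        · intro z hz
          rw [Finset.mem_insert] at hz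
          rcases hz with rfl | hz
          · exact hy
          · exact hU hz
      · have : U = U' := Finset.eq_of_subset_of_card_le hU (by omega)
        rw [this]
    · rw [Wc_small C F U (by omega)]
      exact Finset.empty_subset _

theorem Wc_disj (V : Finset ℕ) (d : ℕ → ℕ) (C : Finset ℕ) (F : ℕ → Finset (Finset ℕ))
    (hS : Sys V d C F) (U U' : Finset ℕ) (h : Disjoint U U') (h4 : 4 ≤ U.card) :
    Disjoint (Wc C F U) (Wc C F U') := by
  rw [Wc_four C F U h4, Finset.disjoint_left]
  intro c hc hc'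
  unfold ins at hc
  rw [Finset.mem_filter] at hc
  obtain ⟨h1, X, hX1, hX2⟩ := hc
  rcases le_or_gt 4 U'.card with h' | h'
  · rw [Wc_four C F U' h'] at hc'
    unfold ins at hc'
    rw [Finset.mem_filter] at hc'
    obtain ⟨_, Y, hY1, hY2⟩ := hc'
    exact hS.int c h1 X hX1 Y hY1 (Finset.disjoint_of_subset_left hX2
      (Finset.disjoint_of_subset_right hY2 h))
  · rcases eq_or_ne U'.card 3 with h3 | h3
    · rw [Wc_three C F U' h3] at hc'
      unfold trv at hc'
      rw [Finset.mem_filter] at hc'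
      exact hc'.2 X hX1 (Finset.disjoint_of_subset_left hX2 h).symm
    · rw [Wc_small C F U' (by omega)] at hc'
      exact absurd hc' (Finset.notMem_empty c)

theorem Wc_col (C : Finset ℕ) (F : ℕ → Finset (Finset ℕ)) (X U : Finset ℕ) (hX : X ⊆ U)
    (h4 : X.card = 4) : col C F X ⊆ Wc C F U := by
  have hcard := Finset.card_le_card hX
  rw [Wc_four C F U (by omega)]
  intro c hc
  unfold col at hc
  unfold ins
  rw [Finset.mem_filter] at hc ⊢
  exact ⟨hc.1, X, hc.2, hX⟩

private theorem WcL_small1 (V : Finset ℕ) (d : ℕ → ℕ) (C : Finset ℕ)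
    (F : ℕ → Finset (Finset ℕ)) (hS : Sys V d C F) (H A B : Finset ℕ)
    (hA : A ⊆ V \ H) (hAB : Disjoint A B) (h : Wc C F (A ∪ H) = Wc C F (B ∪ H)) :
    A.card ≤ 3 := by
  by_contra hlt
  push Not at hlt
  obtain ⟨X, hXA, hXc⟩ := Finset.exists_subset_card_eq (show 4 ≤ A.card by omega)
  have hXV : X ⊆ V := fun z hz => (Finset.mem_sdiff.mp (hA (hXA hz))).1
  have hcov := hS.cov X hXV hXc
  obtain ⟨c, hc⟩ : (col C F X).Nonempty := by
    rw [← Finset.card_pos]
    omega
  have h1 : c ∈ Wc C F (A ∪ H) :=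
    Wc_col C F X (A ∪ H) (hXA.trans Finset.subset_union_left) hXc hc
  have h2 : c ∈ Wc C F X := Wc_col C F X X (Finset.Subset.refl X) hXc hc
  rw [h] at h1
  have hd : Disjoint X (B ∪ H) := by
    rw [Finset.disjoint_left]
    intro z hz hz'
    rw [Finset.mem_union] at hz'
    rcases hz' with hz' | hz'
    · exact Finset.disjoint_left.mp hAB (hXA hz) hz'
    · exact (Finset.mem_sdiff.mp (hA (hXA hz))).2 hz'
  exact Finset.disjoint_left.mp (Wc_disj V d C F hS X (B ∪ H) hd (by omega)) h2 h1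

theorem small (V : Finset ℕ) (d : ℕ → ℕ) (C : Finset ℕ) (F : ℕ → Finset (Finset ℕ))
    (hS : Sys V d C F) (H A B : Finset ℕ) (hH : H ⊆ V) (hA : A ⊆ V \ H) (hB : B ⊆ V \ H)
    (hAB : Disjoint A B) (h : Wc C F (A ∪ H) = Wc C F (B ∪ H)) : A.card ≤ 3 ∧ B.card ≤ 3 :=
  ⟨WcL_small1 V d C F hS H A B hA hAB h, WcL_small1 V d C F hS H B A hB hAB.symm h.symm⟩

end Pool.Agent.Lib.MP_6805b2_co.ST
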